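import Mathlib
import Pool.Agent.MP_dd7250_nt.LS.DA

/- Ratios at small shifts: the error of the truncated exponentials on average. -/

set_option autoImplicit false
set_option maxHeartbeats 400000

namespace Pool.Agent.MP_dd7250_nt.LS

open Finset Complex Filter Topology

theorem rem_AP {x η : ℝ} (hx : 0 ≤ x) (hη : 0 < η) (hη1 : η ≤ 1) (n : ℕ) :
    Real.exp x - ∑ k ∈ range n, x ^ k / k.factorial ≤ η ^ n * Real.exp (x / η) := by
  have hs : ∀ y : ℝ, HasSum (fun k : ℕ => y ^ k / k.factorial) (Real.exp y) := fun y => by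
    rw [Real.exp_eq_exp_ℝ]; exact NormedSpace.expSeries_div_hasSum_exp y
  have h1 : HasSum (fun k : ℕ => if k ∈ range n then x ^ k / k.factorial else 0)
      (∑ k ∈ range n, x ^ k / k.factorial) := by
    have h := hasSum_sum_of_ne_finset_zero (L := SummationFilter.unconditional ℕ)
      (f := fun k : ℕ => if k ∈ range n then x ^ k / (k.factorial : ℝ) else 0) (s := range n)
      fun k hk => if_neg hk
    rwa [sum_congr rfl fun k hk => if_pos hk] at h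
  have h2 := hasSum_le (fun k => ?_) (hs x) (h1.add ((hs (x / η)).mul_left (η ^ n)))
  · linarith
  · have h0 : 0 ≤ η ^ n * ((x / η) ^ k / k.factorial) := by positivity
    by_cases hk : k ∈ range n
    · simp only [if_pos hk]; linarith
    · simp only [if_neg hk, zero_add]
      have h3 : η ^ k ≤ η ^ n := pow_le_pow_of_le_one hη.le hη1 (not_lt.1 (mt mem_range.2 hk))
      have h4 : x ^ k / k.factorial = η ^ k * ((x / η) ^ k / k.factorial) := by
        rw [div_pow]; field_simp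
      rw [h4]
      exact mul_le_mul_of_nonneg_right h3 (by positivity)

theorem good_AP {c : ℝ} (hc : 0 ≤ c) (m : ℕ) {s : ℂ} (hs : ‖s‖ ≤ Real.exp (-(c + 2)) * m) :
    ‖exp s - Et m s‖ ≤ Real.exp (-(c * m)) * ‖exp s‖ := by
  have hη := Real.exp_pos (-(c + 2))
  have hη1 : Real.exp (-(c + 2)) ≤ 1 := Real.exp_le_one_iff.2 (by linarith)
  have hm : (0 : ℝ) ≤ m := Nat.cast_nonneg m
  have hsm : ‖s‖ ≤ m := hs.trans (by nlinarith)
  have h1 := (norm_exp_sub_sum_le_exp_norm_sub_sum s (m + 1)).trans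
    (rem_AP (norm_nonneg s) hη hη1 (m + 1))
  have h2 : ‖s‖ / Real.exp (-(c + 2)) ≤ m := by rw [div_le_iff₀ hη]; linarith
  have h3 : Real.exp (-(c + 2)) ^ (m + 1) ≤ Real.exp (-(c + 2)) ^ m :=
    pow_le_pow_of_le_one hη.le hη1 m.le_succ
  have h4 : -(m : ℝ) ≤ s.re := by
    have := (abs_le.1 (abs_re_le_norm s)).1
    linarith
  refine h1.trans ((mul_le_mul h3 (Real.exp_le_exp.2 h2) (by positivity) (by positivity)).trans ?_)
  rw [norm_exp, ← Real.exp_nat_mul, ← Real.exp_add, ← Real.exp_add]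
  exact Real.exp_le_exp.2 (by linarith)

theorem et_AP {m : ℕ} (hm : 1 ≤ m) (s : ℂ) :
    ‖Et m s‖ ≤ Real.exp m * max 1 (‖s‖ / m) ^ m := by
  have hm0 : (0 : ℝ) < m := by exact_mod_cast hm
  have h1 : (1 : ℝ) ≤ max 1 (‖s‖ / m) := le_max_left _ _
  refine (norm_sum_le _ _).trans (le_trans ?_ (mul_le_mul_of_nonneg_right
    (Real.sum_le_exp_of_nonneg hm0.le (m + 1)) (by positivity)))
  rw [sum_mul]
  refine sum_le_sum fun k hk => ?_
  have h2 : (‖s‖ / m) ^ k ≤ max 1 (‖s‖ / m) ^ m :=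
    (pow_le_pow_left₀ (by positivity) (le_max_right _ _) k).trans
      (pow_le_pow_right₀ h1 (Nat.lt_succ_iff.1 (mem_range.1 hk)))
  have h3 : ‖s ^ k / (k.factorial : ℂ)‖ = (m : ℝ) ^ k / k.factorial * (‖s‖ / m) ^ k := by
    rw [norm_div, norm_pow, norm_natCast, div_pow]; field_simp
  rw [h3]
  exact mul_le_mul_of_nonneg_left h2 (by positivity)

theorem prod_AP (s : Finset ℕ) (x y : ℕ → ℂ) (θ : ℕ → ℝ) (hθ : ∀ b, 0 ≤ θ b)
    (h : ∀ b ∈ s, ‖x b - y b‖ ≤ θ b * ‖x b‖) :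
    ‖∏ b ∈ s, x b - ∏ b ∈ s, y b‖ ≤ ‖∏ b ∈ s, x b‖ * (Real.exp (∑ b ∈ s, θ b) - 1) := by
  induction s using Finset.induction_on with
  | empty => simp
  | insert a s ha ih =>
    have ih' := ih fun b hb => h b (mem_insert_of_mem hb)
    have h1 := h a (mem_insert_self a s)
    rw [prod_insert ha, prod_insert ha, sum_insert ha, Real.exp_add, norm_mul]
    set X := ∏ b ∈ s, x b
    set Y := ∏ b ∈ s, y b
    set E := Real.exp (∑ b ∈ s, θ b) with hE
    have hE1 : 1 ≤ E := Real.one_le_exp (sum_nonneg fun b _ => hθ b)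
    have h2 : ‖y a‖ ≤ (1 + θ a) * ‖x a‖ := by
      have := norm_le_norm_add_norm_sub' (y a) (x a)
      rw [norm_sub_rev] at this
      linarith
    have h3 : x a * X - y a * Y = (x a - y a) * X + y a * (X - Y) := by ring
    have h4 : ‖(x a - y a) * X‖ ≤ θ a * ‖x a‖ * ‖X‖ := by
      rw [norm_mul]; exact mul_le_mul_of_nonneg_right h1 (norm_nonneg _)
    have h5 : ‖y a * (X - Y)‖ ≤ (1 + θ a) * ‖x a‖ * (‖X‖ * (E - 1)) := by
      rw [norm_mul]
      exact mul_le_mul h2 ih' (norm_nonneg _) (mul_nonneg (by linarith [hθ a]) (norm_nonneg _))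
    have h6 : (1 + θ a) * E ≤ Real.exp (θ a) * E :=
      mul_le_mul_of_nonneg_right (by linarith [Real.add_one_le_exp (θ a)]) (by linarith)
    have h7 : ‖x a‖ * ‖X‖ * ((1 + θ a) * E - 1) ≤ ‖x a‖ * ‖X‖ * (Real.exp (θ a) * E - 1) :=
      mul_le_mul_of_nonneg_left (by linarith) (by positivity)
    rw [h3]
    refine (norm_add_le _ _).trans ((add_le_add h4 h5).trans (le_trans (le_of_eq ?_) h7))
    ring

theorem geo_AP {c : ℝ} (hc : 1 ≤ c) (s : Finset ℕ) (w : ℕ → ℝ) (hw : ∀ b : ℕ, (b : ℝ) + 1 ≤ w b) :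
    ∑ b ∈ s, Real.exp (-(c * w b)) ≤ 2 * Real.exp (-c) := by
  obtain ⟨n, hn⟩ := s.exists_nat_subset_range
  have h1 : Real.exp (-c) ≤ 1 / 2 := by
    have h2 : (2 : ℝ) ≤ Real.exp c := by linarith [Real.add_one_le_exp c]
    rw [Real.exp_neg, one_div]
    exact inv_anti₀ two_pos h2
  refine (sum_le_sum_of_subset_of_nonneg hn fun b _ _ => (Real.exp_pos _).le).trans ?_
  refine le_trans (sum_le_sum (g := fun b => Real.exp (-c) * (1 / 2) ^ b) fun b _ => ?_) ?_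
  · refine le_trans ?_ (mul_le_mul_of_nonneg_left
      (pow_le_pow_left₀ (Real.exp_pos _).le h1 b) (Real.exp_pos _).le)
    rw [← Real.exp_nat_mul, ← Real.exp_add]
    have := mul_le_mul_of_nonneg_left (hw b) (by linarith : 0 ≤ c)
    exact Real.exp_le_exp.2 (by linarith)
  · rw [← mul_sum, mul_comm]
    exact mul_le_mul_of_nonneg_right (sum_geometric_two_le n) (Real.exp_pos _).le

theorem two_AP (b : ℕ) : (b : ℝ) + 1 ≤ 2 ^ b := by
  have := Nat.lt_two_pow_self (n := b)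
  exact_mod_cast this

theorem four_AP (b : ℕ) : (2 : ℝ) ^ b ≤ 4 ^ b := pow_le_pow_left₀ (by norm_num) (by norm_num) b

/-- The size of a block relative to its threshold. -/
noncomputable def X_AP (Γ : ℝ) (l b : ℕ) (s : ℂ) : ℝ :=
  (‖s‖ / (Real.exp (-(2 * Γ + 2 + 2)) * ((2 ^ b * l : ℕ) : ℝ))) ^ (2 * (4 * 4 ^ b * l))

theorem X_nonneg_AP (Γ : ℝ) (l b : ℕ) (s : ℂ) : 0 ≤ X_AP Γ l b s := by
  unfold X_AP; positivity

theorem et2_AP {Γ M : ℝ} (hΓ : 1 ≤ Γ) {l : ℕ} (hl : 1 ≤ l) (b : ℕ) (s : ℂ) (hM : 1 ≤ M)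
    (h : X_AP Γ l b s ≤ M) :
    ‖Et (2 ^ b * l) s‖ ≤ Real.exp (2 ^ b * l + Real.log M / 8 * (1 / 2) ^ b) := by
  have hm : 1 ≤ 2 ^ b * l := Nat.mul_pos (by positivity) hl
  have hm0 : (0 : ℝ) < ((2 ^ b * l : ℕ) : ℝ) := by exact_mod_cast hm
  have hη := Real.exp_pos (-(2 * Γ + 2 + 2))
  have hη1 : Real.exp (-(2 * Γ + 2 + 2)) ≤ 1 := Real.exp_le_one_iff.2 (by linarith)
  have h1 : max 1 (‖s‖ / ((2 ^ b * l : ℕ) : ℝ)) ^ (2 * (4 * 4 ^ b * l)) ≤ M := by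
    rcases le_total (‖s‖ / ((2 ^ b * l : ℕ) : ℝ)) 1 with h2 | h2
    · rw [max_eq_left h2, one_pow]; exact hM
    · rw [max_eq_right h2]
      refine le_trans (pow_le_pow_left₀ (by positivity) ?_ _) h
      exact div_le_div_of_nonneg_left (norm_nonneg s) (by positivity) (by nlinarith)
  have h2 : 2 * (4 * 4 ^ b * l) = 2 ^ b * l * (8 * 2 ^ b) := by
    have : (4 : ℕ) ^ b = 2 ^ b * 2 ^ b := by rw [← mul_pow]; rfl
    rw [this]; ring
  have h3 : Real.exp (Real.log M / 8 * (1 / 2) ^ b) ^ (8 * 2 ^ b) = M := by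
    rw [← Real.exp_nat_mul]
    have : ((8 * 2 ^ b : ℕ) : ℝ) * (Real.log M / 8 * (1 / 2) ^ b) = Real.log M := by
      push_cast
      rw [one_div, inv_pow]
      field_simp
    rw [this, Real.exp_log (by linarith)]
  rw [h2, pow_mul, ← h3] at h1
  have h4 := (pow_le_pow_iff_left₀ (by positivity) (Real.exp_pos _).le (by positivity)).1 h1
  refine (et_AP hm s).trans ?_
  rw [Real.exp_add]
  push_cast at h4 ⊢
  exact mul_le_mul_of_nonneg_left h4 (Real.exp_pos _).le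

theorem low_AP {Γ M : ℝ} (hΓ : 1 ≤ Γ) {l : ℕ} (hl : 1 ≤ l) (b : ℕ) (S : ℕ → ℂ) (hM : 1 ≤ M)
    (h : ∀ b' ∈ range (b + 1), X_AP Γ l b' (S b') ≤ M) :
    ‖∏ b' ∈ range (b + 1), Et (2 ^ b' * l) (S b')‖ ≤
      Real.exp (2 * (4 ^ b * l)) * Real.exp (Real.log M / 4) := by
  rw [norm_prod]
  refine (prod_le_prod (fun _ _ => norm_nonneg _) fun b' hb' =>
    et2_AP hΓ hl b' (S b') hM (h b' hb')).trans ?_
  rw [← Real.exp_sum, ← Real.exp_add, sum_add_distrib, ← sum_mul, ← mul_sum]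
  have h1 : ∀ n : ℕ, ∑ j ∈ range n, (2 : ℝ) ^ j ≤ 2 ^ n := fun n => by
    induction n with
    | zero => simp
    | succ n ih => rw [sum_range_succ, pow_succ]; linarith
  have h2 := h1 (b + 1)
  have h3 := four_AP b
  have h4 := sum_geometric_two_le (b + 1)
  have h5 := Real.log_nonneg hM
  have h6 : (0 : ℝ) ≤ l := Nat.cast_nonneg l
  rw [pow_succ] at h2
  refine Real.exp_le_exp.2 (add_le_add ?_ ?_)
  · nlinarith
  · nlinarith

theorem blk_AP {Γ : ℝ} (hΓ : 1 ≤ Γ) {l : ℕ} (hl : 1 ≤ l) (s : Finset ℕ) (S : ℕ → ℂ)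
    (h : ∀ b ∈ s, ‖S b‖ ≤ Real.exp (-(2 * Γ + 2 + 2)) * ((2 ^ b * l : ℕ) : ℝ)) :
    ‖exp (∑ b ∈ s, S b) - ∏ b ∈ s, Et (2 ^ b * l) (S b)‖ ≤
      Real.exp (∑ b ∈ s, S b).re * (4 * Real.exp (-((2 * Γ + 2) * l))) := by
  have hl1 : (1 : ℝ) ≤ l := by exact_mod_cast hl
  have h1 := prod_AP s (fun b => exp (S b)) (fun b => Et (2 ^ b * l) (S b))
    (fun b => Real.exp (-((2 * Γ + 2) * l * 2 ^ b))) (fun _ => (Real.exp_pos _).le) fun b hb => by
      have h2 := good_AP (c := 2 * Γ + 2) (by linarith) (2 ^ b * l) (h b hb)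
      have h3 : (2 * Γ + 2) * ((2 ^ b * l : ℕ) : ℝ) = (2 * Γ + 2) * l * 2 ^ b := by
        push_cast; ring
      rwa [h3] at h2
  have h2 := geo_AP (c := (2 * Γ + 2) * l) (by nlinarith) s (fun b => 2 ^ b) two_AP
  have h3 : Real.exp (-((2 * Γ + 2) * l)) ≤ 1 / 2 := by
    have h4 : (2 : ℝ) ≤ Real.exp ((2 * Γ + 2) * l) := by
      nlinarith [Real.add_one_le_exp ((2 * Γ + 2) * l)]
    rw [Real.exp_neg, one_div]
    exact inv_anti₀ two_pos h4
  have h4 : 0 ≤ ∑ b ∈ s, Real.exp (-((2 * Γ + 2) * l * 2 ^ b)) :=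
    sum_nonneg fun _ _ => (Real.exp_pos _).le
  have h5 := Real.abs_exp_sub_one_le (x := ∑ b ∈ s, Real.exp (-((2 * Γ + 2) * l * 2 ^ b)))
    (by rw [abs_of_nonneg h4]; linarith)
  rw [abs_of_nonneg h4] at h5
  rw [← Complex.exp_sum, norm_exp] at h1
  refine h1.trans (mul_le_mul_of_nonneg_left ?_ (Real.exp_pos _).le)
  have := le_abs_self (Real.exp (∑ b ∈ s, Real.exp (-((2 * Γ + 2) * l * 2 ^ b))) - 1)
  linarith

theorem pt_AP {Γ A Ψ : ℝ} (hΓ : 1 ≤ Γ) {l : ℕ} (hl : 1 ≤ l) (B : ℕ) (S : ℕ → ℂ) (hA : 0 ≤ A)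
    (hΨ : 0 ≤ Ψ)
    (h : ∀ b ≤ B, A * Real.exp (∑ b' ∈ Ico b B, S b').re ≤ Ψ * Real.exp (Γ * 4 ^ b * l)) :
    A * ‖exp (∑ b ∈ range B, S b) - ∏ b ∈ range B, Et (2 ^ b * l) (S b)‖ ≤
      4 * Real.exp (-((Γ + 2) * l)) * (1 + Ψ ^ 4) + ∑ b ∈ range B,
        (2 * Real.exp ((10 * Γ + 8) * (4 ^ b * l)) * X_AP Γ l b (S b) +
          Real.exp (-((2 * Γ + 4) * (4 ^ b * l))) *
            (Ψ ^ 4 + (1 + ∑ b' ∈ range B, X_AP Γ l b' (S b')))) := by
  have hl1 : (1 : ℝ) ≤ l := by exact_mod_cast hl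
  have hX : 0 ≤ ∑ b' ∈ range B, X_AP Γ l b' (S b') := sum_nonneg fun _ _ => X_nonneg_AP _ _ _ _
  have hT : ∀ b ∈ range B, 0 ≤ 2 * Real.exp ((10 * Γ + 8) * (4 ^ b * l)) * X_AP Γ l b (S b) +
      Real.exp (-((2 * Γ + 4) * (4 ^ b * l))) *
        (Ψ ^ 4 + (1 + ∑ b' ∈ range B, X_AP Γ l b' (S b'))) := fun b _ => by
    have := X_nonneg_AP Γ l b (S b)
    positivity
  have h0 := h 0 (Nat.zero_le B)
  rw [← range_eq_Ico, pow_zero, mul_one] at h0
  by_cases hg : ∀ b ∈ range B, ‖S b‖ ≤ Real.exp (-(2 * Γ + 2 + 2)) * ((2 ^ b * l : ℕ) : ℝ)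
  · refine le_trans ?_ (le_add_of_nonneg_right (sum_nonneg hT))
    refine (mul_le_mul_of_nonneg_left (blk_AP hΓ hl _ S hg) hA).trans ?_
    rw [← mul_assoc]
    refine (mul_le_mul_of_nonneg_right h0 (by positivity)).trans ?_
    have h1 : Real.exp (-((Γ + 2) * l)) = Real.exp (Γ * l) * Real.exp (-((2 * Γ + 2) * l)) := by
      rw [← Real.exp_add]; congr 1; ring
    have h2 : Ψ ≤ 1 + Ψ ^ 4 := by nlinarith [sq_nonneg (Ψ ^ 2 - 1 / 2), sq_nonneg (Ψ - 1 / 2)]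
    have h3 := mul_le_mul_of_nonneg_left h2
      (by positivity : 0 ≤ 4 * (Real.exp (Γ * l) * Real.exp (-((2 * Γ + 2) * l))))
    rw [h1]
    refine le_trans (le_of_eq ?_) h3
    ring
  · have hne : ((range B).filter fun b => ¬ ‖S b‖ ≤
        Real.exp (-(2 * Γ + 2 + 2)) * ((2 ^ b * l : ℕ) : ℝ)).Nonempty := by
      by_contra hc
      refine hg fun b hb => ?_
      by_contra hb'
      exact hc ⟨b, mem_filter.2 ⟨hb, hb'⟩⟩
    obtain ⟨b, hb, hmax⟩ := exists_max_image _ id hne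
    obtain ⟨hbB, hbad⟩ := mem_filter.1 hb
    have hbB' : b + 1 ≤ B := mem_range.1 hbB
    have hup : ∀ b' ∈ Ico (b + 1) B,
        ‖S b'‖ ≤ Real.exp (-(2 * Γ + 2 + 2)) * ((2 ^ b' * l : ℕ) : ℝ) := fun b' hb' => by
      by_contra hc
      have h1 := hmax b' (mem_filter.2 ⟨mem_range.2 (mem_Ico.1 hb').2, hc⟩)
      have h2 := (mem_Ico.1 hb').1
      simp only [id] at h1
      omega
    refine le_trans ?_ (le_add_of_nonneg_left (by positivity))
    refine le_trans ?_ (single_le_sum hT hbB)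
    set M := 1 + ∑ b' ∈ range B, X_AP Γ l b' (S b') with hM
    have hM1 : 1 ≤ M := by linarith
    have hX1 : 1 ≤ X_AP Γ l b (S b) := by
      have hm : 1 ≤ 2 ^ b * l := Nat.mul_pos (by positivity) hl
      have hm0 : (0 : ℝ) < ((2 ^ b * l : ℕ) : ℝ) := by exact_mod_cast hm
      exact one_le_pow₀ ((one_le_div (by positivity)).2 (not_le.1 hbad).le)
    have hlow := low_AP hΓ hl b S hM1 fun b' hb' => by
      have h1 := single_le_sum (f := fun b' => X_AP Γ l b' (S b')) (s := range B)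
        (fun _ _ => X_nonneg_AP _ _ _ _) (mem_range.2 ((mem_range.1 hb').trans_le hbB'))
      linarith
    set m := Real.exp (Real.log M / 4) with hm
    have hm4 : m ^ 4 = M := by
      rw [hm, ← Real.exp_nat_mul]
      have : ((4 : ℕ) : ℝ) * (Real.log M / 4) = Real.log M := by push_cast; ring
      rw [this, Real.exp_log (by linarith)]
    have hm1 : 1 ≤ m := Real.one_le_exp (by have := Real.log_nonneg hM1; positivity)
    set u : ℝ := 4 ^ b * l with hu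
    have hlu : (l : ℝ) ≤ u := by
      have : (1 : ℝ) ≤ 4 ^ b := one_le_pow₀ (by norm_num)
      rw [hu]; nlinarith
    have hhi : ‖∏ b' ∈ Ico (b + 1) B, Et (2 ^ b' * l) (S b')‖ ≤
        Real.exp (∑ b' ∈ Ico (b + 1) B, S b').re * 3 := by
      have h1 := blk_AP hΓ hl _ S hup
      have h3 : Real.exp (-((2 * Γ + 2) * l)) ≤ 1 / 2 := by
        have h4 : (2 : ℝ) ≤ Real.exp ((2 * Γ + 2) * l) := by
          nlinarith [Real.add_one_le_exp ((2 * Γ + 2) * l)]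
        rw [Real.exp_neg, one_div]
        exact inv_anti₀ two_pos h4
      have h4 := norm_le_norm_add_norm_sub' (∏ b' ∈ Ico (b + 1) B, Et (2 ^ b' * l) (S b'))
        (exp (∑ b' ∈ Ico (b + 1) B, S b'))
      rw [norm_sub_rev, norm_exp] at h4
      have h5 := mul_le_mul_of_nonneg_left h3 (Real.exp_pos (∑ b' ∈ Ico (b + 1) B, S b').re).le
      linarith
    have h1 := h (b + 1) hbB'
    have e1 : Γ * 4 ^ (b + 1) * l = 4 * Γ * u := by rw [hu, pow_succ]; ring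
    rw [e1] at h1
    set E := Real.exp ((4 * Γ + 2) * u) with hE
    have hE0 : 0 < E := Real.exp_pos _
    have h2 : A * ‖∏ b' ∈ range B, Et (2 ^ b' * l) (S b')‖ ≤ 3 * E * (Ψ * m) := by
      rw [← prod_range_mul_prod_Ico _ hbB', norm_mul]
      have h3 := mul_le_mul hlow hhi (norm_nonneg _) (by positivity)
      refine (mul_le_mul_of_nonneg_left h3 hA).trans ?_
      have h4 := mul_le_mul_of_nonneg_left h1 (by positivity : 0 ≤ 3 * Real.exp (2 * u) * m)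
      have h5 : E = Real.exp (4 * Γ * u) * Real.exp (2 * u) := by
        rw [hE, ← Real.exp_add]; congr 1; ring
      rw [h5]
      refine le_trans (le_of_eq ?_) (h4.trans (le_of_eq ?_)) <;> ring
    have h3 : A * ‖exp (∑ b ∈ range B, S b)‖ ≤ E * (Ψ * m) := by
      rw [norm_exp]
      refine h0.trans ?_
      have h4 : Real.exp (Γ * l) ≤ E := Real.exp_le_exp.2 (by nlinarith)
      have h5 : Ψ ≤ Ψ * m := le_mul_of_one_le_right hΨ hm1
      rw [mul_comm]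
      exact mul_le_mul h4 h5 hΨ hE0.le
    have h4 : A * ‖exp (∑ b ∈ range B, S b) - ∏ b ∈ range B, Et (2 ^ b * l) (S b)‖ ≤
        4 * E * (Ψ * m) := by
      have h5 := mul_le_mul_of_nonneg_left
        (norm_sub_le (exp (∑ b ∈ range B, S b)) (∏ b ∈ range B, Et (2 ^ b * l) (S b))) hA
      linarith
    refine h4.trans ?_
    set t := Real.exp ((6 * Γ + 6) * u) with ht
    set r := Real.exp (-((6 * Γ + 6) * u)) with hr
    have ht0 : 0 < t := Real.exp_pos _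
    have hr0 : 0 < r := Real.exp_pos _
    have htr : t * r = 1 := by rw [ht, hr, ← Real.exp_add, add_neg_cancel, Real.exp_zero]
    have e2 : Real.exp ((10 * Γ + 8) * u) = E * t := by
      rw [hE, ht, ← Real.exp_add]; congr 1; ring
    have e3 : Real.exp (-((2 * Γ + 4) * u)) = E * r := by
      rw [hE, hr, ← Real.exp_add]; congr 1; ring
    have h5 : 2 * (Ψ * m) ≤ t + r * (Ψ * m) ^ 2 := by
      have h6 : 0 ≤ r * (Ψ * m - t) ^ 2 := by positivity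
      have h7 : r * (Ψ * m - t) ^ 2 = r * (Ψ * m) ^ 2 - 2 * (t * r) * (Ψ * m) + t * r * t := by
        ring
      rw [h7, htr] at h6
      linarith
    have h6 : 2 * (Ψ * m) ^ 2 ≤ Ψ ^ 4 + M := by
      rw [← hm4]; nlinarith [sq_nonneg (Ψ ^ 2 - m ^ 2)]
    have h7 : t ≤ t * X_AP Γ l b (S b) := le_mul_of_one_le_right ht0.le hX1
    have h8 := mul_le_mul_of_nonneg_left h6 hr0.le
    have h9 : 4 * (Ψ * m) ≤ 2 * (t * X_AP Γ l b (S b)) + r * (Ψ ^ 4 + M) := by linarith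
    have h10 := mul_le_mul_of_nonneg_left h9 hE0.le
    rw [e2, e3]
    refine le_trans (le_of_eq ?_) (h10.trans (le_of_eq ?_)) <;> ring

theorem avg_AP {Γ a : ℝ} (ha : 1 ≤ a) {l : ℕ} (hl : 1 ≤ l)
    (hla : 4 * a * Real.exp (7 * Γ + 11) ≤ l) {ι : Type} (I : Finset ι) (b : ℕ) (s : ι → ℂ)
    (h : ∑ i ∈ I, ‖s i‖ ^ (2 * (4 * 4 ^ b * l)) ≤
      I.card * (a * (4 * 4 ^ b * l : ℕ)) ^ (4 * 4 ^ b * l)) :
    ∑ i ∈ I, X_AP Γ l b (s i) ≤ I.card * Real.exp (-((12 * Γ + 12) * (4 ^ b * l))) := by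
  have hl0 : (0 : ℝ) < l := by exact_mod_cast hl
  simp only [X_AP, div_pow]
  rw [← sum_div]
  refine (div_le_div_of_nonneg_right h (by positivity)).trans ?_
  rw [mul_div_assoc, pow_mul _ 2, ← div_pow]
  refine mul_le_mul_of_nonneg_left ?_ (Nat.cast_nonneg _)
  have h1 : a * ((4 * 4 ^ b * l : ℕ) : ℝ) /
      (Real.exp (-(2 * Γ + 2 + 2)) * ((2 ^ b * l : ℕ) : ℝ)) ^ 2 ≤ Real.exp (-(3 * Γ + 3)) := by
    rw [div_le_iff₀ (by positivity)]
    have e1 : (4 : ℝ) ^ b = 2 ^ b * 2 ^ b := by rw [← mul_pow]; norm_num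
    have e2 : Real.exp (7 * Γ + 11) * (Real.exp (-(3 * Γ + 3)) *
        Real.exp (-(2 * Γ + 2 + 2)) ^ 2) = 1 := by
      rw [← Real.exp_nat_mul, ← Real.exp_add, ← Real.exp_add, ← Real.exp_zero]
      congr 1; push_cast; ring
    have h2 := mul_le_mul_of_nonneg_right hla (by positivity : (0 : ℝ) ≤
      Real.exp (-(3 * Γ + 3)) * Real.exp (-(2 * Γ + 2 + 2)) ^ 2 * (2 ^ b * 2 ^ b * l))
    push_cast
    rw [e1]
    refine le_trans (le_of_eq ?_) (h2.trans (le_of_eq ?_))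
    · linear_combination (-(4 * a * (2 ^ b * 2 ^ b * l))) * e2
    · ring
  refine (pow_le_pow_left₀ (by positivity) h1 _).trans (le_of_eq ?_)
  rw [← Real.exp_nat_mul]
  congr 1; push_cast; ring

theorem ap {Γ a : ℝ} (hΓ : 1 ≤ Γ) (ha : 1 ≤ a) : ∃ l₀ : ℕ, ∀ l : ℕ, l₀ ≤ l →
    ∀ (ι : Type) (I : Finset ι) (B : ℕ) (A Ψ : ι → ℝ) (S : ℕ → ι → ℂ), (∀ i, 0 ≤ A i) →
    (∀ i, 0 ≤ Ψ i) →
    (∀ i ∈ I, ∀ b ≤ B, A i * Real.exp (∑ b' ∈ Ico b B, S b' i).re ≤
      Ψ i * Real.exp (Γ * 4 ^ b * l)) →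
    ∑ i ∈ I, Ψ i ^ 4 ≤ I.card * Real.exp (Γ * l) →
    (∀ b < B, ∑ i ∈ I, ‖S b i‖ ^ (2 * (4 * 4 ^ b * l)) ≤
      I.card * (a * (4 * 4 ^ b * l : ℕ)) ^ (4 * 4 ^ b * l)) →
    ∑ i ∈ I, A i * ‖exp (∑ b ∈ range B, S b i) - ∏ b ∈ range B, Et (2 ^ b * l) (S b i)‖ ≤
      I.card * Real.exp (-l) := by
  refine ⟨max 18 ⌈4 * a * Real.exp (7 * Γ + 11)⌉₊, ?_⟩
  intro l hl ι I B A Ψ S hA hΨ h1 h2 h3
  have hl18 : 18 ≤ l := (le_max_left _ _).trans hl
  have hl1 : 1 ≤ l := by omega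
  have hl18' : (18 : ℝ) ≤ l := by exact_mod_cast hl18
  have hla : 4 * a * Real.exp (7 * Γ + 11) ≤ l := Nat.ceil_le.1 ((le_max_right _ _).trans hl)
  set N : ℝ := (I.card : ℝ) with hN
  have hN0 : 0 ≤ N := Nat.cast_nonneg _
  have hX : ∀ b ∈ range B, ∑ i ∈ I, X_AP Γ l b (S b i) ≤
      N * Real.exp (-((12 * Γ + 12) * (4 ^ b * l))) := fun b hb =>
    avg_AP ha hl1 hla I b (S b) (h3 b (mem_range.1 hb))
  have hw : ∀ b : ℕ, (b : ℝ) + 1 ≤ 4 ^ b := fun b => (two_AP b).trans (four_AP b)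
  have hlu : ∀ b : ℕ, (l : ℝ) ≤ 4 ^ b * l := fun b => by
    have : (1 : ℝ) ≤ 4 ^ b := one_le_pow₀ (by norm_num)
    nlinarith
  have hM : ∑ i ∈ I, ∑ b ∈ range B, X_AP Γ l b (S b i) ≤ N := by
    rw [sum_comm]
    refine (sum_le_sum hX).trans ?_
    rw [← mul_sum]
    refine mul_le_of_le_one_right hN0 ?_
    have h4 := geo_AP (c := l) (by linarith) (range B) (fun b => 4 ^ b) hw
    have h5 : Real.exp (-(l : ℝ)) ≤ 1 / 2 := by
      have h6 : (2 : ℝ) ≤ Real.exp l := by linarith [Real.add_one_le_exp (l : ℝ)]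
      rw [Real.exp_neg, one_div]
      exact inv_anti₀ two_pos h6
    refine le_trans (sum_le_sum fun b _ => Real.exp_le_exp.2 ?_) (h4.trans (by linarith))
    have := hlu b
    nlinarith
  have hG : 1 ≤ Real.exp (Γ * l) := Real.one_le_exp (by nlinarith)
  refine (sum_le_sum fun i hi =>
    pt_AP hΓ hl1 B (fun b => S b i) (hA i) (hΨ i) (h1 i hi)).trans ?_
  rw [sum_add_distrib, sum_comm]
  have h4 : ∑ i ∈ I, 4 * Real.exp (-((Γ + 2) * l)) * (1 + Ψ i ^ 4) ≤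
      N * (8 * Real.exp (-(2 * l))) := by
    rw [← mul_sum, sum_add_distrib, sum_const, nsmul_eq_mul, mul_one]
    have h5 : N + ∑ i ∈ I, Ψ i ^ 4 ≤ N * (2 * Real.exp (Γ * l)) := by nlinarith
    refine (mul_le_mul_of_nonneg_left h5 (by positivity)).trans (le_of_eq ?_)
    have : Real.exp (-(2 * l)) = Real.exp (-((Γ + 2) * l)) * Real.exp (Γ * l) := by
      rw [← Real.exp_add]; congr 1; ring
    rw [this]; ring
  have h5 : ∀ b ∈ range B, ∑ i ∈ I,
      (2 * Real.exp ((10 * Γ + 8) * (4 ^ b * l)) * X_AP Γ l b (S b i) +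
        Real.exp (-((2 * Γ + 4) * (4 ^ b * l))) *
          (Ψ i ^ 4 + (1 + ∑ b' ∈ range B, X_AP Γ l b' (S b' i)))) ≤
      N * 5 * Real.exp (-(2 * l * 4 ^ b)) := fun b hb => by
    rw [sum_add_distrib, ← mul_sum, ← mul_sum, sum_add_distrib, sum_add_distrib, sum_const,
      nsmul_eq_mul, mul_one]
    have hu := hlu b
    set u : ℝ := 4 ^ b * l with hu'
    have e0 : 2 * (l : ℝ) * 4 ^ b = 2 * u := by rw [hu']; ring
    have h6 := mul_le_mul_of_nonneg_left (hX b hb)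
      (by positivity : 0 ≤ 2 * Real.exp ((10 * Γ + 8) * u))
    have h7 : ∑ i ∈ I, Ψ i ^ 4 + (N + ∑ i ∈ I, ∑ b' ∈ range B, X_AP Γ l b' (S b' i)) ≤
        N * (3 * Real.exp (Γ * l)) := by nlinarith
    have h8 := mul_le_mul_of_nonneg_left h7 (Real.exp_pos (-((2 * Γ + 4) * u))).le
    have h9 : Real.exp ((10 * Γ + 8) * u) * Real.exp (-((12 * Γ + 12) * u)) ≤
        Real.exp (-(2 * u)) := by
      rw [← Real.exp_add]; exact Real.exp_le_exp.2 (by nlinarith)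
    have h10 : Real.exp (-((2 * Γ + 4) * u)) * Real.exp (Γ * l) ≤ Real.exp (-(2 * u)) := by
      rw [← Real.exp_add]; exact Real.exp_le_exp.2 (by nlinarith)
    have h11 := mul_le_mul_of_nonneg_left h9 hN0
    have h12 := mul_le_mul_of_nonneg_left h10 hN0
    rw [e0]
    linarith
  have h6 := sum_le_sum h5
  rw [← mul_sum] at h6
  have h7 := mul_le_mul_of_nonneg_left
    (geo_AP (c := 2 * l) (by linarith) (range B) (fun b => 4 ^ b) hw) (by positivity : 0 ≤ N * 5)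
  have h8 : 18 * Real.exp (-(2 * (l : ℝ))) ≤ Real.exp (-l) := by
    have h9 : Real.exp (-(l : ℝ)) = Real.exp l * Real.exp (-(2 * l)) := by
      rw [← Real.exp_add]; congr 1; ring
    rw [h9]
    exact mul_le_mul_of_nonneg_right (by linarith [Real.add_one_le_exp (l : ℝ)])
      (Real.exp_pos _).le
  have h9 := mul_le_mul_of_nonneg_left h8 hN0
  linarith

end Pool.Agent.MP_dd7250_nt.LS
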