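import Mathlib
import Pool.Agent.MP_dd7250_nt.LS.L3

/- Ratios at small shifts: exponential moments of the local number of zeros. -/

set_option autoImplicit false
set_option maxHeartbeats 400000

namespace Pool.Agent.MP_dd7250_nt.LS

open Finset Complex Filter Topology

theorem tail_P2 {K : ℝ} (hK : 0 ≤ K) {ι : Type} {g : ℕ} {I : Finset ι}
    {θ : ι → Fin (2 * g) → ℝ} {s : ℝ} (φ : ℝ) (h : Ens g I θ) (hs : 0 < s) {V : ℕ}
    (h1 : 28 * (1 + s * g) ≤ V) (h2 : 1100 * Real.exp (28 * (K + 1)) ≤ V) (h3 : V ≤ 2 * g) :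
    ∑ i ∈ I, (if (V : ℝ) ≤ NN s φ (θ i) then (1 : ℝ) else 0) ≤
      I.card * Real.exp (-((K + 1) * V)) := by
  have hsg : 0 ≤ s * g := by positivity
  have hV : (28 : ℝ) ≤ V := by linarith
  have hV0 : (0 : ℝ) < V := by linarith
  have h3' : (V : ℝ) ≤ 2 * g := by exact_mod_cast h3
  have hg0 : (0 : ℝ) < g := by linarith
  set M : ℕ := ⌈12 * (g : ℝ) / V⌉₊ with hM
  have hM1 : 12 * (g : ℝ) / V ≤ M := Nat.le_ceil _
  have hM2 : (M : ℝ) < 12 * (g : ℝ) / V + 1 := Nat.ceil_lt_add_one (by positivity)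
  have hM3 : 12 * (g : ℝ) ≤ M * V := (div_le_iff₀ hV0).1 hM1
  have hM4 : (M : ℝ) * V ≤ 14 * g := by
    have : (M : ℝ) * V ≤ (12 * (g : ℝ) / V + 1) * V := mul_le_mul_of_nonneg_right hM2.le hV0.le
    rw [add_mul, div_mul_cancel₀ _ hV0.ne'] at this
    linarith
  have hM0 : (0 : ℝ) < M := lt_of_lt_of_le (by positivity) hM1
  have hMp : 1 ≤ M := by exact_mod_cast hM0
  have hMs : M * s ≤ 1 := by
    refine le_of_mul_le_mul_right ?_ hV0
    nlinarith [mul_le_mul_of_nonneg_right hM4 hs.le]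
  set k : ℕ := V / 14 with hk
  have hVn : 28 ≤ V := by exact_mod_cast hV
  have hk1 : 1 ≤ k := by omega
  have hk2 : (14 : ℝ) * k ≤ V := by exact_mod_cast (by omega : 14 * k ≤ V)
  have hk3 : (V : ℝ) ≤ 28 * k := by exact_mod_cast (by omega : V ≤ 28 * k)
  have hkM : k * M ≤ g := by
    have : (k : ℝ) * M ≤ g := by nlinarith [mul_le_mul_of_nonneg_right hk2 hM0.le]
    exact_mod_cast this
  obtain ⟨η, e1, e2, e3, e4⟩ := nn_major hMp hs hMs φ
  have hmom := h.mom M M k η 6 hk1 hkM e1 e2 e3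
  have hpt : ∀ i ∈ I, (if (V : ℝ) ≤ NN s φ (θ i) then (1 : ℝ) else 0) ≤
      (2 / V) ^ (2 * k) * ‖lf M η (ps (θ i))‖ ^ (2 * k) := by
    intro i _
    split_ifs with hi
    · rw [← mul_pow]
      refine one_le_pow₀ ?_
      have e5 := e4 _ (θ i)
      have e6 : 3 * ((2 * g : ℕ) : ℝ) / M ≤ V / 2 := by
        rw [div_le_iff₀ hM0]
        push_cast
        linarith
      rw [div_mul_eq_mul_div, le_div_iff₀ hV0]
      linarith
    · positivity
  refine (sum_le_sum hpt).trans ?_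
  rw [← mul_sum]
  refine (mul_le_mul_of_nonneg_left hmom (by positivity)).trans ?_
  rw [mul_left_comm, pow_mul, ← mul_pow]
  refine mul_le_mul_of_nonneg_left ?_ (Nat.cast_nonneg _)
  have e7 : (2 / (V : ℝ)) ^ 2 * (100 * 6 ^ 2 * k) ≤ Real.exp (-(28 * (K + 1))) := by
    have e8 : (2 / (V : ℝ)) ^ 2 * (100 * 6 ^ 2 * k) ≤ 1100 / V := by
      rw [div_pow, div_mul_eq_mul_div, div_le_div_iff₀ (by positivity) hV0]
      nlinarith [mul_le_mul_of_nonneg_right hk2 hV0.le]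
    refine e8.trans ?_
    rw [Real.exp_neg, div_le_iff₀ hV0, le_inv_mul_iff₀ (Real.exp_pos _)]
    linarith
  refine (pow_le_pow_left₀ (by positivity) e7 k).trans ?_
  rw [← Real.exp_nat_mul]
  refine Real.exp_le_exp.2 ?_
  nlinarith [mul_le_mul_of_nonneg_left hk3 (by linarith : 0 ≤ K + 1)]

theorem geo_P2 (a b : ℕ) : ∑ V ∈ Icc a b, Real.exp (-(V : ℝ)) ≤ 2 := by
  have h1 : ∀ V : ℕ, Real.exp (-(V : ℝ)) ≤ (1 / 2) ^ V := by
    intro V
    rw [← mul_neg_one, Real.exp_nat_mul]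
    refine pow_le_pow_left₀ (Real.exp_pos _).le ?_ V
    rw [Real.exp_neg, one_div]
    exact inv_anti₀ (by norm_num) (by linarith [Real.add_one_le_exp (1 : ℝ)])
  refine (sum_le_sum fun V _ => h1 V).trans ?_
  exact (summable_geometric_two.sum_le_tsum _ fun _ _ => by positivity).trans_eq
    tsum_geometric_two

theorem exp_NN {K : ℝ} (hK : 0 ≤ K) : ∃ L : ℝ, 0 ≤ L ∧ ∀ (ι : Type) (g : ℕ) (I : Finset ι)
    (θ : ι → Fin (2 * g) → ℝ) (s φ : ℝ), Ens g I θ → 0 < s →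
    ∑ i ∈ I, Real.exp (K * NN s φ (θ i)) ≤ I.card * Real.exp (L * (1 + s * g)) := by
  set A : ℝ := max 28 (1100 * Real.exp (28 * (K + 1))) with hA
  have hA1 : 28 ≤ A := le_max_left _ _
  have hA2 : 1100 * Real.exp (28 * (K + 1)) ≤ A := le_max_right _ _
  refine ⟨K * (A + 1) + 2, by positivity, fun ι g I θ s φ h hs => ?_⟩
  have hsg : 0 ≤ s * g := by positivity
  set V1 : ℕ := ⌈A * (1 + s * g)⌉₊ with hV1
  have hV2 : A * (1 + s * g) ≤ V1 := Nat.le_ceil _
  have hV3 : (V1 : ℝ) < A * (1 + s * g) + 1 := Nat.ceil_lt_add_one (by positivity)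
  have hpt : ∀ i ∈ I, Real.exp (K * NN s φ (θ i)) ≤ Real.exp (K * V1) +
      ∑ V ∈ Icc V1 (2 * g), Real.exp (K * (V + 1)) *
        (if (V : ℝ) ≤ NN s φ (θ i) then (1 : ℝ) else 0) := by
    intro i _
    have hn : ∀ V ∈ Icc V1 (2 * g), 0 ≤ Real.exp (K * (V + 1)) *
        (if (V : ℝ) ≤ NN s φ (θ i) then (1 : ℝ) else 0) := fun V _ => by positivity
    rcases le_total (NN s φ (θ i)) V1 with h1 | h1
    · exact le_add_of_le_of_nonneg (Real.exp_le_exp.2 (mul_le_mul_of_nonneg_left h1 hK))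
        (sum_nonneg hn)
    · have h0 := NN_nonneg s φ (θ i)
      have h2 : ⌊NN s φ (θ i)⌋₊ ∈ Icc V1 (2 * g) :=
        mem_Icc.2 ⟨Nat.le_floor h1, Nat.floor_le_of_le (NN_le s φ (θ i))⟩
      refine le_add_of_nonneg_of_le (Real.exp_pos _).le (le_trans ?_ (single_le_sum hn h2))
      rw [if_pos (Nat.floor_le h0), mul_one]
      exact Real.exp_le_exp.2 (mul_le_mul_of_nonneg_left (Nat.lt_floor_add_one _).le hK)
  refine (sum_le_sum hpt).trans ?_
  rw [sum_add_distrib, sum_const, nsmul_eq_mul, sum_comm]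
  have h4 : ∑ V ∈ Icc V1 (2 * g), ∑ i ∈ I, Real.exp (K * (V + 1)) *
      (if (V : ℝ) ≤ NN s φ (θ i) then (1 : ℝ) else 0) ≤ I.card * (Real.exp K * 2) := by
    refine le_trans (b := ∑ V ∈ Icc V1 (2 * g), I.card * (Real.exp K * Real.exp (-(V : ℝ))))
      (sum_le_sum fun V hV => ?_) ?_
    · have h5 : (V1 : ℝ) ≤ V := by exact_mod_cast (mem_Icc.1 hV).1
      rw [← mul_sum]
      refine (mul_le_mul_of_nonneg_left (tail_P2 hK φ h hs (by nlinarith) (by nlinarith)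
        (mem_Icc.1 hV).2) (Real.exp_pos _).le).trans_eq ?_
      rw [mul_left_comm, ← Real.exp_add, ← Real.exp_add]
      congr 2
      ring
    · rw [← mul_sum, ← mul_sum]
      exact mul_le_mul_of_nonneg_left
        (mul_le_mul_of_nonneg_left (geo_P2 _ _) (Real.exp_pos _).le) (Nat.cast_nonneg _)
  refine (add_le_add le_rfl h4).trans ?_
  rw [← mul_add]
  refine mul_le_mul_of_nonneg_left ?_ (Nat.cast_nonneg _)
  have h6 : Real.exp (K * V1) ≤ Real.exp (K * ((A + 1) * (1 + s * g))) :=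
    Real.exp_le_exp.2 (mul_le_mul_of_nonneg_left (by nlinarith) hK)
  have h7 : Real.exp K ≤ Real.exp (K * ((A + 1) * (1 + s * g))) :=
    Real.exp_le_exp.2 (le_mul_of_one_le_right hK (by nlinarith))
  have h8 : (3 : ℝ) ≤ Real.exp (2 * (1 + s * g)) := by
    linarith [Real.add_one_le_exp (2 * (1 + s * g))]
  have h9 : Real.exp ((K * (A + 1) + 2) * (1 + s * g)) =
      Real.exp (K * ((A + 1) * (1 + s * g))) * Real.exp (2 * (1 + s * g)) := by
    rw [← Real.exp_add]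
    congr 1
    ring
  rw [h9]
  nlinarith [mul_le_mul_of_nonneg_left h8 (Real.exp_pos (K * ((A + 1) * (1 + s * g)))).le]

end Pool.Agent.MP_dd7250_nt.LS
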