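import Mathlib
import Pool.Agent.MP_dd7250_nt.LS.DA

/- Ratios at small shifts: a crude bound for the ratio. -/

set_option autoImplicit false
set_option maxHeartbeats 400000

namespace Pool.Agent.MP_dd7250_nt.LS

open Finset Complex Filter Topology

theorem fac_ZC (t : ℝ) (x : ℂ) : (1 - x * exp (t * I)) * (1 - x * exp (-(t * I))) =
    (1 - x) ^ 2 + x * ((2 - 2 * Real.cos t : ℝ) : ℂ) := by
  have h1 : exp (t * I) * exp (-(t * I)) = 1 := by rw [← exp_add, add_neg_cancel, exp_zero]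
  have h2 := two_cos (t : ℂ)
  rw [neg_mul] at h2
  push_cast
  linear_combination x ^ 2 * h1 + x * h2

theorem one_ZC {C s : ℝ} (hC : 1 ≤ C) (t : ℝ) {x y : ℂ} (hs : 0 < s) (h8 : C * s ≤ 1 / 8)
    (hx : ‖x - 1‖ ≤ C * s) (hy : ‖y - 1‖ ≤ C * s) (he : ‖y‖ ≤ Real.exp (-s)) :
    ‖(1 - x * exp (t * I)) * (1 - x * exp (-(t * I)))‖ ≤
      ‖(1 - y * exp (t * I)) * (1 - y * exp (-(t * I)))‖ *
        Real.exp (2 * (C ^ 2 * (6 + 8 * C ^ 2)) * (s + kk s t)) := by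
  have hs8 : s ≤ 1 / 8 := by nlinarith
  have a1 : ‖y‖ ≤ 1 - s / 2 := by
    refine he.trans ?_
    rw [Real.exp_neg, inv_le_comm₀ (Real.exp_pos s) (by linarith)]
    refine le_trans ?_ (Real.add_one_le_exp s)
    rw [inv_le_iff_one_le_mul₀ (by linarith)]
    nlinarith
  have a2 : ∀ e : ℂ, ‖e‖ = 1 → s / 2 ≤ ‖1 - y * e‖ := fun e h => by
    have := norm_sub_norm_le (1 : ℂ) (y * e)
    rw [norm_one, norm_mul, h] at this
    linarith
  have a3 : s / 2 * (s / 2) ≤ ‖(1 - y * exp (t * I)) * (1 - y * exp (-(t * I)))‖ := by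
    rw [norm_mul]
    refine mul_le_mul (a2 _ (norm_exp_ofReal_mul_I t)) (a2 _ ?_) (by linarith) (norm_nonneg _)
    rw [exp_neg, norm_inv, norm_exp_ofReal_mul_I, inv_one]
  have hk : kk s t * (s ^ 2 + (2 - 2 * Real.cos t)) = s ^ 2 :=
    div_mul_cancel₀ _ (by nlinarith [Real.cos_le_one t])
  have hk0 := kk_nonneg s t
  rw [fac_ZC] at a3
  rw [fac_ZC, fac_ZC]
  have hg : 0 ≤ 2 - 2 * Real.cos t := by linarith [Real.cos_le_one t]
  generalize 2 - 2 * Real.cos t = g at *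
  generalize kk s t = k at *
  have hn : ‖(g : ℂ)‖ = g := by rw [norm_real, Real.norm_of_nonneg hg]
  have b1 : ‖(1 - x) ^ 2‖ ≤ (C * s) ^ 2 := by
    rw [norm_pow, norm_sub_rev]
    gcongr
  have b2 : ‖(1 - y) ^ 2‖ ≤ (C * s) ^ 2 := by
    rw [norm_pow, norm_sub_rev]
    gcongr
  have b3 : ‖x - y‖ ≤ 2 * (C * s) := by
    have := norm_sub_le (x - 1) (y - 1)
    rw [sub_sub_sub_cancel_right] at this
    linarith
  have b4 : 7 / 8 ≤ ‖y‖ := by
    have := norm_sub_norm_le (1 : ℂ) y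
    rw [norm_one, norm_sub_rev] at this
    linarith
  have b5 : ‖y‖ * g ≤ ‖(1 - y) ^ 2 + y * g‖ + (C * s) ^ 2 := by
    have := norm_sub_le ((1 - y) ^ 2 + y * g) ((1 - y) ^ 2)
    rw [add_sub_cancel_left, norm_mul, hn] at this
    linarith
  have b6 : ‖(1 - x) ^ 2 + x * g‖ ≤
      ‖(1 - y) ^ 2 + y * g‖ + (2 * (C * s) ^ 2 + 2 * (C * s) * g) := by
    have e : (1 - x) ^ 2 + x * g =
        (1 - y) ^ 2 + y * g + ((1 - x) ^ 2 - (1 - y) ^ 2 + (x - y) * g) := by ring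
    rw [e]
    refine (norm_add_le _ _).trans (add_le_add le_rfl ((norm_add_le _ _).trans ?_))
    rw [norm_mul, hn]
    have := norm_sub_le ((1 - x) ^ 2) ((1 - y) ^ 2)
    have := mul_le_mul_of_nonneg_right b3 hg
    linarith
  generalize ‖(1 - y) ^ 2 + y * g‖ = M at *
  have hM : 0 ≤ M := le_trans (by positivity) a3
  have c1 : (C * s) ^ 2 ≤ C ^ 2 * (4 * M) := by
    rw [mul_pow]
    exact mul_le_mul_of_nonneg_left (by linarith) (sq_nonneg C)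
  have c2 : s ^ 2 + g ≤ (6 + 8 * C ^ 2) * M := by nlinarith
  have c3 : 2 * (C * s) ^ 2 + 2 * (C * s) * g ≤ 2 * C ^ 2 * (s + k) * (s ^ 2 + g) := by
    have d1 : C * s * g ≤ C ^ 2 * s * (s ^ 2 + g) := by
      have : C ≤ C ^ 2 := by nlinarith
      gcongr
      nlinarith
    have d2 : (C * s) ^ 2 = C ^ 2 * (k * (s ^ 2 + g)) := by rw [hk, mul_pow]
    nlinarith
  have c4 := mul_le_mul_of_nonneg_left c2 (show 0 ≤ 2 * C ^ 2 * (s + k) by positivity)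
  have c5 := mul_le_mul_of_nonneg_left
    (Real.add_one_le_exp (2 * (C ^ 2 * (6 + 8 * C ^ 2)) * (s + k))) hM
  nlinarith

theorem sq_ZC {n : ℕ} {θ : Fin n → ℝ} (h : Cj θ) (x : ℂ) : ‖Lam θ x‖ ^ 2 =
    ∏ i, ‖(1 - x * exp (θ i * I)) * (1 - x * exp (-(θ i * I)))‖ := by
  rw [← norm_prod, prod_mul_distrib, h.lam, norm_mul, sq, Lam]

theorem crude {C : ℝ} (hC : 1 ≤ C) : ∃ K : ℝ, 0 ≤ K ∧ ∀ (n : ℕ) (θ : Fin n → ℝ) (s : ℝ)
    (x y : ℂ), Cj θ → 0 < s → C * s ≤ 1 / 8 → ‖x - 1‖ ≤ C * s → ‖y - 1‖ ≤ C * s →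
    ‖y‖ ≤ Real.exp (-s) → ‖Lam θ x‖ ≤ ‖Lam θ y‖ * Real.exp (K * (n * s + NN s 0 θ)) := by
  refine ⟨C ^ 2 * (6 + 8 * C ^ 2), by positivity, fun n θ s x y h hs h8 hx hy he => ?_⟩
  refine (pow_le_pow_iff_left₀ (norm_nonneg _) (by positivity) two_ne_zero).1 ?_
  rw [mul_pow, sq_ZC h, sq_ZC h]
  refine (prod_le_prod (fun _ _ => norm_nonneg _) fun i _ =>
    one_ZC hC (θ i) hs h8 hx hy he).trans_eq ?_
  rw [prod_mul_distrib, ← Real.exp_sum, ← Real.exp_nat_mul, ← mul_sum, sum_add_distrib]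
  congr 2
  simp only [NN, add_zero, sub_zero, add_self_div_two, sum_const, card_univ, Fintype.card_fin,
    nsmul_eq_mul]
  push_cast
  ring

end Pool.Agent.MP_dd7250_nt.LS
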