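import Mathlib
import Pool.Agent.MP_dd7250_nt.LS.ZC
import Pool.Agent.MP_dd7250_nt.LS.P2

/- Ratios at small shifts: moments of the ratio. -/

set_option autoImplicit false
set_option maxHeartbeats 400000

namespace Pool.Agent.MP_dd7250_nt.LS

open Finset Complex Filter Topology

theorem three_E0 (a b c : ℝ) :
    Real.exp (a + b + c) ≤ Real.exp (3 * a) + Real.exp (3 * b) + Real.exp (3 * c) := by
  have ha := Real.exp_pos (3 * a)
  have hb := Real.exp_pos (3 * b)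
  have hc := Real.exp_pos (3 * c)
  by_cases h1 : a + b + c ≤ 3 * a
  · linarith [Real.exp_le_exp.2 h1]
  by_cases h2 : a + b + c ≤ 3 * b
  · linarith [Real.exp_le_exp.2 h2]
  linarith [Real.exp_le_exp.2 (show a + b + c ≤ 3 * c by linarith)]

theorem two_E0 (a b : ℝ) : Real.exp (a + b) ≤ (Real.exp (2 * a) + Real.exp (2 * b)) / 2 := by
  rw [two_mul, two_mul, Real.exp_add, Real.exp_add, Real.exp_add]
  nlinarith [sq_nonneg (Real.exp a - Real.exp b)]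

theorem pt_E0 {ε : ℝ} (h0 : 0 ≤ ε) (h1 : ε ≤ 1) (N u : ℝ) :
    Real.exp (ε * N) ≤ Real.exp (ε * u) + Real.exp (ε * u - u) * Real.exp N := by
  rw [← Real.exp_add]
  rcases le_total N u with h | h
  · linarith [Real.exp_le_exp.2 (mul_le_mul_of_nonneg_left h h0), Real.exp_pos (ε * u - u + N)]
  · have : ε * N ≤ ε * u - u + N := by nlinarith
    linarith [Real.exp_le_exp.2 this, Real.exp_pos (ε * u)]

theorem ratio_E0 {a b c d : ℂ} {E : ℝ} (hE : 0 ≤ E) (h1 : ‖a‖ ≤ ‖c‖ * E) (h2 : ‖b‖ ≤ ‖d‖ * E) :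
    ‖a * b / (c * d)‖ ≤ E * E := by
  rw [norm_div, norm_mul, norm_mul]
  refine div_le_of_le_mul₀ (by positivity) (by positivity) ?_
  calc ‖a‖ * ‖b‖ ≤ ‖c‖ * E * (‖d‖ * E) := mul_le_mul h1 h2 (norm_nonneg _) (by positivity)
    _ = _ := by ring

/-- Fourth moments of the ratio against exponentials of the local numbers of zeros. -/
theorem en0 {C : ℝ} (hC : 1 ≤ C) : ∃ L : ℝ, 0 ≤ L ∧ ∀ (ι : Type) (g : ℕ) (I : Finset ι)
    (θ : ι → Fin (2 * g) → ℝ) (s σ φ₁ φ₂ : ℝ) (x₁ x₂ y₁ y₂ : ℂ), Ens g I θ →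
    Rg C s σ x₁ x₂ y₁ y₂ →
    ∑ i ∈ I, (‖Lam (θ i) x₁ * Lam (θ i) x₂ / (Lam (θ i) y₁ * Lam (θ i) y₂)‖ *
      Real.exp (NN s φ₁ (θ i) + NN s φ₂ (θ i) + 1)) ^ 4 ≤
      I.card * Real.exp (L * (1 + s * g)) := by
  obtain ⟨K, hK, hc⟩ := crude hC
  obtain ⟨L, hL, hN⟩ := exp_NN (K := 24 * K + 12) (by linarith)
  refine ⟨L + 16 * K + 6, by linarith, fun ι g I θ s σ φ₁ φ₂ x₁ x₂ y₁ y₂ hE hR => ?_⟩
  have hs := hR.hs
  have hsg : 0 ≤ s * g := by positivity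
  have h1 : ∀ i ∈ I, (‖Lam (θ i) x₁ * Lam (θ i) x₂ / (Lam (θ i) y₁ * Lam (θ i) y₂)‖ *
      Real.exp (NN s φ₁ (θ i) + NN s φ₂ (θ i) + 1)) ^ 4 ≤ Real.exp (16 * K * (s * g) + 4) *
        (Real.exp ((24 * K + 12) * NN s 0 (θ i)) + Real.exp ((24 * K + 12) * NN s φ₁ (θ i)) +
          Real.exp ((24 * K + 12) * NN s φ₂ (θ i))) := fun i hi => by
    have h2 := ratio_E0 (Real.exp_pos _).le
      (hc _ (θ i) s x₁ y₁ (hE.sym i hi) hs hR.hC hR.d1 hR.d3 hR.h3)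
      (hc _ (θ i) s x₂ y₂ (hE.sym i hi) hs hR.hC hR.d2 hR.d4 hR.h4)
    have n0 := NN_nonneg s 0 (θ i)
    have n1 := NN_nonneg s φ₁ (θ i)
    have n2 := NN_nonneg s φ₂ (θ i)
    refine (pow_le_pow_left₀ (by positivity)
      (mul_le_mul_of_nonneg_right h2 (Real.exp_pos _).le) 4).trans ?_
    have h3 : (Real.exp (K * (((2 * g : ℕ) : ℝ) * s + NN s 0 (θ i))) *
        Real.exp (K * (((2 * g : ℕ) : ℝ) * s + NN s 0 (θ i))) *
        Real.exp (NN s φ₁ (θ i) + NN s φ₂ (θ i) + 1)) ^ 4 = Real.exp (16 * K * (s * g) + 4) *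
          Real.exp (8 * K * NN s 0 (θ i) + 4 * NN s φ₁ (θ i) + 4 * NN s φ₂ (θ i)) := by
      rw [← Real.exp_add, ← Real.exp_add, ← Real.exp_add, ← Real.exp_nat_mul]
      congr 1
      push_cast
      ring
    rw [h3]
    refine mul_le_mul_of_nonneg_left ((three_E0 _ _ _).trans ?_) (Real.exp_pos _).le
    have m1 := mul_nonneg hK n1
    have m2 := mul_nonneg hK n2
    exact add_le_add (add_le_add (Real.exp_le_exp.2 (by linarith))
      (Real.exp_le_exp.2 (by linarith))) (Real.exp_le_exp.2 (by linarith))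
  refine (sum_le_sum h1).trans ?_
  rw [← mul_sum, sum_add_distrib, sum_add_distrib]
  have h4 := add_le_add (add_le_add (hN ι g I θ s 0 hE hs) (hN ι g I θ s φ₁ hE hs))
    (hN ι g I θ s φ₂ hE hs)
  refine (mul_le_mul_of_nonneg_left h4 (Real.exp_pos _).le).trans ?_
  have h5 : (3 : ℝ) ≤ Real.exp 2 := by linarith [Real.add_one_le_exp (2 : ℝ)]
  have h6 : Real.exp (16 * K * (s * g) + 4) * Real.exp (L * (1 + s * g)) * Real.exp 2 ≤
      Real.exp ((L + 16 * K + 6) * (1 + s * g)) := by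
    rw [← Real.exp_add, ← Real.exp_add]
    exact Real.exp_le_exp.2 (by linarith)
  calc _ = I.card * (Real.exp (16 * K * (s * g) + 4) * Real.exp (L * (1 + s * g)) * 3) := by ring
    _ ≤ _ := mul_le_mul_of_nonneg_left
        ((mul_le_mul_of_nonneg_left h5 (by positivity)).trans h6) (Nat.cast_nonneg _)

/-- Small exponential moments. -/
theorem en_small : ∃ L : ℝ, 0 ≤ L ∧ ∀ (ι : Type) (g : ℕ) (I : Finset ι)
    (θ : ι → Fin (2 * g) → ℝ) (s ε φ₁ φ₂ : ℝ), Ens g I θ → 0 < s → 0 ≤ ε → ε ≤ 1 →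
    ∑ i ∈ I, Real.exp (ε * (NN s φ₁ (θ i) + NN s φ₂ (θ i))) ≤
      I.card * (2 * Real.exp (ε * L * (1 + s * g))) := by
  obtain ⟨L, hL, hN⟩ := exp_NN (K := 2) (by norm_num)
  refine ⟨L, hL, fun ι g I θ s ε φ₁ φ₂ hE hs h0 h1 => ?_⟩
  rw [mul_assoc ε L]
  have h2 : ∑ i ∈ I, Real.exp (NN s φ₁ (θ i) + NN s φ₂ (θ i)) ≤
      I.card * Real.exp (L * (1 + s * g)) := by
    refine (sum_le_sum fun i _ => two_E0 _ _).trans ?_
    rw [← sum_div, sum_add_distrib]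
    linarith [hN ι g I θ s φ₁ hE hs, hN ι g I θ s φ₂ hE hs]
  refine (sum_le_sum fun i _ => pt_E0 h0 h1 _ (L * (1 + s * g))).trans ?_
  rw [sum_add_distrib, sum_const, nsmul_eq_mul, ← mul_sum]
  have h3 := mul_le_mul_of_nonneg_left h2
    (Real.exp_pos (ε * (L * (1 + s * g)) - L * (1 + s * g))).le
  rw [mul_left_comm _ (I.card : ℝ), ← Real.exp_add, sub_add_cancel] at h3
  linarith

end Pool.Agent.MP_dd7250_nt.LS
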