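import Mathlib
import Pool.Agent.MP_dd7250_nt.LS.E0
import Pool.Agent.MP_dd7250_nt.LS.ZL
import Pool.Agent.MP_dd7250_nt.LS.AP

/- Ratios at small shifts: the low frequencies on average. -/

set_option autoImplicit false
set_option maxHeartbeats 400000

namespace Pool.Agent.MP_dd7250_nt.LS

open Finset Complex Filter Topology

theorem alg_E1 {x n₁ n₂ u₁ u₂ h E v w : ℝ} (hx : 0 ≤ x) (h1 : 0 < n₁) (h2 : 0 < n₂) (h3 : 0 < u₁)
    (h4 : 0 < u₂) (h0 : 0 ≤ h) (h5 : h ≤ E) (h6 : n₁ * u₁ ≤ v) (h7 : n₂ * u₂ ≤ v) (h8 : v * v ≤ w) :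
    x * h * (u₁ * u₂) ≤ x / (n₁ * n₂) * E * w := by
  have hE : 0 ≤ E := h0.trans h5
  have hv : 0 ≤ v := le_trans (by positivity) h6
  calc x * h * (u₁ * u₂) = x / (n₁ * n₂) * h * ((n₁ * u₁) * (n₂ * u₂)) := by field_simp
    _ ≤ x / (n₁ * n₂) * E * (v * v) := by gcongr
    _ ≤ _ := by gcongr

theorem en1 {C J₀ : ℝ} (hC : 1 ≤ C) (hJ : 12 * C ≤ J₀) : ∃ l₀ : ℕ, ∀ l : ℕ, l₀ ≤ l →
    ∀ (ι : Type) (g : ℕ) (I : Finset ι) (θ : ι → Fin (2 * g) → ℝ) (s : ℝ) (x₁ x₂ y₁ y₂ : ℂ)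
      (B : ℕ), Ens g I θ → Rg C s 0 x₁ x₂ y₁ y₂ → J₀ / s ≤ 4 ^ B → 400 * J₀ * l ≤ s * g →
      s * g ≤ 800 * J₀ * l → ∀ᶠ Y in atTop, ∀ z : ℂ, 1 ≤ ‖z‖ → ‖z‖ ≤ Real.exp (s / 4) →
      ∑ i ∈ I, ‖Lam (θ i) x₁ * Lam (θ i) x₂‖ * ‖exp (Hz (J₀ / s) Y (aa y₁ y₂) (ps (θ i)) z)‖ *
        ‖exp (∑ b ∈ range B, Sb (J₀ / s) Y (aa y₁ y₂) (ps (θ i)) b) -
          EE (J₀ / s) Y B l (aa y₁ y₂) (ps (θ i))‖ ≤ I.card * Real.exp (-l) := by
  obtain ⟨L, hL, h0⟩ := en0 hC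
  have J1 : 1 ≤ J₀ := by linarith
  have J0 : 0 < J₀ := by linarith
  obtain ⟨l₀, hap⟩ := ap (Γ := max 3200 (L * (1 + 800 * J₀))) (a := 25600)
    (le_trans (by norm_num) (le_max_left _ _)) (by norm_num)
  refine ⟨max l₀ 1, fun l hl ι g I θ s x₁ x₂ y₁ y₂ B hE hR hB hg1 hg2 => ?_⟩
  have l1 : 1 ≤ l := (le_max_right _ _).trans hl
  have l1' : (1 : ℝ) ≤ l := by exact_mod_cast l1
  have hs := hR.hs
  have hJs : 0 < J₀ / s := by positivity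
  have e1 : Real.exp (-s) < 1 := Real.exp_lt_one_iff.2 (by linarith)
  have y1 : ‖y₁‖ < 1 := hR.h3.trans_lt e1
  have y2 : ‖y₂‖ < 1 := hR.h4.trans_lt e1
  filter_upwards [z_hb hC J1 hR (2 * g),
    tendsto_natCast_atTop_atTop.eventually_ge_atTop (J₀ / s)] with Y hY hJY z hz1 hz2
  refine hap l ((le_max_left _ _).trans hl) ι I B
    (fun i => ‖Lam (θ i) x₁ * Lam (θ i) x₂‖ * ‖exp (Hz (J₀ / s) Y (aa y₁ y₂) (ps (θ i)) z)‖)
    (fun i => ‖Lam (θ i) x₁ * Lam (θ i) x₂ / (Lam (θ i) y₁ * Lam (θ i) y₂)‖ *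
      Real.exp (NN s (y₁ * z).arg (θ i) + NN s (y₂ * z).arg (θ i) + 1))
    (fun b i => Sb (J₀ / s) Y (aa y₁ y₂) (ps (θ i)) b) (fun i => by positivity)
    (fun i => by positivity) (fun i hi b hb => ?_) ?_ fun b _ => ?_
  · have h4 : (1 : ℝ) ≤ 4 ^ b := one_le_pow₀ (by norm_num)
    have hb0 : 0 < J₀ / s / 4 ^ b := by positivity
    have hbY : J₀ / s / 4 ^ b ≤ Y := (div_le_self hJs.le h4).trans hJY
    have a1 := z_low (hE.sym i hi) hb0 hbY y1.le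
    have a2 := z_low (hE.sym i hi) hb0 hbY y2.le
    have n1 := norm_pos_iff.2 (z_lim (hE.sym i hi) y1).1
    have n2 := norm_pos_iff.2 (z_lim (hE.sym i hi) y2).1
    have a3 : ‖exp (Hz (J₀ / s) Y (aa y₁ y₂) (ps (θ i)) z)‖ ≤
        Real.exp (NN s (y₁ * z).arg (θ i) + NN s (y₂ * z).arg (θ i) + 1) := by
      rw [Complex.norm_exp]
      refine Real.exp_le_exp.2 ((hY (θ i) z hz1 hz2).trans ?_)
      have h5 : 12 * C / J₀ ≤ 1 := (div_le_one J0).2 hJ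
      have h6 := add_nonneg (NN_nonneg s (y₁ * z).arg (θ i)) (NN_nonneg s (y₂ * z).arg (θ i))
      linarith [mul_le_of_le_one_left h6 h5]
    have a4 : Real.exp (((2 * g : ℕ) : ℝ) / (J₀ / s / 4 ^ b)) *
        Real.exp (((2 * g : ℕ) : ℝ) / (J₀ / s / 4 ^ b)) ≤
        Real.exp (max 3200 (L * (1 + 800 * J₀)) * 4 ^ b * l) := by
      rw [← Real.exp_add]
      refine Real.exp_le_exp.2 (le_trans (b := (3200 : ℝ) * 4 ^ b * l) ?_ (by
        gcongr; exact le_max_left _ _))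
      rw [show ((2 * g : ℕ) : ℝ) / (J₀ / s / 4 ^ b) + ((2 * g : ℕ) : ℝ) / (J₀ / s / 4 ^ b) =
        4 * 4 ^ b * (s * g) / J₀ by push_cast; field_simp; ring, div_le_iff₀ J0]
      calc _ ≤ 4 * 4 ^ b * (800 * J₀ * l) := by gcongr
        _ = _ := by ring
    have e : ∑ b' ∈ Ico b B, Sb (J₀ / s) Y (aa y₁ y₂) (ps (θ i)) b' =
        lf Y (fun j => (psi (J₀ / s / 4 ^ b) j : ℂ) * y₁ ^ j) (ps (θ i)) +
          lf Y (fun j => (psi (J₀ / s / 4 ^ b) j : ℂ) * y₂ ^ j) (ps (θ i)) := by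
      rw [sum_Sb hJs hb hB, ← lf_add]
      simp only [aa, mul_add]
    rw [e, add_re, Real.exp_add, norm_div, norm_mul (Lam (θ i) y₁)]
    exact alg_E1 (norm_nonneg _) n1 n2 (Real.exp_pos _) (Real.exp_pos _) (norm_nonneg _) a3 a1 a2 a4
  · refine (h0 ι g I θ s 0 _ _ x₁ x₂ y₁ y₂ hE hR).trans
      (mul_le_mul_of_nonneg_left (Real.exp_le_exp.2 ?_) (Nat.cast_nonneg _))
    calc L * (1 + s * g) ≤ L * (l + 800 * J₀ * l) := by gcongr
      _ = L * (1 + 800 * J₀) * l := by ring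
      _ ≤ _ := by gcongr; exact le_max_right _ _
  · have hb0 : 0 < J₀ / s / 4 ^ b := by positivity
    have ha : ∀ j, ‖(dps (J₀ / s) b j : ℂ) * aa y₁ y₂ j‖ ≤ 2 * dps (J₀ / s) b j := fun j => by
      rw [norm_mul, Complex.norm_real, Real.norm_of_nonneg (dps_nonneg hJs b j), mul_comm]
      refine mul_le_mul_of_nonneg_right ((norm_add_le _ _).trans ?_) (dps_nonneg hJs b j)
      rw [norm_pow, norm_pow]
      linarith [pow_le_one₀ (n := j) (norm_nonneg y₁) y1.le,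
        pow_le_one₀ (n := j) (norm_nonneg y₂) y2.le]
    have := hE.mom Y ⌊J₀ / s / 4 ^ b⌋₊ (4 * 4 ^ b * l)
      (fun j => (dps (J₀ / s) b j : ℂ) * aa y₁ y₂ j) 16 (Nat.succ_le_of_lt (by positivity)) ?_
      (fun j hj => by rw [dps_eq_zero hJs (Nat.lt_of_floor_lt hj).le, ofReal_zero, zero_mul])
      (fun j => (ha j).trans (by linarith [dps_le_one hJs b j])) ?_
    · rwa [show (100 : ℝ) * 16 ^ 2 = 25600 by norm_num] at this
    · have h1 : ((4 * 4 ^ b * l * ⌊J₀ / s / 4 ^ b⌋₊ : ℕ) : ℝ) ≤ g := by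
        push_cast
        calc _ ≤ 4 * 4 ^ b * l * (J₀ / s / 4 ^ b) := by gcongr; exact Nat.floor_le hb0.le
          _ = 4 * J₀ * l / s := by field_simp
          _ ≤ g := by
            rw [div_le_iff₀ hs]
            nlinarith [mul_pos J0 (lt_of_lt_of_le one_pos l1')]
      exact_mod_cast h1
    · refine le_trans (sum_le_sum fun j _ => div_le_div_of_nonneg_right (ha j)
        (Nat.cast_nonneg j)) ?_
      simp only [mul_div_assoc, ← mul_sum]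
      linarith [sum_dps_div hJs b Y]

end Pool.Agent.MP_dd7250_nt.LS
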