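import Mathlib
import Pool.Agent.MP_dd7250_nt.LS.E0
import Pool.Agent.MP_dd7250_nt.LS.ZL

/- Ratios at small shifts: the mollified numerator on average. -/

set_option autoImplicit false
set_option maxHeartbeats 400000

namespace Pool.Agent.MP_dd7250_nt.LS

open Finset Complex Filter Topology

theorem pow_sub_E2 {x y : ℂ} (hx : ‖x‖ ≤ 1) (hy : ‖y‖ ≤ 1) (j : ℕ) :
    ‖y ^ j - x ^ j‖ ≤ j * ‖y - x‖ := by
  induction j with
  | zero => simp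
  | succ j ih =>
    rw [show y ^ (j + 1) - x ^ (j + 1) = y * (y ^ j - x ^ j) + x ^ j * (y - x) by ring]
    refine (norm_add_le _ _).trans ?_
    rw [norm_mul, norm_mul, norm_pow]
    have h1 := mul_le_of_le_one_left (norm_nonneg (y ^ j - x ^ j)) hy
    have h2 := mul_le_of_le_one_left (norm_nonneg (y - x)) (pow_le_one₀ (n := j) (norm_nonneg x) hx)
    push_cast
    linarith

theorem pt_E2 {Φ T v E t : ℝ} (l : ℕ) (hv : 0 < v) (ht : 0 < t) (hT : 0 ≤ T) (hE : 0 ≤ E)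
    (h : T ≤ v → Φ ^ 2 ≤ E) : Φ ^ 2 ≤ E + (Φ ^ 4 / t + t / (v ^ 2) ^ l * T ^ (2 * l)) / 2 := by
  rcases le_total T v with h1 | h1
  · refine (h h1).trans (le_add_of_nonneg_right ?_)
    positivity
  · have h2 : 1 ≤ (T / v) ^ l := one_le_pow₀ ((one_le_div hv).2 h1)
    have h3 : t / (v ^ 2) ^ l * T ^ (2 * l) = t * ((T / v) ^ l) ^ 2 := by
      rw [div_pow, div_pow, ← pow_mul, ← pow_mul, ← pow_mul, mul_comm l 2]
      ring
    rw [h3]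
    generalize (T / v) ^ l = y at h2
    have h4 : Φ ^ 4 / t + t * y ^ 2 - 2 * (Φ ^ 2 * y) = (Φ ^ 2 - t * y) ^ 2 / t := by
      field_simp
      ring
    have h5 : 0 ≤ (Φ ^ 2 - t * y) ^ 2 / t := by positivity
    have h6 := le_mul_of_one_le_right (sq_nonneg Φ) h2
    linarith

theorem low_E2 {n : ℕ} {θ : Fin n → ℝ} (h : Cj θ) {J : ℝ} (hJ : 0 < J) {Y : ℕ} (hY : J ≤ Y)
    {w₁ w₂ : ℂ} (h1 : ‖w₁‖ ≤ 1) (h2 : ‖w₂‖ ≤ 1) :
    ‖Lam θ w₁ * Lam θ w₂‖ * Real.exp (lf Y (fun j => (psi J j : ℂ) * aa w₁ w₂ j) (ps θ)).re ≤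
      Real.exp (2 * (n / J)) := by
  have e : lf Y (fun j => (psi J j : ℂ) * aa w₁ w₂ j) (ps θ) =
      lf Y (fun j => (psi J j : ℂ) * w₁ ^ j) (ps θ) +
        lf Y (fun j => (psi J j : ℂ) * w₂ ^ j) (ps θ) := by
    rw [← lf_add]
    exact lf_congr (fun j _ => by rw [aa, mul_add]) fun _ _ => rfl
  rw [e, add_re, Real.exp_add, norm_mul, mul_mul_mul_comm, two_mul, Real.exp_add]
  exact mul_le_mul (z_low h hJ hY h1) (z_low h hJ hY h2) (by positivity) (Real.exp_pos _).le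

theorem mom_E2 {ι : Type} {g : ℕ} {I : Finset ι} {θ : ι → Fin (2 * g) → ℝ} (hE : Ens g I θ)
    {C s J₀ : ℝ} {x₁ x₂ y₁ y₂ : ℂ} (hR : Rg C s 0 x₁ x₂ y₁ y₂) (hC : 0 ≤ C) (hJ : 0 < J₀) {l : ℕ}
    (hl : 1 ≤ l) (hg : J₀ * l ≤ s * g) (Y : ℕ) :
    ∑ i ∈ I, ‖lf Y (fun j => (psi (J₀ / s) j : ℂ) * (aa y₁ y₂ j - aa x₁ x₂ j)) (ps (θ i))‖ ^
      (2 * l) ≤ I.card * (100 * (4 * C * J₀) ^ 2 * l) ^ l := by
  have hs := hR.hs
  have hJ' : 0 < J₀ / s := by positivity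
  have hf := Nat.floor_le hJ'.le
  have e1 : Real.exp (-s) ≤ 1 := Real.exp_le_one_iff.2 (by linarith)
  have h0 : ∀ j, ⌊J₀ / s⌋₊ < j → (psi (J₀ / s) j : ℂ) * (aa y₁ y₂ j - aa x₁ x₂ j) = 0 :=
    fun j hj => by rw [psi_eq_zero hJ' (Nat.lt_of_floor_lt hj).le, ofReal_zero, zero_mul]
  have hd : ∀ x y : ℂ, ‖x - 1‖ ≤ C * s → ‖y - 1‖ ≤ C * s → ‖y - x‖ ≤ 2 * (C * s) :=
    fun x y a b => by
      rw [show y - x = y - 1 - (x - 1) by ring]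
      linarith [norm_sub_le (y - 1) (x - 1)]
  have h1 : ∀ j : ℕ, ‖(psi (J₀ / s) j : ℂ) * (aa y₁ y₂ j - aa x₁ x₂ j)‖ ≤ j * (4 * C * s) :=
    fun j => by
      rw [norm_mul, norm_real, Real.norm_of_nonneg (psi_nonneg _ _)]
      refine (mul_le_of_le_one_left (norm_nonneg _) (psi_le_one hJ' j)).trans ?_
      rw [show aa y₁ y₂ j - aa x₁ x₂ j = y₁ ^ j - x₁ ^ j + (y₂ ^ j - x₂ ^ j) by
        simp only [aa]; ring]
      have a1 := (pow_sub_E2 (hR.h1.trans_eq Real.exp_zero) (hR.h3.trans e1) j).trans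
        (mul_le_mul_of_nonneg_left (hd _ _ hR.d1 hR.d3) j.cast_nonneg)
      have a2 := (pow_sub_E2 (hR.h2.trans_eq Real.exp_zero) (hR.h4.trans e1) j).trans
        (mul_le_mul_of_nonneg_left (hd _ _ hR.d2 hR.d4) j.cast_nonneg)
      linarith [norm_add_le (y₁ ^ j - x₁ ^ j) (y₂ ^ j - x₂ ^ j)]
  have h2 : (⌊J₀ / s⌋₊ : ℝ) * (4 * C * s) ≤ 4 * C * J₀ :=
    (mul_le_mul_of_nonneg_right hf (by positivity)).trans_eq (by field_simp)
  refine hE.mom Y ⌊J₀ / s⌋₊ l _ _ hl ?_ h0 (fun j => ?_) ?_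
  · have h3 : (l : ℝ) * ⌊J₀ / s⌋₊ ≤ g := by
      refine (mul_le_mul_of_nonneg_left hf l.cast_nonneg).trans ?_
      rw [← mul_div_assoc, div_le_iff₀ hs]
      linarith
    exact_mod_cast h3
  · rcases lt_or_ge ⌊J₀ / s⌋₊ j with h | h
    · rw [h0 j h, norm_zero]
      positivity
    · exact (h1 j).trans ((mul_le_mul_of_nonneg_right (Nat.cast_le.2 h) (by positivity)).trans h2)
  · rw [← sum_filter_of_ne (p := fun j : ℕ => j ≤ ⌊J₀ / s⌋₊) fun j _ hj => by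
      by_contra h
      exact hj (by rw [h0 j (not_le.1 h), norm_zero, zero_div])]
    refine (sum_le_card_nsmul _ _ (4 * C * s) fun j hj => ?_).trans ?_
    · have hj0 : (0 : ℝ) < j := by exact_mod_cast (mem_Icc.1 (mem_filter.1 hj).1).1
      rw [div_le_iff₀' hj0]
      exact h1 j
    · rw [nsmul_eq_mul]
      refine le_trans (mul_le_mul_of_nonneg_right (Nat.cast_le.2 ?_) (by positivity)) h2
      refine (card_le_card (t := Icc 1 ⌊J₀ / s⌋₊) fun j hj => ?_).trans_eq (by simp)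
      exact mem_Icc.2 ⟨(mem_Icc.1 (mem_filter.1 hj).1).1, (mem_filter.1 hj).2⟩

theorem num_E2 {C ε J₀ G lam l : ℝ} (hε : 0 < ε) (hJ : 0 < J₀) (hl : 0 < l)
    (h1 : C ^ 2 * Real.exp G / ε ^ 2 ≤ l) (h2 : 400 * J₀ * l ≤ lam) :
    Real.exp G * (100 * (4 * C * J₀) ^ 2 * l) ≤ (ε * lam / 4) ^ 2 := by
  rw [div_le_iff₀ (by positivity)] at h1
  have h3 : (100 * ε * J₀ * l) ^ 2 ≤ (ε * lam / 4) ^ 2 :=
    pow_le_pow_left₀ (by positivity) (by nlinarith) 2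
  have h4 := mul_le_mul_of_nonneg_left h1 (show 0 ≤ 1600 * J₀ ^ 2 * l by positivity)
  have h5 : 0 ≤ (ε * J₀ * l) ^ 2 := sq_nonneg _
  nlinarith

theorem en2 {C ε : ℝ} (hC : 1 ≤ C) (hε : 0 < ε) : ∃ J₁ : ℝ, ∀ J₀ : ℝ, J₁ ≤ J₀ →
    ∃ l₀ : ℕ, ∀ l : ℕ, l₀ ≤ l →
    ∀ (ι : Type) (g : ℕ) (I : Finset ι) (θ : ι → Fin (2 * g) → ℝ) (s : ℝ) (x₁ x₂ y₁ y₂ : ℂ)
      (B : ℕ), Ens g I θ → Rg C s 0 x₁ x₂ y₁ y₂ → J₀ / s ≤ 4 ^ B → 400 * J₀ * l ≤ s * g →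
      s * g ≤ 800 * J₀ * l → ∀ᶠ Y in atTop, ∀ z : ℂ, 1 ≤ ‖z‖ → ‖z‖ ≤ Real.exp (s / 4) →
      ∑ i ∈ I, ‖Lam (θ i) x₁ * Lam (θ i) x₂‖ * ‖exp (Hz (J₀ / s) Y (aa y₁ y₂) (ps (θ i)) z)‖ *
        ‖exp (∑ b ∈ range B, Sb (J₀ / s) Y (aa y₁ y₂) (ps (θ i)) b)‖ ≤
        I.card * (10 * Real.exp (ε * (s * g))) := by
  obtain ⟨L, hL, hsm⟩ := en_small
  obtain ⟨L', hL', h4m⟩ := en0 hC
  refine ⟨24 * C + 48 * C * L / ε + 16 / ε, fun J₀ hJ => ?_⟩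
  have p1 : 0 ≤ 48 * C * L / ε := by positivity
  have p2 : 0 < 16 / ε := by positivity
  have hJ1 : 1 ≤ J₀ := by linarith
  have hJ0 : 0 < J₀ := by linarith
  have q1 : 24 * C / J₀ ≤ 1 := (div_le_one hJ0).2 (by linarith)
  have q2 : 48 * C * L / J₀ ≤ ε := by
    rw [div_le_iff₀ hJ0, mul_comm ε, ← div_le_iff₀ hε]
    linarith
  have q3 : 16 / J₀ ≤ ε := by
    rw [div_le_iff₀ hJ0, mul_comm ε, ← div_le_iff₀ hε]
    linarith
  obtain ⟨G, hG⟩ : ∃ G, G = 800 * J₀ * (2 * L' + 16) := ⟨_, rfl⟩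
  refine ⟨⌈C ^ 2 * Real.exp G / ε ^ 2⌉₊ + 1, ?_⟩
  intro l hl ι g I θ s x₁ x₂ y₁ y₂ B hE hR hB hlo hup
  have hs := hR.hs
  have hJ' : 0 < J₀ / s := by positivity
  have l1 : 1 ≤ l := by omega
  have l1' : (1 : ℝ) ≤ l := by exact_mod_cast l1
  have l2 : C ^ 2 * Real.exp G / ε ^ 2 ≤ l := Nat.ceil_le.1 (by omega)
  have l3 : 1 ≤ J₀ * l := one_le_mul_of_one_le_of_one_le hJ1 l1'
  obtain ⟨lam, hlam⟩ : ∃ lam, lam = s * g := ⟨_, rfl⟩
  have en : 2 * (((2 * g : ℕ) : ℝ) / (J₀ / s)) = 4 / J₀ * lam := by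
    rw [hlam]
    push_cast
    field_simp
    ring
  have e1 : Real.exp (-s) < 1 := Real.exp_lt_one_iff.2 (by linarith)
  have hm := mom_E2 hE hR (by linarith) hJ0 l1 (by linarith)
  have hsm := fun φ₁ φ₂ => hsm ι g I θ s (24 * C / J₀) φ₁ φ₂ hE hs (by positivity) q1
  have h4m := h4m ι g I θ s 0 0 0 x₁ x₂ y₁ y₂ hE hR
  rw [← hlam] at hlo hup hsm h4m ⊢
  have lam1 : 1 ≤ lam := by linarith
  have X1 : 1 ≤ Real.exp (ε * lam) := Real.one_le_exp (by positivity)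
  have c0 : (0 : ℝ) ≤ I.card := Nat.cast_nonneg _
  filter_upwards [z_hb hC hJ1 hR (2 * g), tendsto_natCast_atTop_atTop.eventually_ge_atTop (J₀ / s)]
    with Y hb hY z z1 z2
  obtain ⟨Φ, hΦ⟩ : ∃ Φ : ι → ℝ, ∀ i, Φ i = ‖Lam (θ i) x₁ * Lam (θ i) x₂‖ *
    Real.exp (lf Y (fun j => (psi (J₀ / s) j : ℂ) * aa y₁ y₂ j) (ps (θ i))).re := ⟨_, fun _ => rfl⟩
  have Φ0 : ∀ i, 0 ≤ Φ i := fun i => by rw [hΦ]; positivity
  have s1 : ∑ i ∈ I, Real.exp (Hz (J₀ / s) Y (aa y₁ y₂) (ps (θ i)) z).re ^ 2 ≤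
      I.card * (15 * Real.exp (ε * lam)) := by
    have a1 : ∀ i ∈ I, Real.exp (Hz (J₀ / s) Y (aa y₁ y₂) (ps (θ i)) z).re ^ 2 ≤ Real.exp 1 ^ 2 *
        Real.exp (24 * C / J₀ * (NN s (y₁ * z).arg (θ i) + NN s (y₂ * z).arg (θ i))) := by
      intro i _
      rw [← Real.exp_nat_mul, ← Real.exp_nat_mul, ← Real.exp_add]
      refine Real.exp_le_exp.2 ?_
      have a2 := hb (θ i) z z1 z2
      rw [show 24 * C / J₀ = 2 * (12 * C / J₀) by ring]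
      push_cast
      linarith
    refine (sum_le_sum a1).trans ?_
    rw [← mul_sum]
    have a2 : Real.exp 1 ^ 2 ≤ 15 / 2 :=
      (pow_le_pow_left₀ (Real.exp_pos 1).le Real.exp_one_lt_d9.le 2).trans (by norm_num)
    have a3 : Real.exp (24 * C / J₀ * L * (1 + lam)) ≤ Real.exp (ε * lam) := by
      refine Real.exp_le_exp.2 (le_trans ?_ (mul_le_mul_of_nonneg_right q2 (by linarith)))
      have : 0 ≤ 24 * C / J₀ * L := by positivity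
      calc _ ≤ 24 * C / J₀ * L * (2 * lam) := mul_le_mul_of_nonneg_left (by linarith) this
        _ = _ := by ring
    refine (mul_le_mul a2 ((hsm _ _).trans (mul_le_mul_of_nonneg_left
      (mul_le_mul_of_nonneg_left a3 zero_le_two) c0)) (by positivity) (by norm_num)).trans_eq ?_
    ring
  have s2 : ∑ i ∈ I, Φ i ^ 4 ≤ I.card * Real.exp G ^ l := by
    have a1 : ∀ i ∈ I, Φ i ^ 4 ≤ Real.exp (16 * lam) *
        (‖Lam (θ i) x₁ * Lam (θ i) x₂ / (Lam (θ i) y₁ * Lam (θ i) y₂)‖ *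
          Real.exp (NN s 0 (θ i) + NN s 0 (θ i) + 1)) ^ 4 := by
      intro i hi
      have b1 := low_E2 (hE.sym i hi) hJ' hY (hR.h3.trans e1.le) (hR.h4.trans e1.le)
      have b2 : ‖Lam (θ i) y₁ * Lam (θ i) y₂‖ ≠ 0 := norm_ne_zero_iff.2 (mul_ne_zero
        (z_lim (hE.sym i hi) (hR.h3.trans_lt e1)).1 (z_lim (hE.sym i hi) (hR.h4.trans_lt e1)).1)
      have b3 : 4 / J₀ * lam ≤ 4 * lam :=
        mul_le_mul_of_nonneg_right (div_le_self (by norm_num) hJ1) (by linarith)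
      have b4 : 1 ≤ Real.exp (NN s 0 (θ i) + NN s 0 (θ i) + 1) :=
        Real.one_le_exp (by linarith [NN_nonneg s 0 (θ i)])
      rw [en] at b1
      rw [show 16 * lam = (4 : ℕ) * (4 * lam) by push_cast; ring, Real.exp_nat_mul, ← mul_pow]
      refine pow_le_pow_left₀ (Φ0 i) ?_ 4
      rw [hΦ, ← div_mul_cancel₀ ‖Lam (θ i) x₁ * Lam (θ i) x₂‖ b2, ← norm_div, mul_assoc, mul_comm]
      exact mul_le_mul (b1.trans (Real.exp_le_exp.2 b3))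
        (le_mul_of_one_le_right (norm_nonneg _) b4) (norm_nonneg _) (Real.exp_pos _).le
    refine (sum_le_sum a1).trans ?_
    rw [← mul_sum]
    refine (mul_le_mul_of_nonneg_left h4m (Real.exp_pos _).le).trans ?_
    rw [mul_left_comm, ← Real.exp_add, ← Real.exp_nat_mul]
    refine mul_le_mul_of_nonneg_left (Real.exp_le_exp.2 ?_) c0
    have a2 := mul_le_mul_of_nonneg_left hup (show 0 ≤ 2 * L' + 16 by linarith)
    have a3 := mul_le_mul_of_nonneg_left lam1 hL'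
    rw [hG]
    linarith
  have v0 : 0 < ε * lam / 4 := by positivity
  have t0 : 0 < Real.exp G ^ l := by positivity
  have s3 : ∑ i ∈ I, Φ i ^ 2 ≤ I.card * (2 * Real.exp (ε * lam)) := by
    have a1 : ∀ i ∈ I, Φ i ^ 2 ≤ Real.exp (ε * lam) + (Φ i ^ 4 / Real.exp G ^ l +
        Real.exp G ^ l / ((ε * lam / 4) ^ 2) ^ l * ‖lf Y (fun j => (psi (J₀ / s) j : ℂ) *
          (aa y₁ y₂ j - aa x₁ x₂ j)) (ps (θ i))‖ ^ (2 * l)) / 2 := by
      intro i hi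
      refine pt_E2 l v0 t0 (norm_nonneg _) (Real.exp_pos _).le fun h => ?_
      have b1 := low_E2 (hE.sym i hi) hJ' hY (hR.h1.trans_eq Real.exp_zero)
        (hR.h2.trans_eq Real.exp_zero)
      have b2 : lf Y (fun j => (psi (J₀ / s) j : ℂ) * aa y₁ y₂ j) (ps (θ i)) =
          lf Y (fun j => (psi (J₀ / s) j : ℂ) * aa x₁ x₂ j) (ps (θ i)) +
          lf Y (fun j => (psi (J₀ / s) j : ℂ) * (aa y₁ y₂ j - aa x₁ x₂ j)) (ps (θ i)) := by
        rw [← lf_add]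
        exact lf_congr (fun j _ => by ring) fun _ _ => rfl
      have b3 := mul_le_mul b1 (Real.exp_le_exp.2 ((re_le_norm _).trans h)) (Real.exp_pos _).le
        (Real.exp_pos _).le
      rw [mul_assoc, ← Real.exp_add, ← add_re, ← b2, ← hΦ, en, ← Real.exp_add] at b3
      refine (pow_le_pow_left₀ (Φ0 i) b3 2).trans ?_
      rw [← Real.exp_nat_mul]
      refine Real.exp_le_exp.2 ?_
      have b4 := mul_le_mul_of_nonneg_right q3 (show 0 ≤ lam by linarith)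
      rw [show 16 / J₀ = 4 * (4 / J₀) by ring] at b4
      push_cast
      linarith
    refine (sum_le_sum a1).trans ?_
    rw [sum_add_distrib, sum_const, nsmul_eq_mul, ← sum_div, sum_add_distrib, ← sum_div, ← mul_sum]
    have a2 : (∑ i ∈ I, Φ i ^ 4) / Real.exp G ^ l ≤ I.card := (div_le_iff₀ t0).2 s2
    have a3 := mul_le_mul_of_nonneg_left (hm Y)
      (show 0 ≤ Real.exp G ^ l / ((ε * lam / 4) ^ 2) ^ l by positivity)
    have a4 : Real.exp G ^ l / ((ε * lam / 4) ^ 2) ^ l * (100 * (4 * C * J₀) ^ 2 * l) ^ l ≤ 1 := by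
      rw [div_mul_eq_mul_div, ← mul_pow, div_le_one (by positivity)]
      exact pow_le_pow_left₀ (by positivity) (num_E2 hε hJ0 (by linarith) l2 hlo) l
    have a5 := mul_le_mul_of_nonneg_left a4 c0
    have a6 := mul_le_mul_of_nonneg_left X1 c0
    linarith
  have a1 : ∀ i ∈ I, ‖Lam (θ i) x₁ * Lam (θ i) x₂‖ *
      ‖exp (Hz (J₀ / s) Y (aa y₁ y₂) (ps (θ i)) z)‖ *
      ‖exp (∑ b ∈ range B, Sb (J₀ / s) Y (aa y₁ y₂) (ps (θ i)) b)‖ ≤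
      (Φ i ^ 2 + Real.exp (Hz (J₀ / s) Y (aa y₁ y₂) (ps (θ i)) z).re ^ 2) / 2 := by
    intro i _
    rw [range_eq_Ico, sum_Sb hJ' (Nat.zero_le B) hB, pow_zero, div_one, norm_exp, norm_exp,
      mul_right_comm, ← hΦ]
    linarith [sq_nonneg (Φ i - Real.exp (Hz (J₀ / s) Y (aa y₁ y₂) (ps (θ i)) z).re)]
  refine (sum_le_sum a1).trans ?_
  rw [← sum_div, sum_add_distrib]
  have a2 := mul_nonneg c0 (Real.exp_pos (ε * lam)).le
  linarith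

end Pool.Agent.MP_dd7250_nt.LS
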