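import Mathlib
import Pool.Agent.MP_dd7250_nt.LS.DA

/- Ratios at small shifts: power series bounded on a circle. -/

set_option autoImplicit false
set_option maxHeartbeats 400000

namespace Pool.Agent.MP_dd7250_nt.LS

open Finset Complex Filter Topology

theorem tc_hasSum {f : ℂ → ℂ} (hf : Differentiable ℂ f) (z : ℂ) :
    HasSum (fun k => tc f k * z ^ k) (f z) := by
  have h := Complex.hasSum_taylorSeries_of_entire hf 0 z
  have e : (fun k => tc f k * z ^ k) =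
      fun k : ℕ => (k.factorial : ℂ)⁻¹ • (z - 0) ^ k • iteratedDeriv k f 0 := by
    funext k
    simp only [tc, sub_zero, smul_eq_mul]
    ring
  rw [e]
  exact h

theorem orth0_SL {K : ℕ} {ω : ℂ} (hω : IsPrimitiveRoot ω K) {a n : ℕ} (ha : a < K)
    (hn : n < K) :
    ∑ j ∈ range K, (ω ^ (a + (K - n))) ^ j = if a = n then (K : ℂ) else 0 := by
  split_ifs with h
  · subst h
    rw [Nat.add_sub_cancel' ha.le, hω.pow_eq_one]
    simp
  · have h1 : ω ^ (a + (K - n)) ≠ 1 := by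
      intro h1
      obtain ⟨c, hc⟩ := (hω.pow_eq_one_iff_dvd _).1 h1
      rcases c with _ | _ | c
      · omega
      · omega
      · have : K * (c + 1 + 1) = K * c + K + K := by ring
        omega
    have h2 : (ω ^ (a + (K - n))) ^ K = 1 := by
      rw [← pow_mul, mul_comm, pow_mul, hω.pow_eq_one, one_pow]
    have h3 := geom_sum_mul (ω ^ (a + (K - n))) K
    rw [h2, sub_self] at h3
    exact (mul_eq_zero.1 h3).resolve_right (sub_ne_zero.2 h1)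

theorem orth_SL {K : ℕ} {ω : ℂ} (hω : IsPrimitiveRoot ω K) (h1 : ‖ω‖ = 1) {a n : ℕ}
    (ha : a < K) (hn : n < K) :
    ∑ j ∈ range K, (ω ^ j) ^ a * ((starRingEnd ℂ) (ω ^ j)) ^ n =
      if a = n then (K : ℂ) else 0 := by
  rw [← orth0_SL hω ha hn]
  refine sum_congr rfl fun j _ => ?_
  have e1 : ω ^ j * (starRingEnd ℂ) (ω ^ j) = 1 := by
    rw [Complex.mul_conj, Complex.normSq_eq_norm_sq, norm_pow, h1]
    simp
  have e2 : (ω ^ j) ^ (K - n) * (ω ^ j) ^ n = 1 := by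
    rw [← pow_add, Nat.sub_add_cancel hn.le, ← pow_mul, mul_comm, pow_mul, hω.pow_eq_one, one_pow]
  have e3 : ((starRingEnd ℂ) (ω ^ j)) ^ n = (ω ^ j) ^ (K - n) := by
    calc ((starRingEnd ℂ) (ω ^ j)) ^ n
        = ((ω ^ j) ^ (K - n) * (ω ^ j) ^ n) * ((starRingEnd ℂ) (ω ^ j)) ^ n := by
          rw [e2, one_mul]
      _ = (ω ^ j) ^ (K - n) * (ω ^ j * (starRingEnd ℂ) (ω ^ j)) ^ n := by
          rw [mul_pow, mul_assoc]
      _ = (ω ^ j) ^ (K - n) := by rw [e1, one_pow, mul_one]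
  rw [e3, ← pow_add, ← pow_mul, ← pow_mul, mul_comm]

theorem pars_SL {K : ℕ} {ω : ℂ} (hω : IsPrimitiveRoot ω K) (h1 : ‖ω‖ = 1) (s : Finset ℕ)
    (hs : ∀ i ∈ s, i < K) (al : ℕ → ℂ) :
    ∑ j ∈ range K, ‖∑ i ∈ s, al i * ((starRingEnd ℂ) (ω ^ j)) ^ i‖ ^ 2 =
      K * ∑ i ∈ s, ‖al i‖ ^ 2 := by
  have key : ∀ j, ((‖∑ i ∈ s, al i * ((starRingEnd ℂ) (ω ^ j)) ^ i‖ ^ 2 : ℝ) : ℂ) =
      ∑ i ∈ s, ∑ i' ∈ s, al i * (starRingEnd ℂ) (al i') *
        ((ω ^ j) ^ i' * ((starRingEnd ℂ) (ω ^ j)) ^ i) := by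
    intro j
    rw [← Complex.normSq_eq_norm_sq, ← Complex.mul_conj, map_sum, sum_mul_sum]
    refine sum_congr rfl fun i _ => sum_congr rfl fun i' _ => ?_
    rw [map_mul, map_pow (starRingEnd ℂ) ((starRingEnd ℂ) (ω ^ j)), Complex.conj_conj]
    ring
  apply Complex.ofReal_injective
  rw [Complex.ofReal_sum]
  simp only [key]
  rw [sum_comm]
  push_cast
  rw [mul_sum]
  refine sum_congr rfl fun i hi => ?_
  rw [sum_comm]
  have : ∀ i' ∈ s, ∑ j ∈ range K, al i * (starRingEnd ℂ) (al i') *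
      ((ω ^ j) ^ i' * ((starRingEnd ℂ) (ω ^ j)) ^ i) =
      if i' = i then al i * (starRingEnd ℂ) (al i') * K else 0 := by
    intro i' hi'
    rw [← mul_sum, orth_SL hω h1 (hs i' hi') (hs i hi)]
    split_ifs <;> simp
  simp only [map_pow] at this ⊢
  rw [sum_congr rfl this, sum_ite_eq' s i, if_pos hi, Complex.mul_conj,
    Complex.normSq_eq_norm_sq]
  push_cast
  ring

theorem fin_SL (a : ℕ → ℂ) {ρ B : ℝ} (hρ : 0 < ρ) (M : ℕ)
    (hB : ∀ z : ℂ, ‖z‖ = ρ → ‖∑ k ∈ range M, a k * z ^ k‖ ≤ B) (s t : Finset ℕ)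
    (hM : ∀ i ∈ s, ∀ i' ∈ t, i + i' < M) (al be : ℕ → ℂ) (n : ℕ) :
    ‖∑ i ∈ s, ∑ i' ∈ t, al i * be i' *
        (if n ≤ i + i' then a (i + i' - n) * (ρ : ℂ) ^ (i + i' - n) else 0)‖ ≤
      B * (Real.sqrt (∑ i ∈ s, ‖al i‖ ^ 2) * Real.sqrt (∑ i ∈ t, ‖be i‖ ^ 2)) := by
  obtain ⟨K, hK1, hK2, hK3⟩ : ∃ K : ℕ, M + n < K ∧ (∀ i ∈ s, i < K) ∧ ∀ i ∈ t, i < K :=
    ⟨M + n + s.sup id + t.sup id + 1, by omega, fun i hi => by
      have : i ≤ s.sup id := le_sup (f := id) hi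
      omega, fun i hi => by
      have : i ≤ t.sup id := le_sup (f := id) hi
      omega⟩
  have hK0 : K ≠ 0 := by omega
  have hω := Complex.isPrimitiveRoot_exp K hK0
  set ω := Complex.exp (2 * Real.pi * I / K)
  have hn1 : ‖ω‖ = 1 := hω.norm'_eq_one hK0
  have hKpos : (0 : ℝ) < K := by exact_mod_cast Nat.pos_of_ne_zero hK0
  set P : ℕ → ℂ := fun j => ∑ i ∈ s, al i * ((starRingEnd ℂ) (ω ^ j)) ^ i with hP
  set Q : ℕ → ℂ := fun j => ∑ i ∈ t, be i * ((starRingEnd ℂ) (ω ^ j)) ^ i with hQ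
  have key : ∑ j ∈ range K, (∑ k ∈ range M, a k * ((ρ : ℂ) * ω ^ j) ^ k) * (ω ^ j) ^ n *
      (P j * Q j) = K * ∑ i ∈ s, ∑ i' ∈ t, al i * be i' *
        (if n ≤ i + i' then a (i + i' - n) * (ρ : ℂ) ^ (i + i' - n) else 0) := by
    have e : ∀ j, (∑ k ∈ range M, a k * ((ρ : ℂ) * ω ^ j) ^ k) * (ω ^ j) ^ n * (P j * Q j) =
        ∑ i ∈ s, ∑ i' ∈ t, ∑ k ∈ range M, al i * be i' * (a k * (ρ : ℂ) ^ k) *
          ((ω ^ j) ^ (k + n) * ((starRingEnd ℂ) (ω ^ j)) ^ (i + i')) := by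
      intro j
      simp only [hP, hQ]
      rw [sum_mul_sum, mul_sum]
      refine sum_congr rfl fun i _ => ?_
      rw [mul_sum]
      refine sum_congr rfl fun i' _ => ?_
      rw [sum_mul, sum_mul]
      refine sum_congr rfl fun k _ => ?_
      rw [mul_pow, pow_add, pow_add]
      ring
    simp only [e]
    rw [sum_comm, mul_sum]
    refine sum_congr rfl fun i hi => ?_
    rw [sum_comm, mul_sum]
    refine sum_congr rfl fun i' hi' => ?_
    rw [sum_comm]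
    have hii := hM i hi i' hi'
    have : ∀ k ∈ range M, ∑ j ∈ range K, al i * be i' * (a k * (ρ : ℂ) ^ k) *
        ((ω ^ j) ^ (k + n) * ((starRingEnd ℂ) (ω ^ j)) ^ (i + i')) =
        if k + n = i + i' then al i * be i' * (a k * (ρ : ℂ) ^ k) * K else 0 := by
      intro k hk
      have := mem_range.1 hk
      rw [← mul_sum, orth_SL hω hn1 (by omega) (by omega)]
      split_ifs <;> simp
    rw [sum_congr rfl this]
    by_cases hn : n ≤ i + i'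
    · rw [if_pos hn, sum_eq_single (i + i' - n)]
      · rw [if_pos (by omega)]
        ring
      · intro k _ hk
        rw [if_neg (by omega)]
      · intro hk
        exact absurd (mem_range.2 (by omega)) hk
    · rw [if_neg hn, sum_eq_zero fun k _ => if_neg (by omega)]
      simp
  have hB0 : 0 ≤ B := (norm_nonneg _).trans (hB ρ (by simp [hρ.le]))
  have hle : ‖∑ j ∈ range K, (∑ k ∈ range M, a k * ((ρ : ℂ) * ω ^ j) ^ k) * (ω ^ j) ^ n *
      (P j * Q j)‖ ≤ B * ∑ j ∈ range K, ‖P j‖ * ‖Q j‖ := by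
    refine (norm_sum_le _ _).trans ?_
    rw [mul_sum]
    refine sum_le_sum fun j _ => ?_
    rw [norm_mul, norm_mul, norm_mul, norm_pow, norm_pow, hn1, one_pow, one_pow, mul_one]
    refine mul_le_mul_of_nonneg_right (hB _ ?_) (by positivity)
    rw [norm_mul, norm_pow, hn1, one_pow, mul_one, Complex.norm_real, Real.norm_of_nonneg hρ.le]
  have hcs := Real.sum_mul_le_sqrt_mul_sqrt (range K) (fun j => ‖P j‖) fun j => ‖Q j‖
  simp only [hP, hQ] at hcs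
  rw [pars_SL hω hn1 s hK2, pars_SL hω hn1 t hK3, Real.sqrt_mul hKpos.le,
    Real.sqrt_mul hKpos.le] at hcs
  rw [key, norm_mul, Complex.norm_natCast] at hle
  refine le_of_mul_le_mul_left (hle.trans ?_) hKpos
  refine (mul_le_mul_of_nonneg_left hcs hB0).trans_eq ?_
  have := Real.mul_self_sqrt hKpos.le
  calc _ = B * ((Real.sqrt K * Real.sqrt K) * (Real.sqrt (∑ i ∈ s, ‖al i‖ ^ 2) *
        Real.sqrt (∑ i ∈ t, ‖be i‖ ^ 2))) := by ring
    _ = _ := by rw [this]; ring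

theorem core_SL {a : ℕ → ℂ} {f : ℂ → ℂ} (h : ∀ z, HasSum (fun k => a k * z ^ k) (f z))
    {ρ B : ℝ} (hρ : 0 < ρ) (hB : ∀ z : ℂ, ‖z‖ = ρ → ‖f z‖ ≤ B) (s t : Finset ℕ)
    (al be : ℕ → ℂ) (n : ℕ) :
    ‖∑ i ∈ s, ∑ i' ∈ t, al i * be i' *
        (if n ≤ i + i' then a (i + i' - n) * (ρ : ℂ) ^ (i + i' - n) else 0)‖ ≤
      B * (Real.sqrt (∑ i ∈ s, ‖al i‖ ^ 2) * Real.sqrt (∑ i ∈ t, ‖be i‖ ^ 2)) := by
  set g : ℕ → ℝ := fun k => ‖a k * (ρ : ℂ) ^ k‖ with hg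
  have hs : Summable g := (h ρ).summable.norm
  set X := Real.sqrt (∑ i ∈ s, ‖al i‖ ^ 2) * Real.sqrt (∑ i ∈ t, ‖be i‖ ^ 2)
  have ht : Tendsto (fun M => (B + ∑' k, g (k + M)) * X) atTop (𝓝 ((B + 0) * X)) :=
    ((tendsto_sum_nat_add g).const_add B).mul_const X
  rw [add_zero] at ht
  refine ge_of_tendsto ht ?_
  filter_upwards [eventually_gt_atTop (s.sup id + t.sup id)] with M hM
  refine fin_SL a hρ M (fun z hz => ?_) s t (fun i hi i' hi' => ?_) al be n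
  · have h1 := (h z).summable.sum_add_tsum_nat_add M
    rw [(h z).tsum_eq] at h1
    rw [eq_sub_of_add_eq h1]
    refine (norm_sub_le _ _).trans (add_le_add (hB z hz) ?_)
    have e : ∀ k, ‖a k * z ^ k‖ = g k := fun k => by
      simp only [hg, norm_mul, norm_pow, hz, Complex.norm_real, Real.norm_of_nonneg hρ.le]
    refine tsum_of_norm_bounded ((summable_nat_add_iff M).2 hs).hasSum fun k => (e _).le
  · have h1 : i ≤ s.sup id := le_sup (f := id) hi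
    have h2 : i' ≤ t.sup id := le_sup (f := id) hi'
    omega

theorem sl_coeff {a : ℕ → ℂ} {f : ℂ → ℂ} (h : ∀ z, HasSum (fun k => a k * z ^ k) (f z))
    {ρ B : ℝ} (hρ : 0 < ρ) (hB : ∀ z : ℂ, ‖z‖ = ρ → ‖f z‖ ≤ B) (k : ℕ) :
    ‖a k‖ * ρ ^ k ≤ B := by
  have := core_SL h hρ hB {k} {0} (fun _ => 1) (fun _ => 1) 0
  simpa [abs_of_pos hρ] using this

theorem sl_small {a : ℕ → ℂ} {f : ℂ → ℂ} (h : ∀ z, HasSum (fun k => a k * z ^ k) (f z))
    {ρ B : ℝ} (hρ : 0 < ρ) (hρ1 : ρ ≤ 1) (hB : ∀ z : ℂ, ‖z‖ = ρ → ‖f z‖ ≤ B) {N : ℕ}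
    (hN : 1 ≤ N) : ‖vp N a‖ * ρ ^ (2 * N) ≤ 2 * B := by
  have hB0 : 0 ≤ B := (norm_nonneg _).trans (hB ρ (by simp [hρ.le]))
  have hc := core_SL h hρ hB (Ioc N (2 * N)) (range (2 * N)) (fun i => (ρ : ℂ) ^ (2 * N - i))
    (fun i => (ρ : ℂ) ^ (2 * N - i)) (2 * N)
  have hN0 : (0 : ℝ) < N := by exact_mod_cast hN
  have e : ∑ i ∈ Ioc N (2 * N), ∑ i' ∈ range (2 * N), (ρ : ℂ) ^ (2 * N - i) *
      (ρ : ℂ) ^ (2 * N - i') * (if 2 * N ≤ i + i' then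
        a (i + i' - 2 * N) * (ρ : ℂ) ^ (i + i' - 2 * N) else 0) =
      (ρ : ℂ) ^ (2 * N) * ∑ i ∈ Ioc N (2 * N), ∑ k ∈ range i, a k := by
    rw [mul_sum]
    refine sum_congr rfl fun i hi => ?_
    obtain ⟨d, hd⟩ := Nat.exists_eq_add_of_le' (mem_Ioc.1 hi).2
    rw [hd, sum_range_add, sum_eq_zero, zero_add, mul_sum]
    · refine sum_congr rfl fun k hk => ?_
      have := mem_range.1 hk
      rw [if_pos (by omega), show i + (d + k) - (d + i) = k by omega, Nat.add_sub_cancel,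
        show d + i - (d + k) = i - k by omega,
        show (ρ : ℂ) ^ (d + i) = ρ ^ d * ρ ^ (i - k) * ρ ^ k by
          rw [← pow_add, ← pow_add]; congr 1; omega]
      ring
    · intro k hk
      have := mem_range.1 hk
      rw [if_neg (by omega), mul_zero]
  have hb : ∀ u : Finset ℕ, Real.sqrt (∑ i ∈ u, ‖(ρ : ℂ) ^ (2 * N - i)‖ ^ 2) ≤
      Real.sqrt u.card := by
    intro u
    refine Real.sqrt_le_sqrt ((sum_le_card_nsmul _ _ 1 fun i _ => ?_).trans_eq (by simp))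
    rw [norm_pow, Complex.norm_real, Real.norm_of_nonneg hρ.le]
    exact pow_le_one₀ (by positivity) (pow_le_one₀ hρ.le hρ1)
  have h2 : Real.sqrt (Ioc N (2 * N)).card * Real.sqrt (range (2 * N)).card ≤ 2 * N := by
    rw [← Real.sqrt_mul (Nat.cast_nonneg _), Nat.card_Ioc, card_range,
      show 2 * N - N = N by omega]
    refine Real.sqrt_le_iff.2 ⟨by positivity, ?_⟩
    push_cast
    nlinarith
  rw [e, norm_mul, norm_pow, Complex.norm_real, Real.norm_of_nonneg hρ.le] at hc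
  have h3 := hc.trans (mul_le_mul_of_nonneg_left ((mul_le_mul (hb _) (hb _) (Real.sqrt_nonneg _)
    (Real.sqrt_nonneg _)).trans h2) hB0)
  rw [vp, norm_mul, norm_inv, Complex.norm_natCast, mul_assoc, inv_mul_le_iff₀ hN0]
  linarith

theorem sl_big {a : ℕ → ℂ} {f : ℂ → ℂ} (h : ∀ z, HasSum (fun k => a k * z ^ k) (f z))
    {ρ B : ℝ} (hρ : 1 < ρ) (hB : ∀ z : ℂ, ‖z‖ = ρ → ‖f z‖ ≤ B) {N : ℕ} (hN : 1 ≤ N) :
    ‖f 1 - vp N a‖ ≤ B * kr ρ N := by
  have hρ0 : 0 < ρ := by linarith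
  have hB0 : 0 ≤ B := (norm_nonneg _).trans (hB ρ (by simp [hρ0.le]))
  have hN0 : (0 : ℝ) < N := by exact_mod_cast hN
  have hr0 : 0 < ρ⁻¹ := inv_pos.2 hρ0
  have hr1 : ρ⁻¹ < 1 := inv_lt_one_of_one_lt₀ hρ
  have hq : ρ⁻¹ ^ 2 < 1 := pow_lt_one₀ hr0.le hr1 two_ne_zero
  have hρc : (ρ : ℂ) ≠ 0 := by exact_mod_cast hρ0.ne'
  have h1 : HasSum a (f 1) := by simpa using h 1
  have hL : ∀ L : ℕ, ‖∑ i ∈ Ioc N (2 * N), ∑ i' ∈ range L, a (i' + i)‖ ≤
      B * (Real.sqrt N * ρ⁻¹ ^ N * (Real.sqrt (1 - ρ⁻¹ ^ 2))⁻¹) := by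
    intro L
    have hc := core_SL h hρ0 hB (Ioc N (2 * N)) (range L) (fun i => ((ρ⁻¹ : ℝ) : ℂ) ^ i)
      (fun i => ((ρ⁻¹ : ℝ) : ℂ) ^ i) 0
    have e : ∑ i ∈ Ioc N (2 * N), ∑ i' ∈ range L, ((ρ⁻¹ : ℝ) : ℂ) ^ i * ((ρ⁻¹ : ℝ) : ℂ) ^ i' *
        (if 0 ≤ i + i' then a (i + i' - 0) * (ρ : ℂ) ^ (i + i' - 0) else 0) =
        ∑ i ∈ Ioc N (2 * N), ∑ i' ∈ range L, a (i' + i) := by
      refine sum_congr rfl fun i _ => sum_congr rfl fun i' _ => ?_
      rw [if_pos (Nat.zero_le _), Nat.sub_zero, pow_add, add_comm i' i]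
      push_cast
      rw [inv_pow, inv_pow]
      field_simp
    rw [e] at hc
    refine hc.trans (mul_le_mul_of_nonneg_left (mul_le_mul ?_ ?_ (Real.sqrt_nonneg _)
      (by positivity)) hB0)
    · refine Real.sqrt_le_iff.2 ⟨by positivity, ?_⟩
      rw [mul_pow, Real.sq_sqrt hN0.le]
      refine (sum_le_card_nsmul _ _ ((ρ⁻¹ ^ N) ^ 2) fun i hi => ?_).trans_eq ?_
      · rw [norm_pow, Complex.norm_real, Real.norm_of_nonneg hr0.le]
        exact pow_le_pow_left₀ (by positivity)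
          (pow_le_pow_of_le_one hr0.le hr1.le (mem_Ioc.1 hi).1.le) 2
      · rw [Nat.card_Ioc, show 2 * N - N = N by omega, nsmul_eq_mul]
    · rw [← Real.sqrt_inv]
      refine Real.sqrt_le_sqrt ?_
      have hg := hasSum_geometric_of_lt_one (by positivity) hq
      refine le_trans (le_of_eq (sum_congr rfl fun i _ => ?_))
        (sum_le_hasSum (range L) (fun i _ => by positivity) hg)
      rw [norm_pow, Complex.norm_real, Real.norm_of_nonneg hr0.le, ← pow_mul, ← pow_mul, mul_comm]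
  have ht : Tendsto (fun L : ℕ => ‖∑ i ∈ Ioc N (2 * N), ∑ i' ∈ range L, a (i' + i)‖) atTop
      (𝓝 ‖∑ i ∈ Ioc N (2 * N), (f 1 - ∑ k ∈ range i, a k)‖) :=
    (tendsto_finsetSum _ fun i _ => ((hasSum_nat_add_iff' i).2 h1).tendsto_sum_nat).norm
  have h2 := le_of_tendsto' ht hL
  have hNc : (N : ℂ) ≠ 0 := by exact_mod_cast hN0.ne'
  have e2 : f 1 - vp N a =
      (N : ℂ)⁻¹ * ∑ i ∈ Ioc N (2 * N), (f 1 - ∑ k ∈ range i, a k) := by
    rw [vp, sum_sub_distrib, sum_const, Nat.card_Ioc, show 2 * N - N = N by omega, nsmul_eq_mul]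
    field_simp
  rw [e2, norm_mul, norm_inv, Complex.norm_natCast, inv_mul_le_iff₀ hN0]
  refine h2.trans_eq ?_
  rw [kr, Real.sqrt_mul hN0.le]
  have h3 := Real.mul_self_sqrt hN0.le
  have h4 : 0 < Real.sqrt N := Real.sqrt_pos.2 hN0
  have h5 : 0 < Real.sqrt (1 - ρ⁻¹ ^ 2) := Real.sqrt_pos.2 (by linarith)
  set x := Real.sqrt N
  set y := Real.sqrt (1 - ρ⁻¹ ^ 2)
  rw [← h3]
  field_simp

end Pool.Agent.MP_dd7250_nt.LS
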