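import Mathlib
import Pool.Agent.MP_dd7250_nt.LS.SL

/- Ratios at small shifts: products of truncated exponentials. -/

set_option autoImplicit false
set_option maxHeartbeats 400000

namespace Pool.Agent.MP_dd7250_nt.LS

open Finset Complex Filter Topology

theorem hs_PP {ι : Type*} (I : Finset ι) (d s : ι → ℂ) (z : ℂ) :
    HasSum (fun k : ℕ => (∑ i ∈ I, d i * (s i ^ k / k.factorial)) * z ^ k)
      (∑ i ∈ I, d i * exp (z * s i)) := by
  have h1 : ∀ i ∈ I, HasSum (fun k : ℕ => d i * (s i ^ k / k.factorial) * z ^ k)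
      (d i * exp (z * s i)) := by
    intro i _
    have h2 := NormedSpace.expSeries_div_hasSum_exp (z * s i)
    rw [← Complex.exp_eq_exp_ℂ] at h2
    have h4 := h2.mul_left (d i)
    have e : (fun k : ℕ => d i * (s i ^ k / k.factorial) * z ^ k) =
        fun k : ℕ => d i * ((z * s i) ^ k / k.factorial) := funext fun k => by
      rw [mul_pow]
      ring
    rw [e]
    exact h4
  have h3 := hasSum_sum h1
  simpa only [sum_mul] using h3

theorem geo_PP (m : ℕ) : ∑ k ∈ range m, (1 / 2 : ℝ) ^ k ≤ 2 := by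
  have h := summable_geometric_two.sum_le_tsum (range m) fun k _ => by positivity
  rwa [tsum_geometric_two] at h

theorem one_PP {ι : Type*} (I : Finset ι) (d s : ι → ℂ) {B : ℝ}
    (hB : ∀ w : ℂ, ‖w‖ = 2 → ‖∑ i ∈ I, d i * exp (w * s i)‖ ≤ B) (l : ℕ) :
    ‖∑ i ∈ I, d i * Et l (s i)‖ ≤ 2 * B ∧
      ‖∑ i ∈ I, d i * (exp (s i) - Et l (s i))‖ ≤ B / 2 ^ l := by
  set a : ℕ → ℂ := fun k => ∑ i ∈ I, d i * (s i ^ k / k.factorial) with ha
  have hB0 : 0 ≤ B := (norm_nonneg _).trans (hB 2 (by simp))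
  have hc : ∀ k, ‖a k‖ ≤ B * (1 / 2) ^ k := fun k => by
    have h1 := sl_coeff (a := a) (f := fun z => ∑ i ∈ I, d i * exp (z * s i)) (hs_PP I d s)
      (ρ := 2) two_pos hB k
    rw [one_div, inv_pow, ← div_eq_mul_inv, le_div_iff₀ (by positivity)]
    exact h1
  have hE : ∑ i ∈ I, d i * Et l (s i) = ∑ k ∈ range (l + 1), a k := by
    simp only [Et, ha, mul_sum]
    exact sum_comm
  have h1 : HasSum a (∑ i ∈ I, d i * exp (s i)) := by
    simpa only [one_pow, mul_one, one_mul] using hs_PP I d s 1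
  refine ⟨?_, ?_⟩
  · rw [hE]
    refine (norm_sum_le _ _).trans ((sum_le_sum fun k _ => hc k).trans ?_)
    rw [← mul_sum, mul_comm]
    exact mul_le_mul_of_nonneg_right (geo_PP _) hB0
  · have h2 : HasSum (fun k => a (k + (l + 1)))
        (∑ i ∈ I, d i * exp (s i) - ∑ k ∈ range (l + 1), a k) :=
      (hasSum_nat_add_iff' (l + 1)).2 h1
    have h3 : HasSum (fun k : ℕ => B * (1 / 2) ^ (l + 1) * (1 / 2 : ℝ) ^ k)
        (B * (1 / 2) ^ (l + 1) * 2) := hasSum_geometric_two.mul_left _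
    have h4 := h2.norm_le_of_bounded h3 fun k => (hc _).trans_eq (by ring)
    simp only [mul_sub, sum_sub_distrib]
    rw [hE]
    refine h4.trans_eq ?_
    rw [pow_succ, one_div, inv_pow]
    field_simp

theorem poly_PP (G : Polynomial ℂ) {m : ℕ} (hm : G.natDegree ≤ m) {B τ : ℝ} (hτ : 0 < τ)
    (hτ' : τ ≤ 1 / 2) (hB : ∀ z : ℂ, ‖z‖ = τ → ‖G.eval z‖ ≤ B) :
    ‖G.eval 1‖ * τ ^ m ≤ 2 * B := by
  have hB0 : 0 ≤ B := (norm_nonneg _).trans (hB τ (by simp [abs_of_pos hτ]))
  have hs : ∀ z : ℂ, HasSum (fun k => G.coeff k * z ^ k) (G.eval z) := fun z => by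
    rw [Polynomial.eval_eq_sum_range' (n := m + 1) (by omega)]
    refine hasSum_sum_of_ne_finset_zero fun k hk => ?_
    rw [Polynomial.coeff_eq_zero_of_natDegree_lt (by simp at hk; omega), zero_mul]
  have hc := sl_coeff (a := G.coeff) (f := fun z => G.eval z) hs hτ hB
  rw [Polynomial.eval_eq_sum_range' (n := m + 1) (by omega)]
  simp only [one_pow, mul_one]
  refine (mul_le_mul_of_nonneg_right (norm_sum_le _ _) (by positivity)).trans ?_
  rw [sum_mul]
  have h1 : ∀ k ∈ range (m + 1), ‖G.coeff k‖ * τ ^ m ≤ B * (1 / 2) ^ (m + 1 - 1 - k) := by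
    intro k hk
    have hk' : k ≤ m := by simp at hk; omega
    have h2 : τ ^ m = τ ^ k * τ ^ (m + 1 - 1 - k) := by
      rw [← pow_add]; congr 1; omega
    rw [h2, ← mul_assoc]
    exact mul_le_mul (hc k) (pow_le_pow_left₀ hτ.le hτ' _) (by positivity) hB0
  refine (sum_le_sum h1).trans ?_
  rw [← mul_sum, sum_range_reflect (fun k => (1 / 2 : ℝ) ^ k), mul_comm]
  exact mul_le_mul_of_nonneg_right (geo_PP _) hB0

theorem upd_PP {T₀ : Finset ℕ} {b₀ : ℕ} (hb : b₀ ∉ T₀) (w : ℕ → ℂ) (z : ℂ) (S : ℕ → ℂ) :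
    ∑ b ∈ insert b₀ T₀, Function.update w b₀ z b * S b = z * S b₀ + ∑ b ∈ T₀, w b * S b := by
  rw [sum_insert hb, Function.update_self]
  congr 1
  refine sum_congr rfl fun b hb' => ?_
  rw [Function.update_of_ne (ne_of_mem_of_not_mem hb' hb)]

theorem pp_blocks {ι : Type*} (I : Finset ι) (δ : ι → ℂ) (S : ℕ → ι → ℂ) (l : ℕ → ℕ)
    (T₀ : Finset ℕ) {B₀ Λ : ℝ} (hΛ : 0 ≤ Λ)
    (h : ∀ T ⊆ T₀, ∀ w : ℕ → ℂ, (∀ b ∈ T, ‖w b‖ = 2) → (∀ b ∈ T₀, b ∉ T → w b = 1) →
      ‖∑ i ∈ I, δ i * exp (∑ b ∈ T₀, w b * S b i)‖ ≤ B₀ * Λ ^ T.card) :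
    ‖∑ i ∈ I, δ i * (exp (∑ b ∈ T₀, S b i) - ∏ b ∈ T₀, Et (l b) (S b i))‖ ≤
      B₀ * (∏ b ∈ T₀, (1 + Λ / 2 ^ l b) - 1) := by
  induction T₀ using Finset.induction_on generalizing δ B₀ with
  | empty => simp
  | insert b₀ T₀ hb ih =>
    have h1 := ih (fun i => δ i * exp (S b₀ i)) (B₀ := B₀) fun T hT w hw hw' => by
      have h2 := h T (hT.trans (subset_insert _ _)) (Function.update w b₀ 1)
        (fun b hb' => by
          rw [Function.update_of_ne (ne_of_mem_of_not_mem (hT hb') hb)]; exact hw b hb')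
        (fun b hb' hb'' => by
          rcases mem_insert.1 hb' with rfl | hb'
          · exact Function.update_self ..
          · rw [Function.update_of_ne (ne_of_mem_of_not_mem hb' hb)]; exact hw' b hb' hb'')
      refine le_of_eq_of_le ?_ h2
      congr 1
      refine sum_congr rfl fun i _ => ?_
      rw [upd_PP hb w 1 fun b => S b i, exp_add, one_mul, mul_assoc]
    have hyp : ∀ T ⊆ T₀, ∀ w : ℕ → ℂ, (∀ b ∈ T, ‖w b‖ = 2) → (∀ b ∈ T₀, b ∉ T → w b = 1) →
        ‖∑ i ∈ I, δ i * (exp (S b₀ i) - Et (l b₀) (S b₀ i)) * exp (∑ b ∈ T₀, w b * S b i)‖ ≤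
          B₀ * Λ / 2 ^ l b₀ * Λ ^ T.card := by
      intro T hT w hw hw'
      have hbT : b₀ ∉ T := fun e => hb (hT e)
      have h2 := (one_PP I (fun i => δ i * exp (∑ b ∈ T₀, w b * S b i)) (fun i => S b₀ i)
        (B := B₀ * Λ ^ (T.card + 1)) (fun z hz => by
          have h3 := h (insert b₀ T) (insert_subset_insert _ hT) (Function.update w b₀ z)
            (fun b hb' => by
              rcases mem_insert.1 hb' with rfl | hb'
              · rw [Function.update_self]; exact hz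
              · rw [Function.update_of_ne (ne_of_mem_of_not_mem hb' hbT)]; exact hw b hb')
            (fun b hb' hb'' => by
              have hne : b ≠ b₀ := fun e => hb'' (e ▸ mem_insert_self _ _)
              rw [Function.update_of_ne hne]
              exact hw' b ((mem_insert.1 hb').resolve_left hne)
                fun e => hb'' (mem_insert_of_mem e))
          rw [card_insert_of_notMem hbT] at h3
          refine le_of_eq_of_le ?_ h3
          congr 1
          refine sum_congr rfl fun i _ => ?_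
          rw [upd_PP hb w z fun b => S b i, exp_add]
          ring) (l b₀)).2
      refine le_of_eq_of_le ?_ (h2.trans_eq (by ring))
      congr 1
      exact sum_congr rfl fun i _ => by ring
    have h2 := ih (fun i => δ i * (exp (S b₀ i) - Et (l b₀) (S b₀ i))) hyp
    have h3 := hyp ∅ (empty_subset _) (fun _ => 1) (by simp) fun _ _ _ => rfl
    simp only [one_mul, card_empty, pow_zero, mul_one] at h3
    have e : ∑ i ∈ I, δ i * (exp (∑ b ∈ insert b₀ T₀, S b i) -
        ∏ b ∈ insert b₀ T₀, Et (l b) (S b i)) =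
        ∑ i ∈ I, δ i * exp (S b₀ i) * (exp (∑ b ∈ T₀, S b i) - ∏ b ∈ T₀, Et (l b) (S b i)) +
        (∑ i ∈ I, δ i * (exp (S b₀ i) - Et (l b₀) (S b₀ i)) * exp (∑ b ∈ T₀, S b i) -
        ∑ i ∈ I, δ i * (exp (S b₀ i) - Et (l b₀) (S b₀ i)) *
          (exp (∑ b ∈ T₀, S b i) - ∏ b ∈ T₀, Et (l b) (S b i))) := by
      rw [← sum_sub_distrib, ← sum_add_distrib]
      refine sum_congr rfl fun i _ => ?_
      rw [sum_insert hb, prod_insert hb, exp_add]
      ring
    rw [e, prod_insert hb]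
    refine (norm_add_le _ _).trans ((add_le_add h1 ((norm_sub_le _ _).trans
      (add_le_add h3 h2))).trans_eq ?_)
    ring

theorem ext_blocks {ι : Type*} (I : Finset ι) (δ : ι → ℂ) (σ : ℕ → ι → Polynomial ℂ)
    (n l : ℕ → ℕ) (T₀ : Finset ℕ) {B₀ τ : ℝ} (hτ : 0 < τ) (hτ' : τ ≤ 1 / 2)
    (hd : ∀ b i, (σ b i).natDegree ≤ n b)
    (h : ∀ w t : ℕ → ℂ, (∀ b ∈ T₀, ‖w b‖ = 2) → (∀ b ∈ T₀, ‖t b‖ = τ) →
      ‖∑ i ∈ I, δ i * exp (∑ b ∈ T₀, w b * (σ b i).eval (t b))‖ ≤ B₀) :
    ‖∑ i ∈ I, δ i * ∏ b ∈ T₀, Et (l b) ((σ b i).eval 1)‖ * τ ^ (∑ b ∈ T₀, l b * n b) ≤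
      4 ^ T₀.card * B₀ := by
  induction T₀ using Finset.induction_on generalizing δ B₀ with
  | empty => simpa using h (fun _ => 0) (fun _ => 0) (by simp) (by simp)
  | insert b₀ T₀ hb ih =>
    have hp : (0 : ℝ) < τ ^ (l b₀ * n b₀) := by positivity
    have h1 := ih (fun i => δ i * Et (l b₀) ((σ b₀ i).eval 1))
      (B₀ := 4 * B₀ / τ ^ (l b₀ * n b₀)) fun w t hw ht => by
      set d : ι → ℂ := fun i => δ i * exp (∑ b ∈ T₀, w b * (σ b i).eval (t b)) with hd'
      set G : Polynomial ℂ := ∑ i ∈ I, Polynomial.C (d i) *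
        ∑ k ∈ range (l b₀ + 1), Polynomial.C ((k.factorial : ℂ)⁻¹) * σ b₀ i ^ k with hG
      have hev : ∀ z, G.eval z = ∑ i ∈ I, d i * Et (l b₀) ((σ b₀ i).eval z) := fun z => by
        simp only [hG, Polynomial.eval_finsetSum, Polynomial.eval_mul, Polynomial.eval_C,
          Polynomial.eval_pow, Et]
        refine sum_congr rfl fun i _ => ?_
        congr 1
        exact sum_congr rfl fun k _ => by ring
      have hdeg : G.natDegree ≤ l b₀ * n b₀ := by
        refine Polynomial.natDegree_sum_le_of_forall_le _ _ fun i _ => ?_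
        refine (Polynomial.natDegree_C_mul_le _ _).trans ?_
        refine Polynomial.natDegree_sum_le_of_forall_le _ _ fun k hk => ?_
        refine (Polynomial.natDegree_C_mul_le _ _).trans (Polynomial.natDegree_pow_le.trans ?_)
        exact Nat.mul_le_mul (by simp at hk; omega) (hd _ _)
      have h2 := poly_PP G hdeg hτ hτ' (B := 2 * B₀) fun z hz => by
        rw [hev]
        refine (one_PP I d (fun i => (σ b₀ i).eval z) (fun u hu => ?_) (l b₀)).1
        have h3 := h (Function.update w b₀ u) (Function.update t b₀ z)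
          (fun b hb' => by
            rcases mem_insert.1 hb' with rfl | hb'
            · rw [Function.update_self]; exact hu
            · rw [Function.update_of_ne (ne_of_mem_of_not_mem hb' hb)]; exact hw b hb')
          (fun b hb' => by
            rcases mem_insert.1 hb' with rfl | hb'
            · rw [Function.update_self]; exact hz
            · rw [Function.update_of_ne (ne_of_mem_of_not_mem hb' hb)]; exact ht b hb')
        refine le_of_eq_of_le ?_ h3
        congr 1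
        refine sum_congr rfl fun i _ => ?_
        rw [upd_PP hb w u fun b => (σ b i).eval (Function.update t b₀ z b), exp_add,
          Function.update_self]
        have h4 : ∑ b ∈ T₀, w b * (σ b i).eval (Function.update t b₀ z b) =
            ∑ b ∈ T₀, w b * (σ b i).eval (t b) :=
          sum_congr rfl fun b hb' => by rw [Function.update_of_ne (ne_of_mem_of_not_mem hb' hb)]
        rw [h4, hd']
        ring
      rw [le_div_iff₀ hp]
      refine le_of_eq_of_le ?_ (h2.trans_eq (by ring))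
      rw [hev]
      congr 2
      exact sum_congr rfl fun i _ => by rw [hd']; ring
    rw [sum_insert hb, card_insert_of_notMem hb, pow_add]
    have e : ∑ i ∈ I, δ i * ∏ b ∈ insert b₀ T₀, Et (l b) ((σ b i).eval 1) =
        ∑ i ∈ I, δ i * Et (l b₀) ((σ b₀ i).eval 1) * ∏ b ∈ T₀, Et (l b) ((σ b i).eval 1) :=
      sum_congr rfl fun i _ => by rw [prod_insert hb, mul_assoc]
    rw [e]
    have h5 := mul_le_mul_of_nonneg_right h1 hp.le
    refine le_of_eq_of_le (by ring) (h5.trans_eq ?_)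
    field_simp
    ring

end Pool.Agent.MP_dd7250_nt.LS
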