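import Mathlib
import Pool.Agent.MP_dd7250_nt.LS.PP

/- Ratios at small shifts: comparison with the short approximation. -/

set_option autoImplicit false
set_option maxHeartbeats 400000

namespace Pool.Agent.MP_dd7250_nt.LS

open Finset Complex Filter Topology

theorem vp_lin_T2 {ι : Type*} (I : Finset ι) (c : ι → ℂ) (A : ι → ℕ → ℂ) (N : ℕ) :
    vp N (fun k => ∑ i ∈ I, c i * A i k) = ∑ i ∈ I, c i * vp N (A i) := by
  simp only [vp, mul_sum]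
  refine Eq.trans (sum_congr rfl fun i _ => sum_comm) (sum_comm.trans ?_)
  exact sum_congr rfl fun i _ => sum_congr rfl fun j _ => sum_congr rfl fun k _ => by ring

theorem hasSum_lin_T2 {ι : Type*} (I : Finset ι) (c : ι → ℂ) {f : ι → ℂ → ℂ}
    (hf : ∀ i, Differentiable ℂ (f i)) (z : ℂ) :
    HasSum (fun k => (∑ i ∈ I, c i * tc (f i) k) * z ^ k) (∑ i ∈ I, c i * f i z) := by
  simp only [sum_mul, mul_assoc]
  exact hasSum_sum fun i _ => (tc_hasSum (hf i) z).mul_left (c i)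

theorem big_T2 {ι : Type*} (I : Finset ι) (c : ι → ℂ) {f : ι → ℂ → ℂ}
    (hf : ∀ i, Differentiable ℂ (f i)) {r B : ℝ} (hr : 1 < r)
    (hB : ∀ z : ℂ, ‖z‖ = r → ‖∑ i ∈ I, c i * f i z‖ ≤ B) {N : ℕ} (hN : 1 ≤ N) :
    ‖∑ i ∈ I, c i * (f i 1 - vp N (tc (f i)))‖ ≤ B * kr r N := by
  have h := sl_big (f := fun z => ∑ i ∈ I, c i * f i z) (hasSum_lin_T2 I c hf) hr hB hN
  rw [vp_lin_T2, ← sum_sub_distrib] at h
  simpa only [mul_sub] using h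

theorem small_T2 {ι : Type*} (I : Finset ι) (c : ι → ℂ) {f : ι → ℂ → ℂ}
    (hf : ∀ i, Differentiable ℂ (f i)) {ρ B : ℝ} (hρ : 0 < ρ) (hρ1 : ρ ≤ 1)
    (hB : ∀ z : ℂ, ‖z‖ = ρ → ‖∑ i ∈ I, c i * f i z‖ ≤ B) {N : ℕ} (hN : 1 ≤ N) :
    ‖∑ i ∈ I, c i * vp N (tc (f i))‖ * ρ ^ (2 * N) ≤ 2 * B := by
  have h := sl_small (f := fun z => ∑ i ∈ I, c i * f i z) (hasSum_lin_T2 I c hf) hρ hρ1 hB hN
  rwa [vp_lin_T2] at h

theorem ee_T2 {ι : Type*} (I : Finset ι) (δ : ι → ℂ) (S : ℕ → ι → ℂ) (l : ℕ → ℕ)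
    (T₀ : Finset ℕ) {B₀ Λ : ℝ} (hΛ : 0 ≤ Λ)
    (h : ∀ T ⊆ T₀, ∀ w : ℕ → ℂ, (∀ b ∈ T, ‖w b‖ = 2) → (∀ b ∈ T₀, b ∉ T → w b = 1) →
      ‖∑ i ∈ I, δ i * exp (∑ b ∈ T₀, w b * S b i)‖ ≤ B₀ * Λ ^ T.card) :
    ‖∑ i ∈ I, δ i * ∏ b ∈ T₀, Et (l b) (S b i)‖ ≤ B₀ * ∏ b ∈ T₀, (1 + Λ / 2 ^ l b) := by
  have h1 := pp_blocks I δ S l T₀ hΛ h
  have h2 := h ∅ (empty_subset _) (fun _ => 1) (fun b hb => absurd hb (notMem_empty b))
    fun _ _ _ => rfl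
  simp only [one_mul, card_empty, pow_zero, mul_one] at h2
  have e : ∑ i ∈ I, δ i * ∏ b ∈ T₀, Et (l b) (S b i) =
      ∑ i ∈ I, δ i * exp (∑ b ∈ T₀, S b i) -
        ∑ i ∈ I, δ i * (exp (∑ b ∈ T₀, S b i) - ∏ b ∈ T₀, Et (l b) (S b i)) := by
    rw [← sum_sub_distrib]
    exact sum_congr rfl fun i _ => by ring
  rw [e]
  refine (norm_sub_le _ _).trans ?_
  linarith

theorem prod_le_T2 {Λ : ℝ} (hΛ : 0 ≤ Λ) {l : ℕ} (hl : 1 ≤ l) (B : ℕ) :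
    ∏ b ∈ range B, (1 + Λ / 2 ^ (2 ^ b * l)) ≤ Real.exp (2 * Λ / 2 ^ l) := by
  refine (Real.prod_one_add_le_exp_sum _ fun b => by positivity).trans (Real.exp_le_exp.2 ?_)
  have h1 : ∀ b ∈ range B, Λ / 2 ^ (2 ^ b * l) ≤ Λ / 2 ^ l * (1 / 2) ^ b := fun b _ => by
    have h2 : b + 1 ≤ 2 ^ b := Nat.lt_two_pow_self
    have h3 : l + b ≤ 2 ^ b * l := by nlinarith
    have h4 : (2 : ℝ) ^ (l + b) ≤ 2 ^ (2 ^ b * l) := pow_le_pow_right₀ one_le_two h3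
    refine (div_le_div_of_nonneg_left hΛ (by positivity) h4).trans (le_of_eq ?_)
    rw [pow_add, one_div, inv_pow]
    field_simp
  refine (sum_le_sum h1).trans ?_
  rw [← mul_sum]
  refine (mul_le_mul_of_nonneg_left (sum_geometric_two_le B) (by positivity)).trans (le_of_eq ?_)
  ring

theorem x_le_T2 {Λ : ℝ} (hΛ : 0 ≤ Λ) (l : ℕ) :
    Real.exp (2 * Λ / 2 ^ l) ≤ Real.exp (2 * Λ) :=
  Real.exp_le_exp.2 (div_le_self (by positivity) (one_le_pow₀ one_le_two))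

theorem split_T2 {ι : Type*} (I : Finset ι) (δ : ι → ℂ) (π : ι → ℕ → ℂ) {J : ℝ}
    (Y : ℕ) {B : ℕ} (l N : ℕ) (a : ℕ → ℂ) (hJ : 0 < J) (hB : J ≤ 4 ^ B) :
    ∑ i ∈ I, δ i * (exp (lf Y a (π i)) - Vm J Y B l N a (π i)) =
      ∑ i ∈ I, δ i * exp (Hz J Y a (π i) 1) *
        (exp (∑ b ∈ range B, Sb J Y a (π i) b) - EE J Y B l a (π i)) +
      ∑ i ∈ I, δ i * EE J Y B l a (π i) *
        (exp (Hz J Y a (π i) 1) - vp N (tc fun z => exp (Hz J Y a (π i) z))) := by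
  rw [← sum_add_distrib]
  refine sum_congr rfl fun i _ => ?_
  rw [lf_split hJ hB, exp_add, Vm]
  ring

theorem kr_nonneg_T2 {r : ℝ} (hr : 1 < r) (N : ℕ) : 0 ≤ kr r N := by
  have : 0 < r := by linarith
  unfold kr
  positivity

theorem t2 {ι : Type*} (I : Finset ι) (δ : ι → ℂ) (π : ι → ℕ → ℂ) {J r B₀ Λ : ℝ}
    {Y B l N : ℕ} {a : ℕ → ℂ} (hJ : 0 < J) (hB : J ≤ 4 ^ B) (hr : 1 < r) (hΛ : 0 ≤ Λ)
    (hl : 1 ≤ l) (hN : 1 ≤ N)
    (h : ∀ T ⊆ range B, ∀ (w : ℕ → ℂ) (z : ℂ), (∀ b ∈ T, ‖w b‖ = 2) →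
      (∀ b ∈ range B, b ∉ T → w b = 1) → (z = 1 ∨ ‖z‖ = r) →
      ‖∑ i ∈ I, δ i * exp (lf Y (et J B a w z) (π i))‖ ≤ B₀ * Λ ^ T.card) :
    ‖∑ i ∈ I, δ i * (exp (lf Y a (π i)) - Vm J Y B l N a (π i))‖ ≤
      B₀ * Real.exp (2 * Λ) * (2 * Λ / 2 ^ l + kr r N) := by
  have hB0 : 0 ≤ B₀ := by
    have := h ∅ (empty_subset _) (fun _ => 1) 1 (fun b hb => absurd hb (notMem_empty b))
      (fun _ _ _ => rfl) (Or.inl rfl)
    rw [card_empty, pow_zero, mul_one] at this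
    exact (norm_nonneg _).trans this
  have hk := kr_nonneg_T2 hr N
  have e : ∀ (w : ℕ → ℂ) (z : ℂ), ∑ i ∈ I, δ i * exp (lf Y (et J B a w z) (π i)) =
      ∑ i ∈ I, δ i * exp (∑ b ∈ range B, w b * Sb J Y a (π i) b) * exp (Hz J Y a (π i) z) :=
    fun w z => sum_congr rfl fun i _ => by rw [lf_et, exp_add, mul_assoc]
  have h1 := pp_blocks I (fun i => δ i * exp (Hz J Y a (π i) 1)) (fun b i => Sb J Y a (π i) b)
    (fun b => 2 ^ b * l) (range B) (B₀ := B₀) hΛ fun T hT w hw hw' => by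
      have := h T hT w 1 hw hw' (Or.inl rfl)
      rw [e] at this
      simpa only [mul_right_comm] using this
  have h2 := ee_T2 I
    (fun i => δ i * (exp (Hz J Y a (π i) 1) - vp N (tc fun z => exp (Hz J Y a (π i) z))))
    (fun b i => Sb J Y a (π i) b) (fun b => 2 ^ b * l) (range B) (B₀ := B₀ * kr r N) hΛ
    fun T hT w hw hw' => by
      have := big_T2 I (fun i => δ i * exp (∑ b ∈ range B, w b * Sb J Y a (π i) b))
        (fun i => differentiable_Hz J Y a (π i)) hr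
        (fun z hz => (e w z) ▸ h T hT w z hw hw' (Or.inr hz)) hN
      rw [mul_right_comm] at this
      simpa only [mul_right_comm] using this
  have h3 := prod_le_T2 hΛ hl B
  have h4 := x_le_T2 hΛ l
  have hx : 0 ≤ 2 * Λ / 2 ^ l := by positivity
  have h5 : Real.exp (2 * Λ / 2 ^ l) - 1 ≤ 2 * Λ / 2 ^ l * Real.exp (2 * Λ / 2 ^ l) := by
    have h6 := Real.one_sub_le_exp_neg (2 * Λ / 2 ^ l)
    have h7 := mul_le_mul_of_nonneg_right h6 (Real.exp_pos (2 * Λ / 2 ^ l)).le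
    rw [← Real.exp_add, neg_add_cancel, Real.exp_zero] at h7
    linarith
  have h8 := mul_le_mul_of_nonneg_left h4 hx
  rw [split_T2 I δ π Y l N a hJ hB]
  refine (norm_add_le _ _).trans ((add_le_add
    (h1.trans (mul_le_mul_of_nonneg_left (c := 2 * Λ / 2 ^ l * Real.exp (2 * Λ)) (by linarith) hB0))
    (le_trans (le_of_eq ?_) (h2.trans (mul_le_mul_of_nonneg_left (h3.trans h4)
      (mul_nonneg hB0 hk))))).trans (le_of_eq (by ring)))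
  exact congrArg _ (sum_congr rfl fun i _ => mul_right_comm _ _ _)

theorem t3 {ι : Type*} (I : Finset ι) (δ : ι → ℂ) (π : ι → ℕ → ℂ) {J ρ B₀ Λ : ℝ}
    {Y B l N : ℕ} {a : ℕ → ℂ} (hρ : 0 < ρ) (hρ1 : ρ ≤ 1) (hΛ : 0 ≤ Λ) (hl : 1 ≤ l) (hN : 1 ≤ N)
    (h : ∀ T ⊆ range B, ∀ (w : ℕ → ℂ) (z : ℂ), (∀ b ∈ T, ‖w b‖ = 2) →
      (∀ b ∈ range B, b ∉ T → w b = 1) → ‖z‖ = ρ →
      ‖∑ i ∈ I, δ i * exp (lf Y (et J B a w z) (π i))‖ ≤ B₀ * Λ ^ T.card) :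
    ‖∑ i ∈ I, δ i * Vm J Y B l N a (π i)‖ * ρ ^ (2 * N) ≤ 2 * B₀ * Real.exp (2 * Λ) := by
  have hB0 : 0 ≤ B₀ := by
    have := h ∅ (empty_subset _) (fun _ => 1) ρ (fun b hb => absurd hb (notMem_empty b))
      (fun _ _ _ => rfl) (by rw [norm_real, Real.norm_of_nonneg hρ.le])
    rw [card_empty, pow_zero, mul_one] at this
    exact (norm_nonneg _).trans this
  have hp : 0 < ρ ^ (2 * N) := by positivity
  have e : ∀ (w : ℕ → ℂ) (z : ℂ), ∑ i ∈ I, δ i * exp (lf Y (et J B a w z) (π i)) =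
      ∑ i ∈ I, δ i * exp (∑ b ∈ range B, w b * Sb J Y a (π i) b) * exp (Hz J Y a (π i) z) :=
    fun w z => sum_congr rfl fun i _ => by rw [lf_et, exp_add, mul_assoc]
  have h2 := ee_T2 I (fun i => δ i * vp N (tc fun z => exp (Hz J Y a (π i) z)))
    (fun b i => Sb J Y a (π i) b) (fun b => 2 ^ b * l) (range B)
    (B₀ := 2 * B₀ / ρ ^ (2 * N)) hΛ fun T hT w hw hw' => by
      have := small_T2 I (fun i => δ i * exp (∑ b ∈ range B, w b * Sb J Y a (π i) b))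
        (fun i => differentiable_Hz J Y a (π i)) hρ hρ1
        (fun z hz => (e w z) ▸ h T hT w z hw hw' hz) hN
      rw [div_mul_eq_mul_div, le_div_iff₀ hp, mul_assoc 2]
      simpa only [mul_right_comm] using this
  have h3 := h2.trans (mul_le_mul_of_nonneg_left ((prod_le_T2 hΛ hl B).trans (x_le_T2 hΛ l))
    (by positivity))
  rw [div_mul_eq_mul_div, le_div_iff₀ hp] at h3
  refine le_trans (le_of_eq ?_) h3
  congr 2
  exact sum_congr rfl fun i _ => by rw [Vm, EE, ← mul_assoc, mul_right_comm]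

theorem t4 {ι : Type*} (I : Finset ι) (δ : ι → ℂ) (π : ι → ℕ → ℂ) {J r B₁ B₂ : ℝ}
    {Y B l N : ℕ} {a : ℕ → ℂ} (hJ : 0 < J) (hB : J ≤ 4 ^ B) (hr : 1 < r) (hN : 1 ≤ N)
    (h1 : ∀ z : ℂ, (z = 1 ∨ ‖z‖ = r) → ∑ i ∈ I, ‖δ i‖ * ‖exp (Hz J Y a (π i) z)‖ *
      ‖exp (∑ b ∈ range B, Sb J Y a (π i) b) - EE J Y B l a (π i)‖ ≤ B₁)
    (h2 : ∀ z : ℂ, ‖z‖ = r → ∑ i ∈ I, ‖δ i‖ * ‖exp (Hz J Y a (π i) z)‖ *
      ‖exp (∑ b ∈ range B, Sb J Y a (π i) b)‖ ≤ B₂) :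
    ‖∑ i ∈ I, δ i * (exp (lf Y a (π i)) - Vm J Y B l N a (π i))‖ ≤
      B₁ + (B₁ + B₂) * kr r N := by
  rw [split_T2 I δ π Y l N a hJ hB]
  refine (norm_add_le _ _).trans (add_le_add ?_ ?_)
  · refine (norm_sum_le _ _).trans (le_trans (le_of_eq ?_) (h1 1 (Or.inl rfl)))
    simp only [norm_mul]
  · refine big_T2 I (fun i => δ i * EE J Y B l a (π i))
      (fun i => differentiable_Hz J Y a (π i)) hr (fun z hz => ?_) hN
    refine (norm_sum_le _ _).trans (le_trans ?_ (add_le_add (h1 z (Or.inr hz)) (h2 z hz)))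
    rw [← sum_add_distrib]
    refine sum_le_sum fun i _ => ?_
    rw [← mul_add, norm_mul, norm_mul, mul_right_comm]
    refine mul_le_mul_of_nonneg_left ?_ (by positivity)
    rw [norm_sub_rev]
    exact norm_le_norm_sub_add _ _

theorem kr_le {s : ℝ} {N : ℕ} (hs : 0 < s) (hs1 : s ≤ 1) (hN : 4 ≤ N * s) :
    kr (Real.exp (s / 4)) N ≤ Real.exp (-(s * N / 4)) := by
  have h1 : (Real.exp (s / 4))⁻¹ ^ N = Real.exp (-(s * N / 4)) := by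
    rw [← Real.exp_neg, ← Real.exp_nat_mul]
    congr 1
    ring
  have h2 : (Real.exp (s / 4))⁻¹ ^ 2 ≤ 1 - s / 4 := by
    have h3 : (Real.exp (s / 4))⁻¹ ^ 2 = (Real.exp (s / 2))⁻¹ := by
      rw [inv_pow, ← Real.exp_nat_mul]
      congr 2
      push_cast
      ring
    have h4 := Real.add_one_le_exp (s / 2)
    rw [h3, inv_le_iff_one_le_mul₀ (Real.exp_pos _)]
    nlinarith
  rw [kr, h1]
  refine div_le_self (Real.exp_pos _).le (Real.one_le_sqrt.2 ?_)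
  have h5 : (0 : ℝ) ≤ N := Nat.cast_nonneg N
  nlinarith

end Pool.Agent.MP_dd7250_nt.LS
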