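import Mathlib
import Pool.Agent.MP_dd7250_nt.LS.E1
import Pool.Agent.MP_dd7250_nt.LS.E2
import Pool.Agent.MP_dd7250_nt.LS.T2

/- Ratios at small shifts: the short approximation on average. -/

set_option autoImplicit false
set_option maxHeartbeats 400000

namespace Pool.Agent.MP_dd7250_nt.LS

open Finset Complex Filter Topology

theorem en {C : ℝ} (hC : 1 ≤ C) : ∃ J₀ : ℝ, 1 ≤ J₀ ∧ ∃ l₀ : ℕ, ∀ l : ℕ, l₀ ≤ l →
    ∀ (ι : Type) (g : ℕ) (I : Finset ι) (θ : ι → Fin (2 * g) → ℝ) (s : ℝ) (x₁ x₂ y₁ y₂ : ℂ)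
      (B N : ℕ), Ens g I θ → Rg C s 0 x₁ x₂ y₁ y₂ → J₀ / s ≤ 4 ^ B → 400 * J₀ * l ≤ s * g →
      s * g ≤ 800 * J₀ * l → (g : ℝ) ≤ 800 * C * N → ∀ᶠ Y in atTop,
      ‖∑ i ∈ I, Lam (θ i) x₁ * Lam (θ i) x₂ * (exp (lf Y (aa y₁ y₂) (ps (θ i))) -
        Vm (J₀ / s) Y B l N (aa y₁ y₂) (ps (θ i)))‖ ≤
        I.card * (2 * Real.exp (-l) + 10 * Real.exp (-(s * g) / (6400 * C))) := by
  have hC0 : 0 < C := by linarith
  obtain ⟨J₁, hJ₁⟩ := en2 (ε := 1 / (6400 * C)) hC (by positivity)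
  have hJ12 : 12 * C ≤ max (12 * C) J₁ := le_max_left _ _
  obtain ⟨l₂, h₂⟩ := hJ₁ _ (le_max_right (12 * C) J₁)
  obtain ⟨l₁, h₁⟩ := en1 hC hJ12
  generalize max (12 * C) J₁ = J₀ at hJ12 h₁ h₂
  refine ⟨J₀, by linarith, max 1 (max l₁ l₂), fun l hl ι g I θ s x₁ x₂ y₁ y₂ B N hE hR hB hlo hhi
    hN => ?_⟩
  have hl1 : (1 : ℝ) ≤ l := by exact_mod_cast le_of_max_le_left hl
  have hs := hR.hs
  have hs1 : s ≤ 1 := by nlinarith [hR.hC]
  have hsg : s * g ≤ 800 * C * (N * s) := by nlinarith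
  have hNs : 4 ≤ N * s := by
    have : 800 * C * 6 ≤ 800 * C * (N * s) := by nlinarith
    have := le_of_mul_le_mul_left this (by positivity)
    linarith
  have hN1 : 1 ≤ N := by
    rcases Nat.eq_zero_or_pos N with rfl | h
    · norm_num at hNs
    · exact h
  have hr : 1 < Real.exp (s / 4) := Real.one_lt_exp_iff.2 (by linarith)
  have hk := kr_le hs hs1 hNs
  filter_upwards [h₁ l (le_of_max_le_left (le_of_max_le_right hl)) ι g I θ s x₁ x₂ y₁ y₂ B hE hR hB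
    hlo hhi, h₂ l (le_of_max_le_right (le_of_max_le_right hl)) ι g I θ s x₁ x₂ y₁ y₂ B hE hR hB
    hlo hhi] with Y e₁ e₂
  refine (t4 I (fun i => Lam (θ i) x₁ * Lam (θ i) x₂) (fun i => ps (θ i))
    (div_pos (by linarith) hs) hB hr hN1
    (fun z hz => by
      rcases hz with rfl | hz
      · exact e₁ 1 (by simp) (by simpa using hr.le)
      · exact e₁ z (hz ▸ hr.le) hz.le)
    (fun z hz => e₂ z (hz ▸ hr.le) hz.le)).trans ?_
  have k1 : Real.exp (-(s * N / 4)) ≤ 1 := Real.exp_le_one_iff.2 (by nlinarith)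
  have k2 : Real.exp (1 / (6400 * C) * (s * g)) * Real.exp (-(s * N / 4)) ≤
      Real.exp (-(s * g) / (6400 * C)) := by
    rw [← Real.exp_add, Real.exp_le_exp, le_div_iff₀ (by positivity)]
    have : 1 / (6400 * C) * (s * g) * (6400 * C) = s * g := by field_simp
    nlinarith
  have c0 : (0 : ℝ) ≤ I.card := Nat.cast_nonneg _
  have p1 := Real.exp_pos (-(l : ℝ))
  have p2 := Real.exp_pos (1 / (6400 * C) * (s * g))
  refine (add_le_add le_rfl (mul_le_mul_of_nonneg_left hk (by positivity))).trans ?_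
  have q1 := mul_le_mul_of_nonneg_left k1 (mul_nonneg c0 p1.le)
  have q2 := mul_le_mul_of_nonneg_left k2 c0
  nlinarith

end Pool.Agent.MP_dd7250_nt.LS
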