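import Mathlib
import Pool.Agent.MP_dd7250_nt.LS.DA

/- Ratios at small shifts: the local factor of the model. -/

set_option autoImplicit false
set_option maxHeartbeats 400000

namespace Pool.Agent.MP_dd7250_nt.LS

open Finset Complex Filter Topology

theorem tail_MB1 (v : ℝ) (y : ℂ) (c : ℕ → ℂ) (hv : 0 < v) (hv1 : v ≤ 3 / 5) (hy : ‖y‖ ≤ v)
    (hc : ∀ k, 1 ≤ k → ‖c k‖ ≤ 4) (m : ℕ) (hm : 2 ≤ m) :
    ‖∑ k ∈ Icc 1 m, c k * y ^ k / k - c 1 * y - c 2 * y ^ 2 / 2‖ ≤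
      10 * v ^ 3 - 10 * v ^ (m + 1) := by
  induction m, hm using Nat.le_induction with
  | base =>
    have : ∑ k ∈ Icc 1 2, c k * y ^ k / k - c 1 * y - c 2 * y ^ 2 / 2 = 0 := by
      rw [sum_Icc_succ_top (by norm_num), Icc_self, sum_singleton]
      push_cast
      ring
    rw [this]
    simp
  | succ m hm ih =>
    rw [sum_Icc_succ_top (by omega)]
    have h1 : ‖c (m + 1) * y ^ (m + 1) / ((m + 1 : ℕ) : ℂ)‖ ≤ 4 * v ^ (m + 1) := by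
      rw [norm_div, norm_mul, norm_pow, Complex.norm_natCast]
      refine (div_le_self (by positivity) (by exact_mod_cast Nat.succ_le_succ m.zero_le)).trans ?_
      exact mul_le_mul (hc _ (by omega)) (pow_le_pow_left₀ (norm_nonneg _) hy _) (by positivity)
        (by norm_num)
    have h2 := norm_add_le (∑ k ∈ Icc 1 m, c k * y ^ k / k - c 1 * y - c 2 * y ^ 2 / 2)
      (c (m + 1) * y ^ (m + 1) / ((m + 1 : ℕ) : ℂ))
    have h3 : ∑ k ∈ Icc 1 m, c k * y ^ k / k + c (m + 1) * y ^ (m + 1) / ((m + 1 : ℕ) : ℂ) -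
        c 1 * y - c 2 * y ^ 2 / 2 =
        ∑ k ∈ Icc 1 m, c k * y ^ k / k - c 1 * y - c 2 * y ^ 2 / 2 +
          c (m + 1) * y ^ (m + 1) / ((m + 1 : ℕ) : ℂ) := by ring
    rw [h3]
    have h4 : 0 < v ^ (m + 1) := pow_pos hv _
    have h5 : v ^ (m + 1 + 1) = v ^ (m + 1) * v := pow_succ _ _
    nlinarith

theorem phi_MB1 (Y d : ℕ) (v : ℝ) (η : ℕ → ℂ) (x : ℂ) (hd : 1 ≤ d) (hY : d ≤ Y) (hv : 0 < v)
    (hv1 : v ≤ 3 / 5) (hη : ∀ j, 1 ≤ j → ‖η j‖ ≤ 4) (hx : x ^ 2 = 1) :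
    ∃ σ : ℂ, ‖σ‖ ≤ 10 ∧ phi Y v η d x =
      -(η d * v * x) - (if 2 * d ≤ Y then η (2 * d) else 0) * (v : ℂ) ^ 2 / 2 + (v : ℂ) ^ 3 * σ := by
  have hx1 : ‖x‖ = 1 := by
    have : ‖x‖ ^ 2 = 1 := by rw [← norm_pow, hx, norm_one]
    exact (pow_eq_one_iff_of_nonneg (norm_nonneg x) two_ne_zero).1 this
  have v0 : (v : ℂ) ≠ 0 := by exact_mod_cast hv.ne'
  by_cases h : 2 * d ≤ Y
  · have hm : 2 ≤ Y / d := (Nat.le_div_iff_mul_le (by omega)).2 h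
    have h1 := tail_MB1 v (v * x) (fun k => η (k * d)) hv hv1
      (by rw [norm_mul, hx1, mul_one, Complex.norm_real, Real.norm_of_nonneg hv.le])
      (fun k hk => hη _ (Nat.mul_pos hk hd)) (Y / d) hm
    refine ⟨-(∑ k ∈ Icc 1 (Y / d), η (k * d) * (v * x) ^ k / k - η (1 * d) * (v * x) -
      η (2 * d) * (v * x) ^ 2 / 2) / (v : ℂ) ^ 3, ?_, ?_⟩
    · rw [norm_div, norm_neg, norm_pow, Complex.norm_real, Real.norm_of_nonneg hv.le,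
        div_le_iff₀ (by positivity)]
      linarith [pow_pos hv (Y / d + 1)]
    · rw [if_pos h, mul_div_cancel₀ _ (pow_ne_zero 3 v0), phi, mul_pow, hx, one_mul]
      ring
  · have hm : Y / d = 1 := by
      refine le_antisymm (Nat.lt_succ_iff.1 ((Nat.div_lt_iff_lt_mul (by omega)).2 (by omega))) ?_
      exact (Nat.le_div_iff_mul_le (by omega)).2 (by omega)
    refine ⟨0, by simp, ?_⟩
    rw [if_neg h, phi, hm, Icc_self, sum_singleton]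
    simp only [one_mul, pow_one, Nat.cast_one]
    ring

theorem exp_MB1 (v : ℝ) (a b x σ : ℂ) (hv : 0 < v) (hv1 : v ≤ 3 / 5) (ha : ‖a‖ ≤ 4)
    (hb : ‖b‖ ≤ 4) (hx : x ^ 2 = 1) (hσ : ‖σ‖ ≤ 10) :
    ∃ ρ : ℂ, ‖ρ‖ ≤ 1000 * Real.exp 6 + 100 ∧
      exp (-(a * v * x) - b * (v : ℂ) ^ 2 / 2 + (v : ℂ) ^ 3 * σ) =
        1 - a * v * x + (a ^ 2 - b) / 2 * (v : ℂ) ^ 2 + (v : ℂ) ^ 3 * ρ := by
  have hx1 : ‖x‖ = 1 := by
    have : ‖x‖ ^ 2 = 1 := by rw [← norm_pow, hx, norm_one]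
    exact (pow_eq_one_iff_of_nonneg (norm_nonneg x) two_ne_zero).1 this
  have v0 : (v : ℂ) ≠ 0 := by exact_mod_cast hv.ne'
  have nv : ‖(v : ℂ)‖ = v := by rw [Complex.norm_real, Real.norm_of_nonneg hv.le]
  set g : ℂ := -b / 2 + v * σ with hg
  have g1 : ‖g‖ ≤ 8 := by
    refine (norm_add_le _ _).trans ?_
    rw [norm_div, norm_neg, norm_mul, nv, Complex.norm_ofNat]
    nlinarith [norm_nonneg σ]
  set φ : ℂ := -(a * v * x) - b * (v : ℂ) ^ 2 / 2 + (v : ℂ) ^ 3 * σ with hφ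
  have e1 : φ = v * (-(a * x) + v * g) := by rw [hφ, hg]; ring
  have n1 : ‖φ‖ ≤ 10 * v := by
    rw [e1, norm_mul, nv, mul_comm]
    refine mul_le_mul_of_nonneg_right ((norm_add_le _ _).trans ?_) hv.le
    rw [norm_neg, norm_mul, hx1, norm_mul, nv]
    nlinarith [norm_nonneg g]
  have n2 := Complex.norm_exp_sub_sum_le_norm_mul_exp φ 3
  have n3 : ‖φ‖ ^ 3 * Real.exp ‖φ‖ ≤ (10 * v) ^ 3 * Real.exp 6 :=
    mul_le_mul (pow_le_pow_left₀ (norm_nonneg _) n1 3) (Real.exp_le_exp.2 (by linarith))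
      (Real.exp_pos _).le (by positivity)
  set θ : ℂ := exp φ - ∑ m ∈ range 3, φ ^ m / m.factorial with hθ
  have e2 : exp φ = 1 + φ + φ ^ 2 / 2 + θ := by
    rw [hθ]
    simp [sum_range_succ, Nat.factorial]
  refine ⟨θ / (v : ℂ) ^ 3 + (σ + (-(a * x * g) + v * g ^ 2 / 2)), ?_, ?_⟩
  · refine (norm_add_le _ _).trans (add_le_add ?_ ((norm_add_le _ _).trans ?_))
    · rw [norm_div, norm_pow, nv, div_le_iff₀ (by positivity)]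
      refine n2.trans (n3.trans_eq (by ring))
    · have h1 := norm_add_le (-(a * x * g)) (v * g ^ 2 / 2)
      rw [norm_neg, norm_mul, norm_mul, hx1, norm_div, norm_mul, norm_pow, nv,
        Complex.norm_ofNat] at h1
      have h2 : ‖g‖ ^ 2 ≤ 8 ^ 2 := pow_le_pow_left₀ (norm_nonneg _) g1 2
      have h3 : ‖a‖ * 1 * ‖g‖ ≤ 4 * 8 := by
        rw [mul_one]; exact mul_le_mul ha g1 (norm_nonneg _) (by norm_num)
      nlinarith [norm_nonneg g]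
  · rw [mul_add, mul_div_cancel₀ _ (pow_ne_zero 3 v0), e2, e1, hg]
    linear_combination (a ^ 2 * (v : ℂ) ^ 2 / 2) * hx

theorem poly_MB1 (R : ℝ) : ∃ K : ℝ, 0 ≤ K ∧ ∀ U α β η e ρ τ q : ℂ, ‖U‖ ≤ R → ‖α‖ ≤ R → ‖β‖ ≤ R →
    ‖η‖ ≤ R → ‖e‖ ≤ R → ‖ρ‖ ≤ R → ‖τ‖ ≤ R → ‖q‖ ≤ R → q * (1 + U ^ 8) = 1 →
    ‖q * (1 - U ^ 3 * α * (U ^ 3 * β)) * (U ^ 8 * ((1 - (U ^ 3 * α) ^ 2) * (1 - (U ^ 3 * β) ^ 2)) +
      1 / 2 * ((1 + U ^ 3 * α) * (1 + U ^ 3 * β)) * (1 - η * U ^ 4 + e * U ^ 8 + U ^ 12 * ρ) +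
      1 / 2 * ((1 - U ^ 3 * α) * (1 - U ^ 3 * β)) * (1 + η * U ^ 4 + e * U ^ 8 + U ^ 12 * τ)) -
      1 - (-((α + β) * η * U ^ 7) + e * U ^ 8)‖ ≤ K * ‖U‖ ^ 12 := by
  let E : (Fin 8 → ℂ) → ℂ := fun z => z 4 + z 0 ^ 4 * (z 5 + z 6) / 2
  let O : (Fin 8 → ℂ) → ℂ := fun z => -z 3 + z 0 ^ 8 * (z 5 - z 6) / 2
  let W : (Fin 8 → ℂ) → ℂ := fun z => -z 1 ^ 2 - z 2 ^ 2 + z 0 ^ 6 * z 1 ^ 2 * z 2 ^ 2
  let T : (Fin 8 → ℂ) → ℂ := fun z =>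
    z 0 * E z + (z 1 + z 2) * O z + z 0 ^ 7 * z 1 * z 2 * E z + z 0 ^ 7 * W z
  let P : (Fin 8 → ℂ) → ℂ := fun z =>
    (z 5 + z 6) / 2 + z 0 ^ 3 * (z 1 + z 2) * (z 5 - z 6) / 2 + z 0 ^ 2 * z 1 * z 2 * E z +
      z 0 ^ 2 * W z - z 1 ^ 2 * z 2 ^ 2 - z 0 * z 1 * z 2 * T z -
      (1 - z 0 ^ 6 * z 1 * z 2) * z 0 ^ 2 * z 7 * (z 1 * z 2 + z 0 * T z)
  have hE : Continuous E := by fun_prop
  have hO : Continuous O := by fun_prop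
  have hW : Continuous W := by fun_prop
  have hT : Continuous T := by fun_prop
  have hP : Continuous P := by fun_prop
  obtain ⟨K, hK⟩ := (isCompact_closedBall (0 : Fin 8 → ℂ) R).exists_bound_of_continuousOn
    hP.continuousOn
  refine ⟨max K 0, le_max_right _ _, fun U α β η e ρ τ q h0 h1 h2 h3 h4 h5 h6 h7 hq => ?_⟩
  have hb := hK ![U, α, β, η, e, ρ, τ, q] (by
    rw [mem_closedBall_zero_iff, pi_norm_le_iff_of_nonneg ((norm_nonneg _).trans h0)]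
    intro i
    fin_cases i <;> assumption)
  have he : q * (1 - U ^ 3 * α * (U ^ 3 * β)) *
      (U ^ 8 * ((1 - (U ^ 3 * α) ^ 2) * (1 - (U ^ 3 * β) ^ 2)) +
      1 / 2 * ((1 + U ^ 3 * α) * (1 + U ^ 3 * β)) * (1 - η * U ^ 4 + e * U ^ 8 + U ^ 12 * ρ) +
      1 / 2 * ((1 - U ^ 3 * α) * (1 - U ^ 3 * β)) * (1 + η * U ^ 4 + e * U ^ 8 + U ^ 12 * τ)) -
      1 - (-((α + β) * η * U ^ 7) + e * U ^ 8) = P ![U, α, β, η, e, ρ, τ, q] * U ^ 12 := by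
    have : T ![U, α, β, η, e, ρ, τ, q] = U * (e + U ^ 4 * (ρ + τ) / 2) +
        (α + β) * (-η + U ^ 8 * (ρ - τ) / 2) + U ^ 7 * α * β * (e + U ^ 4 * (ρ + τ) / 2) +
        U ^ 7 * (-α ^ 2 - β ^ 2 + U ^ 6 * α ^ 2 * β ^ 2) := rfl
    have h : P ![U, α, β, η, e, ρ, τ, q] = (ρ + τ) / 2 + U ^ 3 * (α + β) * (ρ - τ) / 2 +
        U ^ 2 * α * β * (e + U ^ 4 * (ρ + τ) / 2) +
        U ^ 2 * (-α ^ 2 - β ^ 2 + U ^ 6 * α ^ 2 * β ^ 2) - α ^ 2 * β ^ 2 -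
        U * α * β * T ![U, α, β, η, e, ρ, τ, q] -
        (1 - U ^ 6 * α * β) * U ^ 2 * q * (α * β + U * T ![U, α, β, η, e, ρ, τ, q]) := rfl
    rw [h]
    linear_combination ((1 - U ^ 6 * α * β) *
      (1 + U ^ 6 * (α * β + U * T ![U, α, β, η, e, ρ, τ, q]))) * hq -
      ((1 - U ^ 6 * α * β) * q * U ^ 7 * (1 + U ^ 8) - (1 - U ^ 6 * α * β) * U ^ 15 * q -
        U ^ 7) * this
  rw [he, norm_mul, norm_pow]
  exact mul_le_mul_of_nonneg_right (hb.trans (le_max_left _ _)) (by positivity)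

theorem lc_est : ∃ K : ℝ, 0 ≤ K ∧ ∀ (Y d : ℕ) (v : ℝ) (X₁ X₂ : ℂ) (η : ℕ → ℂ), 1 ≤ d → d ≤ Y →
    0 < v → v ≤ 3 / 5 → ‖X₁‖ ^ 4 * v ≤ 1 → ‖X₂‖ ^ 4 * v ≤ 1 → (∀ j, 1 ≤ j → ‖η j‖ ≤ 4) →
    ‖lc Y v X₁ X₂ η d - 1 - mtm Y (X₁ + X₂) η d * (v : ℂ) ^ 2‖ ≤ K * v ^ 3 := by
  obtain ⟨K, K0, hK⟩ := poly_MB1 (1000 * Real.exp 6 + 100)
  refine ⟨K, K0, fun Y d v X₁ X₂ η hd hY hv hv1 h1 h2 hη => ?_⟩
  have E0 : 0 < Real.exp 6 := Real.exp_pos 6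
  obtain ⟨u, u0, hu⟩ : ∃ u : ℝ, 0 < u ∧ u ^ 4 = v :=
    ⟨v ^ ((4 : ℕ) : ℝ)⁻¹, Real.rpow_pos_of_pos hv _, Real.rpow_inv_natCast_pow hv.le (by norm_num)⟩
  have u1 : u ≤ 1 := by
    by_contra h
    have : 1 ≤ u ^ 4 := one_le_pow₀ (not_le.1 h).le
    linarith
  have nu : ‖(u : ℂ)‖ = u := by rw [Complex.norm_real, Real.norm_of_nonneg u0.le]
  have hX : ∀ X : ℂ, ‖X‖ ^ 4 * v ≤ 1 → ‖X * u‖ ≤ 1000 * Real.exp 6 + 100 := fun X h => by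
    have : ‖X * u‖ ≤ 1 := by
      rw [norm_mul, nu]
      refine (pow_le_one_iff_of_nonneg (by positivity) four_ne_zero).1 ?_
      rwa [mul_pow, hu]
    linarith
  set b : ℂ := if 2 * d ≤ Y then η (2 * d) else 0 with hb
  have b1 : ‖b‖ ≤ 4 := by
    rw [hb]
    split_ifs
    · exact hη _ (by omega)
    · simp
  have a1 := hη d hd
  obtain ⟨σ₁, s1, p1⟩ := phi_MB1 Y d v η 1 hd hY hv hv1 hη (by norm_num)
  obtain ⟨σ₂, s2, p2⟩ := phi_MB1 Y d v η (-1) hd hY hv hv1 hη (by norm_num)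
  obtain ⟨ρ, r1, q1⟩ := exp_MB1 v (η d) b 1 σ₁ hv hv1 a1 b1 (by norm_num) s1
  obtain ⟨τ, r2, q2⟩ := exp_MB1 v (η d) b (-1) σ₂ hv hv1 a1 b1 (by norm_num) s2
  rw [← hb] at p1 p2
  rw [← p1] at q1
  rw [← p2] at q2
  have p0 : phi Y v η d 0 = 0 := by
    rw [phi, neg_eq_zero]
    refine sum_eq_zero fun k hk => ?_
    rw [mul_zero, zero_pow (by have := (mem_Icc.1 hk).1; omega), mul_zero, zero_div]
  have hU : (v : ℂ) = (u : ℂ) ^ 4 := by rw [← hu]; push_cast; rfl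
  have w0 : (1 : ℝ) ≤ 1 + u ^ 8 := by linarith [pow_pos u0 8]
  have w1 : (1 + (u : ℂ) ^ 8) = ((1 + u ^ 8 : ℝ) : ℂ) := by push_cast; rfl
  have w2 : (1 + (u : ℂ) ^ 8) ≠ 0 := by
    rw [w1]; exact_mod_cast (by linarith : (1 + u ^ 8 : ℝ) ≠ 0)
  have key := hK u (X₁ * u) (X₂ * u) (η d) ((η d ^ 2 - b) / 2) ρ τ (1 + (u : ℂ) ^ 8)⁻¹
    (by rw [nu]; linarith) (hX X₁ h1) (hX X₂ h2) (by linarith) (by
      rw [norm_div, Complex.norm_ofNat]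
      have := norm_sub_le (η d ^ 2) b
      rw [norm_pow] at this
      have h4 : ‖η d‖ ^ 2 ≤ 4 ^ 2 := pow_le_pow_left₀ (norm_nonneg _) a1 2
      linarith) r1 r2 (by
      rw [norm_inv, w1, Complex.norm_real, Real.norm_of_nonneg (by linarith)]
      have := inv_le_one_of_one_le₀ w0
      linarith) (inv_mul_cancel₀ w2)
  rw [nu, show u ^ 12 = v ^ 3 by rw [← hu]; ring] at key
  refine le_of_eq_of_le (congrArg norm ?_) key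
  have n1 : (0 : ℂ) ∉ ({1, -1} : Finset ℂ) := by simp
  have n2 : (1 : ℂ) ≠ -1 := by norm_num
  rw [lc, sum_insert n1, sum_pair n2, p0, q1, q2, mtm, ← hb]
  simp only [mu, if_true, one_ne_zero, if_false, neg_eq_zero, Complex.exp_zero]
  rw [hU]
  have : ((u : ℂ) ^ 4) ^ 2 = (u : ℂ) ^ 8 := by ring
  rw [this]
  ring

end Pool.Agent.MP_dd7250_nt.LS
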