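import Mathlib
import Pool.Agent.MP_dd7250_nt.LS.DT

/- Ratios at small shifts: the model and exponentials of linear forms. -/

set_option autoImplicit false
set_option maxHeartbeats 400000

namespace Pool.Agent.MP_dd7250_nt.LS

open Polynomial Finset Filter Topology Pool.Agent.MP_d232b3_nt Pool.Agent.MP_dd7250_nt
open scoped Classical

variable {F : Type} [Field F] [Fintype F]

theorem reidx_NU {d : ℕ} (hd : 0 < d) (Y : ℕ) (f : ℕ → ℂ) :
    ∑ j ∈ Icc 1 Y with d ∣ j, f j = ∑ k ∈ Icc 1 (Y / d), f (k * d) := by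
  symm
  refine sum_nbij' (fun k => k * d) (fun j => j / d) (fun k hk => ?_) (fun j hj => ?_)
    (fun k _ => Nat.mul_div_cancel k hd) (fun j hj => Nat.div_mul_cancel (mem_filter.1 hj).2)
    fun _ _ => rfl
  · obtain ⟨h1, h2⟩ := mem_Icc.1 hk
    exact mem_filter.2 ⟨mem_Icc.2 ⟨Nat.mul_pos h1 hd, (Nat.le_div_iff_mul_le hd).1 h2⟩,
      Dvd.intro_left k rfl⟩
  · obtain ⟨h1, h2⟩ := mem_filter.1 hj
    obtain ⟨h3, h4⟩ := mem_Icc.1 h1
    exact mem_Icc.2 ⟨Nat.div_pos (Nat.le_of_dvd h3 h2) hd, Nat.div_le_div_right h4⟩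

theorem roots_NU {a b : ℂ} {t : ℝ} (ht : 0 < t) (h1 : t ≤ 1) (ha : ‖a - 1‖ ≤ t ^ 2)
    (hb : ‖b - 1‖ ≤ t ^ 2) : ∃ r r' : ℂ, ‖r‖ ≤ 2 * t ∧ ‖r'‖ ≤ 2 * t ∧
      a = (1 - r) * (1 - r') ∧ b = (1 + r) * (1 + r') := by
  obtain ⟨w, hw⟩ := IsAlgClosed.exists_pow_nat_eq
    (((a - b) / 2) ^ 2 - 4 * ((a + b) / 2 - 1)) two_pos
  have ho : ‖(a - b) / 2‖ ≤ t ^ 2 := by
    rw [show (a - b) / 2 = ((a - 1) - (b - 1)) / 2 by ring, norm_div, Complex.norm_two]
    linarith [norm_sub_le (a - 1) (b - 1)]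
  have he : ‖(a + b) / 2 - 1‖ ≤ t ^ 2 := by
    rw [show (a + b) / 2 - 1 = ((a - 1) + (b - 1)) / 2 by ring, norm_div, Complex.norm_two]
    linarith [norm_add_le (a - 1) (b - 1)]
  have key : ∀ r : ℂ, r ^ 2 = -((a - b) / 2 * r + ((a + b) / 2 - 1)) → ‖r‖ ≤ 2 * t := by
    intro r hr
    have h2 : ‖r‖ ^ 2 ≤ t ^ 2 * ‖r‖ + t ^ 2 := by
      rw [← norm_pow, hr, norm_neg]
      refine (norm_add_le _ _).trans (add_le_add ?_ he)
      rw [norm_mul]
      exact mul_le_mul_of_nonneg_right ho (norm_nonneg _)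
    by_contra h
    have h3 := not_le.1 h
    have h4 : t ^ 2 ≤ t := by nlinarith
    have h5 := mul_le_mul_of_nonneg_right h4 (norm_nonneg r)
    nlinarith [mul_pos ht (sub_pos.2 h3), mul_pos (sub_pos.2 h3) (sub_pos.2 h3)]
  refine ⟨(-((a - b) / 2) + w) / 2, (-((a - b) / 2) - w) / 2, key _ ?_, key _ ?_, ?_, ?_⟩
  · linear_combination (1 / 4 : ℂ) * hw
  · linear_combination (1 / 4 : ℂ) * hw
  · linear_combination (1 / 4 : ℂ) * hw
  · linear_combination (1 / 4 : ℂ) * hw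

theorem phi_le_NU (hF : ringChar F ≠ 2) (Y : ℕ) {η : ℕ → ℂ}
    (h : ∀ j : ℕ, 1 ≤ j → ‖η j‖ ≤ qp F (-10 * j)) {d : ℕ} (hd : 1 ≤ d) {x : ℂ} (hx : ‖x‖ ≤ 1) :
    ‖Complex.exp (phi Y ((sq F)⁻¹ ^ d) η d x) - 1‖ ≤ (2 * qp F (-5 * d)) ^ 2 := by
  have hd' : (1 : ℝ) ≤ d := by exact_mod_cast hd
  have h0 := qp_pos (F := F) (-10 * d)
  have h2 : qp F (-10 * d) ≤ 1 / 2 := by
    refine (qp_mono (y := -1) (by linarith)).trans ?_
    rw [qp_neg, qp_one, inv_le_comm₀ (by linarith [three_le_Q hF]) (by norm_num)]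
    linarith [three_le_Q hF]
  have hv : ‖(sq F)⁻¹ ^ d * x‖ ≤ 1 := by
    rw [norm_mul, sq_inv_pow, Complex.norm_real, Real.norm_of_nonneg (qp_pos _).le]
    exact mul_le_one₀ (qp_le_one (by linarith)) (norm_nonneg _) hx
  have h3 : ‖phi Y ((sq F)⁻¹ ^ d) η d x‖ ≤ 2 * qp F (-10 * d) := by
    rw [phi, norm_neg]
    refine (norm_sum_le _ _).trans ((sum_le_sum (g := fun k => qp F (-10 * d) ^ k)
      fun k hk => ?_).trans ?_)
    · have hk1 := (mem_Icc.1 hk).1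
      have hk' : (1 : ℝ) ≤ k := by exact_mod_cast hk1
      have h4 := h (k * d) (Nat.mul_pos hk1 hd)
      rw [norm_div, norm_mul, norm_pow, Complex.norm_natCast, qp_pow]
      refine (div_le_self (by positivity) hk').trans ((mul_le_of_le_one_right (norm_nonneg _)
        (pow_le_one₀ (norm_nonneg _) hv)).trans (h4.trans_eq ?_))
      push_cast
      congr 1
      ring
    · rw [← Ico_add_one_right_eq_Icc]
      refine (geom_sum_Ico_le_of_lt_one h0.le (by linarith)).trans ?_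
      rw [pow_one, div_le_iff₀ (by linarith)]
      nlinarith
  refine (Complex.norm_exp_sub_one_le (h3.trans (by linarith))).trans ?_
  rw [mul_pow, qp_pow, show -5 * (d : ℝ) * (2 : ℕ) = -10 * d by push_cast; ring]
  linarith

theorem lf_pp (Y : ℕ) (η : ℕ → ℂ) (χ : F[X] → ℂ) :
    lf Y η (pp χ) = ∑ P ∈ pr F Y, phi Y ((sq F)⁻¹ ^ P.natDegree) η P.natDegree (χ P) := by
  have h1 : ∀ j ∈ Icc 1 Y, η j * pp χ j / j = ∑ P ∈ pr F Y, if P.natDegree ∣ j then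
      -(η j * ((sq F)⁻¹ ^ j * ((P.natDegree : ℂ) * χ P ^ (j / P.natDegree))) / j) else 0 := by
    intro j hj
    obtain ⟨j1, j2⟩ := mem_Icc.1 hj
    have e : (pr F j).filter (fun P => P.natDegree ∣ j) =
        (pr F Y).filter (fun P => P.natDegree ∣ j) := by
      ext P
      simp only [mem_filter, mem_pr]
      exact ⟨fun h => ⟨⟨h.1.1, h.1.2.1, h.1.2.2.trans j2⟩, h.2⟩,
        fun h => ⟨⟨h.1.1, h.1.2.1, Nat.le_of_dvd j1 h.2⟩, h.2⟩⟩
    rw [← sum_filter, pp, e, sum_neg_distrib, ← sum_div, ← mul_sum, ← mul_sum, mul_neg, neg_div]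
  rw [lf, sum_congr rfl h1, sum_comm]
  refine sum_congr rfl fun P hP => ?_
  have hd := deg_pos (mem_pr.1 hP).2.1
  rw [← sum_filter, reidx_NU hd, phi, ← sum_neg_distrib]
  refine sum_congr rfl fun k hk => ?_
  have hk0 : (k : ℂ) ≠ 0 := Nat.cast_ne_zero.2 (by have := (mem_Icc.1 hk).1; omega)
  have hd0 : (P.natDegree : ℂ) ≠ 0 := Nat.cast_ne_zero.2 hd.ne'
  rw [Nat.mul_div_cancel k hd, mul_pow, ← pow_mul, mul_comm P.natDegree k]
  push_cast
  field_simp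

theorem nu_exp (Y : ℕ) (x₁ x₂ : ℂ) (η : ℕ → ℂ) :
    nu F Y x₁ x₂ (fun π => Complex.exp (lf Y η π)) = PL F Y x₁ x₂ η := by
  simp only [nu, PL, lc, Xs, wm, lf_pp, Complex.exp_sum, ← prod_mul_distrib]
  rw [Finset.prod_sum]
  refine sum_congr rfl fun p _ => ?_
  rw [← prod_attach]
  refine prod_congr rfl fun P _ => ?_
  rw [xt, dif_pos P.2]

/-- The local factor of the main term is a sum over the three values of the character. -/
theorem BP_eq_mu (d : ℕ) (a₀ a₁ r r' : ℂ) :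
    BP F d ![a₀, a₁, r, r'] = ∑ x ∈ ({0, 1, -1} : Finset ℂ),
      mu (((sq F)⁻¹ ^ d) ^ 2) a₀ a₁ x * ((1 - x * r) * (1 - x * r')) := by
  have e : ((sq F)⁻¹ ^ d) ^ 2 = ((Q F : ℂ) ^ d)⁻¹ := by
    rw [← pow_mul, mul_comm, pow_mul, inv_pow, sq_sq, inv_pow]
  rw [e, sum_insert (by norm_num), sum_insert (by norm_num), sum_singleton, BP]
  simp only [mu, if_true, one_ne_zero, if_false, neg_eq_zero, Algebra.algebraMap_self,
    RingHom.id_apply, Matrix.cons_val_zero, Matrix.cons_val_one, Matrix.cons_val]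
  ring

/-- A small exponential at the three values is a product of two linear factors. -/
theorem exists_roots (hF : ringChar F ≠ 2) (Y : ℕ) {η : ℕ → ℂ}
    (h : ∀ j : ℕ, 1 ≤ j → ‖η j‖ ≤ qp F (-10 * j)) : ∃ r r' : ℕ → ℂ,
    (∀ d : ℕ, ‖r d‖ ≤ qp F (-3 * d)) ∧ (∀ d : ℕ, ‖r' d‖ ≤ qp F (-3 * d)) ∧
    (∀ d, Y < d → r d = 0 ∧ r' d = 0) ∧ ∀ d, 1 ≤ d → d ≤ Y → ∀ x ∈ ({0, 1, -1} : Finset ℂ),
      Complex.exp (phi Y ((sq F)⁻¹ ^ d) η d x) = (1 - x * r d) * (1 - x * r' d) := by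
  have key : ∀ d : ℕ, ∃ r r' : ℂ, ‖r‖ ≤ qp F (-3 * d) ∧ ‖r'‖ ≤ qp F (-3 * d) ∧
      (Y < d → r = 0 ∧ r' = 0) ∧ (1 ≤ d → d ≤ Y → ∀ x ∈ ({0, 1, -1} : Finset ℂ),
        Complex.exp (phi Y ((sq F)⁻¹ ^ d) η d x) = (1 - x * r) * (1 - x * r')) := by
    intro d
    by_cases hd : 1 ≤ d ∧ d ≤ Y
    · have hd' : (1 : ℝ) ≤ d := by exact_mod_cast hd.1
      have h0 := qp_pos (F := F) (-5 * d)
      have h3 := three_le_Q hF
      have h4 : 2 * (2 * qp F (-5 * d)) ≤ qp F (-3 * d) := by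
        have h5 : 4 ≤ qp F (2 * d) := by
          refine le_trans ?_ (qp_mono (x := (2 : ℕ)) (by push_cast; linarith))
          rw [qp_nat]
          nlinarith
        rw [show -3 * (d : ℝ) = 2 * d + -5 * d by ring, qp_add]
        nlinarith
      have h6 : qp F (-3 * d) ≤ 1 := qp_le_one (by linarith)
      obtain ⟨r, r', a1, a2, a3, a4⟩ := roots_NU (t := 2 * qp F (-5 * d)) (by positivity)
        (by linarith) (phi_le_NU hF Y h hd.1 (x := 1) (by simp))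
        (phi_le_NU hF Y h hd.1 (x := -1) (by simp))
      refine ⟨r, r', a1.trans h4, a2.trans h4, fun h => absurd hd.2 (not_le.2 h),
        fun _ _ x hx => ?_⟩
      simp only [mem_insert, mem_singleton] at hx
      rcases hx with rfl | rfl | rfl
      · rw [phi, sum_eq_zero fun k hk => by
          rw [mul_zero, zero_pow (by have := (mem_Icc.1 hk).1; omega), mul_zero, zero_div]]
        simp
      · rw [a3, one_mul, one_mul]
      · rw [a4]
        ring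
    · exact ⟨0, 0, by simpa using (qp_pos _).le, by simpa using (qp_pos _).le,
        fun _ => ⟨rfl, rfl⟩, fun h1 h2 => absurd ⟨h1, h2⟩ hd⟩
  choose r r' h1 h2 h3 h4 using key
  exact ⟨r, r', h1, h2, h3, h4⟩

end Pool.Agent.MP_dd7250_nt.LS
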