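import Mathlib
import Pool.Agent.MP_dd7250_nt.LS.DT

/- Ratios at small shifts: the local factor of the twisted main term. -/

set_option autoImplicit false
set_option maxHeartbeats 400000

namespace Pool.Agent.MP_dd7250_nt.LS

open Polynomial Finset Filter Topology Pool.Agent.MP_d232b3_nt Pool.Agent.MP_dd7250_nt
open scoped Classical

variable {F : Type} [Field F] [Fintype F]

theorem BP_bound' {u₀ u₁ : ℂ} {r r' : ℕ → ℂ} (h0 : ‖u₀‖ ≤ qp F (-(7 / 16)))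
    (h1 : ‖u₁‖ ≤ qp F (-(7 / 16))) (hr : ∀ d : ℕ, ‖r d‖ ≤ qp F (-2 * d))
    (hr' : ∀ d : ℕ, ‖r' d‖ ≤ qp F (-2 * d)) (d : ℕ) :
    ‖BP F d (av u₀ u₁ r r' d) - 1‖ ≤ 20 * qp F (-(1 + 1 / 2) * d) := by
  have n : ∀ {u : ℂ}, ‖u‖ ≤ qp F (-(7 / 16)) → ‖u ^ d‖ ≤ qp F (-(7 / 16) * d) := fun h => by
    rw [norm_pow, ← qp_pow]
    exact pow_le_pow_left₀ (norm_nonneg _) h d
  have n0 := n h0
  have n1 := n h1
  have n2 := hr d
  have n3 := hr' d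
  have e1 : qp F (-(1 + 1 / 2) * d) = qp F (-d) * qp F (-(1 / 2) * d) := by
    rw [← qp_add]
    congr 1
    ring
  have e2 : ((Q F : ℂ) ^ d)⁻¹ = (qp F (-d) : ℝ) := by
    rw [qp_neg, qp_nat]
    push_cast
    rfl
  have m01 := inf_mul n0 n1 le_rfl
  have key := inf_alg (p := qp F (-d)) (δ := qp F (-(1 / 2) * d)) (qp_pos _).le
    (qp_le_one (mul_nonpos_of_nonpos_of_nonneg (by norm_num) (Nat.cast_nonneg d)))
    (inf_mul n0 n1 (by norm_num)) (inf_mul n0 n0 (by norm_num)) (inf_mul n1 n1 (by norm_num))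
    (e1 ▸ inf_mul m01 m01 (by norm_num)) (e1 ▸ inf_mul n0 n2 (by norm_num))
    (e1 ▸ inf_mul n0 n3 (by norm_num)) (e1 ▸ inf_mul n1 n2 (by norm_num))
    (e1 ▸ inf_mul n1 n3 (by norm_num)) (e1 ▸ inf_mul n2 n3 (by norm_num))
  rw [e1, BP, e2]
  exact key

theorem nrm_TW {x : ℂ} (h : ‖x‖ ≤ qp F (1 / 16)) : ‖x * (sq F)⁻¹‖ ≤ qp F (-(7 / 16)) := by
  rw [norm_mul, norm_inv, norm_sq, ← qp_neg]
  refine (mul_le_mul_of_nonneg_right h (qp_pos _).le).trans_eq ?_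
  rw [← qp_add]
  norm_num

theorem bd_TW {x₁ x₂ : ℂ} (h0 : ‖x₁‖ ≤ qp F (1 / 16)) (h1 : ‖x₂‖ ≤ qp F (1 / 16)) (Y d : ℕ) :
    ‖(if d ≤ Y then 1 else BP F d (av (x₁ * (sq F)⁻¹) (x₂ * (sq F)⁻¹) 0 0 d)) - 1‖ ≤
      20 * qp F (-(1 + 1 / 2) * d) := by
  have z : ∀ d : ℕ, ‖(0 : ℕ → ℂ) d‖ ≤ qp F (-2 * d) := fun d => by
    simpa using (qp_pos (F := F) _).le
  split_ifs
  · rw [sub_self, norm_zero]
    exact mul_nonneg (by norm_num) (qp_pos _).le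
  · exact BP_bound' (nrm_TW h0) (nrm_TW h1) z z d

theorem tl_lim {x₁ x₂ : ℂ} (h0 : ‖x₁‖ ≤ qp F (1 / 16)) (h1 : ‖x₂‖ ≤ qp F (1 / 16)) :
    Tendsto (fun Y => tl F Y x₁ x₂) atTop (𝓝 1) := by
  have h := tendsto_tprod_one_add_of_dominated_convergence (𝓕 := atTop) (g := fun _ => (0 : ℂ))
    (f := fun (Y : ℕ) (P : Prm F) => (if P.1.natDegree ≤ Y then 1 else
      BP F P.1.natDegree (av (x₁ * (sq F)⁻¹) (x₂ * (sq F)⁻¹) 0 0 P.1.natDegree)) - 1)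
    ((inf_summable (F := F) one_half_pos).mul_left 20)
    (fun P => tendsto_const_nhds.congr' ((eventually_ge_atTop P.1.natDegree).mono fun Y hY => by
      simp only [if_pos hY, sub_self]))
    (Eventually.of_forall fun Y P => bd_TW h0 h1 Y _)
  simpa only [add_sub_cancel, add_zero, tprod_one, tl] using h

theorem tprod_split {x₁ x₂ : ℂ} (h0 : ‖x₁‖ ≤ qp F (1 / 16)) (h1 : ‖x₂‖ ≤ qp F (1 / 16))
    {r r' : ℕ → ℂ} {Y : ℕ} (hY : ∀ d, Y < d → r d = 0 ∧ r' d = 0) :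
    ∏' P : Prm F, BP F P.1.natDegree
        (av (x₁ * (sq F)⁻¹) (x₂ * (sq F)⁻¹) r r' P.1.natDegree) =
      tl F Y x₁ x₂ * ∏ P ∈ pr F Y, BP F P.natDegree
        (av (x₁ * (sq F)⁻¹) (x₂ * (sq F)⁻¹) r r' P.natDegree) := by
  have h2 := multipliable_one_add_of_summable (Summable.of_nonneg_of_le (fun _ => norm_nonneg _)
    (fun P : Prm F => bd_TW h0 h1 Y P.1.natDegree)
    ((inf_summable (F := F) one_half_pos).mul_left 20))
  simp only [add_sub_cancel] at h2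
  have h3 := hasProd_prod_of_ne_finset_one (L := SummationFilter.unconditional _)
    (s := (pr F Y).subtype fun P : F[X] => P.Monic ∧ Irreducible P)
    (f := fun P : Prm F => if P.1.natDegree ≤ Y then BP F P.1.natDegree
      (av (x₁ * (sq F)⁻¹) (x₂ * (sq F)⁻¹) r r' P.1.natDegree) else 1) fun P hP =>
    if_neg fun h => hP (mem_subtype.2 (mem_pr.2 ⟨P.2.1, P.2.2, h⟩))
  rw [prod_subtype_of_mem (fun P : F[X] => if P.natDegree ≤ Y then BP F P.natDegree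
      (av (x₁ * (sq F)⁻¹) (x₂ * (sq F)⁻¹) r r' P.natDegree) else 1)
    fun P hP => ⟨(mem_pr.1 hP).1, (mem_pr.1 hP).2.1⟩,
    prod_congr rfl fun P hP => if_pos (mem_pr.1 hP).2.2] at h3
  refine Eq.trans (tprod_congr fun P => ?_) (h2.hasProd.mul h3).tprod_eq
  split_ifs with h
  · rw [one_mul]
  · rw [mul_one, av, av, (hY _ (not_le.1 h)).1, (hY _ (not_le.1 h)).2]
    rfl

end Pool.Agent.MP_dd7250_nt.LS
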