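import Mathlib
import Pool.Agent.MP_dd7250_nt.LS.GX
import Pool.Agent.MP_dd7250_nt.LS.TW
import Pool.Agent.MP_dd7250_nt.LS.MB1
import Pool.Agent.MP_dd7250_nt.LS.NU

/- Ratios at small shifts: convergence of the model to the main term. -/

set_option autoImplicit false
set_option maxHeartbeats 400000

namespace Pool.Agent.MP_dd7250_nt.LS

open Polynomial Finset Filter Topology Pool.Agent.MP_d232b3_nt Pool.Agent.MP_dd7250_nt
open scoped Classical

variable {F : Type} [Field F] [Fintype F]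

theorem bound_MC {c : ℝ} {α β γ δ : ℂ} (hc : 0 < c) (hc' : c ≤ 1 / 32) (r1 : -(c / 2) ≤ α.re)
    (r2 : -(c / 2) ≤ β.re) (r3 : c ≤ γ.re) (r4 : c ≤ δ.re) (d : ℕ) :
    ‖BP F d (pw ![uu F α, uu F β, uu F γ, uu F δ] d) - 1‖ ≤ 20 * qp F (-(1 + c / 2) * d) := by
  have n : ∀ (x : ℂ) (t : ℝ), t ≤ x.re → ‖uu F x ^ d‖ ≤ qp F (-(1 / 2 + t) * d) := fun x t h => by
    rw [norm_pow, norm_uu, qp_pow]
    exact qp_mono (mul_le_mul_of_nonneg_right (by linarith) (Nat.cast_nonneg d))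
  have n0 := n α _ r1
  have n1 := n β _ r2
  have n2 := n γ _ r3
  have n3 := n δ _ r4
  have e1 : qp F (-(1 + c / 2) * d) = qp F (-d) * qp F (-(c / 2) * d) := by
    rw [← qp_add]
    congr 1
    ring
  have e2 : ((Q F : ℂ) ^ d)⁻¹ = (qp F (-d) : ℝ) := by
    rw [qp_neg, qp_nat]
    push_cast
    rfl
  have m01 := MP_dd7250_nt.inf_mul n0 n1 le_rfl
  have key := inf_alg (p := qp F (-d)) (δ := qp F (-(c / 2) * d)) (qp_pos _).le
    (qp_le_one (mul_nonpos_of_nonpos_of_nonneg (by linarith) (Nat.cast_nonneg d)))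
    (MP_dd7250_nt.inf_mul n0 n1 (by linarith)) (MP_dd7250_nt.inf_mul n0 n0 (by linarith))
    (MP_dd7250_nt.inf_mul n1 n1 (by linarith))
    (e1 ▸ MP_dd7250_nt.inf_mul m01 m01 (by linarith))
    (e1 ▸ MP_dd7250_nt.inf_mul n0 n2 (by linarith))
    (e1 ▸ MP_dd7250_nt.inf_mul n0 n3 (by linarith))
    (e1 ▸ MP_dd7250_nt.inf_mul n1 n2 (by linarith))
    (e1 ▸ MP_dd7250_nt.inf_mul n1 n3 (by linarith))
    (e1 ▸ MP_dd7250_nt.inf_mul n2 n3 (by linarith))
  rw [e1, BP, e2]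
  exact key

theorem le_MC {c : ℝ} {γ : ℂ} (h3 : ‖γ‖ ≤ 1 / 32) (r3 : c ≤ γ.re) : c ≤ 1 / 32 :=
  r3.trans ((Complex.re_le_norm γ).trans h3)

theorem Q_uu_MC (x y : ℂ) : Q F * (uu F x * uu F y) = xv F x * xv F y := by
  rw [br_Q_mul, ← xv_add, xv]

theorem log_lim_MC {z : ℂ} (hz : ‖z‖ < 1) :
    Tendsto (fun n : ℕ => ∑ k ∈ Icc 1 n, z ^ k / (k : ℂ)) atTop (𝓝 (-Complex.log (1 - z))) := by
  have h := (Complex.hasSum_taylorSeries_neg_log hz).tendsto_sum_nat.comp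
    (tendsto_add_atTop_nat 1)
  refine h.congr fun n => ?_
  simp only [Function.comp]
  rw [range_eq_Ico, sum_eq_sum_Ico_succ_bot n.succ_pos]
  simp only [Nat.cast_zero, div_zero, zero_add]
  rfl

theorem phi_lim_MC {v y₁ y₂ x : ℂ} {d : ℕ} (hd : 0 < d) (h1 : ‖x * (y₁ ^ d * v)‖ < 1)
    (h2 : ‖x * (y₂ ^ d * v)‖ < 1) :
    Tendsto (fun Y => Complex.exp (phi Y v (aa y₁ y₂) d x)) atTop
      (𝓝 ((1 - x * (y₁ ^ d * v)) * (1 - x * (y₂ ^ d * v)))) := by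
  have hdiv : Tendsto (fun Y : ℕ => Y / d) atTop atTop := Nat.tendsto_div_const_atTop hd.ne'
  have h3 := ((((log_lim_MC h1).add (log_lim_MC h2)).neg).comp hdiv).cexp
  have n : ∀ z : ℂ, ‖z‖ < 1 → 1 - z ≠ 0 := fun z hz h => by
    rw [← sub_eq_zero.1 h, norm_one] at hz
    exact lt_irrefl _ hz
  rw [neg_add, neg_neg, neg_neg, Complex.exp_add, Complex.exp_log (n _ h1),
    Complex.exp_log (n _ h2)] at h3
  refine h3.congr fun Y => ?_
  simp only [Function.comp, phi, aa, ← sum_add_distrib]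
  congr 2
  refine sum_congr rfl fun k _ => ?_
  rw [mul_comm k d, pow_mul, pow_mul]
  ring

theorem mtm_MC {X y₁ y₂ : ℂ} {t : ℝ} {Y d : ℕ} (hX : ‖X‖ * t ≤ 2) (ht0 : 0 < t) (ht : t ≤ 1)
    (h1 : ‖y₁ ^ d‖ ≤ t ^ 2) (h2 : ‖y₂ ^ d‖ ≤ t ^ 2) : ‖mtm Y X (aa y₁ y₂) d‖ ≤ 7 * t := by
  have t2 : t ^ 2 ≤ t := by nlinarith
  have a1 : ‖aa y₁ y₂ d‖ ≤ 2 * t ^ 2 := (norm_add_le _ _).trans (by linarith)
  have s : ∀ y : ℂ, ‖y ^ d‖ ≤ t ^ 2 → ‖y ^ (2 * d)‖ ≤ t := fun y h => by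
    rw [pow_mul', norm_pow]
    nlinarith [norm_nonneg (y ^ d)]
  have a2 : ‖if 2 * d ≤ Y then aa y₁ y₂ (2 * d) else 0‖ ≤ 2 * t := by
    split_ifs
    · exact (norm_add_le _ _).trans (by linarith [s _ h1, s _ h2])
    · rw [norm_zero]
      positivity
  have a3 : ‖X * aa y₁ y₂ d‖ ≤ 4 * t := by
    rw [norm_mul]
    refine (mul_le_mul_of_nonneg_left a1 (norm_nonneg _)).trans ?_
    nlinarith
  have a4 : ‖aa y₁ y₂ d ^ 2‖ ≤ 4 * t := by
    rw [norm_pow]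
    refine (pow_le_pow_left₀ (norm_nonneg _) a1 2).trans ?_
    nlinarith
  have a5 := norm_sub_le (aa y₁ y₂ d ^ 2) (if 2 * d ≤ Y then aa y₁ y₂ (2 * d) else 0)
  refine (norm_add_le _ _).trans ?_
  rw [norm_neg, norm_div, Complex.norm_two]
  linarith

theorem BP_lim (hF : ringChar F ≠ 2) {c : ℝ} {α β γ δ : ℂ} (hc : 0 < c) (h1 : ‖α‖ ≤ 1 / 32)
    (h2 : ‖β‖ ≤ 1 / 32) (h3 : ‖γ‖ ≤ 1 / 32) (h4 : ‖δ‖ ≤ 1 / 32) (r1 : -(c / 2) ≤ α.re)
    (r2 : -(c / 2) ≤ β.re) (r3 : c ≤ γ.re) (r4 : c ≤ δ.re) :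
    GG F α β γ δ = (∏' P : Prm F, BP F P.1.natDegree
      (pw ![uu F α, uu F β, uu F γ, uu F δ] P.1.natDegree)) / den (xv F α) (xv F β) := by
  have hc' := le_MC h3 r3
  obtain ⟨b, hb, -⟩ := hasProd_of_bound (F := F) (half_pos hc)
    (fun d => BP F d (pw ![uu F α, uu F β, uu F γ, uu F δ] d))
    fun d _ => bound_MC hc hc' r1 r2 r3 r4 d
  have k1 : ∀ x y : ℂ, 0 < x.re + y.re → Q F * ‖uu F x * uu F y‖ < 1 := fun x y h => by
    rw [← Complex.norm_natCast, ← norm_mul, br_Q_mul, br_norm]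
    exact qp_lt_one (by simp; linarith)
  have k2 : ∀ x y : ℂ, 0 < x.re + y.re → 1 - Q F * (uu F x * uu F y) ≠ 0 := fun x y h h0 => by
    have := k1 x y h
    rw [← Complex.norm_natCast, ← norm_mul, ← sub_eq_zero.1 h0, norm_one] at this
    exact lt_irrefl _ this
  have z1 : 0 < γ.re + δ.re := by linarith
  have z2 : 0 < α.re + γ.re := by linarith
  have z3 : 0 < α.re + δ.re := by linarith
  have z4 : 0 < β.re + γ.re := by linarith
  have z5 : 0 < β.re + δ.re := by linarith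
  have k3 := (hb.mul (hasProd_zeta (k1 _ _ z1))).div₀
    ((((hasProd_zeta (k1 _ _ z2)).mul (hasProd_zeta (k1 _ _ z3))).mul
      (hasProd_zeta (k1 _ _ z4))).mul (hasProd_zeta (k1 _ _ z5)))
    (mul_ne_zero (mul_ne_zero (mul_ne_zero (k2 _ _ z2) (k2 _ _ z3)) (k2 _ _ z4)) (k2 _ _ z5))
  have k6 : AA4 F α β γ δ = _ := (tprod_congr fun P => locA_eq α β γ δ _).trans k3.tprod_eq
  rw [GG_x, k6, hb.tprod_eq]
  congr 1
  have := k2 _ _ z1
  have := k2 _ _ z2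
  have := k2 _ _ z3
  have := k2 _ _ z4
  have := k2 _ _ z5
  simp only [Q_uu_MC] at *
  generalize 1 - xv F γ * xv F δ = x1 at *
  generalize 1 - xv F α * xv F γ = x2 at *
  generalize 1 - xv F α * xv F δ = x3 at *
  generalize 1 - xv F β * xv F γ = x4 at *
  generalize 1 - xv F β * xv F δ = x5 at *
  field_simp

theorem pl_lim (hF : ringChar F ≠ 2) {c : ℝ} {α β γ δ : ℂ} (hc : 0 < c) (h1 : ‖α‖ ≤ 1 / 32)
    (h2 : ‖β‖ ≤ 1 / 32) (h3 : ‖γ‖ ≤ 1 / 32) (h4 : ‖δ‖ ≤ 1 / 32) (r1 : -(c / 2) ≤ α.re)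
    (r2 : -(c / 2) ≤ β.re) (r3 : c ≤ γ.re) (r4 : c ≤ δ.re) :
    Tendsto (fun Y => PL F Y (xv F α) (xv F β) (aa (xv F γ) (xv F δ)) / den (xv F α) (xv F β))
      atTop (𝓝 (GG F α β γ δ)) := by
  have hc' := le_MC h3 r3
  rw [BP_lim hF hc h1 h2 h3 h4 r1 r2 r3 r4]
  refine Tendsto.div_const ?_ _
  obtain ⟨K, hK0, hK⟩ := lc_est
  have nx : ∀ (x : ℂ) (t : ℝ) (d : ℕ), t ≤ x.re → ‖xv F x ^ d‖ ≤ qp F (-t * d) :=
    fun x t d h => by
      rw [norm_pow, norm_xv, qp_pow]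
      exact qp_mono (mul_le_mul_of_nonneg_right (by linarith) (Nat.cast_nonneg d))
  have key := tendsto_tprod_one_add_of_dominated_convergence (𝓕 := atTop)
    (f := fun (Y : ℕ) (P : Prm F) => (if P.1.natDegree ≤ Y then
      lc Y ((sq F)⁻¹ ^ P.1.natDegree) (xv F α ^ P.1.natDegree) (xv F β ^ P.1.natDegree)
        (aa (xv F γ) (xv F δ)) P.1.natDegree else 1) - 1)
    (g := fun P : Prm F => BP F P.1.natDegree
      (pw ![uu F α, uu F β, uu F γ, uu F δ] P.1.natDegree) - 1)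
    ((inf_summable (F := F) (half_pos hc)).mul_left (K + 7)) (fun P => ?_)
    (Eventually.of_forall fun Y P => ?_)
  · simp only [add_sub_cancel] at key
    refine key.congr fun Y => ?_
    rw [tprod_eq_prod (s := (pr F Y).subtype fun P : F[X] => P.Monic ∧ Irreducible P)
      fun P hP => if_neg fun h => hP (mem_subtype.2 (mem_pr.2 ⟨P.2.1, P.2.2, h⟩)), PL,
      ← prod_subtype_of_mem (p := fun P : F[X] => P.Monic ∧ Irreducible P) _
        fun P hP => ⟨(mem_pr.1 hP).1, (mem_pr.1 hP).2.1⟩]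
    exact prod_congr rfl fun P hP => if_pos (mem_pr.1 (mem_subtype.1 hP)).2.2
  · have hd := deg_pos P.2.2
    generalize P.1.natDegree = d at *
    have hd' : (0 : ℝ) < d := by exact_mod_cast hd
    refine Tendsto.sub_const ?_ 1
    have e : pw ![uu F α, uu F β, uu F γ, uu F δ] d =
        ![xv F α ^ d * (sq F)⁻¹ ^ d, xv F β ^ d * (sq F)⁻¹ ^ d, xv F γ ^ d * (sq F)⁻¹ ^ d,
          xv F δ ^ d * (sq F)⁻¹ ^ d] := by
      funext i
      fin_cases i <;> simp [pw, uu_eq, mul_pow]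
    have hs : ∀ x ∈ ({0, 1, -1} : Finset ℂ), ∀ y : ℂ, c ≤ y.re →
        ‖x * (xv F y ^ d * (sq F)⁻¹ ^ d)‖ < 1 := fun x hx y hy => by
      have b1 : ‖x‖ ≤ 1 := by
        simp only [mem_insert, mem_singleton] at hx
        rcases hx with rfl | rfl | rfl <;> simp
      rw [norm_mul, ← mul_pow, ← uu_eq, norm_pow, norm_uu, qp_pow]
      refine (mul_le_of_le_one_left (qp_pos _).le b1).trans_lt (qp_lt_one ?_)
      nlinarith
    rw [e, BP_eq_mu]
    refine Tendsto.congr' ((eventually_ge_atTop d).mono fun Y hY => (if_pos hY).symm) ?_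
    exact tendsto_finsetSum _ fun x hx =>
      (phi_lim_MC hd (hs x hx γ r3) (hs x hx δ r4)).const_mul _
  · have hd := deg_pos P.2.2
    generalize P.1.natDegree = d at *
    have hd' : (1 : ℝ) ≤ d := by exact_mod_cast hd
    split_ifs with hY
    swap
    · rw [sub_self, norm_zero]
      exact mul_nonneg (by positivity) (qp_pos _).le
    have hv : qp F (-(1 / 2) * d) ≤ 3 / 5 := by
      refine (qp_mono (y := -(1 / 2)) (by linarith)).trans ?_
      have b1 : qp F (-(1 / 2)) ^ 2 = (Q F : ℝ)⁻¹ := by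
        rw [qp_pow, ← pow_one (Q F : ℝ), ← qp_nat, ← qp_neg]
        norm_num
      have b2 : (Q F : ℝ)⁻¹ ≤ 3⁻¹ := inv_anti₀ three_pos (three_le_Q hF)
      exact le_of_sq_le_sq (by rw [b1]; linarith) (by norm_num)
    have hX : ∀ x : ℂ, -(c / 2) ≤ x.re → ‖xv F x ^ d‖ ^ 4 * qp F (-(1 / 2) * d) ≤ 1 :=
      fun x hx => by
        refine (mul_le_mul_of_nonneg_right (pow_le_pow_left₀ (norm_nonneg _) (nx x _ d hx) 4)
          (qp_pos _).le).trans ?_
        rw [qp_pow, ← qp_add]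
        refine qp_le_one ?_
        push_cast
        nlinarith
    have hη : ∀ j, 1 ≤ j → ‖aa (xv F γ) (xv F δ) j‖ ≤ 4 := fun j _ => by
      have b : qp F (-c * j) ≤ 1 :=
        qp_le_one (mul_nonpos_of_nonpos_of_nonneg (by linarith) (Nat.cast_nonneg j))
      have b1 := nx γ c j r3
      have b2 := nx δ c j r4
      exact (norm_add_le _ _).trans (by linarith)
    have b0 := hK Y d _ _ _ _ hd hY (qp_pos _) hv (hX α r1) (hX β r2) hη
    have et : qp F (-(c / 2) * d) ^ 2 = qp F (-c * d) := by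
      rw [qp_pow]
      congr 1
      push_cast
      ring
    have b1 : ‖mtm Y (xv F α ^ d + xv F β ^ d) (aa (xv F γ) (xv F δ)) d‖ ≤
        7 * qp F (-(c / 2) * d) := by
      refine mtm_MC ?_ (qp_pos _) (qp_le_one (by nlinarith)) (et ▸ nx γ c d r3) (et ▸ nx δ c d r4)
      have i1 := nx α _ d r1
      have i2 := nx β _ d r2
      have i3 : qp F (-(-(c / 2)) * d) * qp F (-(c / 2) * d) = 1 := by
        rw [← qp_add, show -(-(c / 2)) * (d : ℝ) + -(c / 2) * d = 0 by ring, qp, Real.rpow_zero]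
      have i4 := norm_add_le (xv F α ^ d) (xv F β ^ d)
      have i5 := qp_pos (F := F) (-(c / 2) * d)
      nlinarith
    have b2 : qp F (-(1 / 2) * d) ^ 3 ≤ qp F (-(1 + c / 2) * d) := by
      rw [qp_pow]
      refine qp_mono ?_
      push_cast
      nlinarith
    have b3 : qp F (-(c / 2) * d) * qp F (-(1 / 2) * d) ^ 2 = qp F (-(1 + c / 2) * d) := by
      rw [qp_pow, ← qp_add]
      congr 1
      push_cast
      ring
    have b4 : ‖mtm Y (xv F α ^ d + xv F β ^ d) (aa (xv F γ) (xv F δ)) d *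
        ((qp F (-(1 / 2) * d) : ℝ) : ℂ) ^ 2‖ ≤ 7 * qp F (-(1 + c / 2) * d) := by
      rw [norm_mul, norm_pow, Complex.norm_real, Real.norm_of_nonneg (qp_pos _).le, ← b3,
        ← mul_assoc]
      exact mul_le_mul_of_nonneg_right b1 (by positivity)
    have b5 := (norm_le_norm_sub_add _ _).trans (add_le_add b0 b4)
    rw [sq_inv_pow]
    have b6 := mul_le_mul_of_nonneg_left b2 hK0
    linarith

end Pool.Agent.MP_dd7250_nt.LS
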