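import Mathlib
import Pool.Agent.MP_dd7250_nt.LS.DT

/- Ratios at small shifts: Euler products with a given leading term. -/

set_option autoImplicit false
set_option maxHeartbeats 400000

namespace Pool.Agent.MP_dd7250_nt.LS

open Polynomial Finset Filter Topology Pool.Agent.MP_d232b3_nt Pool.Agent.MP_dd7250_nt
open scoped Classical

variable {F : Type} [Field F] [Fintype F]

theorem pnt_MB2 {d : ℕ} (hd : d ≠ 0) :
    (d : ℝ) * (prD F d).card ≤ (Q F : ℝ) ^ d ∧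
      (Q F : ℝ) ^ d ≤ d * (prD F d).card + d * qp F (d / 2) := by
  have h1 := weil_full (F := F) (fun _ => 1) hd
  simp only [sum_const, nsmul_eq_mul, mul_one] at h1
  have h2 : (((VV F d).filter fun x => (minpoly F x).natDegree = d).card : ℝ) =
      d * (prD F d).card := by exact_mod_cast h1
  have h3 := weil_rest (F := F) hd
  have h4 := card_filter_add_card_filter_not (s := VV F d) fun x => (minpoly F x).natDegree = d
  rw [card_VV hd] at h4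
  have h5 : (((VV F d).filter fun x => (minpoly F x).natDegree = d).card : ℝ) +
      ((VV F d).filter fun x => ¬ (minpoly F x).natDegree = d).card = (Q F : ℝ) ^ d := by
    exact_mod_cast h4
  have h6 : (0 : ℝ) ≤ ((VV F d).filter fun x => ¬ (minpoly F x).natDegree = d).card :=
    Nat.cast_nonneg _
  constructor <;> linarith

theorem step_MB2 {κ c s d : ℝ} {z m : ℂ} (hκ : 0 ≤ κ) (hc : 0 ≤ c) (hs : 0 < s) (hs1 : s ≤ 1)
    (hd : 1 ≤ d) (h1 : d * c * s ^ 4 ≤ 1) (h2 : 1 ≤ d * c * s ^ 4 + d * s ^ 2)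
    (h3 : ‖z - 1 - m * (s ^ 4 : ℝ)‖ ≤ κ * s ^ 6) (h4 : ‖m‖ * s ≤ κ) :
    c * ((z - 1).re + ‖z - 1‖ ^ 2 / 2) ≤ m.re / d + (2 * κ + 2 * κ ^ 2) * s := by
  have hd0 : 0 < d := by linarith
  have a1 : (z - 1).re ≤ m.re * s ^ 4 + κ * s ^ 6 := by
    have := (Complex.re_le_norm _).trans h3
    rw [Complex.sub_re, Complex.re_mul_ofReal] at this
    linarith
  have a0 : s ^ 6 ≤ s ^ 3 := pow_le_pow_of_le_one hs.le hs1 (by norm_num)
  have a2 : ‖z - 1‖ ≤ 2 * κ * s ^ 3 := by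
    have b1 := norm_add_le (z - 1 - m * (s ^ 4 : ℝ)) (m * (s ^ 4 : ℝ))
    rw [sub_add_cancel, norm_mul, Complex.norm_real, Real.norm_of_nonneg (by positivity)] at b1
    have b2 : ‖m‖ * s * s ^ 3 ≤ κ * s ^ 3 := by gcongr
    have b3 : κ * s ^ 6 ≤ κ * s ^ 3 := by gcongr
    nlinarith
  have a3 : ‖z - 1‖ ^ 2 ≤ (2 * κ * s ^ 3) ^ 2 := by gcongr
  have a4 : c * s ^ 4 ≤ 1 / d := by rw [le_div_iff₀ hd0]; linarith
  have a5 : 1 / d - s ^ 2 ≤ c * s ^ 4 := by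
    rw [sub_le_iff_le_add, div_le_iff₀ hd0]; linarith
  have a6 : c * s ^ 4 ≤ 1 := a4.trans ((div_le_one hd0).2 hd)
  have a7 : m.re * (c * s ^ 4 - 1 / d) ≤ κ * s := by
    refine (le_abs_self _).trans ?_
    rw [abs_mul]
    have b1 : |c * s ^ 4 - 1 / d| ≤ s ^ 2 := abs_le.2 ⟨by linarith, by nlinarith⟩
    calc _ ≤ ‖m‖ * s ^ 2 := mul_le_mul (Complex.abs_re_le_norm m) b1 (abs_nonneg _) (norm_nonneg _)
      _ = ‖m‖ * s * s := by ring
      _ ≤ _ := by gcongr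
  have a8 : c * s ^ 6 ≤ s := by
    have b1 : s ^ 2 ≤ s := pow_le_of_le_one hs.le hs1 two_ne_zero
    calc c * s ^ 6 = c * s ^ 4 * s ^ 2 := by ring
      _ ≤ 1 * s := by gcongr
      _ = s := one_mul s
  have a9 : (κ + 2 * κ ^ 2) * (c * s ^ 6) ≤ (κ + 2 * κ ^ 2) * s := by gcongr
  calc _ ≤ c * (m.re * s ^ 4 + κ * s ^ 6 + (2 * κ * s ^ 3) ^ 2 / 2) := by gcongr
    _ = m.re / d + m.re * (c * s ^ 4 - 1 / d) + (κ + 2 * κ ^ 2) * (c * s ^ 6) := by ring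
    _ ≤ _ := by linarith

theorem mb2 {κ : ℝ} (hκ : 0 ≤ κ) : ∃ K : ℝ, 0 ≤ K ∧ ∀ (Y : ℕ) (z m : ℕ → ℂ),
    (∀ d : ℕ, 1 ≤ d → d ≤ Y →
      ‖z d - 1 - m d * (qp F (-d) : ℝ)‖ ≤ κ * qp F (-(3 / 2) * d) ∧ ‖m d‖ ≤ κ * qp F (d / 4)) →
    ‖∏ P ∈ pr F Y, z P.natDegree‖ ≤ K * Real.exp (∑ d ∈ Icc 1 Y, (m d).re / d) := by
  have h0 := qp_pos (F := F) (-(1 / 4))
  have h1 := qp_lt_one (F := F) (x := -(1 / 4)) (by norm_num)
  refine ⟨Real.exp ((2 * κ + 2 * κ ^ 2) * (1 - qp F (-(1 / 4)))⁻¹), (Real.exp_pos _).le,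
    fun Y z m h => ?_⟩
  rw [norm_prod, ← Real.exp_add]
  have a1 : ∏ P ∈ pr F Y, ‖z P.natDegree‖ ≤
      ∏ P ∈ pr F Y, Real.exp ((z P.natDegree - 1).re + ‖z P.natDegree - 1‖ ^ 2 / 2) :=
    prod_le_prod (fun _ _ => norm_nonneg _) fun P _ => by
      simpa only [add_sub_cancel] using ep_norm (z P.natDegree - 1)
  refine a1.trans ?_
  rw [← Real.exp_sum, Real.exp_le_exp, sum_pr, range_eq_Ico, sum_eq_sum_Ico_succ_bot (by omega),
    weil_prD_zero, sum_empty, zero_add, zero_add, Ico_add_one_right_eq_Icc]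
  have a2 : ∀ d ∈ Icc 1 Y,
      ∑ P ∈ prD F d, ((z P.natDegree - 1).re + ‖z P.natDegree - 1‖ ^ 2 / 2) ≤
        (m d).re / d + (2 * κ + 2 * κ ^ 2) * qp F (-(1 / 4)) ^ d := fun d hd => by
    obtain ⟨d1, d2⟩ := mem_Icc.1 hd
    rw [sum_congr rfl fun P hP => by rw [(mem_prD.1 hP).2.2], sum_const, nsmul_eq_mul]
    obtain ⟨p1, p2⟩ := pnt_MB2 (F := F) (d := d) (by omega)
    obtain ⟨b1, b2⟩ := h d d1 d2
    have hs : 0 < qp F (-(1 / 4)) ^ d := pow_pos h0 d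
    have e4 : (qp F (-(1 / 4)) ^ d) ^ 4 = qp F (-d) := by
      rw [qp_pow, qp_pow]; congr 1; push_cast; ring
    have e6 : (qp F (-(1 / 4)) ^ d) ^ 6 = qp F (-(3 / 2) * d) := by
      rw [qp_pow, qp_pow]; congr 1; push_cast; ring
    have e2 : (qp F (-(1 / 4)) ^ d) ^ 2 = qp F (d / 2) * qp F (-d) := by
      rw [qp_pow, qp_pow, ← qp_add]; congr 1; push_cast; ring
    have e1 : qp F (d / 4) * qp F (-(1 / 4)) ^ d = 1 := by
      rw [qp_pow, ← qp_add, show (d : ℝ) / 4 + -(1 / 4) * d = 0 by ring, qp_zero]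
    have e0 : (Q F : ℝ) ^ d * qp F (-d) = 1 := by
      rw [← qp_nat, ← qp_add, add_neg_cancel, qp_zero]
    have ht := (qp_pos (F := F) (-d)).le
    refine step_MB2 hκ (Nat.cast_nonneg _) hs (pow_le_one₀ h0.le h1.le) (by exact_mod_cast d1)
      ?_ ?_ ?_ ?_
    · rw [e4, ← e0]; gcongr
    · rw [e4, e2, ← e0, ← mul_assoc, ← add_mul]; gcongr
    · rw [e4, e6]; exact b1
    · calc _ ≤ κ * qp F (d / 4) * qp F (-(1 / 4)) ^ d := by gcongr
        _ = κ := by rw [mul_assoc, e1, mul_one]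
  refine (sum_le_sum a2).trans ?_
  rw [sum_add_distrib, add_comm, ← mul_sum]
  have a3 : ∑ d ∈ Icc 1 Y, qp F (-(1 / 4)) ^ d ≤ (1 - qp F (-(1 / 4)))⁻¹ :=
    le_trans (sum_le_sum_of_subset_of_nonneg (fun d hd => mem_range.2
      (Nat.lt_succ_of_le (mem_Icc.1 hd).2)) fun _ _ _ => pow_nonneg h0.le _)
      (ep_geom h0.le h1 (Y + 1))
  gcongr

end Pool.Agent.MP_dd7250_nt.LS
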