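import Mathlib
import Pool.Agent.MP_dd7250_nt.LS.DA

/- Ratios at small shifts: the sum of the leading terms. -/

set_option autoImplicit false
set_option maxHeartbeats 400000

namespace Pool.Agent.MP_dd7250_nt.LS

open Finset Complex Filter Topology

theorem pow_MB3 {x : ℂ} {R : ℝ} (h : ‖x‖ ≤ R) (h1 : 1 ≤ R) (d : ℕ) :
    ‖x ^ d - 1‖ ≤ d * ‖x - 1‖ * R ^ d := by
  induction d with
  | zero => simp
  | succ d ih =>
    have e : x ^ (d + 1) - 1 = x ^ d * (x - 1) + (x ^ d - 1) := by ring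
    have h2 : ‖x ^ d * (x - 1)‖ ≤ R ^ d * ‖x - 1‖ := by
      rw [norm_mul, norm_pow]
      exact mul_le_mul_of_nonneg_right (pow_le_pow_left₀ (norm_nonneg _) h d) (norm_nonneg _)
    have h3 : R ^ d ≤ R ^ (d + 1) := pow_le_pow_right₀ h1 d.le_succ
    rw [e]
    refine (norm_add_le _ _).trans ((add_le_add h2 ih).trans ?_)
    push_cast
    calc R ^ d * ‖x - 1‖ + d * ‖x - 1‖ * R ^ d = (d + 1) * ‖x - 1‖ * R ^ d := by ring
      _ ≤ _ := mul_le_mul_of_nonneg_left h3 (by positivity)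

theorem two_MB3 {x y : ℂ} {t : ℝ} (hx : ‖x‖ ≤ Real.exp t) (hy : ‖y‖ ≤ Real.exp t) (j : ℕ) :
    ‖x ^ j + y ^ j‖ ≤ 2 * Real.exp (j * t) := by
  have h1 := pow_le_pow_left₀ (norm_nonneg _) hx j
  have h2 := pow_le_pow_left₀ (norm_nonneg _) hy j
  rw [← norm_pow, ← Real.exp_nat_mul] at h1 h2
  linarith [norm_add_le (x ^ j) (y ^ j)]

theorem low_MB3 {X e₁ e₂ : ℂ} (h : ‖e₁‖ ≤ 4) :
    (-(X * e₁) + (e₁ ^ 2 - e₂) / 2).re ≤ -3 + (8 * ‖X - 2‖ + 3 * ‖e₁ - 2‖ + ‖e₂ - 2‖ / 2) := by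
  have h6 : ‖e₁ - 2‖ ≤ 6 := by
    have := norm_sub_le e₁ 2
    rw [Complex.norm_ofNat] at this
    linarith
  have e : -(X * e₁) + (e₁ ^ 2 - e₂) / 2 = -3 + (-(2 * (X - 2)) - (e₁ - 2) * (X - 2) +
      (e₁ - 2) * (e₁ - 2) / 2 - (e₂ - 2) / 2) := by ring
  rw [e, add_re]
  refine add_le_add (by simp) ((re_le_norm _).trans ?_)
  have h1 := norm_sub_le (-(2 * (X - 2)) - (e₁ - 2) * (X - 2) + (e₁ - 2) * (e₁ - 2) / 2)
    ((e₂ - 2) / 2)
  have h2 := norm_add_le (-(2 * (X - 2)) - (e₁ - 2) * (X - 2)) ((e₁ - 2) * (e₁ - 2) / 2)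
  have h3 := norm_sub_le (-(2 * (X - 2))) ((e₁ - 2) * (X - 2))
  simp only [norm_neg, norm_mul, norm_div, Complex.norm_ofNat] at h1 h2 h3
  have h4 := mul_le_mul_of_nonneg_right h6 (norm_nonneg (X - 2))
  have h5 := mul_le_mul_of_nonneg_right h6 (norm_nonneg (e₁ - 2))
  linarith

theorem mb3 {C J₀ : ℝ} (hC : 1 ≤ C) (hJ : 1 ≤ J₀) : ∃ K : ℝ, 0 ≤ K ∧
    ∀ (s σ ρ : ℝ) (x₁ x₂ y₁ y₂ z : ℂ) (B Y : ℕ) (T : Finset ℕ) (w : ℕ → ℂ),
    Rg C s σ x₁ x₂ y₁ y₂ → 0 ≤ σ → σ ≤ C * s → ρ ≤ s / 4 → σ + ρ ≤ 3 * s / 4 →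
    ‖z‖ ≤ Real.exp ρ → J₀ / s ≤ 4 ^ B → 2 * (J₀ / s) ≤ Y → T ⊆ range B →
    (∀ b ∈ T, ‖w b‖ = 2) → (∀ b ∈ range B, b ∉ T → w b = 1) →
    (∀ j, 1 ≤ j → ‖et (J₀ / s) B (aa y₁ y₂) w z j‖ ≤ 4) ∧
      ∑ d ∈ Icc 1 Y, (mtm Y (x₁ ^ d + x₂ ^ d) (et (J₀ / s) B (aa y₁ y₂) w z) d).re / d ≤
        3 * Real.log s + K * (1 + T.card) := by
  refine ⟨16 * C * J₀ * Real.exp (C * J₀) + 16 * C * J₀ + 320, by positivity, ?_⟩
  intro s σ ρ x₁ x₂ y₁ y₂ z B Y T w R hσ0 hσ hρ hσρ hz hB hY hT hw hw'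
  have hs := R.hs
  have hs1 : s ≤ 1 / 8 := by nlinarith [R.hC]
  set J := J₀ / s with hJd
  have hJs : J * s = J₀ := div_mul_cancel₀ _ hs.ne'
  have hJ1 : 1 ≤ J := by rw [hJd, le_div_iff₀ hs]; linarith
  have hJ0 : 0 < J := by linarith
  set η := et J B (aa y₁ y₂) w z with hη
  have ha : ∀ j : ℕ, ‖aa y₁ y₂ j‖ ≤ 2 := fun j => by
    have h1 := two_MB3 R.h3 R.h4 j
    have h2 : Real.exp (j * -s) ≤ 1 := Real.exp_le_one_iff.2 (by
      have := mul_nonneg (Nat.cast_nonneg (α := ℝ) j) hs.le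
      linarith)
    rw [aa]; linarith
  have haz : ∀ j : ℕ, ‖aa y₁ y₂ j * z ^ j‖ ≤ 2 * Real.exp (j * (ρ - s)) := fun j => by
    have h2 := pow_le_pow_left₀ (norm_nonneg _) hz j
    rw [← Real.exp_nat_mul] at h2
    rw [norm_mul, norm_pow, show (j : ℝ) * (ρ - s) = j * -s + j * ρ by ring, Real.exp_add,
      ← mul_assoc]
    exact mul_le_mul (two_MB3 R.h3 R.h4 j) h2 (by positivity) (by positivity)
  have haz2 : ∀ j : ℕ, ‖aa y₁ y₂ j * z ^ j‖ ≤ 2 := fun j => by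
    have h2 : Real.exp (j * (ρ - s)) ≤ 1 := Real.exp_le_one_iff.2
      (mul_nonpos_of_nonneg_of_nonpos (Nat.cast_nonneg j) (by linarith))
    linarith [haz j]
  have hsum : ∀ j : ℕ, 1 ≤ j → ∑ b ∈ range B, dps J b j = psi J j := fun j hj => by
    rw [sum_dps_range, psi_eq_zero (J := J / 4 ^ B) (by positivity)
      (((div_le_one (by positivity)).2 hB).trans (by exact_mod_cast hj)), sub_zero]
  have hp : ∀ j : ℕ, ‖((1 - psi J j : ℝ) : ℂ)‖ = 1 - psi J j := fun j => by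
    rw [Complex.norm_real, Real.norm_of_nonneg (sub_nonneg.2 (psi_le_one hJ0 j))]
  have hd : ∀ b j : ℕ, ‖((dps J b j : ℝ) : ℂ)‖ = dps J b j := fun b j => by
    rw [Complex.norm_real, Real.norm_of_nonneg (dps_nonneg hJ0 b j)]
  have h4 : ∀ j, 1 ≤ j → ‖η j‖ ≤ 4 := fun j hj => by
    have h1 : ‖∑ b ∈ range B, w b * (dps J b j : ℂ)‖ ≤ 2 * psi J j := by
      rw [← hsum j hj, mul_sum]
      refine norm_sum_le_of_le _ fun b hb => ?_
      rw [norm_mul, hd]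
      refine mul_le_mul_of_nonneg_right ?_ (dps_nonneg hJ0 b j)
      by_cases h : b ∈ T
      · exact (hw b h).le
      · rw [hw' b hb h, norm_one]; exact one_le_two
    have e : η j = aa y₁ y₂ j * (∑ b ∈ range B, w b * (dps J b j : ℂ)) +
        ((1 - psi J j : ℝ) : ℂ) * (aa y₁ y₂ j * z ^ j) := by rw [hη, et]; ring
    have h2 := mul_le_mul (ha j) h1 (norm_nonneg _) zero_le_two
    have h3 := mul_le_mul_of_nonneg_left (haz2 j) (sub_nonneg.2 (psi_le_one hJ0 j))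
    have h5 := psi_le_one hJ0 j
    rw [e]
    refine (norm_add_le _ _).trans ?_
    rw [norm_mul, norm_mul _ (_ * _), hp]
    linarith
  refine ⟨h4, ?_⟩
  have he : ∀ j : ℕ, 1 ≤ j →
      ‖η j - 2‖ / j ≤ 2 * (C * s) + 8 / J + 6 * ∑ b ∈ T, dps J b j / j := fun j hj => by
    have hj0 : (0 : ℝ) < j := by exact_mod_cast hj
    have e1 : ∑ b ∈ range B, w b * (dps J b j : ℂ) =
        psi J j + ∑ b ∈ T, (w b - 1) * (dps J b j : ℂ) := by
      rw [← hsum j hj, sum_subset hT fun b hb h => by rw [hw' b hb h, sub_self, zero_mul],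
        ofReal_sum, ← sum_add_distrib]
      exact sum_congr rfl fun b _ => by ring
    have e : η j - 2 = (y₁ ^ j - 1 + (y₂ ^ j - 1)) +
        aa y₁ y₂ j * ∑ b ∈ T, (w b - 1) * (dps J b j : ℂ) +
        ((1 - psi J j : ℝ) : ℂ) * (aa y₁ y₂ j * z ^ j - aa y₁ y₂ j) := by
      rw [hη, et, e1, aa]; push_cast; ring
    have hy : Real.exp (-s) ≤ 1 := Real.exp_le_one_iff.2 (by linarith)
    have k1 := pow_MB3 (R.h3.trans hy) le_rfl j
    have k2 := pow_MB3 (R.h4.trans hy) le_rfl j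
    rw [one_pow, mul_one] at k1 k2
    have k3 := mul_le_mul_of_nonneg_left R.d3 hj0.le
    have k4 := mul_le_mul_of_nonneg_left R.d4 hj0.le
    have k5 : ‖∑ b ∈ T, (w b - 1) * (dps J b j : ℂ)‖ ≤ 3 * ∑ b ∈ T, dps J b j := by
      rw [mul_sum]
      refine norm_sum_le_of_le _ fun b hb => ?_
      rw [norm_mul, hd]
      refine mul_le_mul_of_nonneg_right ((norm_sub_le _ _).trans ?_) (dps_nonneg hJ0 b j)
      rw [hw b hb, norm_one]; norm_num
    have k6 := mul_le_mul (ha j) k5 (norm_nonneg _) zero_le_two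
    have k7 : ‖aa y₁ y₂ j * z ^ j - aa y₁ y₂ j‖ ≤ 4 := by
      linarith [norm_sub_le (aa y₁ y₂ j * z ^ j) (aa y₁ y₂ j), ha j, haz2 j]
    have k8 := mul_le_mul (one_sub_psi_le hJ0 j) k7 (norm_nonneg _) (by positivity)
    have k9 : ‖η j - 2‖ ≤ 2 * (j * (C * s)) + 6 * ∑ b ∈ T, dps J b j + 2 * j / J * 4 := by
      rw [e]
      refine (norm_add_le _ _).trans (add_le_add ((norm_add_le _ _).trans (add_le_add
        ((norm_add_le _ _).trans (by linarith)) ?_)) ?_)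
      · rw [norm_mul]; linarith
      · rw [norm_mul, hp]; exact k8
    rw [← sum_div, div_le_iff₀ hj0]
    refine k9.trans (le_of_eq ?_)
    field_simp
    ring
  have hE : ∀ N : ℕ, (N : ℝ) ≤ 2 * J →
      ∑ j ∈ Icc 1 N, ‖η j - 2‖ / j ≤ 4 * C * J₀ + 16 + 48 * T.card := fun N hN => by
    refine (sum_le_sum fun j hj => he j (mem_Icc.1 hj).1).trans ?_
    rw [sum_add_distrib, sum_const, ← mul_sum, sum_comm, Nat.card_Icc, Nat.add_sub_cancel,
      nsmul_eq_mul]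
    have h1 := sum_le_card_nsmul T _ 8 fun b _ => sum_dps_div hJ0 b N
    rw [nsmul_eq_mul] at h1
    have h2 := mul_le_mul_of_nonneg_right hN (show 0 ≤ 2 * (C * s) + 8 / J by positivity)
    have h3 : 2 * J * (2 * (C * s) + 8 / J) = 4 * C * J₀ + 16 := by
      rw [← hJs]; field_simp; ring
    linarith
  set n := ⌊J⌋₊ with hn
  have hn1 : 1 ≤ n := Nat.le_floor (by exact_mod_cast hJ1)
  have hn1' : (1 : ℝ) ≤ n := by exact_mod_cast hn1
  have hnJ : (n : ℝ) ≤ J := Nat.floor_le hJ0.le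
  have hJn : J < n + 1 := Nat.lt_floor_add_one J
  have hnY : 2 * n ≤ Y := by
    have : (2 * n : ℝ) ≤ Y := by linarith
    exact_mod_cast this
  have hI : ∀ N : ℕ, Icc 1 N = Ioc 0 N := fun N => by ext; simp only [mem_Icc, mem_Ioc]; omega
  rw [hI, ← sum_Ioc_consecutive _ (Nat.zero_le n) (by omega : n ≤ Y), ← hI]
  have lo : ∑ d ∈ Icc 1 n, (mtm Y (x₁ ^ d + x₂ ^ d) η d).re / d ≤
      ∑ d ∈ Icc 1 n, (-3 * (d : ℝ)⁻¹ + 16 * (C * s) * Real.exp (C * J₀) + 3 * (‖η d - 2‖ / d) +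
        ‖η (2 * d) - 2‖ / (2 * d : ℕ)) := by
    refine sum_le_sum fun d hd => ?_
    obtain ⟨d1, d2⟩ := mem_Icc.1 hd
    have hd0 : (0 : ℝ) < d := by exact_mod_cast d1
    have hdJ : (d : ℝ) ≤ J := le_trans (by exact_mod_cast d2) hnJ
    have k0 : Real.exp σ ^ d ≤ Real.exp (C * J₀) := by
      rw [← Real.exp_nat_mul, ← hJs]
      refine Real.exp_le_exp.2 ((mul_le_mul hdJ hσ hσ0 hJ0.le).trans (le_of_eq (by ring)))
    have k : ∀ x : ℂ, ‖x‖ ≤ Real.exp σ → ‖x - 1‖ ≤ C * s →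
        ‖x ^ d - 1‖ ≤ d * (C * s) * Real.exp (C * J₀) := fun x h1 h2 =>
      (pow_MB3 h1 (Real.one_le_exp hσ0) d).trans (mul_le_mul
        (mul_le_mul_of_nonneg_left h2 hd0.le) k0 (by positivity) (by positivity))
    have k1 : ‖x₁ ^ d + x₂ ^ d - 2‖ ≤ 2 * (d * (C * s) * Real.exp (C * J₀)) := by
      rw [show x₁ ^ d + x₂ ^ d - 2 = x₁ ^ d - 1 + (x₂ ^ d - 1) by ring]
      linarith [norm_add_le (x₁ ^ d - 1) (x₂ ^ d - 1), k x₁ R.h1 R.d1, k x₂ R.h2 R.d2]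
    have k2 := low_MB3 (X := x₁ ^ d + x₂ ^ d) (e₂ := η (2 * d)) (h4 d d1)
    rw [mtm, if_pos (by omega), div_le_iff₀ hd0]
    refine k2.trans ?_
    have e : (-3 * (d : ℝ)⁻¹ + 16 * (C * s) * Real.exp (C * J₀) + 3 * (‖η d - 2‖ / d) +
        ‖η (2 * d) - 2‖ / (2 * d : ℕ)) * d = -3 + 16 * (d * (C * s) * Real.exp (C * J₀)) +
          3 * ‖η d - 2‖ + ‖η (2 * d) - 2‖ / 2 := by
      push_cast; field_simp
    rw [e]; linarith
  have hi : ∑ d ∈ Ioc n Y, (mtm Y (x₁ ^ d + x₂ ^ d) η d).re / d ≤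
      ∑ d ∈ Ioc n Y, 28 / s * ((d : ℝ) ^ 2)⁻¹ := by
    refine sum_le_sum fun d hd => ?_
    have d1 := (mem_Ioc.1 hd).1
    have hd0 : (0 : ℝ) < d := by exact_mod_cast (by omega : 0 < d)
    have hb : ∀ j : ℕ, n < j → ‖η j‖ ≤ 2 * Real.exp (j * (ρ - s)) := fun j hj => by
      have hj' : J ≤ j := hJn.le.trans (by exact_mod_cast hj)
      have : η j = aa y₁ y₂ j * z ^ j := by
        rw [hη, et, psi_eq_zero hJ0 hj', sum_eq_zero fun b _ => by
          rw [dps_eq_zero hJ0 ((div_le_self hJ0.le (one_le_pow₀ (by norm_num))).trans hj'),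
            ofReal_zero, mul_zero]]
        simp
      rw [this]; exact haz j
    set q := Real.exp (-(d * s / 4)) with hq
    have q0 : 0 < q := Real.exp_pos _
    have ds : 0 < (d : ℝ) * s := by positivity
    have k1 : ‖(x₁ ^ d + x₂ ^ d) * η d‖ ≤ 4 * q := by
      rw [norm_mul]
      refine (mul_le_mul (two_MB3 R.h1 R.h2 d) (hb d d1) (norm_nonneg _) (by positivity)).trans ?_
      rw [mul_mul_mul_comm, ← Real.exp_add]
      refine mul_le_mul (by norm_num) (Real.exp_le_exp.2 ?_) (by positivity) (by norm_num)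
      nlinarith [mul_le_mul_of_nonneg_left hσρ hd0.le]
    have k0 : Real.exp (d * (ρ - s)) * Real.exp (d * (ρ - s)) ≤ q := by
      rw [← Real.exp_add]
      exact Real.exp_le_exp.2 (by nlinarith [mul_le_mul_of_nonneg_left hρ hd0.le])
    have k2 : ‖η d ^ 2‖ ≤ 4 * q := by
      rw [norm_pow, sq]
      refine (mul_le_mul (hb d d1) (hb d d1) (norm_nonneg _) (by positivity)).trans ?_
      linarith
    have k3 : ‖if 2 * d ≤ Y then η (2 * d) else 0‖ ≤ 2 * q := by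
      split_ifs
      · refine (hb (2 * d) (by omega)).trans ?_
        rw [← Real.exp_add] at k0
        rw [show ((2 * d : ℕ) : ℝ) * (ρ - s) = d * (ρ - s) + d * (ρ - s) by push_cast; ring]
        linarith
      · rw [norm_zero]; positivity
    have k4 : (mtm Y (x₁ ^ d + x₂ ^ d) η d).re ≤ 7 * q := by
      refine (re_le_norm _).trans ((norm_add_le _ _).trans ?_)
      rw [norm_neg, norm_div, Complex.norm_ofNat]
      linarith [norm_sub_le (η d ^ 2) (if 2 * d ≤ Y then η (2 * d) else 0)]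
    have k5 : q * (d * s / 4) ≤ 1 := by
      rw [hq, Real.exp_neg, inv_mul_le_iff₀ (Real.exp_pos _)]
      linarith [Real.add_one_le_exp (d * s / 4)]
    rw [div_le_iff₀ hd0]
    refine k4.trans ?_
    rw [show 28 / s * ((d : ℝ) ^ 2)⁻¹ * d = 28 / (d * s) by field_simp, le_div_iff₀ ds]
    linarith
  have hi2 : ∑ d ∈ Ioc n Y, 28 / s * ((d : ℝ) ^ 2)⁻¹ ≤ 56 := by
    rw [← mul_sum]
    have h1 := sum_Ioc_inv_sq_le_sub (α := ℝ) (k := n) (n := Y) (by omega) (by omega)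
    have h2 : (n : ℝ)⁻¹ ≤ 2 * s := by
      rw [inv_le_iff_one_le_mul₀ (by linarith)]
      nlinarith
    have h3 : (0 : ℝ) ≤ (Y : ℝ)⁻¹ := by positivity
    rw [div_mul_eq_mul_div, div_le_iff₀ hs]
    linarith
  have l1 : -Real.log s ≤ ∑ d ∈ Icc 1 n, (d : ℝ)⁻¹ := by
    have h1 := log_add_one_le_harmonic n
    rw [harmonic_eq_sum_Icc] at h1
    push_cast at h1
    refine le_trans ?_ h1
    rw [← Real.log_inv]
    refine Real.log_le_log (by positivity) (le_trans ?_ hJn.le)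
    rw [hJd, div_eq_mul_inv]
    exact le_mul_of_one_le_left (by positivity) hJ
  have l2 : ∑ d ∈ Icc 1 n, ‖η (2 * d) - 2‖ / (2 * d : ℕ) ≤ 4 * C * J₀ + 16 + 48 * T.card := by
    refine le_trans ?_ (hE (2 * n) (by push_cast; linarith))
    rw [← sum_image (s := Icc 1 n) (g := fun d => 2 * d) (f := fun j : ℕ => ‖η j - 2‖ / j)
      fun a _ b _ h => by simpa using h]
    refine sum_le_sum_of_subset_of_nonneg (fun j hj => ?_) fun j _ _ => by positivity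
    obtain ⟨d, hd, rfl⟩ := mem_image.1 hj
    rw [mem_Icc] at hd ⊢
    omega
  have l3 := hE n (by linarith)
  have l4 : (n : ℝ) * (16 * (C * s) * Real.exp (C * J₀)) ≤ 16 * C * J₀ * Real.exp (C * J₀) :=
    (mul_le_mul_of_nonneg_right hnJ (by positivity)).trans (le_of_eq (by rw [← hJs]; ring))
  rw [sum_add_distrib, sum_add_distrib, sum_add_distrib, ← mul_sum, sum_const, ← mul_sum,
    Nat.card_Icc, Nat.add_sub_cancel, nsmul_eq_mul] at lo
  have t0 : (0 : ℝ) ≤ T.card := Nat.cast_nonneg _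
  have t1 : 0 ≤ (16 * C * J₀ * Real.exp (C * J₀) + 16 * C * J₀) * T.card := by positivity
  linarith

end Pool.Agent.MP_dd7250_nt.LS
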