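import Mathlib
import Pool.Agent.MP_dd7250_nt.LS.MB1
import Pool.Agent.MP_dd7250_nt.LS.MB2
import Pool.Agent.MP_dd7250_nt.LS.MB3
import Pool.Agent.MP_dd7250_nt.LS.NU
import Pool.Agent.MP_dd7250_nt.LS.T2

/- Ratios at small shifts: the short approximation in the model. -/

set_option autoImplicit false
set_option maxHeartbeats 400000

namespace Pool.Agent.MP_dd7250_nt.LS

open Polynomial Finset Filter Topology Pool.Agent.MP_d232b3_nt Pool.Agent.MP_dd7250_nt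
open scoped Classical

variable {F : Type} [Field F] [Fintype F]

theorem pl_bound (hF : ringChar F ≠ 2) {C J₀ : ℝ} (hC : 1 ≤ C) (hJ : 1 ≤ J₀) :
    ∃ K Λ : ℝ, 0 ≤ K ∧ 0 ≤ Λ ∧
    ∀ (s σ ρ : ℝ) (x₁ x₂ y₁ y₂ z : ℂ) (B Y : ℕ) (T : Finset ℕ) (w : ℕ → ℂ),
    Rg C s σ x₁ x₂ y₁ y₂ → 0 ≤ σ → σ ≤ C * s → ρ ≤ s / 4 → σ + ρ ≤ 3 * s / 4 →
    ‖z‖ ≤ Real.exp ρ → J₀ / s ≤ 4 ^ B → 2 * (J₀ / s) ≤ Y → T ⊆ range B →
    (∀ b ∈ T, ‖w b‖ = 2) → (∀ b ∈ range B, b ∉ T → w b = 1) →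
    ‖PL F Y x₁ x₂ (et (J₀ / s) B (aa y₁ y₂) w z)‖ ≤ K * s ^ 3 * Λ ^ T.card := by
  obtain ⟨K1, hK1, H1⟩ := lc_est
  obtain ⟨K3, hK3, H3⟩ := mb3 hC hJ
  obtain ⟨K2, hK2, H2⟩ := mb2 (F := F) (κ := max K1 18) (hK1.trans (le_max_left _ _))
  refine ⟨K2 * Real.exp K3, Real.exp K3, by positivity, by positivity, ?_⟩
  intro s σ ρ x₁ x₂ y₁ y₂ z B Y T w hR hσ hσ' hρ hσρ hz hB hY hT hw hw'
  obtain ⟨hη, hsum⟩ := H3 s σ ρ x₁ x₂ y₁ y₂ z B Y T w hR hσ hσ' hρ hσρ hz hB hY hT hw hw'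
  set η := et (J₀ / s) B (aa y₁ y₂) w z with hηd
  have hQ : 0 < Q F := by
    have := three_le_Q hF
    exact_mod_cast (by linarith : (0 : ℝ) < Q F)
  have hσ8 : σ ≤ 1 / 8 := hσ'.trans hR.hC
  have hx : ∀ (x : ℂ) (d : ℕ), ‖x‖ ≤ Real.exp σ → ‖x ^ d‖ ≤ qp F (d / 8) := by
    intro x d h
    rw [norm_pow, qp_eq hQ]
    refine (pow_le_pow_left₀ (norm_nonneg _) h d).trans ?_
    rw [← Real.exp_nat_mul, Real.exp_le_exp]
    have h1 := one_le_lq (F := F) hF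
    have h2 : (0 : ℝ) ≤ d := Nat.cast_nonneg d
    nlinarith
  have hx4 : ∀ (x : ℂ) (d : ℕ), ‖x‖ ≤ Real.exp σ →
      ‖x ^ d‖ ^ 4 * qp F (-(1 / 2) * d) ≤ 1 := by
    intro x d h
    refine (mul_le_mul_of_nonneg_right (pow_le_pow_left₀ (norm_nonneg _) (hx x d h) 4)
      (qp_pos _).le).trans ?_
    rw [qp_pow, ← qp_add]
    refine qp_le_one (le_of_eq ?_)
    push_cast
    ring
  have h1 := H2 Y (fun d => lc Y ((sq F)⁻¹ ^ d) (x₁ ^ d) (x₂ ^ d) η d)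
    (fun d => mtm Y (x₁ ^ d + x₂ ^ d) η d) fun d hd hdY => by
      have hd' : (1 : ℝ) ≤ d := by exact_mod_cast hd
      refine ⟨?_, ?_⟩
      · have h2 := H1 Y d (qp F (-(1 / 2) * d)) (x₁ ^ d) (x₂ ^ d) η hd hdY (qp_pos _)
          (qp_le_of hF (by linarith)) (hx4 _ _ hR.h1) (hx4 _ _ hR.h2) hη
        rw [← Complex.ofReal_pow, qp_pow, qp_pow] at h2
        rw [sq_inv_pow]
        have e1 : (-(1 / 2) * d * (2 : ℕ) : ℝ) = -d := by push_cast; ring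
        have e2 : (-(1 / 2) * d * (3 : ℕ) : ℝ) = -(3 / 2) * d := by push_cast; ring
        rw [e1, e2] at h2
        exact h2.trans (mul_le_mul_of_nonneg_right (le_max_left _ _) (qp_pos _).le)
      · refine le_trans ?_ (mul_le_mul_of_nonneg_right (le_max_right K1 18) (qp_pos _).le)
        have h3 : qp F (d / 8) ≤ qp F (d / 4) := qp_mono (by linarith)
        have h4 : 1 ≤ qp F (d / 4) := (qp_zero (F := F)).symm.trans_le (qp_mono (by linarith))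
        have h5 : ‖x₁ ^ d + x₂ ^ d‖ ≤ 2 * qp F (d / 4) := by
          linarith [norm_add_le (x₁ ^ d) (x₂ ^ d), hx _ d hR.h1, hx _ d hR.h2]
        have h6 := hη d hd
        have h7 : ‖if 2 * d ≤ Y then η (2 * d) else 0‖ ≤ 4 := by
          split_ifs
          · exact hη _ (by omega)
          · simp
        have h8 : ‖η d ^ 2‖ ≤ 16 := by
          rw [norm_pow]
          nlinarith [norm_nonneg (η d)]
        have h9 : ‖(x₁ ^ d + x₂ ^ d) * η d‖ ≤ 2 * qp F (d / 4) * 4 := by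
          rw [norm_mul]
          exact mul_le_mul h5 h6 (norm_nonneg _) (by linarith)
        have h10 := norm_sub_le (η d ^ 2) (if 2 * d ≤ Y then η (2 * d) else 0)
        rw [mtm]
        refine (norm_add_le _ _).trans ?_
        rw [norm_neg, norm_div, Complex.norm_two]
        linarith
  refine h1.trans ?_
  refine (mul_le_mul_of_nonneg_left (Real.exp_le_exp.2 hsum) hK2).trans_eq ?_
  have e : Real.exp (3 * Real.log s) = s ^ 3 := by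
    rw [show (3 : ℝ) = (3 : ℕ) by norm_num, Real.exp_nat_mul, Real.exp_log hR.hs]
  rw [Real.exp_add, e, mul_add, mul_one, Real.exp_add, mul_comm K3 (T.card : ℝ), Real.exp_nat_mul]
  ring

theorem mo_good (hF : ringChar F ≠ 2) {C J₀ : ℝ} (hC : 1 ≤ C) (hJ : 1 ≤ J₀) :
    ∃ K : ℝ, 0 ≤ K ∧ ∀ (s : ℝ) (x₁ x₂ y₁ y₂ : ℂ) (B Y l N : ℕ),
    Rg C s (s / 2) x₁ x₂ y₁ y₂ → J₀ / s ≤ 4 ^ B → 2 * (J₀ / s) ≤ Y → 1 ≤ l → 4 ≤ N * s →
    ‖PL F Y x₁ x₂ (aa y₁ y₂) - nu F Y x₁ x₂ (Vm (J₀ / s) Y B l N (aa y₁ y₂))‖ ≤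
      K * s ^ 3 * (1 / 2 ^ l + Real.exp (-(s * N / 4))) := by
  obtain ⟨K, Λ, hK, hΛ, H⟩ := pl_bound (F := F) hF hC hJ
  refine ⟨K * Real.exp (2 * Λ) * (2 * Λ + 1), by positivity, ?_⟩
  intro s x₁ x₂ y₁ y₂ B Y l N hR hB hY hl hN
  have hs := hR.hs
  have hs1 : s ≤ C * s := le_mul_of_one_le_left hs.le hC
  have hs8 : s ≤ 1 / 8 := hs1.trans hR.hC
  have hN1 : 1 ≤ N := Nat.pos_of_ne_zero fun h => by
    rw [h] at hN
    norm_num at hN
  have h1 := t2 (Xs F Y) (wm F Y x₁ x₂) (fun p => pp (xt Y p)) (J := J₀ / s)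
    (r := Real.exp (s / 4)) (B₀ := K * s ^ 3) (Λ := Λ) (Y := Y) (B := B) (l := l) (N := N)
    (a := aa y₁ y₂) (by positivity) hB (Real.one_lt_exp_iff.2 (by positivity)) hΛ hl hN1
    fun T hT w z hw hw' hz => by
      have h2 := H s (s / 2) (s / 4) x₁ x₂ y₁ y₂ z B Y T w hR (by positivity) (by linarith)
        le_rfl (by linarith) (by
          rcases hz with rfl | hz
          · rw [norm_one]
            exact Real.one_le_exp (by positivity)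
          · exact hz.le) hB hY hT hw hw'
      rw [← nu_exp] at h2
      exact h2
  have h3 := kr_le (N := N) hs (by linarith) hN
  rw [← nu_exp, nu, nu, ← sum_sub_distrib]
  simp only [← mul_sub]
  refine h1.trans ?_
  have h4 : 2 * Λ / 2 ^ l + kr (Real.exp (s / 4)) N ≤
      (2 * Λ + 1) * (1 / 2 ^ l + Real.exp (-(s * N / 4))) := by
    have h5 : (0 : ℝ) ≤ 1 / 2 ^ l := by positivity
    have h6 := (Real.exp_pos (-(s * N / 4))).le
    have h7 : 2 * Λ / 2 ^ l = 2 * Λ * (1 / 2 ^ l) := by ring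
    rw [h7]
    nlinarith [mul_nonneg hΛ h6]
  refine (mul_le_mul_of_nonneg_left h4 (by positivity)).trans_eq ?_
  ring

theorem mo_bad (hF : ringChar F ≠ 2) {C J₀ : ℝ} (hC : 1 ≤ C) (hJ : 1 ≤ J₀) :
    ∃ K : ℝ, 0 ≤ K ∧ ∀ (s : ℝ) (x₁ x₂ y₁ y₂ : ℂ) (B Y l N : ℕ),
    Rg C s (C * s) x₁ x₂ y₁ y₂ → J₀ / s ≤ 4 ^ B → 2 * (J₀ / s) ≤ Y → 1 ≤ l → 1 ≤ N →
    ‖nu F Y x₁ x₂ (Vm (J₀ / s) Y B l N (aa y₁ y₂))‖ ≤
      K * s ^ 3 * Real.exp (2 * C * s * N) := by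
  obtain ⟨K, Λ, hK, hΛ, H⟩ := pl_bound (F := F) hF hC hJ
  refine ⟨2 * K * Real.exp (2 * Λ), by positivity, ?_⟩
  intro s x₁ x₂ y₁ y₂ B Y l N hR hB hY hl hN
  have hs := hR.hs
  have hs0 : 0 ≤ C * s := by positivity
  have h1 := t3 (Xs F Y) (wm F Y x₁ x₂) (fun p => pp (xt Y p)) (J := J₀ / s)
    (ρ := Real.exp (-(C * s))) (B₀ := K * s ^ 3) (Λ := Λ) (Y := Y) (B := B) (l := l) (N := N)
    (a := aa y₁ y₂) (Real.exp_pos _) (Real.exp_le_one_iff.2 (by linarith)) hΛ hl hN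
    fun T hT w z hw hw' hz => by
      have h2 := H s (C * s) (-(C * s)) x₁ x₂ y₁ y₂ z B Y T w hR hs0 le_rfl
        (by linarith) (by linarith) hz.le hB hY hT hw hw'
      rw [← nu_exp] at h2
      exact h2
  have h3 : Real.exp (-(C * s)) ^ (2 * N) * Real.exp (2 * C * s * N) = 1 := by
    rw [← Real.exp_nat_mul, ← Real.exp_add, Real.exp_eq_one_iff]
    push_cast
    ring
  have h4 := mul_le_mul_of_nonneg_right h1 (Real.exp_pos (2 * C * s * N)).le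
  rw [mul_assoc, h3, mul_one] at h4
  exact h4.trans_eq (by ring)

end Pool.Agent.MP_dd7250_nt.LS
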