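import Mathlib
import Pool.Agent.MP_dd7250_nt.LS.MO
import Pool.Agent.MP_dd7250_nt.LS.MC

/- Ratios at small shifts: one term of the model against the prediction. -/

set_option autoImplicit false
set_option maxHeartbeats 400000

namespace Pool.Agent.MP_dd7250_nt.LS

open Polynomial Finset Filter Topology Pool.Agent.MP_d232b3_nt Pool.Agent.MP_dd7250_nt
open scoped Classical

variable {F : Type} [Field F] [Fintype F]

theorem sh_small (hF : ringChar F ≠ 2) {C c : ℝ} {x : ℂ} (hx : ‖x‖ ≤ C * c) (hc : C * (lq F * c) ≤ 1 / 32) :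
    lq F * ‖x‖ ≤ C * (lq F * c) ∧ ‖x‖ ≤ 1 / 32 := by
  have h1 := one_le_lq hF
  have h2 : lq F * ‖x‖ ≤ C * (lq F * c) := by nlinarith
  exact ⟨h2, by nlinarith [norm_nonneg x]⟩

theorem neg_re_le (x : ℂ) : -x.re ≤ ‖x‖ := (neg_le_abs _).trans (Complex.abs_re_le_norm x)

theorem eps_num1 {K₁ K₂ K₃ t a b c : ℝ} (h1 : 0 ≤ K₁) (h2 : 0 ≤ K₂) (h3 : 0 ≤ K₃) (ht : 0 ≤ t)
    (ha : 0 ≤ a) (hb : 0 ≤ b) (hc : 0 ≤ c) :
    2 * K₁ * t * (a + b) + c ≤ (2 * (K₁ + K₂) * t + 1 + K₃) * (a + b + c) := by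
  have : 0 ≤ 2 * K₁ * t * c + 2 * K₂ * t * (a + b + c) + (a + b) + K₃ * (a + b + c) := by
    positivity
  linarith

theorem eps_num2 {K₁ K₂ K₃ t a b c d : ℝ} (h1 : 0 ≤ K₁) (h2 : 0 ≤ K₂) (h3 : 0 ≤ K₃) (ht : 0 ≤ t)
    (ha : 0 ≤ a) (hb : 0 ≤ b) (hc : 0 ≤ c) (hd : d ≤ c) :
    2 * K₂ * t * c + d * K₃ ≤ (2 * (K₁ + K₂) * t + 1 + K₃) * (a + b + c) := by
  have : 0 ≤ 2 * K₁ * t * (a + b + c) + 2 * K₂ * t * (a + b) + (a + b + c) + K₃ * (a + b) := by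
    positivity
  have := mul_le_mul_of_nonneg_right hd h3
  linarith

theorem eps (hF : ringChar F ≠ 2) {C J₀ η : ℝ} (hC : 1 ≤ C) (hJ : 1 ≤ J₀) (hη : 0 < η) :
    ∃ K : ℝ, 0 ≤ K ∧ ∀ (c : ℝ) (α β γ δ P : ℂ) (g B l N : ℕ), Sh C c α β γ δ →
    C * (lq F * c) ≤ 1 / 32 → Far (η * c) α β → ‖P‖ ≤ 1 → ‖P‖ ≤ qp F (2 * g * α.re) →
    ‖P‖ ≤ qp F (2 * g * β.re) → J₀ / (lq F * c) ≤ 4 ^ B → 1 ≤ l → 4 ≤ N * (lq F * c) →
    8 * C * N ≤ g → ∀ᶠ Y in atTop,
    ‖P * (MV F Y (xv F α) (xv F β) (Vm (J₀ / (lq F * c)) Y B l N (aa (xv F γ) (xv F δ))) -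
      GG F α β γ δ)‖ ≤
      K * (1 / 2 ^ l + Real.exp (-(lq F * c * N / 4)) + Real.exp (-(lq F * c * g / 2))) := by
  obtain ⟨K₁, hK₁, h₁⟩ := mo_good hF (C := 2 * C) (by linarith) hJ
  obtain ⟨K₂, hK₂, h₂⟩ := mo_bad hF (C := 2 * C) (by linarith) hJ
  obtain ⟨K₃, hK₃, h₃⟩ := GG_bound hF hC hη
  refine ⟨2 * (K₁ + K₂) * (4 / η) ^ 3 + 1 + K₃, by positivity,
    fun c α β γ δ P g B l N h hc hf hP hPa hPb hB hl hN hg => ?_⟩
  have hq := one_le_lq hF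
  have hc0 := h.hc
  obtain ⟨a1, a2⟩ := sh_small hF h.h1 hc
  obtain ⟨b1, b2⟩ := sh_small hF h.h2 hc
  obtain ⟨-, c2⟩ := sh_small hF h.h3 hc
  obtain ⟨-, d2⟩ := sh_small hF h.h4 hc
  have hs : 0 < lq F * c := by positivity
  have hd := den_ge (F := F) (by positivity) hf (by linarith) (by linarith)
  have hd0 : 0 < (lq F * (η * c) / 4) ^ 3 := by positivity
  have ht := tl_lim (F := F) (x₁ := xv F α) (x₂ := xv F β)
    (by rw [norm_xv]; exact qp_mono (by linarith [neg_re_le α]))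
    (by rw [norm_xv]; exact qp_mono (by linarith [neg_re_le β]))
  have ht2 : ∀ᶠ Y in atTop, ‖tl F Y (xv F α) (xv F β)‖ ≤ 2 :=
    ht.norm.eventually_le_const (by simp)
  have hY : ∀ᶠ Y : ℕ in atTop, 2 * (J₀ / (lq F * c)) ≤ Y :=
    tendsto_natCast_atTop_atTop.eventually_ge_atTop _
  have key : ∀ (Y : ℕ) (z : ℂ) (K e : ℝ), ‖tl F Y (xv F α) (xv F β)‖ ≤ 2 → 0 ≤ K → 0 ≤ e →
      ‖z‖ ≤ K * (lq F * c) ^ 3 * e →
      ‖tl F Y (xv F α) (xv F β) * z / den (xv F α) (xv F β)‖ ≤ 2 * K * (4 / η) ^ 3 * e := by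
    intro Y z K e h1 hK he h2
    rw [norm_div, norm_mul]
    refine (div_le_div₀ (by positivity) (mul_le_mul h1 h2 (norm_nonneg _) zero_le_two) hd0
      hd).trans_eq ?_
    field_simp
  have e1 : (0 : ℝ) < 1 / 2 ^ l := by positivity
  have e2 := Real.exp_pos (-(lq F * c * N / 4))
  have e3 := Real.exp_pos (-(lq F * c * g / 2))
  have e4 : (0 : ℝ) ≤ (4 / η) ^ 3 := by positivity
  by_cases hgood : -(c / 2) ≤ α.re ∧ -(c / 2) ≤ β.re
  · have hR := rg_of_sh (F := F) (σ := lq F * c / 2) h (by linarith) (by nlinarith [hgood.1])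
      (by nlinarith [hgood.2])
    have hl2 := ht.mul (pl_lim hF hc0 a2 b2 c2 d2 hgood.1 hgood.2 h.r3 h.r4)
    rw [one_mul] at hl2
    have hl3 := (tendsto_iff_norm_sub_tendsto_zero.1 hl2).eventually_le_const e3
    filter_upwards [ht2, hY, hl3] with Y y1 y2 y3
    have k1 := key Y _ K₁ _ y1 hK₁ (by positivity)
      ((norm_sub_rev _ _).trans_le (h₁ _ _ _ _ _ B Y l N hR hB y2 hl hN))
    rw [norm_mul]
    refine (mul_le_of_le_one_left (norm_nonneg _) hP).trans ?_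
    rw [MV, ← sub_add_sub_cancel _ (tl F Y (xv F α) (xv F β) *
      (PL F Y (xv F α) (xv F β) (aa (xv F γ) (xv F δ)) / den (xv F α) (xv F β))),
      ← mul_div_assoc, ← sub_div, ← mul_sub, mul_div_assoc _ (PL _ _ _ _ _)]
    exact (norm_add_le_of_le k1 y3).trans (eps_num1 hK₁ hK₂ hK₃ e4 e1.le e2.le e3.le)
  · have hg0 : (0 : ℝ) ≤ g := Nat.cast_nonneg g
    have hP2 : ‖P‖ ≤ Real.exp (-(lq F * c * g)) := by
      have : Real.exp (-(lq F * c * g)) = qp F (-(c * g)) := by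
        rw [qp_eq Fintype.card_pos]
        congr 1
        ring
      rw [this]
      rcases not_and_or.1 hgood with h' | h'
      · exact hPa.trans (qp_mono (by nlinarith [not_le.1 h']))
      · exact hPb.trans (qp_mono (by nlinarith [not_le.1 h']))
    have hR := rg_of_sh (F := F) (σ := 2 * C * (lq F * c)) h (by linarith)
      (by nlinarith [neg_re_le α]) (by nlinarith [neg_re_le β])
    have hN1 : 1 ≤ N := Nat.one_le_iff_ne_zero.2 fun h0 => by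
      rw [h0] at hN
      norm_num at hN
    have hG := h₃ c α β γ δ h hc hf
    filter_upwards [ht2, hY] with Y y1 y2
    have k1 := (key Y _ K₂ _ y1 hK₂ (by positivity) (h₂ _ _ _ _ _ B Y l N hR hB y2 hl hN1)).trans
      (mul_le_mul_of_nonneg_left (Real.exp_le_exp.2
        (show _ ≤ lq F * c * g / 2 by nlinarith)) (by positivity))
    have e5 : Real.exp (-(lq F * c * g)) * Real.exp (lq F * c * g / 2) =
        Real.exp (-(lq F * c * g / 2)) := by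
      rw [← Real.exp_add]
      congr 1
      ring
    have e6 : Real.exp (-(lq F * c * g)) ≤ Real.exp (-(lq F * c * g / 2)) :=
      Real.exp_le_exp.2 (by nlinarith [mul_nonneg hs.le hg0])
    rw [norm_mul, MV]
    refine (mul_le_mul hP2 (norm_sub_le_of_le k1 hG) (norm_nonneg _) (Real.exp_pos _).le).trans ?_
    rw [mul_add, mul_left_comm, e5]
    exact eps_num2 hK₁ hK₂ hK₃ e4 e1.le e2.le e3.le e6

end Pool.Agent.MP_dd7250_nt.LS
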