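import Mathlib
import Pool.Agent.MP_dd7250_nt.LS.DT

/- Ratios at small shifts: the decomposition of the twisted generating function. -/

set_option autoImplicit false
set_option maxHeartbeats 400000

namespace Pool.Agent.MP_dd7250_nt.LS

open Polynomial Finset Filter Topology Pool.Agent.MP_d232b3_nt Pool.Agent.MP_dd7250_nt
open scoped Classical

variable {F : Type} [Field F] [Fintype F]

variable {A : Type*} [CommRing A] [Algebra ℂ A]

theorem expand' (D : F[X]) {M I : ℕ} (hI : M ≤ I) {U₀ U₁ : A} (R R' : ℕ → A)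
    (h0 : U₀ ^ (M + 1) = 0) (h1 : U₁ ^ (M + 1) = 0) :
    Lt (jac D) I U₀ * Lt (jac D) I U₁ * omt (jac D) M R R' =
      ∑ S₀ ∈ (pr F M).powerset, ∑ S₁ ∈ (pr F M \ S₀).powerset,
        (∏ P ∈ S₀, Od M (av U₀ U₁ R R' P.natDegree)) *
          (∏ P ∈ S₁, Ev M (av U₀ U₁ R R' P.natDegree)) *
          algebraMap ℂ A ((∏ P ∈ S₀, jac D P) * ∏ P ∈ S₁, jac D P ^ 2) := by
  have e0 := Lt_mul_prod (jac_cm D) hI h0
  have e1 := Lt_mul_prod (jac_cm D) hI h1
  have key : omt (jac D) M R R' =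
      (∏ P ∈ pr F M, (1 - algebraMap ℂ A (jac D P) * U₀ ^ P.natDegree)) *
      (∏ P ∈ pr F M, (1 - algebraMap ℂ A (jac D P) * U₁ ^ P.natDegree)) *
      ∏ P ∈ pr F M, (algebraMap ℂ A (jac D P) * Od M (av U₀ U₁ R R' P.natDegree) +
        (1 + algebraMap ℂ A (jac D P) ^ 2 * Ev M (av U₀ U₁ R R' P.natDegree))) := by
    rw [omt, ← prod_mul_distrib, ← prod_mul_distrib]
    refine prod_congr rfl fun P hP => ?_
    have hd := deg_pos (mem_pr.1 hP).2.1
    exact form1_local (a := av U₀ U₁ R R' P.natDegree) (jac_tri D P) (form1_gam h0 hd)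
      (form1_gam h1 hd)
  rw [key]
  have e2 : ∀ a b c d e : A, a * c = 1 → b * d = 1 → a * b * (c * d * e) = e := by
    intro a b c d e h1 h2
    linear_combination (b * d * e) * h1 + e * h2
  rw [e2 _ _ _ _ _ e0 e1, prod_add]
  refine sum_congr rfl fun S₀ _ => ?_
  rw [prod_one_add, mul_sum]
  refine sum_congr rfl fun S₁ _ => ?_
  simp only [prod_mul_distrib, map_mul, map_prod, map_pow]
  ring

theorem prod_BP' {M : ℕ} {U₀ U₁ : A} (R R' : ℕ → A) (h0 : U₀ ^ (M + 1) = 0)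
    (h1 : U₁ ^ (M + 1) = 0) :
    (1 - qA F A * U₀ ^ 2) * (1 - qA F A * U₁ ^ 2) * (1 - qA F A * (U₀ * U₁)) *
      ∏ P ∈ pr F M, (1 + algebraMap ℂ A (1 + ((Q F : ℂ) ^ P.natDegree)⁻¹)⁻¹ *
        Ev M (av U₀ U₁ R R' P.natDegree)) =
      ∏ P ∈ pr F M, BP F P.natDegree (av U₀ U₁ R R' P.natDegree) := by
  have h2 : ∀ U : A, U ^ (M + 1) = 0 → (U ^ 2) ^ (M + 1) = 0 := fun U hU => by
    have := form1_nil hU Nat.one_pos
    rwa [pow_one] at this
  have h3 : (U₀ * U₁) ^ (M + 1) = 0 := by rw [mul_pow, h0, zero_mul]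
  rw [← prod_zeta (h2 _ h0), ← prod_zeta (h2 _ h1), ← prod_zeta h3, ← prod_mul_distrib,
    ← prod_mul_distrib, ← prod_mul_distrib]
  refine prod_congr rfl fun P hP => ?_
  have hd := deg_pos (mem_pr.1 hP).2.1
  have g0 := form1_gam h0 hd
  have g1 := form1_gam h1 hd
  have hk := form1_k (F := F) (A := A) P.natDegree
  rw [pow_right_comm U₀, pow_right_comm U₁, mul_pow, BP, Ev]
  have a0 : av U₀ U₁ R R' P.natDegree 0 = U₀ ^ P.natDegree := rfl
  have a1 : av U₀ U₁ R R' P.natDegree 1 = U₁ ^ P.natDegree := rfl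
  rw [a0, a1]
  generalize algebraMap ℂ A (1 + ((Q F : ℂ) ^ P.natDegree)⁻¹)⁻¹ = k at *
  generalize algebraMap ℂ A ((Q F : ℂ) ^ P.natDegree)⁻¹ = p at *
  generalize av U₀ U₁ R R' P.natDegree 2 = c
  generalize av U₀ U₁ R R' P.natDegree 3 = e
  clear a0 a1
  generalize U₀ ^ P.natDegree = a at *
  generalize U₁ ^ P.natDegree = b at *
  generalize gam M (a ^ 2) = ga at *
  generalize gam M (b ^ 2) = gb at *
  linear_combination (k * (1 + a * b + c * e - (a + b) * (c + e) + a * b * (c * e)) * (1 - a * b)) *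
    ((gb * (1 - b ^ 2)) * g0 + g1) - ((1 - a ^ 2) * (1 - b ^ 2) * (1 - a * b)) * hk

omit [Algebra ℂ A] in
theorem nil_TF {M : ℕ} {t U : A} (h : t ∣ U) (ht : t ^ (M + 1) = 0) : U ^ (M + 1) = 0 := by
  obtain ⟨c, hc⟩ := h
  rw [hc, mul_pow, ht, zero_mul]

omit [Algebra ℂ A] in
theorem dvd_Od_TF {s : A} {a : Fin 4 → A} (h : ∀ i, s ∣ a i) (M : ℕ) : s ∣ Od M a := by
  refine Dvd.dvd.mul_left ?_ _
  exact ((((h 0).add (h 1)).sub ((h 2).add (h 3))).sub (((h 2).add (h 3)).mul_left _)).add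
    (((h 0).add (h 1)).mul_left _)

theorem Zs_TF (hF : ringChar F ≠ 2) {M I : ℕ} (hI : M ≤ I) {y U₀ U₁ : A} (R R' : ℕ → A)
    (h0 : U₀ ^ (M + 1) = 0) (h1 : U₁ ^ (M + 1) = 0) (hy : y ^ (I + 1) = 0) :
    Zs' F M I U₀ U₁ R R' y = (1 - qA F A * y ^ 2) * ∑ S ∈ (pr F M).powerset,
      (∏ P ∈ S, Od M (av U₀ U₁ R R' P.natDegree) * rho I y P.natDegree) *
        Lt (fun f => jac f (∏ P ∈ S, P)) I y * ∏ P ∈ pr F M \ S,
          (lE' M I (av U₀ U₁ R R') y P.natDegree * algebraMap ℂ A (jac P (∏ P ∈ S, P)) +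
            (1 + Ev M (av U₀ U₁ R R' P.natDegree) * rho I y P.natDegree)) := by
  rw [Zs']
  simp only [expand' _ hI R R' h0 h1]
  generalize av U₀ U₁ R R' = a
  rw [mul_sum]
  simp only [mul_sum]
  simp only [sum_comm (s := sqF F _) (t := (pr F M).powerset)]
  rw [sum_comm]
  refine sum_congr rfl fun S hS => ?_
  rw [mem_powerset] at hS
  have h1 : ∀ P ∈ pr F M \ S, lE' M I a y P.natDegree * algebraMap ℂ A (jac P (∏ P ∈ S, P)) +
      (1 + Ev M (a P.natDegree) * rho I y P.natDegree) =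
      1 + Ev M (a P.natDegree) * (rho I y P.natDegree *
        (1 - algebraMap ℂ A (jac P (∏ P ∈ S, P)) * y ^ P.natDegree)) := by
    intro P _
    rw [lE']
    ring
  rw [prod_congr rfl h1, prod_one_add, mul_sum, mul_sum]
  simp only [sum_comm (s := sqF F _) (t := (pr F M \ S).powerset)]
  rw [sum_comm]
  refine sum_congr rfl fun S₁ hS₁ => ?_
  rw [mem_powerset] at hS₁
  have h2 := sieve_gen hF (hS.trans (pr_mono hI))
    (hS₁.trans (sdiff_subset_sdiff (pr_mono hI) Subset.rfl)) hy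
  rw [prod_mul_distrib, prod_mul_distrib]
  calc _ = (∏ P ∈ S, Od M (a P.natDegree)) * (∏ P ∈ S₁, Ev M (a P.natDegree)) *
        ∑ N ∈ range (I + 1), y ^ N * algebraMap ℂ A
          (∑ D ∈ sqF F N, (∏ P ∈ S, jac D P) * ∏ P ∈ S₁, jac D P ^ 2) := by
        rw [mul_sum]
        refine sum_congr rfl fun N _ => ?_
        rw [map_sum, mul_sum, mul_sum]
        exact sum_congr rfl fun D _ => by ring
    _ = _ := by rw [h2]; ring

theorem all_TF (hF : ringChar F ≠ 2) {M I : ℕ} (hI : M ≤ I) {t y : A} {a : ℕ → Fin 4 → A}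
    (ha : ∀ d i, t ^ d ∣ a d i) (ht : t ^ (M + 1) = 0) (hy : y ^ (I + 1) = 0) :
    y ^ (M + 1) * ((1 - qA F A * y) * ((1 - qA F A * y ^ 2) * ∑ S ∈ (pr F M).powerset,
      (∏ P ∈ S, Od M (a P.natDegree) * rho I y P.natDegree) *
        Lt (fun f => jac f (∏ P ∈ S, P)) I y * ∏ P ∈ pr F M \ S,
          (lE' M I a y P.natDegree * algebraMap ℂ A (jac P (∏ P ∈ S, P)) +
            (1 + Ev M (a P.natDegree) * rho I y P.natDegree)))) = (1 - qA F A * y ^ 2) *
      ((∑ σ ∈ ({1, -1} : Finset ℂ), kap F σ y * ∑ V ∈ monLe F M,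
        ∑ e ∈ (pr F M).powerset, wV F M y V * ((∏ P ∈ e, lE' M I a y P.natDegree) *
          ∏ P ∈ pr F M \ e, lO' M I a y σ (V * ∏ P ∈ e, P) P)) + Pd' F M I a y) := by
  set o : F[X] → A := fun P => Od M (a P.natDegree) * rho I y P.natDegree with ho
  set R : Finset F[X] → A := fun S => ∏ P ∈ pr F M \ S,
    (lE' M I a y P.natDegree * algebraMap ℂ A (jac P (∏ P ∈ S, P)) +
      (1 + Ev M (a P.natDegree) * rho I y P.natDegree)) with hR
  have h1 : ∀ S ∈ (pr F M).powerset, y ^ (M + 1) * (1 - qA F A * y) *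
      ((∏ P ∈ S, o P) * Lt (fun f => jac f (∏ P ∈ S, P)) I y * R S) =
      (∑ σ ∈ ({1, -1} : Finset ℂ), kap F σ y * ∑ V ∈ monLe F M, wV F M y V *
        ((∏ P ∈ S, o P * dy F σ y ^ P.natDegree) * algebraMap ℂ A (jac V (∏ P ∈ S, P)) * R S)) +
        if S = ∅ then R S else 0 := by
    intro S hS
    rw [mem_powerset] at hS
    obtain ⟨h2, h3, h4, h5⟩ := monic_sqfree_prod hS
    by_cases hd : (∏ P ∈ S, P).natDegree ≤ M
    · have h6 := lam_eq hF h2 h3 hd hI y hy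
      calc _ = (∏ P ∈ S, o P) * R S * (y ^ (M + 1) * ((1 - qA F A * y) *
            Lt (fun f => jac f (∏ P ∈ S, P)) I y)) := by ring
        _ = _ := by
          rw [h6, mul_add, mul_sum]
          congr 1
          · refine sum_congr rfl fun σ _ => ?_
            rw [prod_mul_distrib (f := o), prod_pow_eq_pow_sum, ← h4]
            simp only [mul_sum]
            exact sum_congr rfl fun V _ => by ring
          · by_cases hS0 : S = ∅
            · simp [hS0]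
            · simp [hS0, h5.not.2 hS0]
    · have h6 : ∏ P ∈ S, o P = 0 := by
        have h7 : t ^ (∑ P ∈ S, P.natDegree) ∣ ∏ P ∈ S, o P := by
          rw [← prod_pow_eq_pow_sum]
          exact prod_dvd_prod_of_dvd _ _ fun P _ => (dvd_Od_TF (ha _) M).mul_right _
        obtain ⟨c, hc⟩ := (pow_dvd_pow t (by omega : M + 1 ≤ ∑ P ∈ S, P.natDegree)).trans h7
        rw [hc, ht, zero_mul]
      have hS0 : S ≠ ∅ := by
        rintro rfl
        simp at hd
      simp only [prod_mul_distrib (f := o), h6, hS0, if_false, zero_mul, mul_zero,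
        sum_const_zero, add_zero]
  calc _ = (1 - qA F A * y ^ 2) * ∑ S ∈ (pr F M).powerset, y ^ (M + 1) * (1 - qA F A * y) *
        ((∏ P ∈ S, o P) * Lt (fun f => jac f (∏ P ∈ S, P)) I y * R S) := by
        rw [← mul_sum]; ring
    _ = _ := by
      rw [sum_congr rfl h1, sum_add_distrib, sum_comm, sum_ite_eq']
      congr 2
      · refine sum_congr rfl fun σ _ => ?_
        rw [← mul_sum, sum_comm]
        congr 1
        refine sum_congr rfl fun V hV => ?_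
        rw [← mul_sum, ← mul_sum, hR]
        congr 1
        have key := form2_swap (pr F M) (fun P => o P * dy F σ y ^ P.natDegree)
          (fun P => 1 + Ev M (a P.natDegree) * rho I y P.natDegree)
          (fun P => lE' M I a y P.natDegree)
          (fun S => algebraMap ℂ A (jac V (∏ P ∈ S, P)))
          (fun P S => algebraMap ℂ A (jac P (∏ P ∈ S, P)))
          (fun e P => algebraMap ℂ A (jac (V * ∏ P ∈ e, P) P)) fun S hS e he => by
            have h2 := (monic_sqfree_prod hS).1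
            have h3 := (jac_cm_left hF h2).prod e fun P hP => (mem_pr.1 (he hP)).1
            have h4 := (jac_cm (V * ∏ P ∈ e, P)).prod S fun P hP => (mem_pr.1 (hS hP)).1
            rw [← map_prod (algebraMap ℂ A), ← map_prod (algebraMap ℂ A), ← map_mul, ← h4,
              jac_mul_left hF _ _ h2, h3]
        exact key
      · rw [if_pos (empty_mem_powerset _), hR, Pd']
        simp only [sdiff_empty, prod_empty, (jac_cm _).one, map_one, lE']
        exact prod_congr rfl fun P _ => by ring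

theorem mid_TF {M : ℕ} {y U₀ U₁ : A} (h0 : U₀ ^ (M + 1) = 0) (h1 : U₁ ^ (M + 1) = 0)
    {σ : ℂ} (hσ : σ ^ 2 = 1) :
    mid' F U₀ U₁ y = (1 + qA F A * (dy F σ y * U₀)) * (1 + qA F A * (dy F σ y * U₁)) *
      ∏ P ∈ pr F M, om' F U₀ U₁ y σ P.natDegree := by
  have hU' : ∀ U : A, U ^ (M + 1) = 0 → (dy F σ y * U) ^ (M + 1) = 0 := fun U hU => by
    rw [mul_pow, hU, mul_zero]
  have h2 : dy F σ y ^ 2 = qA F A * y ^ 2 := by
    rw [dy, mul_pow, ← map_pow, mul_pow, hσ, one_mul, sq_sq, map_natCast]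
  simp only [om', prod_mul_distrib, prod_zeta (hU' _ h0), prod_zeta (hU' _ h1)]
  calc _ = (1 - qA F A ^ 2 * U₀ ^ 2 * dy F σ y ^ 2) *
        (1 - qA F A ^ 2 * U₁ ^ 2 * dy F σ y ^ 2) := by rw [h2, mid']; ring
    _ = _ := by ring

theorem key' (hF : ringChar F ≠ 2) {M I : ℕ} (hI : M ≤ I) {t y U₀ U₁ : A} {R R' : ℕ → A}
    (h0 : t ∣ U₀) (h1 : t ∣ U₁) (hR : ∀ d, t ^ d ∣ R d) (hR' : ∀ d, t ^ d ∣ R' d)
    (ht : t ^ (M + 1) = 0) (hy : y ^ (I + 1) = 0) :
    y ^ (M + 1) * (Ph F U₀ U₁ (y ^ 2) * Zs' F M I U₀ U₁ R R' y) =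
      pre' F U₀ U₁ y * (mid' F U₀ U₁ y *
        (Pr' F M I (av U₀ U₁ R R') y + Pd' F M I (av U₀ U₁ R R') y)) +
        pre' F U₀ U₁ y * Ps' F M I U₀ U₁ (av U₀ U₁ R R') y := by
  have n0 := nil_TF h0 ht
  have n1 := nil_TF h1 ht
  have ha : ∀ d i, t ^ d ∣ av U₀ U₁ R R' d i := fun d i => by
    fin_cases i
    exacts [pow_dvd_pow_of_dvd h0 d, pow_dvd_pow_of_dvd h1 d, hR d, hR' d]
  have h1 := all_TF hF hI ha ht hy
  rw [← Zs_TF hF hI R R' n0 n1 hy] at h1
  generalize av U₀ U₁ R R' = a at h1 ⊢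
  have h0 : ∑ σ ∈ ({1, -1} : Finset ℂ), kap F σ y * ∑ V ∈ monLe F M,
      ∑ e ∈ (pr F M).powerset, wV F M y V * ((∏ P ∈ e, lE' M I a y P.natDegree) *
        ∏ P ∈ pr F M \ e, lO' M I a y σ (V * ∏ P ∈ e, P) P) =
      ∑ σ ∈ ({1, -1} : Finset ℂ), kap F σ y * ∑ V ∈ monLe F M,
      ∑ e ∈ (pr F M).powerset with IsSquare (V * ∏ P ∈ e, P), wV F M y V *
        ((∏ P ∈ e, lE' M I a y P.natDegree) *
          ∏ P ∈ pr F M \ e, lO' M I a y σ (V * ∏ P ∈ e, P) P) + Pr' F M I a y := by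
    rw [Pr', ← sum_add_distrib]
    refine sum_congr rfl fun σ _ => ?_
    rw [← mul_add, ← sum_add_distrib]
    congr 1
    exact sum_congr rfl fun V _ => (sum_filter_add_sum_filter_not _ _ _).symm
  rw [h0] at h1
  have h2 : mid' F U₀ U₁ y * ∑ σ ∈ ({1, -1} : Finset ℂ), kap F σ y * ∑ V ∈ monLe F M,
      ∑ e ∈ (pr F M).powerset with IsSquare (V * ∏ P ∈ e, P), wV F M y V *
        ((∏ P ∈ e, lE' M I a y P.natDegree) *
          ∏ P ∈ pr F M \ e, lO' M I a y σ (V * ∏ P ∈ e, P) P) = Ps' F M I U₀ U₁ a y := by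
    rw [Ps', mul_sum]
    refine sum_congr rfl fun σ hσ => ?_
    have hσ2 : σ ^ 2 = 1 := by
      rcases mem_insert.1 hσ with rfl | h
      · simp
      · rw [mem_singleton.1 h]; simp
    rw [mid_TF n0 n1 hσ2]
    simp only [mul_sum]
    refine sum_congr rfl fun V _ => sum_congr rfl fun e he => ?_
    rw [prod_mul_distrib, prod_mul_distrib,
      ← prod_sdiff (mem_powerset.1 (mem_filter.1 he).1)]
    ring
  rw [← h2]
  calc _ = (1 + qA F A * y) * (1 - qA F A ^ 4 * U₀ ^ 2 * U₁ ^ 2 * y ^ 2) * mid' F U₀ U₁ y *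
        (y ^ (M + 1) * ((1 - qA F A * y) * Zs' F M I U₀ U₁ R R' y)) := by rw [Ph, mid']; ring
    _ = _ := by rw [h1, pre']; ring

end Pool.Agent.MP_dd7250_nt.LS
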