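import Mathlib
import Pool.Agent.MP_dd7250_nt.LS.DT

/- Ratios at small shifts: from the generating function to the homogeneous parts. -/

set_option autoImplicit false
set_option maxHeartbeats 400000

namespace Pool.Agent.MP_dd7250_nt.LS

open Polynomial Finset Filter Topology Pool.Agent.MP_d232b3_nt Pool.Agent.MP_dd7250_nt
open scoped Classical

variable {F : Type} [Field F] [Fintype F]

theorem omt_cut_TL {A : Type*} [CommRing A] [Algebra ℂ A] (χ : F[X] → ℂ) {R R' : ℕ → A}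
    {Y M : ℕ} (h : Y ≤ M) (hY : ∀ d, Y < d → R d = 0 ∧ R' d = 0) :
    omt χ M R R' = omt χ Y R R' := by
  refine (prod_subset (pr_mono h) fun P hP hP' => ?_).symm
  have h1 : Y < P.natDegree := by
    by_contra hc
    exact hP' (mem_pr.2 ⟨(mem_pr.1 hP).1, (mem_pr.1 hP).2.1, not_lt.1 hc⟩)
  rw [(hY _ h1).1, (hY _ h1).2]
  simp

theorem gr_zero_TL {A : Type} [CommRing A] [Algebra ℂ A] (φ : ℂ[X] →ₐ[ℂ] A) {k : ℕ}
    (hφ : φ X ^ (k + 1) = 0) (r : ℕ → ℂ) {d : ℕ} (hd : k < d) : φ (gr r d) = 0 := by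
  obtain ⟨e, rfl⟩ := Nat.exists_eq_add_of_lt hd
  rw [gr, map_mul, map_pow, show k + e + 1 = (k + 1) + e by ring, pow_add, hφ, zero_mul, mul_zero]

theorem Zs_coeff_TL {A : Type*} [CommRing A] [Algebra ℂ A] (U₀ U₁ : A) (R R' : ℕ → A)
    (M : ℕ) {I N : ℕ} (hN : N ≤ I) :
    (Zs' F M I (C U₀ : A[X]) (C U₁) (fun d => C (R d)) (fun d => C (R' d)) X).coeff N =
      ∑ D ∈ sqF F N, Lt (jac D) I U₀ * Lt (jac D) I U₁ * omt (jac D) M R R' := by
  have hLt : ∀ (χ : F[X] → ℂ) (z : A), Lt χ I (C z : A[X]) = C (Lt χ I z) := fun χ z =>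
    (map_Lt (CAlgHom (R := ℂ) (A := A)) χ I z).symm
  have hO : ∀ χ : F[X] → ℂ, omt χ M (fun d => (C (R d) : A[X])) (fun d => C (R' d)) =
      C (omt χ M R R') := fun χ => (map_omt (CAlgHom (R := ℂ) (A := A)) χ M R R').symm
  rw [Zs', finsetSum_coeff]
  simp only [hLt, hO, ← C_mul, ← map_sum C]
  have h : ∀ (n : ℕ) (w : A), (X ^ n * C w : A[X]).coeff N = if N = n then w else 0 := by
    intro n w
    rw [mul_comm, coeff_C_mul, coeff_X_pow]
    split_ifs <;> simp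
  simp only [h]
  rw [sum_ite_eq, if_pos (mem_range.2 (by omega))]

theorem bet_smul_TL (r r' : ℕ → ℂ) (m : ℂ) (k : ℕ) :
    bet (F := F) (fun d => m ^ d * r d) (fun d => m ^ d * r' d) k =
      fun D => m ^ k * bet r r' k D := by
  funext D
  have h : ∀ s : ℕ → ℂ, gr (fun d => m ^ d * s d) =
      fun d => aeval (C m * X : ℂ[X]) (gr s d) := by
    intro s
    funext d
    simp only [gr, map_mul, map_pow, aeval_C, aeval_X, Polynomial.algebraMap_apply,
      Algebra.algebraMap_self, RingHom.id_apply]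
    ring
  rw [bet, bet, h, h, ← map_omt, ← comp_eq_aeval, comp_C_mul_X_coeff, mul_comm]

theorem HW_refl_TL (hF : ringChar F ≠ 2) {u₀ u₁ : ℂ} (h0 : u₀ ≠ 0) (h1 : u₁ ≠ 0)
    (w : F[X] → ℂ) (n g : ℕ) : (HW (F := F) w (C u₀ * X : ℂ[X]) (C u₁ * X) g).coeff n =
    if n ≤ 4 * g then (Q F * u₀ ^ 2) ^ g * (Q F * u₁ ^ 2) ^ g *
      (HW (F := F) w (C (Q F * u₀)⁻¹ * X : ℂ[X])
        (C (Q F * u₁)⁻¹ * X) g).coeff (4 * g - n) else 0 := by
  have hev : ∀ (a b z : ℂ), eval z (HW w (C a * X : ℂ[X]) (C b * X) g) =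
      HW w (a * z) (b * z) g := by
    intro a b z
    rw [← coe_aeval_eq_eval, map_HW]
    simp
  set p := HW w (C u₀ * X : ℂ[X]) (C u₁ * X) g with hp
  set r := HW w (C (Q F * u₀)⁻¹ * X : ℂ[X]) (C (Q F * u₁)⁻¹ * X) g with hr
  set c : ℂ := (Q F * u₀ ^ 2) ^ g * (Q F * u₁ ^ 2) ^ g with hc
  have key : ∀ z : ℂ, z ≠ 0 → eval z p = c * z ^ (4 * g) * eval z⁻¹ r := by
    intro z hz
    rw [hp, hr, hev, hev, HW_symm hF w (mul_ne_zero h0 hz), HW_comm,
      HW_symm hF w (mul_ne_zero h1 hz), HW_comm, ← mul_inv, ← mul_inv, mul_assoc (Q F : ℂ),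
      mul_assoc (Q F : ℂ), hc]
    simp only [mul_pow, ← pow_mul]
    ring
  have hpoly : X ^ (r.natDegree + 4 * g) * p =
      C c * (X ^ (4 * g) * reflect (r.natDegree + 4 * g) r) := by
    refine eq_of_infinite_eval_eq _ _ (Set.Infinite.mono (s := {z : ℂ | z ≠ 0}) ?_ ?_)
    · intro z hz
      have hz' : z ≠ 0 := hz
      let _ : Invertible z⁻¹ := invertibleOfNonzero (inv_ne_zero hz')
      have h3 := eval₂_reflect_mul_pow (RingHom.id ℂ) z⁻¹ (r.natDegree + 4 * g) r (by omega)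
      rw [invOf_eq_inv, inv_inv, eval₂_id, eval₂_id] at h3
      simp only [Set.mem_ofPred_eq, eval_mul, eval_pow, eval_X, eval_C]
      rw [key z hz', ← h3, inv_pow]
      field_simp
    · exact (Set.finite_singleton (0 : ℂ)).infinite_compl
  have h4 := congrArg (fun s : ℂ[X] => s.coeff (n + (r.natDegree + 4 * g))) hpoly
  simp only [coeff_X_pow_mul, coeff_C_mul] at h4
  rw [h4, ← add_assoc, coeff_X_pow_mul, coeff_reflect]
  split_ifs with h5
  · rw [revAt_le (by omega)]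
    congr 2
    omega
  · rw [revAt_eq_self_of_lt (by omega), coeff_eq_zero_of_natDegree_lt (by omega), mul_zero]

theorem omt_coeff (r r' : ℕ → ℂ) (D : F[X]) {k M : ℕ} (h : k ≤ M) :
    (omt (jac D) M (gr r) (gr r')).coeff k = bet r r' k D := by
  refine transfer1 _ _ k (fun A _ _ φ hφ => ?_) le_rfl
  rw [map_omt, map_omt]
  exact omt_cut_TL _ h fun d hd => ⟨gr_zero_TL φ hφ r hd, gr_zero_TL φ hφ r' hd⟩

theorem bet_hasSum {r r' : ℕ → ℂ} {Y : ℕ} (hY : ∀ d, Y < d → r d = 0 ∧ r' d = 0) (D : F[X]) :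
    HasSum (fun k => bet r r' k D) (omt (jac D) Y r r') := by
  have h1 : ∀ k, bet r r' k D = (omt (jac D) Y (gr r) (gr r')).coeff k := by
    intro k
    rw [← omt_coeff r r' D (le_max_left k Y), omt_cut_TL _ (le_max_right k Y)]
    intro d hd
    simp only [gr, (hY d hd).1, (hY d hd).2, map_zero, zero_mul, and_self]
  have h2 : omt (jac D) Y r r' = eval 1 (omt (jac D) Y (gr r) (gr r')) := by
    rw [← coe_aeval_eq_eval, map_omt]
    simp [gr]
  simp only [h1]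
  rw [h2, eval_eq_sum, Polynomial.sum]
  simp only [one_pow, mul_one]
  exact hasSum_sum_of_ne_finset_zero fun k hk => notMem_support_iff.1 hk

theorem link0' (u₀ u₁ : ℂ) (r r' : ℕ → ℂ) {M M' : ℕ} (h1 : M ≤ M') (g : ℕ) :
    ∑ p ∈ antidiagonal M, ff' F u₀ u₁ r r' p.1 p.2 g =
      (PowerSeries.coeff g (Ph F (PowerSeries.C (C u₀ * X)) (PowerSeries.C (C u₁ * X))
        PowerSeries.X * PowerSeries.mk fun g => ∑ D ∈ sqF F (2 * g + 1),
          Lt (jac D) (2 * g) (C u₀ * X : ℂ[X]) * Lt (jac D) (2 * g) (C u₁ * X) *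
            omt (jac D) M' (gr r) (gr r'))).coeff M := by
  simp only [ff', HW, TW, PowerSeries.coeff_mul, PowerSeries.coeff_mk, finsetSum_coeff, mul_sum]
  rw [sum_comm]
  refine sum_congr rfl fun q _ => ?_
  rw [sum_comm]
  refine sum_congr rfl fun D _ => ?_
  rw [← mul_assoc, coeff_mul (_ * _) (omt _ _ _ _)]
  refine sum_congr rfl fun p hp => ?_
  have := mem_antidiagonal.1 hp
  rw [omt_coeff _ _ _ (by omega), mul_left_comm, Polynomial.algebraMap_apply,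
    Algebra.algebraMap_self, RingHom.id_apply, coeff_C_mul, mul_comm]

theorem link' (hF : ringChar F ≠ 2) (u₀ u₁ : ℂ) (r r' : ℕ → ℂ) {M g I : ℕ}
    (h2 : 2 * g + 1 ≤ I) :
    ((Ph F (C (C u₀ * X)) (C (C u₁ * X)) (X ^ 2) *
      Zs' F M I (C (C u₀ * X) : ℂ[X][X]) (C (C u₁ * X)) (fun d => C (gr r d))
        (fun d => C (gr r' d)) X).coeff (2 * g + 1)).coeff M =
      ∑ p ∈ antidiagonal M, ff' F u₀ u₁ r r' p.1 p.2 g := by
  rw [link0' u₀ u₁ r r' (le_refl M) g]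
  refine congrArg (fun s : ℂ[X] => s.coeff M) ?_
  have h := congrArg (PowerSeries.coeff g) (link_odd_Ph (F := F) (C u₀ * X : ℂ[X])
    (C u₁ * X) (Zs' F M I (C (C u₀ * X) : ℂ[X][X]) (C (C u₁ * X)) (fun d => C (gr r d))
        (fun d => C (gr r' d)) X))
  rw [linkOdd, PowerSeries.coeff_mk] at h
  rw [h, PowerSeries.coeff_mul, PowerSeries.coeff_mul]
  refine sum_congr rfl fun p hp => ?_
  have := mem_antidiagonal.1 hp
  rw [linkOdd, PowerSeries.coeff_mk, PowerSeries.coeff_mk, Zs_coeff_TL _ _ _ _ _ (by omega)]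
  refine congrArg _ (sum_congr rfl fun D hD => ?_)
  rw [Lt_trunc hF hD (by omega), Lt_trunc hF hD (I := I) (by omega)]

theorem ff_smul' (u₀ u₁ : ℂ) (r r' : ℕ → ℂ) (l m : ℂ) (n k g : ℕ) :
    ff' F (l * u₀) (l * u₁) (fun d => m ^ d * r d) (fun d => m ^ d * r' d) n k g =
      l ^ n * m ^ k * ff' F u₀ u₁ r r' n k g := by
  have h : ∀ v : ℂ, (C (l * v) * X : ℂ[X]) = aeval (C l * X : ℂ[X]) (C v * X : ℂ[X]) := by
    intro v
    simp only [map_mul, aeval_C, aeval_X, Polynomial.algebraMap_apply, Algebra.algebraMap_self,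
      RingHom.id_apply]
    ring
  rw [ff', bet_smul_TL, link_HW_smul, h, h, ← map_HW, ← comp_eq_aeval, Polynomial.algebraMap_apply,
    Algebra.algebraMap_self, RingHom.id_apply, coeff_C_mul, comp_C_mul_X_coeff, ff']
  ring

theorem ff_symm' (hF : ringChar F ≠ 2) {u₀ u₁ : ℂ} (h0 : u₀ ≠ 0) (h1 : u₁ ≠ 0) (r r' : ℕ → ℂ)
    (n k g : ℕ) : ff' F u₀ u₁ r r' n k g =
      if n ≤ 4 * g then (Q F * u₀ ^ 2) ^ g * (Q F * u₁ ^ 2) ^ g *
        ff' F (Q F * u₀)⁻¹ (Q F * u₁)⁻¹ r r' (4 * g - n) k g else 0 := by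
  exact HW_refl_TL hF h0 h1 (bet r r' k) n g

end Pool.Agent.MP_dd7250_nt.LS
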