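import Mathlib
import Pool.Agent.MP_dd7250_nt.LS.DT

/- Ratios at small shifts: the square dual terms. -/

set_option autoImplicit false
set_option maxHeartbeats 400000

namespace Pool.Agent.MP_dd7250_nt.LS

open Polynomial Finset Filter Topology Pool.Agent.MP_d232b3_nt Pool.Agent.MP_dd7250_nt
open scoped Classical

variable {F : Type} [Field F] [Fintype F]

theorem loc_TQ (hF : ringChar F ≠ 2) {ε : ℝ} (hε : 0 < ε) (hε' : ε ≤ 1 / 4) (M I : ℕ)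
    {U₀ U₁ y σ : ℂ} {R R' : ℕ → ℂ} (hσ : ‖σ‖ = 1) (hU₀ : ‖U₀‖ ≤ qp F (-(1 / 2 + 2 * ε)))
    (hU₁ : ‖U₁‖ ≤ qp F (-(1 / 2 + 2 * ε))) (hR : ∀ d : ℕ, ‖R d‖ ≤ qp F (-(1 + 2 * ε) * d))
    (hR' : ∀ d : ℕ, ‖R' d‖ ≤ qp F (-(1 + 2 * ε) * d))
    (hy : ‖y‖ = qp F (-(1 / 2 - ε))) {d : ℕ} (hd : 1 ≤ d) :
    ‖om' F U₀ U₁ y σ d * (Od M (av U₀ U₁ R R' d) * rho I y d * dy F σ y ^ d)‖ ≤
        5000 * qp F (-(1 / 2 + ε) * d) ∧
      ‖om' F U₀ U₁ y σ d * lE' M I (av U₀ U₁ R R') y d‖ * qp F ((1 / 2 + ε) * d) ≤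
        5000 * qp F (-(1 + ε) * d) ∧
      ‖om' F U₀ U₁ y σ d * (1 + Ev M (av U₀ U₁ R R' d) * rho I y d +
        Od M (av U₀ U₁ R R' d) * rho I y d * dy F σ y ^ d) - 1‖ ≤ 5000 * qp F (-(1 + ε) * d) := by
  have hd' : (1 : ℝ) ≤ d := by exact_mod_cast hd
  set τ := qp F (-(1 / 2 + 2 * ε) * d) with hτ
  set θ := qp F (-(1 / 2 + ε) * d) with hθ
  set η := qp F (-(1 / 2 - ε) * d) with hη
  set μ := qp F (-(1 + ε) * d) with hμ
  have τ0 : 0 < τ := qp_pos _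
  have θ0 : 0 < θ := qp_pos _
  have η0 : 0 < η := qp_pos _
  have μ0 : 0 < μ := qp_pos _
  have τ1 : τ ≤ 3 / 5 := qp_le_of hF (by nlinarith)
  have θ1 : θ ≤ 3 / 5 := qp_le_of hF (by nlinarith)
  have hRτ : qp F (-(1 + 2 * ε) * d) ≤ τ := qp_mono (by nlinarith)
  have ha0 : ‖U₀ ^ d‖ ≤ τ := (loc_pow hU₀ d).trans_eq (qp_pow _ _)
  have ha1 : ‖U₁ ^ d‖ ≤ τ := (loc_pow hU₁ d).trans_eq (qp_pow _ _)
  have ha : ∀ i, ‖av U₀ U₁ R R' d i‖ ≤ τ := fun i => by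
    fin_cases i
    · exact ha0
    · exact ha1
    · exact (hR d).trans hRτ
    · exact (hR' d).trans hRτ
  have hδ : ‖dy F σ y ^ d‖ ≤ qp F (ε * d) := by
    rw [norm_pow, norm_dy hσ, hy, ← qp_add, qp_pow]
    exact le_of_eq (by congr 2; ring)
  have hτδ : τ * qp F (ε * d) = θ := by
    rw [hτ, ← qp_add]
    congr 1
    ring
  have hRδ : qp F (-(1 + 2 * ε) * d) * qp F (ε * d) = μ := by
    rw [hμ, ← qp_add]
    congr 1
    ring
  have hz : ∀ U : ℂ, (dy F σ y * U) ^ d = U ^ d * dy F σ y ^ d := fun U => by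
    rw [mul_pow, mul_comm]
  have hz0 : ‖(dy F σ y * U₀) ^ d‖ ≤ θ := by
    rw [hz, ← hτδ]
    exact loc_mul ha0 hδ
  have hz1 : ‖(dy F σ y * U₁) ^ d‖ ≤ θ := by
    rw [hz, ← hτδ]
    exact loc_mul ha1 hδ
  have hyd : ‖y ^ d‖ ≤ η := (loc_pow hy.le d).trans_eq (qp_pow _ _)
  have η1 : η ^ 2 ≤ 3 / 5 := by
    rw [hη, qp_pow]
    exact qp_le_of hF (by push_cast; nlinarith)
  have hy2 := loc_pow hyd 2
  have e5 : (1 - 3 / 5 : ℝ)⁻¹ = 5 / 2 := by norm_num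
  have ρ1 : ‖rho I y d‖ ≤ 5 / 2 := e5 ▸ norm_gam_le (by norm_num) (hy2.trans η1)
  have ρ2 : ‖rho I y d - 1‖ ≤ 5 / 2 * η ^ 2 :=
    (norm_gam_sub_one (r := 3 / 5) (by norm_num) (hy2.trans η1)).trans
      (e5 ▸ mul_le_mul_of_nonneg_left hy2 (by norm_num))
  have o1 : ‖om' F U₀ U₁ y σ d‖ ≤ 16 :=
    (loc_mul (loc_sub norm_one.le (hz0.trans θ1)) (loc_sub norm_one.le (hz1.trans θ1))).trans
      (by norm_num)
  have o2 : ‖om' F U₀ U₁ y σ d - (1 - ((dy F σ y * U₀) ^ d + (dy F σ y * U₁) ^ d))‖ ≤ θ * θ := by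
    rw [show om' F U₀ U₁ y σ d - (1 - ((dy F σ y * U₀) ^ d + (dy F σ y * U₁) ^ d)) =
      (dy F σ y * U₀) ^ d * (dy F σ y * U₁) ^ d by rw [om']; ring]
    exact loc_mul hz0 hz1
  have hE := norm_Ev_le M τ1 ha
  have hO := norm_Od_le M τ1 ha
  have hO' := norm_Od_sub M τ1 ha
  have m1 : τ ^ 2 ≤ μ := by
    rw [hτ, qp_pow]
    exact qp_mono (by push_cast; nlinarith)
  have m2 : θ ^ 2 ≤ μ := by
    rw [hθ, qp_pow]
    exact qp_mono (by push_cast; nlinarith)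
  have m3 : θ * η ^ 2 ≤ μ := by
    rw [hθ, hη, qp_pow, ← qp_add]
    exact qp_mono (by push_cast; nlinarith)
  have m4 : τ ^ 2 * η * qp F ((1 / 2 + ε) * d) ≤ μ := by
    rw [hτ, hη, qp_pow, ← qp_add, ← qp_add]
    exact qp_mono (by push_cast; nlinarith)
  refine ⟨?_, ?_, ?_⟩
  · refine (loc_mul o1 (loc_mul (loc_mul hO ρ1) hδ)).trans ?_
    calc _ = 1600 * (τ * qp F (ε * d)) := by ring
      _ ≤ _ := by rw [hτδ]; linarith
  · have h1 : ‖lE' M I (av U₀ U₁ R R') y d‖ ≤ 40 * τ ^ 2 * (5 / 2) * η := by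
      rw [lE', norm_neg]
      exact loc_mul (loc_mul hE ρ1) hyd
    refine (mul_le_mul_of_nonneg_right (loc_mul o1 h1) (qp_pos _).le).trans ?_
    calc _ = 1600 * (τ ^ 2 * η * qp F ((1 / 2 + ε) * d)) := by ring
      _ ≤ _ := by linarith
  · have hs := loc_add hz0 hz1
    set s := (dy F σ y * U₀) ^ d + (dy F σ y * U₁) ^ d with hs'
    have e : om' F U₀ U₁ y σ d * (1 + Ev M (av U₀ U₁ R R' d) * rho I y d +
        Od M (av U₀ U₁ R R' d) * rho I y d * dy F σ y ^ d) - 1 =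
        (om' F U₀ U₁ y σ d - (1 - s)) * (1 + s) - s * s +
          om' F U₀ U₁ y σ d * (Ev M (av U₀ U₁ R R' d) * rho I y d +
          (Od M (av U₀ U₁ R R' d) - (av U₀ U₁ R R' d 0 + av U₀ U₁ R R' d 1 -
            (av U₀ U₁ R R' d 2 + av U₀ U₁ R R' d 3))) * dy F σ y ^ d +
          Od M (av U₀ U₁ R R' d) * dy F σ y ^ d * (rho I y d - 1) -
          (R d + R' d) * dy F σ y ^ d) := by
      rw [hs', hz, hz, show av U₀ U₁ R R' d 0 = U₀ ^ d from rfl,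
        show av U₀ U₁ R R' d 1 = U₁ ^ d from rfl, show av U₀ U₁ R R' d 2 = R d from rfl,
        show av U₀ U₁ R R' d 3 = R' d from rfl]
      ring
    rw [e]
    refine (loc_add (loc_sub (loc_mul o2 (loc_add norm_one.le hs)) (loc_mul hs hs))
      (loc_mul o1 (loc_sub (loc_add (loc_add (loc_mul hE ρ1) (loc_mul hO' hδ))
        (loc_mul (loc_mul hO hδ) ρ2)) (loc_mul (loc_add (hR d) (hR' d)) hδ)))).trans ?_
    have n1 : θ ^ 2 * θ ≤ μ :=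
      (mul_le_of_le_one_right (sq_nonneg _) (θ1.trans (by norm_num))).trans m2
    have n2 : τ ^ 2 * θ ≤ μ :=
      (mul_le_of_le_one_right (sq_nonneg _) (θ1.trans (by norm_num))).trans m1
    calc _ = 5 * θ ^ 2 + 2 * (θ ^ 2 * θ) + 1600 * τ ^ 2 + 640 * (τ ^ 2 * (τ * qp F (ε * d))) +
          1600 * (τ * qp F (ε * d) * η ^ 2) +
          32 * (qp F (-(1 + 2 * ε) * d) * qp F (ε * d)) := by ring
      _ ≤ _ := by rw [hτδ, hRδ]; linarith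

theorem lO_TQ (M I : ℕ) (U₀ U₁ : ℂ) (a : ℕ → Fin 4 → ℂ) (y σ : ℂ) {W : F[X]} (hW : IsSquare W)
    {e : Finset F[X]} (he : e ⊆ pr F M) :
    ∏ P ∈ pr F M \ e, om' F U₀ U₁ y σ P.natDegree * lO' M I a y σ W P =
      ∏ P ∈ pr F M, (1 + (fun P : F[X] => if P ∣ W ∧ P ∉ e then (1 : ℂ) else 0) P *
        (fun d => -(om' F U₀ U₁ y σ d * (Od M (a d) * rho I y d * dy F σ y ^ d))) P.natDegree +
        (fun P : F[X] => if P ∈ e then 0 else om' F U₀ U₁ y σ P.natDegree *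
          (1 + Ev M (a P.natDegree) * rho I y P.natDegree + Od M (a P.natDegree) *
            rho I y P.natDegree * dy F σ y ^ P.natDegree) - 1) P) := by
  rw [← prod_sdiff he, prod_eq_one (s := e) fun P hP => by simp [hP], mul_one]
  refine prod_congr rfl fun P hP => ?_
  obtain ⟨h1, h2⟩ := mem_sdiff.1 hP
  obtain ⟨h3, h4, -⟩ := mem_pr.1 h1
  simp only [lO', jac_of_isSquare hW h3 h4, h2, Algebra.algebraMap_self, RingHom.id_apply,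
    not_false_eq_true, and_true, if_false]
  split_ifs <;> ring

theorem Ps_bound' (hF : ringChar F ≠ 2) {ε : ℝ} (hε : 0 < ε) (hε' : ε ≤ 1 / 4) : ∃ C : ℝ,
    ∀ (M I : ℕ) (U₀ U₁ y : ℂ) (R R' : ℕ → ℂ), ‖U₀‖ ≤ qp F (-(1 / 2 + 2 * ε)) →
      ‖U₁‖ ≤ qp F (-(1 / 2 + 2 * ε)) → (∀ d : ℕ, ‖R d‖ ≤ qp F (-(1 + 2 * ε) * d)) →
      (∀ d : ℕ, ‖R' d‖ ≤ qp F (-(1 + 2 * ε) * d)) → ‖y‖ = qp F (-(1 / 2 - ε)) →
      ‖Ps' F M I U₀ U₁ (av U₀ U₁ R R') y‖ ≤ C * ‖y‖ ^ M := by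
  obtain ⟨C₁, hC₁, h₁⟩ := EP (F := F) hε (κ := 5000) (by norm_num) (half_pos hε)
  obtain ⟨C₂, h₂⟩ := sum_powerset_le (F := F) hε (κ := 5000) (by norm_num)
  refine ⟨2 * ((2 + Q F) * (1 + Q F) ^ 2 * (C₁ * (1 - qp F (-ε))⁻¹ * C₂)),
    fun M I U₀ U₁ y R R' hU₀ hU₁ hR hR' hy => ?_⟩
  have hy1 : ‖y‖ ≤ 1 := hy.trans_le (qp_le_one (by linarith))
  have hk : 0 ≤ (1 - qp F (-ε))⁻¹ := (inv_pos.2 (sub_pos.2 (qp_lt_one (by linarith)))).le
  have hp : ∀ e : Finset F[X], 0 ≤ ∏ P ∈ e, 5000 * qp F (-(1 + ε) * P.natDegree) := fun e =>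
    prod_nonneg fun P _ => mul_nonneg (by norm_num) (qp_pos _).le
  have key : ∀ σ : ℂ, ‖σ‖ = 1 → ∀ V ∈ monLe F M, ∀ e ∈ (pr F M).powerset,
      IsSquare (V * ∏ P ∈ e, P) →
      ‖wV F M y V * ((∏ P ∈ e, om' F U₀ U₁ y σ P.natDegree * lE' M I (av U₀ U₁ R R') y P.natDegree) *
        ∏ P ∈ pr F M \ e, om' F U₀ U₁ y σ P.natDegree * lO' M I (av U₀ U₁ R R') y σ (V * ∏ P ∈ e, P) P)‖ ≤
      (‖y‖ ^ M * C₁ * ∏ P ∈ e, 5000 * qp F (-(1 + ε) * P.natDegree)) *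
        qp F (-(1 / 2 + ε / 2) * (V * ∏ P ∈ e, P).natDegree) := by
    intro σ hσ V hV e he hs
    have he' := mem_powerset.1 he
    obtain ⟨hm, -, hd, -⟩ := monic_sqfree_prod he'
    obtain ⟨hVm, hVd⟩ := mem_monLe.1 hV
    have hW := hVm.mul hm
    have h4 := h₁ M _ _
      (fun d => -(om' F U₀ U₁ y σ d * (Od M (av U₀ U₁ R R' d) * rho I y d * dy F σ y ^ d)))
      (fun P : F[X] => if P ∈ e then 0 else om' F U₀ U₁ y σ P.natDegree *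
        (1 + Ev M (av U₀ U₁ R R' P.natDegree) * rho I y P.natDegree + Od M (av U₀ U₁ R R' P.natDegree) *
          rho I y P.natDegree * dy F σ y ^ P.natDegree) - 1)
      (Nat.cast_nonneg _) (small_dvd hW e)
      (fun d hd => (norm_neg _).trans_le (loc_TQ hF hε hε' M I hσ hU₀ hU₁ hR hR' hy hd).1)
      (fun P hP => by
        have h5 := deg_pos (mem_pr.1 hP).2.1
        split_ifs
        · rw [norm_zero]
          exact mul_nonneg (by norm_num) (qp_pos _).le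
        · exact (loc_TQ hF hε hε' M I hσ hU₀ hU₁ hR hR' hy h5).2.2)
    rw [← lO_TQ M I U₀ U₁ (av U₀ U₁ R R') y σ hs he'] at h4
    have h5 : qp F (-(1 / 2 + ε) * V.natDegree) * qp F (ε / 2 * (V * ∏ P ∈ e, P).natDegree) =
        (∏ P ∈ e, qp F ((1 / 2 + ε) * P.natDegree)) *
          qp F (-(1 / 2 + ε / 2) * (V * ∏ P ∈ e, P).natDegree) := by
      rw [← psb_qp_sum, ← qp_add, ← qp_add, ← mul_sum, hVm.natDegree_mul hm, hd]
      congr 1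
      push_cast
      ring
    have h6 : ‖∏ P ∈ e, om' F U₀ U₁ y σ P.natDegree * lE' M I (av U₀ U₁ R R') y P.natDegree‖ *
        ∏ P ∈ e, qp F ((1 / 2 + ε) * P.natDegree) ≤
        ∏ P ∈ e, 5000 * qp F (-(1 + ε) * P.natDegree) := by
      rw [norm_prod, ← prod_mul_distrib]
      exact prod_le_prod (fun P _ => mul_nonneg (norm_nonneg _) (qp_pos _).le) fun P hP =>
        (loc_TQ hF hε hε' M I hσ hU₀ hU₁ hR hR' hy (deg_pos (mem_pr.1 (he' hP)).2.1)).2.1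
    have h7 := qp_pos (F := F) (-(1 / 2 + ε) * V.natDegree)
    have h8 := qp_pos (F := F) (-(1 / 2 + ε / 2) * (V * ∏ P ∈ e, P).natDegree)
    rw [norm_mul, norm_mul, psb_wV hy hVd]
    calc _ ≤ ‖y‖ ^ M * qp F (-(1 / 2 + ε) * V.natDegree) *
          (‖∏ P ∈ e, om' F U₀ U₁ y σ P.natDegree * lE' M I (av U₀ U₁ R R') y P.natDegree‖ *
            (C₁ * qp F (ε / 2 * (V * ∏ P ∈ e, P).natDegree))) := by gcongr
      _ = ‖y‖ ^ M * C₁ * ‖∏ P ∈ e, om' F U₀ U₁ y σ P.natDegree * lE' M I (av U₀ U₁ R R') y P.natDegree‖ *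
          (qp F (-(1 / 2 + ε) * V.natDegree) * qp F (ε / 2 * (V * ∏ P ∈ e, P).natDegree)) := by
          ring
      _ = ‖y‖ ^ M * C₁ * (‖∏ P ∈ e, om' F U₀ U₁ y σ P.natDegree * lE' M I (av U₀ U₁ R R') y P.natDegree‖ *
          ∏ P ∈ e, qp F ((1 / 2 + ε) * P.natDegree)) *
          qp F (-(1 / 2 + ε / 2) * (V * ∏ P ∈ e, P).natDegree) := by rw [h5]; ring
      _ ≤ _ := by gcongr
  have key2 : ∀ σ : ℂ, ‖σ‖ = 1 → ‖∑ V ∈ monLe F M,
      ∑ e ∈ (pr F M).powerset with IsSquare (V * ∏ P ∈ e, P), wV F M y V *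
        ((∏ P ∈ e, om' F U₀ U₁ y σ P.natDegree * lE' M I (av U₀ U₁ R R') y P.natDegree) *
          ∏ P ∈ pr F M \ e, om' F U₀ U₁ y σ P.natDegree * lO' M I (av U₀ U₁ R R') y σ (V * ∏ P ∈ e, P) P)‖ ≤
      C₁ * (1 - qp F (-ε))⁻¹ * C₂ * ‖y‖ ^ M := by
    intro σ hσ
    calc _ ≤ ∑ V ∈ monLe F M, ∑ e ∈ (pr F M).powerset with IsSquare (V * ∏ P ∈ e, P),
          (‖y‖ ^ M * C₁ * ∏ P ∈ e, 5000 * qp F (-(1 + ε) * P.natDegree)) *
            qp F (-(1 / 2 + ε / 2) * (V * ∏ P ∈ e, P).natDegree) :=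
          norm_sum_le_of_le _ fun V hV => norm_sum_le_of_le _ fun e he =>
            key σ hσ V hV e (mem_filter.1 he).1 (mem_filter.1 he).2
      _ = ∑ e ∈ (pr F M).powerset, (‖y‖ ^ M * C₁ * ∏ P ∈ e, 5000 * qp F (-(1 + ε) * P.natDegree)) *
          ∑ V ∈ monLe F M with IsSquare (V * ∏ P ∈ e, P),
            qp F (-(1 / 2 + ε / 2) * (V * ∏ P ∈ e, P).natDegree) := by
          simp only [mul_sum, sum_filter]
          rw [sum_comm]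
          simp only [mul_ite, mul_zero]
      _ ≤ ∑ e ∈ (pr F M).powerset, (‖y‖ ^ M * C₁ * ∏ P ∈ e, 5000 * qp F (-(1 + ε) * P.natDegree)) *
          (1 - qp F (-ε))⁻¹ := sum_le_sum fun e he => mul_le_mul_of_nonneg_left
            (psb_sq hε M (monic_sqfree_prod (mem_powerset.1 he)).1)
            (mul_nonneg (by positivity) (hp e))
      _ ≤ ‖y‖ ^ M * C₁ * C₂ * (1 - qp F (-ε))⁻¹ := by
          rw [← sum_mul, ← mul_sum]
          exact mul_le_mul_of_nonneg_right (mul_le_mul_of_nonneg_left (h₂ M) (by positivity)) hk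
      _ = _ := by ring
  have key3 : ∀ σ : ℂ, ‖σ‖ = 1 → ‖kap F σ y *
      ((1 + qA F ℂ * (dy F σ y * U₀)) * (1 + qA F ℂ * (dy F σ y * U₁)))‖ ≤
      (2 + Q F) * (1 + Q F) ^ 2 := by
    intro σ hσ
    have h3 : ∀ U : ℂ, ‖U‖ ≤ qp F (-(1 / 2 + 2 * ε)) → ‖qA F ℂ * (dy F σ y * U)‖ ≤ Q F :=
      fun U hU => by
      refine (loc_mul loc_norm_q.le (loc_mul (norm_dy hσ y).le hU)).trans
        (mul_le_of_le_one_right (Nat.cast_nonneg _) ?_)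
      rw [hy, ← qp_add, ← qp_add]
      exact qp_le_one (by linarith)
    exact (loc_mul (norm_kap_le hσ hy1)
      (loc_mul (loc_add norm_one.le (h3 _ hU₀)) (loc_add norm_one.le (h3 _ hU₁)))).trans_eq
        (by ring)
  have hn : ‖(-1 : ℂ)‖ = 1 := by simp
  rw [Ps', sum_pair (by norm_num : (1 : ℂ) ≠ -1)]
  exact (loc_add (loc_mul (key3 1 norm_one) (key2 1 norm_one))
    (loc_mul (key3 _ hn) (key2 _ hn))).trans_eq (by ring)

end Pool.Agent.MP_dd7250_nt.LS
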