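import Mathlib
import Pool.Agent.MP_dd7250_nt.LS.TF
import Pool.Agent.MP_dd7250_nt.LS.TP
import Pool.Agent.MP_dd7250_nt.LS.TQ
import Pool.Agent.MP_dd7250_nt.LS.TL

/- Ratios at small shifts: the dual bound for the homogeneous parts. -/

set_option autoImplicit false
set_option maxHeartbeats 400000

namespace Pool.Agent.MP_dd7250_nt.LS

open Polynomial Finset Filter Topology Pool.Agent.MP_d232b3_nt Pool.Agent.MP_dd7250_nt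
open scoped Classical

variable {F : Type} [Field F] [Fintype F]

/-- A variable of the numerator in the ring of polynomials in `t` and `y`. -/
noncomputable def U_TB (u : ℂ) : ℂ[X][X] := C (C u * X)

/-- A variable of the twist in the ring of polynomials in `t` and `y`. -/
noncomputable def R_TB (r : ℕ → ℂ) (d : ℕ) : ℂ[X][X] := C (gr r d)

theorem split_TB (hF : ringChar F ≠ 2) (u₀ u₁ : ℂ) (r r' : ℕ → ℂ) (M g : ℕ) :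
    ∑ p ∈ antidiagonal M, ff' F u₀ u₁ r r' p.1 p.2 g =
      ((pre' F (U_TB u₀) (U_TB u₁) X * (mid' F (U_TB u₀) (U_TB u₁) X *
        (Pr' F M (2 * g + 1 + (M + 1)) (av (U_TB u₀) (U_TB u₁) (R_TB r) (R_TB r')) X +
          Pd' F M (2 * g + 1 + (M + 1)) (av (U_TB u₀) (U_TB u₁) (R_TB r) (R_TB r')) X))).coeff
            (2 * g + 1 + (M + 1))).coeff M +
      ((pre' F (U_TB u₀) (U_TB u₁) X * Ps' F M (2 * g + 1 + (M + 1)) (U_TB u₀) (U_TB u₁)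
        (av (U_TB u₀) (U_TB u₁) (R_TB r) (R_TB r')) X).coeff (2 * g + 1 + (M + 1))).coeff M := by
  have h1 := link' hF u₀ u₁ r r' (M := M) (g := g) (I := 2 * g + 1 + (M + 1)) (by omega)
  rw [← h1, ← coeff_X_pow_mul _ (M + 1) (2 * g + 1), ← coeff_add, ← coeff_add]
  refine transfer2 _ _ M (2 * g + 1 + (M + 1)) ?_ le_rfl le_rfl
  intro A _ _ φ ht hy
  have hU : ∀ u : ℂ, φ (C X) ∣ φ (U_TB u) := fun u =>
    ⟨φ (C (C u)), by rw [U_TB, ← map_mul φ, ← map_mul, mul_comm]⟩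
  have hR : ∀ (r : ℕ → ℂ) (d : ℕ), φ (C X) ^ d ∣ φ (R_TB r d) := fun r d =>
    ⟨φ (C (C (r d))), by rw [R_TB, gr, ← map_pow φ, ← map_mul φ, ← map_pow, ← map_mul, mul_comm]⟩
  have hk := key' hF (M := M) (I := 2 * g + 1 + (M + 1)) (by omega) (hU u₀) (hU u₁) (hR r) (hR r')
    ht hy
  simp only [map_mul φ, map_add φ, map_pow φ, map_Ph, map_Zs', map_pre', map_mid', map_Pr',
    map_Pd', map_Ps', map_av]
  exact hk

theorem nU_TB {u : ℂ} (hu : ‖u‖ ≤ 1) (t y : ℂ) :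
    ‖(aevalAeval t y : ℂ[X][X] →ₐ[ℂ] ℂ) (U_TB u)‖ ≤ ‖t‖ := by
  have : (aevalAeval t y : ℂ[X][X] →ₐ[ℂ] ℂ) (U_TB u) = u * t := by simp [U_TB]
  rw [this, norm_mul]
  exact mul_le_of_le_one_left (norm_nonneg _) hu

theorem nR_TB {r : ℕ → ℂ} (hr : ∀ d : ℕ, ‖r d‖ ≤ qp F (-(1 / 2) * d)) (t y : ℂ) (d : ℕ) :
    ‖(aevalAeval t y : ℂ[X][X] →ₐ[ℂ] ℂ) (R_TB r d)‖ ≤ qp F (-(1 / 2) * d) * ‖t‖ ^ d := by
  have : (aevalAeval t y : ℂ[X][X] →ₐ[ℂ] ℂ) (R_TB r d) = r d * t ^ d := by simp [R_TB, gr]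
  rw [this, norm_mul, norm_pow]
  exact mul_le_mul_of_nonneg_right (hr d) (by positivity)

theorem nav_TB {U₀ U₁ : ℂ} {R R' : ℕ → ℂ} {ρ : ℝ} (h0 : ‖U₀‖ ≤ ρ) (h1 : ‖U₁‖ ≤ ρ)
    (hR : ∀ d, ‖R d‖ ≤ ρ ^ d) (hR' : ∀ d, ‖R' d‖ ≤ ρ ^ d) (d : ℕ) (i : Fin 4) :
    ‖av U₀ U₁ R R' d i‖ ≤ ρ ^ d := by
  fin_cases i
  · change ‖U₀ ^ d‖ ≤ _
    rw [norm_pow]
    exact pow_le_pow_left₀ (norm_nonneg _) h0 d
  · change ‖U₁ ^ d‖ ≤ _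
    rw [norm_pow]
    exact pow_le_pow_left₀ (norm_nonneg _) h1 d
  · exact hR d
  · exact hR' d

theorem first_TB (hF : ringChar F ≠ 2) {ε : ℝ} (hε : 0 < ε) : ∃ K : ℝ, 0 ≤ K ∧
    ∀ (u₀ u₁ : ℂ) (r r' : ℕ → ℂ), ‖u₀‖ ≤ 1 → ‖u₁‖ ≤ 1 → (∀ d : ℕ, ‖r d‖ ≤ qp F (-(1 / 2) * d)) →
      (∀ d : ℕ, ‖r' d‖ ≤ qp F (-(1 / 2) * d)) → ∀ M g I : ℕ,
      ‖((pre' F (U_TB u₀) (U_TB u₁) X * (mid' F (U_TB u₀) (U_TB u₁) X *
        (Pr' F M I (av (U_TB u₀) (U_TB u₁) (R_TB r) (R_TB r')) X +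
          Pd' F M I (av (U_TB u₀) (U_TB u₁) (R_TB r) (R_TB r')) X))).coeff
            (2 * g + 1 + (M + 1))).coeff M‖ ≤ K * qp F ((1 + 3 * ε) * M + 2 * ε * g) := by
  obtain ⟨C1, h1⟩ := Pr_bound' hF hε
  obtain ⟨C2, h2⟩ := Pd_bound' hF hε
  set L : ℝ := 1 + (Q F : ℝ) ^ 4 with hL
  have hL0 : 0 ≤ L := by positivity
  refine ⟨L ^ 3 * (L ^ 2 * (|C1| + |C2|)) * qp F (2 * ε),
    by have := qp_pos (F := F) (2 * ε); positivity, fun u₀ u₁ r r' hu₀ hu₁ hr hr' M g I => ?_⟩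
  have hb := extract2 (pre' F (U_TB u₀) (U_TB u₁) X * (mid' F (U_TB u₀) (U_TB u₁) X *
      (Pr' F M I (av (U_TB u₀) (U_TB u₁) (R_TB r) (R_TB r')) X +
        Pd' F M I (av (U_TB u₀) (U_TB u₁) (R_TB r) (R_TB r')) X)))
      (B := L ^ 3 * (L ^ 2 * (|C1| + |C2|)) * qp F (ε * M))
      (qp_pos (F := F) (-(1 + ε))) (qp_pos (F := F) (-ε)) ?_ (2 * g + 1 + (M + 1)) M
  · rw [qp_pow, qp_pow, mul_assoc, ← qp_add] at hb
    refine (bf_le_of_mul hb).trans (le_of_eq ?_)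
    rw [mul_assoc _ (qp F (2 * ε)), ← qp_add]
    congr 2
    push_cast
    ring
  · intro t y ht hy
    have hU₀ := nU_TB hu₀ t y
    have hU₁ := nU_TB hu₁ t y
    have hR : ∀ {r : ℕ → ℂ}, (∀ d : ℕ, ‖r d‖ ≤ qp F (-(1 / 2) * d)) → ∀ d,
        ‖(aevalAeval t y : ℂ[X][X] →ₐ[ℂ] ℂ) (R_TB r d)‖ ≤ ‖t‖ ^ d := fun hr d =>
      (nR_TB hr t y d).trans (mul_le_of_le_one_left (by positivity)
        (qp_le_one (by have : (0 : ℝ) ≤ d := Nat.cast_nonneg d; linarith)))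
    have ha := nav_TB hU₀ hU₁ (hR hr) (hR hr')
    have t1 : ‖t‖ ≤ qp F (-(1 / 2 + ε)) := ht.trans_le (qp_mono (by linarith))
    have t2 : ‖t‖ ≤ 1 := ht.trans_le (qp_le_one (by linarith))
    have t3 : qp F (1 / 2) * ‖y‖ * ‖t‖ ≤ qp F (-(1 / 2 + ε)) := by
      rw [hy, ht, ← qp_add, ← qp_add]
      exact qp_mono (by linarith)
    have hy1 : ‖y‖ ≤ 1 := hy.trans_le (qp_le_one (by linarith))
    have e1 := h1 M I _ y ‖t‖ (norm_nonneg _) ha t1 hy.le t3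
    have e2 := h2 M I _ y (fun d i => (ha d i).trans (pow_le_pow_left₀ (norm_nonneg _) t1 d)) hy.le
    obtain ⟨e3, e4⟩ := norm_pre_le' (F := F) (hU₀.trans t2) (hU₁.trans t2) hy1
    have hq : 1 ≤ qp F (ε * M) := by
      rw [← qp_zero (F := F)]
      exact qp_mono (by positivity)
    have e5 := (norm_add_le _ _).trans (add_le_add e1 e2)
    have e6 : C1 * qp F (ε * M) + C2 ≤ (|C1| + |C2|) * qp F (ε * M) := by
      have a1 := mul_le_mul_of_nonneg_right (le_abs_self C1) (qp_pos (F := F) (ε * M)).le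
      have a2 := mul_le_mul_of_nonneg_left hq (abs_nonneg C2)
      have a3 := le_abs_self C2
      linarith
    have e7 := e5.trans e6
    simp only [map_mul, map_add, map_pre', map_mid', map_Pr', map_Pd', map_av, aevalAeval_Y]
    rw [norm_mul, norm_mul, mul_assoc, mul_assoc]
    gcongr

theorem second_TB (hF : ringChar F ≠ 2) {ε : ℝ} (hε : 0 < ε) (hε' : ε ≤ 1 / 4) : ∃ K : ℝ, 0 ≤ K ∧
    ∀ (u₀ u₁ : ℂ) (r r' : ℕ → ℂ), ‖u₀‖ ≤ 1 → ‖u₁‖ ≤ 1 → (∀ d : ℕ, ‖r d‖ ≤ qp F (-(1 / 2) * d)) →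
      (∀ d : ℕ, ‖r' d‖ ≤ qp F (-(1 / 2) * d)) → ∀ M g I : ℕ,
      ‖((pre' F (U_TB u₀) (U_TB u₁) X * Ps' F M I (U_TB u₀) (U_TB u₁)
        (av (U_TB u₀) (U_TB u₁) (R_TB r) (R_TB r')) X).coeff (2 * g + 1 + (M + 1))).coeff M‖ ≤
        K * qp F ((1 / 2 + 2 * ε) * M + g) := by
  obtain ⟨C1, h1⟩ := Ps_bound' hF hε hε'
  set L : ℝ := 1 + (Q F : ℝ) ^ 4 with hL
  have hL0 : 0 ≤ L := by positivity
  refine ⟨L ^ 3 * |C1| * qp F 1, by have := qp_pos (F := F) 1; positivity,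
    fun u₀ u₁ r r' hu₀ hu₁ hr hr' M g I => ?_⟩
  have hb := extract2 (pre' F (U_TB u₀) (U_TB u₁) X * Ps' F M I (U_TB u₀) (U_TB u₁)
        (av (U_TB u₀) (U_TB u₁) (R_TB r) (R_TB r')) X)
      (B := L ^ 3 * |C1| * qp F (-(1 / 2 - ε) * M))
      (qp_pos (F := F) (-(1 / 2 + 2 * ε))) (qp_pos (F := F) (-(1 / 2 - ε))) ?_
      (2 * g + 1 + (M + 1)) M
  · rw [qp_pow, qp_pow, mul_assoc, ← qp_add] at hb
    refine (bf_le_of_mul hb).trans ?_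
    rw [mul_assoc _ (qp F 1), ← qp_add]
    refine mul_le_mul_of_nonneg_left (qp_mono ?_) (by positivity)
    push_cast
    have : 0 ≤ ε * g := by positivity
    nlinarith
  · intro t y ht hy
    have hU₀ := (nU_TB hu₀ t y).trans_eq ht
    have hU₁ := (nU_TB hu₁ t y).trans_eq ht
    have hR : ∀ {r : ℕ → ℂ}, (∀ d : ℕ, ‖r d‖ ≤ qp F (-(1 / 2) * d)) → ∀ d : ℕ,
        ‖(aevalAeval t y : ℂ[X][X] →ₐ[ℂ] ℂ) (R_TB r d)‖ ≤ qp F (-(1 + 2 * ε) * d) := fun hr d =>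
      (nR_TB hr t y d).trans_eq (by
        rw [ht, qp_pow, ← qp_add]
        congr 1
        ring)
    have t2 : qp F (-(1 / 2 + 2 * ε)) ≤ 1 := qp_le_one (by linarith)
    have hy1 : ‖y‖ ≤ 1 := hy.trans_le (qp_le_one (by linarith))
    have e1 := h1 M I _ _ y _ _ hU₀ hU₁ (hR hr) (hR hr') hy
    rw [hy, qp_pow] at e1
    have e2 := e1.trans (mul_le_mul_of_nonneg_right (le_abs_self C1) (qp_pos _).le)
    obtain ⟨e3, -⟩ := norm_pre_le' (F := F) (hU₀.trans t2) (hU₁.trans t2) hy1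
    simp only [map_mul, map_pre', map_Ps', map_av, aevalAeval_Y]
    rw [norm_mul, mul_assoc]
    gcongr

theorem ff_dual' (hF : ringChar F ≠ 2) {ε : ℝ} (hε : 0 < ε) (hε' : ε ≤ 1 / 4) :
    ∃ C : ℝ, 0 ≤ C ∧ ∀ (u₀ u₁ : ℂ) (r r' : ℕ → ℂ) (ρ ρ' : ℝ), 0 < ρ → 0 < ρ' → ‖u₀‖ ≤ ρ →
      ‖u₁‖ ≤ ρ → (∀ d : ℕ, ‖r d‖ ≤ ρ' ^ d * qp F (-(1 / 2) * d)) →
      (∀ d : ℕ, ‖r' d‖ ≤ ρ' ^ d * qp F (-(1 / 2) * d)) → ∀ n k g : ℕ,
      ‖ff' F u₀ u₁ r r' n k g‖ ≤ C * ρ ^ n * ρ' ^ k *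
        (qp F ((1 + 3 * ε) * (n + k) + 2 * ε * g) + qp F ((1 / 2 + 2 * ε) * (n + k) + g)) := by
  obtain ⟨K1, hK1, h1⟩ := first_TB hF hε
  obtain ⟨K2, hK2, h2⟩ := second_TB hF hε hε'
  refine ⟨K1 + K2, by positivity, fun u₀ u₁ r r' ρ ρ' hρ hρ' u0 u1 hr hr' n k g => ?_⟩
  set S : ℝ := qp F ((1 + 3 * ε) * (n + k) + 2 * ε * g) + qp F ((1 / 2 + 2 * ε) * (n + k) + g)
    with hS
  have hsum : ∀ (v₀ v₁ : ℂ) (s s' : ℕ → ℂ), ‖v₀‖ ≤ 1 → ‖v₁‖ ≤ 1 →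
      (∀ d : ℕ, ‖s d‖ ≤ qp F (-(1 / 2) * d)) → (∀ d : ℕ, ‖s' d‖ ≤ qp F (-(1 / 2) * d)) →
      ‖∑ p ∈ antidiagonal (n + k), ff' F v₀ v₁ s s' p.1 p.2 g‖ ≤ (K1 + K2) * S := by
    intro v₀ v₁ s s' hv₀ hv₁ hs hs'
    rw [split_TB hF]
    refine (norm_add_le _ _).trans ((add_le_add (h1 v₀ v₁ s s' hv₀ hv₁ hs hs' _ _ _)
      (h2 v₀ v₁ s s' hv₀ hv₁ hs hs' _ _ _)).trans ?_)
    have a1 := mul_nonneg hK1 (qp_pos (F := F) ((1 / 2 + 2 * ε) * (n + k) + g)).le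
    have a2 := mul_nonneg hK2 (qp_pos (F := F) ((1 + 3 * ε) * (n + k) + 2 * ε * g)).le
    rw [hS]
    push_cast
    linarith
  have hb := extract_fam (antidiagonal (n + k))
    (fun p => ((ρ'⁻¹ : ℝ) : ℂ) ^ p.2 * ff' F u₀ u₁ r r' p.1 p.2 g) (fun p => p.1)
    (B := (K1 + K2) * S) (inv_pos.2 hρ) ?_ n
  · have hf : (antidiagonal (n + k)).filter (fun p => p.1 = n) = {(n, k)} := by
      ext ⟨a, b⟩
      simp only [mem_filter, HasAntidiagonal.mem_antidiagonal, mem_singleton, Prod.mk.injEq]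
      omega
    rw [hf, sum_singleton, norm_mul, norm_pow, Complex.norm_real,
      Real.norm_of_nonneg (inv_pos.2 hρ').le, inv_pow, inv_pow] at hb
    have p1 := pow_pos hρ n
    have p2 := pow_pos hρ' k
    have e : ‖ff' F u₀ u₁ r r' n k g‖ =
        (ρ' ^ k)⁻¹ * ‖ff' F u₀ u₁ r r' n k g‖ * (ρ ^ n)⁻¹ * (ρ ^ n * ρ' ^ k) := by
      field_simp
    rw [e]
    refine (mul_le_mul_of_nonneg_right hb (mul_pos p1 p2).le).trans (le_of_eq ?_)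
    ring
  · intro z hz
    have hm : ‖((ρ'⁻¹ : ℝ) : ℂ)‖ = ρ'⁻¹ := by
      rw [Complex.norm_real, Real.norm_of_nonneg (inv_pos.2 hρ').le]
    have hv : ∀ {u : ℂ}, ‖u‖ ≤ ρ → ‖z * u‖ ≤ 1 := fun hu => by
      rw [norm_mul, hz]
      exact (inv_mul_le_one₀ hρ).2 hu
    have hs : ∀ {s : ℕ → ℂ}, (∀ d : ℕ, ‖s d‖ ≤ ρ' ^ d * qp F (-(1 / 2) * d)) → ∀ d : ℕ,
        ‖((ρ'⁻¹ : ℝ) : ℂ) ^ d * s d‖ ≤ qp F (-(1 / 2) * d) := fun hs d => by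
      rw [norm_mul, norm_pow, hm, inv_pow, inv_mul_le_iff₀ (pow_pos hρ' d)]
      exact hs d
    refine le_of_eq_of_le ?_ (hsum _ _ _ _ (hv u0) (hv u1) (hs hr) (hs hr'))
    congr 1
    refine sum_congr rfl fun p _ => ?_
    rw [ff_smul']
    ring

end Pool.Agent.MP_dd7250_nt.LS
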