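import Mathlib
import Pool.Agent.MP_dd7250_nt.LS.TB

/- Ratios at small shifts: the bound for the twisted moment after the recurrence. -/

set_option autoImplicit false
set_option maxHeartbeats 400000

namespace Pool.Agent.MP_dd7250_nt.LS

open Polynomial Finset Filter Topology Pool.Agent.MP_d232b3_nt Pool.Agent.MP_dd7250_nt
open scoped Classical

variable {F : Type} [Field F] [Fintype F]

theorem half_TA (hF : ringChar F ≠ 2) : ∃ C : ℝ, 0 ≤ C ∧ ∀ (a₀ a₁ : ℝ) (u₀ u₁ : ℂ)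
    (r r' : ℕ → ℂ) (Y : ℕ), Rt F a₀ a₁ u₀ u₁ r r' Y → ∀ n k g : ℕ, n ≤ 2 * g →
    ‖ff' F u₀ u₁ r r' n k g‖ ≤ C * qp F (74 / 64 * g) * qp F (-1) ^ k := by
  obtain ⟨C₁, hC₁, h₁⟩ := ff_dual' (F := F) hF (ε := 1 / 64) (by norm_num) (by norm_num)
  refine ⟨2 * C₁, by positivity, fun a₀ a₁ u₀ u₁ r r' Y h n k g hn => ?_⟩
  have b0 := abs_le.1 h.b0
  have b1 := abs_le.1 h.b1
  have u0 : ‖u₀‖ ≤ qp F (-31 / 64) := h.h0.trans_le (qp_mono (by linarith [b0.1]))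
  have u1 : ‖u₁‖ ≤ qp F (-31 / 64) := h.h1.trans_le (qp_mono (by linarith [b1.1]))
  have e : ∀ d : ℕ, qp F (-3 * d) = qp F (-5 / 2) ^ d * qp F (-(1 / 2) * d) := fun d => by
    rw [qp_pow, ← qp_add]
    congr 1
    ring
  have hn' : (n : ℝ) ≤ 2 * g := by exact_mod_cast hn
  have n0 : (0 : ℝ) ≤ n := Nat.cast_nonneg n
  have k0 : (0 : ℝ) ≤ k := Nat.cast_nonneg k
  have g0 : (0 : ℝ) ≤ g := Nat.cast_nonneg g
  have key : ∀ x : ℝ, -31 / 64 * n + -5 / 2 * k + x ≤ 74 / 64 * g + -1 * k →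
      C₁ * qp F (-31 / 64) ^ n * qp F (-5 / 2) ^ k * qp F x ≤
        C₁ * (qp F (74 / 64 * g) * qp F (-1) ^ k) := by
    intro x hx
    rw [qp_pow, qp_pow, qp_pow, mul_assoc, mul_assoc, ← qp_add, ← qp_add, ← qp_add]
    exact mul_le_mul_of_nonneg_left (qp_mono (by linarith)) hC₁
  have e1 := key ((1 + 3 * (1 / 64)) * (n + k) + 2 * (1 / 64) * g) (by linarith)
  have e2 := key ((1 / 2 + 2 * (1 / 64)) * (n + k) + g) (by linarith)
  refine (h₁ u₀ u₁ r r' _ _ (qp_pos _) (qp_pos _) u0 u1 (fun d => (h.hr d).trans_eq (e d))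
    (fun d => (h.hr' d).trans_eq (e d)) n k g).trans ?_
  rw [mul_add]
  linarith

theorem ff_abs' (hF : ringChar F ≠ 2) : ∃ C : ℝ, 0 ≤ C ∧ ∀ (a₀ a₁ : ℝ) (u₀ u₁ : ℂ)
    (r r' : ℕ → ℂ) (Y : ℕ), Rt F a₀ a₁ u₀ u₁ r r' Y → ∀ n k g : ℕ,
    ‖ff' F u₀ u₁ r r' n k g‖ ≤ C * qp F (5 / 4 * g) * qp F (-1) ^ k := by
  obtain ⟨C, hC, H⟩ := half_TA (F := F) hF
  refine ⟨C, hC, fun a₀ a₁ u₀ u₁ r r' Y h n k g => ?_⟩
  have g0 : (0 : ℝ) ≤ g := Nat.cast_nonneg g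
  have hk : 0 ≤ qp F (-1) ^ k := (pow_pos (qp_pos _) k).le
  rcases le_or_gt n (2 * g) with hn | hn
  · refine (H a₀ a₁ u₀ u₁ r r' Y h n k g hn).trans ?_
    exact mul_le_mul_of_nonneg_right
      (mul_le_mul_of_nonneg_left (qp_mono (by linarith)) hC) hk
  rw [ff_symm' hF (abs_ne h.h0) (abs_ne h.h1)]
  split_ifs with h4
  · have h' : Rt F (-a₀) (-a₁) (Q F * u₀)⁻¹ (Q F * u₁)⁻¹ r r' Y :=
      ⟨abs_inv h.h0, abs_inv h.h1, by simpa only [abs_neg] using h.b0,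
        by simpa only [abs_neg] using h.b1, h.hr, h.hr', h.hY⟩
    rw [norm_mul, norm_mul, abs_sq h.h0, abs_sq h.h1, ← qp_add]
    refine (mul_le_mul_of_nonneg_left (H _ _ _ _ r r' Y h' (4 * g - n) k g (by omega))
      (qp_pos _).le).trans ?_
    have b0 := mul_le_mul_of_nonneg_right (abs_le.1 h.b0).1 g0
    have b1 := mul_le_mul_of_nonneg_right (abs_le.1 h.b1).1 g0
    rw [← mul_assoc, mul_left_comm, ← qp_add]
    exact mul_le_mul_of_nonneg_right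
      (mul_le_mul_of_nonneg_left (qp_mono (by linarith)) hC) hk
  · rw [norm_zero]
    exact mul_nonneg (mul_nonneg hC (qp_pos _).le) hk

theorem hasSum_HW' (hF : ringChar F ≠ 2) {a₀ a₁ : ℝ} {u₀ u₁ : ℂ} {r r' : ℕ → ℂ} {Y : ℕ}
    (h : Rt F a₀ a₁ u₀ u₁ r r' Y) (g : ℕ) :
    HasSum (fun k => ∑ n ∈ range (4 * g + 1), ff' F u₀ u₁ r r' n k g)
      (HW (F := F) (fun D => omt (jac D) Y r r') u₀ u₁ g) := by
  have e : ∀ k, ∑ n ∈ range (4 * g + 1), ff' F u₀ u₁ r r' n k g =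
      HW (F := F) (bet r r' k) u₀ u₁ g := fun k => by
    have h1 := map_HW (F := F) (aeval (1 : ℂ) : ℂ[X] →ₐ[ℂ] ℂ) (bet r r' k)
      (C u₀ * X) (C u₁ * X) g
    have h2 : (HW (F := F) (bet r r' k) (C u₀ * X : ℂ[X]) (C u₁ * X) g).natDegree <
        4 * g + 1 := Nat.lt_succ_of_le (natDegree_le_iff_coeff_eq_zero.2 fun n hn =>
      (ff_symm' hF (abs_ne h.h0) (abs_ne h.h1) r r' n k g).trans (if_neg hn.not_ge))
    rw [aeval_eq_sum_range' h2] at h1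
    simpa [ff'] using h1
  simp only [e, HW, PowerSeries.coeff_mul, PowerSeries.coeff_mk, TW]
  exact hasSum_sum fun p _ => HasSum.mul_left _ (hasSum_sum fun D _ =>
    HasSum.mul_right _ (bet_hasSum h.hY D))

theorem HW_bound' (hF : ringChar F ≠ 2) : ∃ C : ℝ, ∀ (a₀ a₁ : ℝ) (u₀ u₁ : ℂ)
    (r r' : ℕ → ℂ) (Y : ℕ), Rt F a₀ a₁ u₀ u₁ r r' Y → ∀ g : ℕ,
    ‖HW (F := F) (fun D => omt (jac D) Y r r') u₀ u₁ g‖ ≤ C * qp F (3 / 2) ^ g := by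
  obtain ⟨C, hC, H⟩ := ff_abs' (F := F) hF
  obtain ⟨K, hK, HK⟩ := nat_le_qp (F := F) (ε := 1 / 4) (by norm_num)
  have h0 : 0 ≤ qp F (-1) := (qp_pos _).le
  have h1 : qp F (-1) < 1 := qp_lt_one (by norm_num)
  refine ⟨4 * K * C * (1 - qp F (-1))⁻¹, fun a₀ a₁ u₀ u₁ r r' Y h g => ?_⟩
  have hs := (hasSum_geometric_of_lt_one h0 h1).mul_left (4 * K * C * qp F (3 / 2) ^ g)
  rw [mul_right_comm]
  refine (hasSum_HW' hF h g).norm_le_of_bounded hs fun k => ?_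
  have hp : 0 ≤ C * qp F (5 / 4 * g) * qp F (-1) ^ k :=
    mul_nonneg (mul_nonneg hC (qp_pos _).le) (pow_nonneg h0 k)
  calc _ ≤ ∑ _n ∈ range (4 * g + 1), C * qp F (5 / 4 * g) * qp F (-1) ^ k :=
        norm_sum_le_of_le _ fun n _ => H a₀ a₁ u₀ u₁ r r' Y h n k g
    _ = (4 * g + 1) * (C * qp F (5 / 4 * g) * qp F (-1) ^ k) := by
        rw [sum_const, card_range, nsmul_eq_mul]
        push_cast
        rfl
    _ ≤ 4 * (K * qp F (1 / 4 * g)) * (C * qp F (5 / 4 * g) * qp F (-1) ^ k) :=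
        mul_le_mul_of_nonneg_right (by linarith [HK g]) hp
    _ = _ := by
        rw [qp_pow (3 / 2), show (3 / 2 : ℝ) * g = 1 / 4 * g + 5 / 4 * g by ring, qp_add]
        ring

end Pool.Agent.MP_dd7250_nt.LS
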