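import Mathlib
import Pool.Agent.MP_dd7250_nt.LS.TF
import Pool.Agent.MP_dd7250_nt.LS.TL

/- Ratios at small shifts: the homogeneous parts of the first main term. -/

set_option autoImplicit false
set_option maxHeartbeats 400000

namespace Pool.Agent.MP_dd7250_nt.LS

open Polynomial Finset Filter Topology Pool.Agent.MP_d232b3_nt Pool.Agent.MP_dd7250_nt
open scoped Classical

variable {F : Type} [Field F] [Fintype F]

theorem base_TH (hF : ringChar F ≠ 2) (U₀ U₁ : ℂ[X]) (R R' : ℕ → ℂ[X]) (h0 : X ∣ U₀)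
    (h1 : X ∣ U₁) (M : ℕ) :
    Cv ((Q F : ℂ) ^ 2)⁻¹ M (PowerSeries.mk fun g => ∑ D ∈ sqF F (2 * g + 1),
      Lt (jac D) (2 * g) U₀ * Lt (jac D) (2 * g) U₁ * omt (jac D) M R R')
      (C (Q F - 1 : ℂ) * ∏ P ∈ pr F M, (1 + algebraMap ℂ ℂ[X] (1 + ((Q F : ℂ) ^ P.natDegree)⁻¹)⁻¹ *
        Ev M (av U₀ U₁ R R' P.natDegree))) := by
  intro m hm
  set w : Finset F[X] → Finset F[X] → ℂ[X] := fun S₀ S₁ =>
    (∏ P ∈ S₀, Od M (av U₀ U₁ R R' P.natDegree)) * ∏ P ∈ S₁, Ev M (av U₀ U₁ R R' P.natDegree)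
    with hw
  have e1 : ∀ g, (∑ D ∈ sqF F (2 * g + 1), Lt (jac D) (2 * g) U₀ * Lt (jac D) (2 * g) U₁ *
      omt (jac D) M R R').coeff m =
      (∑ D ∈ sqF F (2 * g + 1), ∑ S₀ ∈ (pr F M).powerset, ∑ S₁ ∈ (pr F M \ S₀).powerset,
        w S₀ S₁ * C ((∏ P ∈ S₀, jac D P) * ∏ P ∈ S₁, jac D P ^ 2)).coeff m := by
    intro g
    refine transfer1 _ _ M (fun A _ _ φ hφ => ?_) hm
    have h2 : ∀ U : ℂ[X], X ∣ U → φ U ^ (M + 1) = 0 := by
      rintro _ ⟨c, rfl⟩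
      rw [map_mul, mul_pow, hφ, zero_mul]
    rw [map_sum, map_sum]
    refine sum_congr rfl fun D hD => ?_
    have h3 := expand' D (le_add_right le_rfl : M ≤ M + 2 * g) (fun d => φ (R d))
      (fun d => φ (R' d)) (h2 _ h0) (h2 _ h1)
    rw [Lt_trunc hF hD (I := M + 2 * g) (by omega),
      Lt_trunc hF hD (I := M + 2 * g) (by omega)] at h3
    simp only [map_mul φ, map_Lt, map_omt, map_sum φ, map_prod φ, hw, map_Od', map_Ev', map_av,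
      ← algebraMap_eq, AlgHom.commutes]
    exact h3
  have e2 : Tendsto (fun g : ℕ => ∑ S₀ ∈ (pr F M).powerset, ∑ S₁ ∈ (pr F M \ S₀).powerset,
      (w S₀ S₁).coeff m * ((∑ D ∈ sqF F (2 * g + 1),
        (∏ P ∈ S₀, jac D P) * ∏ P ∈ S₁, jac D P ^ 2) / (Q F : ℂ) ^ (2 * g))) atTop
      (nhds (∑ S₀ ∈ (pr F M).powerset, ∑ S₁ ∈ (pr F M \ S₀).powerset, (w S₀ S₁).coeff m *
        (if S₀ = ∅ then (Q F - 1) * ∏ P ∈ S₁, (1 + ((Q F : ℂ) ^ P.natDegree)⁻¹)⁻¹ else 0))) :=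
    tendsto_finsetSum _ fun S₀ h0 => tendsto_finsetSum _ fun S₁ h1 =>
      (blim hF (mem_powerset.1 h0) (mem_powerset.1 h1)).const_mul _
  have e3 : ∑ S₀ ∈ (pr F M).powerset, ∑ S₁ ∈ (pr F M \ S₀).powerset, (w S₀ S₁).coeff m *
      (if S₀ = ∅ then (Q F - 1) * ∏ P ∈ S₁, (1 + ((Q F : ℂ) ^ P.natDegree)⁻¹)⁻¹ else 0) =
      (C (Q F - 1 : ℂ) * ∏ P ∈ pr F M, (1 + algebraMap ℂ ℂ[X] (1 + ((Q F : ℂ) ^ P.natDegree)⁻¹)⁻¹ *
        Ev M (av U₀ U₁ R R' P.natDegree))).coeff m := by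
    rw [sum_eq_single ∅ (fun S _ hS => by simp [hS]) (fun h => absurd (empty_mem_powerset _) h),
      sdiff_empty, prod_one_add, mul_sum, finsetSum_coeff]
    refine sum_congr rfl fun S _ => ?_
    rw [if_pos rfl, prod_mul_distrib, ← map_prod, algebraMap_eq, coeff_C_mul, coeff_C_mul, hw]
    simp only [prod_empty, one_mul]
    ring
  rw [← e3]
  refine e2.congr fun g => ?_
  rw [PowerSeries.coeff_mk, e1, sum_comm, finsetSum_coeff, sum_mul]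
  refine sum_congr rfl fun S₀ _ => ?_
  rw [sum_comm, finsetSum_coeff, sum_mul]
  refine sum_congr rfl fun S₁ _ => ?_
  rw [← mul_sum, ← map_sum, coeff_mul_C, inv_pow, ← pow_mul, mul_assoc, div_eq_mul_inv]

theorem hM_lim' (hF : ringChar F ≠ 2) (u₀ u₁ : ℂ) (r r' : ℕ → ℂ) {M M' : ℕ} (h : M ≤ M') :
    Tendsto (fun G : ℕ => ∑ g ∈ range G,
        (∑ p ∈ antidiagonal M, ff' F u₀ u₁ r r' p.1 p.2 g) * (((Q F : ℂ) ^ 2)⁻¹) ^ g) atTop
      (𝓝 ((C (Q F - 1 : ℂ) * (1 + C (Q F * (u₀ * u₁)) * X ^ 2) * ∏ P ∈ pr F M',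
        BP F P.natDegree (av (C u₀ * X : ℂ[X]) (C u₁ * X) (gr r) (gr r') P.natDegree)).coeff
          M)) := by
  set U₀ : ℂ[X] := C u₀ * X with hU0
  set U₁ : ℂ[X] := C u₁ * X with hU1
  have d0 : X ∣ U₀ := dvd_mul_left _ _
  have d1 : X ∣ U₁ := dvd_mul_left _ _
  have hq : (Q F : ℂ) ≠ 0 := Q_ne
  have h1 := ((((base_TH hF U₀ U₁ (gr r) (gr r') d0 d1 M').step
    (qA F ℂ[X] ^ 4 * U₀ ^ 2 * U₁ ^ 2)).step
    (qA F ℂ[X] ^ 3 * U₁ ^ 2)).step (qA F ℂ[X] ^ 3 * U₀ ^ 2)) M h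
  rw [← tendsto_add_atTop_iff_nat 1]
  convert h1 using 2 with G
  · rw [← hm_tele (mul_inv_cancel₀ (pow_ne_zero 2 hq))]
    refine sum_congr rfl fun g _ => ?_
    rw [link0' u₀ u₁ r r' h g]
    congr 3
    simp only [Ph, map_mul, map_pow, map_natCast, hU0, hU1]
    ring
  · refine transfer1 _ _ M' (fun A _ _ φ hφ => ?_) h
    have h2 : ∀ U : ℂ[X], X ∣ U → φ U ^ (M' + 1) = 0 := by
      rintro _ ⟨c, rfl⟩
      rw [map_mul, mul_pow, hφ, zero_mul]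
    have h3 : algebraMap ℂ A ((Q F : ℂ) ^ 2)⁻¹ * qA F A ^ 2 = 1 := by
      rw [show qA F A = algebraMap ℂ A (Q F) from (map_natCast _ _).symm, ← map_pow, ← map_mul,
        inv_mul_cancel₀ (pow_ne_zero 2 hq), map_one]
    have h4 : φ (C (Q F * (u₀ * u₁)) * X ^ 2) = qA F A * (φ U₀ * φ U₁) := by
      simp only [hU0, hU1, map_mul, map_natCast, map_pow]
      ring
    rw [map_mul φ, map_mul φ, map_add φ, h4]
    simp only [map_mul φ, map_prod φ, map_add φ, map_sub φ, map_one φ, map_BP', map_Ev', map_av,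
      ← algebraMap_eq, AlgHom.commutes, map_natCast φ, map_pow φ]
    rw [← prod_BP' _ _ (h2 _ d0) (h2 _ d1)]
    generalize ∏ P ∈ pr F M', (1 + algebraMap ℂ A (1 + ((Q F : ℂ) ^ P.natDegree)⁻¹)⁻¹ *
      Ev M' (av (φ U₀) (φ U₁) (fun d => φ (gr r d)) (fun d => φ (gr r' d)) P.natDegree)) = E
    generalize algebraMap ℂ A ((Q F : ℂ) ^ 2)⁻¹ = s at h3 ⊢
    have h5 : ∀ z : A, s * (qA F A ^ 3 * z) = qA F A * z := fun z => by
      linear_combination (qA F A * z) * h3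
    have h6 : ∀ z z' : A, s * (qA F A ^ 4 * z * z') = qA F A ^ 2 * z * z' := fun z z' => by
      linear_combination (qA F A ^ 2 * z * z') * h3
    rw [h5, h5, h6]
    ring

end Pool.Agent.MP_dd7250_nt.LS
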