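import Mathlib
import Pool.Agent.MP_dd7250_nt.LS.TA
import Pool.Agent.MP_dd7250_nt.LS.TH
import Pool.Agent.MP_dd7250_nt.LS.TW

/- Ratios at small shifts: the first main term. -/

set_option autoImplicit false
set_option maxHeartbeats 400000

namespace Pool.Agent.MP_dd7250_nt.LS

open Polynomial Finset Filter Topology Pool.Agent.MP_d232b3_nt Pool.Agent.MP_dd7250_nt
open scoped Classical

variable {F : Type} [Field F] [Fintype F]

theorem zero_TM (hF : ringChar F ≠ 2) {a₀ a₁ : ℝ} {u₀ u₁ : ℂ} {r r' : ℕ → ℂ} {Y : ℕ}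
    (h : Rt F a₀ a₁ u₀ u₁ r r' Y) {n k g : ℕ} (hn : ¬ n ≤ 4 * g) :
    ff' F u₀ u₁ r r' n k g = 0 := by
  rw [ff_symm' hF (asm_ne h.h0) (asm_ne h.h1), if_neg hn]

theorem summable_TM (hF : ringChar F ≠ 2) {a₀ a₁ : ℝ} {u₀ u₁ : ℂ} {r r' : ℕ → ℂ} {Y : ℕ}
    (h : Rt F a₀ a₁ u₀ u₁ r r' Y) :
    Summable fun x : ℕ × (ℕ × ℕ) =>
      ff' F u₀ u₁ r r' x.2.1 x.2.2 x.1 * (((Q F : ℂ) ^ 2)⁻¹) ^ x.1 := by
  obtain ⟨C, hC, H⟩ := ff_abs' hF
  have hs0 := (qp_pos (F := F) (-(1 / 8))).le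
  have hs1 : qp F (-(1 / 8)) < 1 := qp_lt_one (by norm_num)
  have hθ := (qp_pos (F := F) (-1)).le
  have hθ1 : qp F (-1) < 1 := qp_lt_one (by norm_num)
  have g1 := summable_geometric_of_lt_one hs0 hs1
  have g2 := summable_geometric_of_lt_one hθ hθ1
  have g3 : Summable fun p : ℕ × ℕ => qp F (-(1 / 8)) ^ p.1 * qp F (-1) ^ p.2 :=
    g1.mul_of_nonneg g2 (fun _ => pow_nonneg hs0 _) fun _ => pow_nonneg hθ _
  have g4 : Summable fun x : ℕ × (ℕ × ℕ) =>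
      qp F (-(1 / 8)) ^ x.1 * (qp F (-(1 / 8)) ^ x.2.1 * qp F (-1) ^ x.2.2) :=
    g1.mul_of_nonneg g3 (fun _ => pow_nonneg hs0 _)
      fun _ => mul_nonneg (pow_nonneg hs0 _) (pow_nonneg hθ _)
  refine Summable.of_norm_bounded (g4.mul_left C) ?_
  rintro ⟨g, n, k⟩
  dsimp only
  by_cases hn : n ≤ 4 * g
  swap
  · rw [zero_TM hF h hn, zero_mul, norm_zero]
    positivity
  have e1 : ‖(((Q F : ℂ) ^ 2)⁻¹) ^ g‖ = qp F (-2 * g) := by
    rw [norm_pow, norm_inv, norm_pow, Complex.norm_natCast, ← qp_nat, ← qp_neg, qp_pow]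
    norm_num
  have e3 : qp F (5 / 4 * g) * qp F (-2 * g) ≤ qp F (-(1 / 8)) ^ g * qp F (-(1 / 8)) ^ n := by
    rw [qp_pow, qp_pow, ← qp_add, ← qp_add]
    refine qp_mono ?_
    have hn' : (n : ℝ) ≤ 4 * g := by exact_mod_cast hn
    have hg : (0 : ℝ) ≤ g := Nat.cast_nonneg g
    linarith
  rw [norm_mul, e1]
  calc ‖ff' F u₀ u₁ r r' n k g‖ * qp F (-2 * g)
      ≤ C * qp F (5 / 4 * g) * qp F (-1) ^ k * qp F (-2 * g) :=
        mul_le_mul_of_nonneg_right (H a₀ a₁ u₀ u₁ r r' Y h n k g) (qp_pos _).le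
    _ = C * (qp F (5 / 4 * g) * qp F (-2 * g)) * qp F (-1) ^ k := by ring
    _ ≤ C * (qp F (-(1 / 8)) ^ g * qp F (-(1 / 8)) ^ n) * qp F (-1) ^ k := by gcongr
    _ = _ := by ring

theorem aeval_TM (u₀ u₁ : ℂ) (r r' : ℕ → ℂ) (M : ℕ) (z : ℂ) :
    aeval z (C (Q F - 1 : ℂ) * (1 + C (Q F * (u₀ * u₁)) * X ^ 2) * ∏ P ∈ pr F M,
        BP F P.natDegree (av (C u₀ * X : ℂ[X]) (C u₁ * X) (gr r) (gr r') P.natDegree)) =
      (Q F - 1) * (1 + Q F * (u₀ * u₁) * z ^ 2) * ∏ P ∈ pr F M, BP F P.natDegree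
        (av (u₀ * z) (u₁ * z) (fun d => r d * z ^ d) (fun d => r' d * z ^ d) P.natDegree) := by
  rw [map_mul, map_prod]
  simp only [map_BP', map_av]
  simp [gr]

theorem bound_TM {a₀ a₁ : ℝ} {u₀ u₁ : ℂ} {r r' : ℕ → ℂ} {Y : ℕ}
    (h : Rt F a₀ a₁ u₀ u₁ r r' Y) {z : ℂ} (hz : ‖z‖ ≤ qp F (1 / 32)) (d : ℕ) :
    ‖BP F d (av (u₀ * z) (u₁ * z) (fun d => r d * z ^ d) (fun d => r' d * z ^ d) d) - 1‖ ≤
      20 * qp F (-(1 + 1 / 2) * d) := by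
  have e1 : ∀ (u : ℂ) (a : ℝ), ‖u‖ = qp F (-(1 / 2 + a)) → |a| ≤ 1 / 64 →
      ‖u * z‖ ≤ qp F (-(7 / 16)) := fun u a hu ha => by
    rw [norm_mul, hu]
    refine (mul_le_mul_of_nonneg_left hz (qp_pos _).le).trans ?_
    rw [← qp_add]
    exact qp_mono (by linarith [(abs_le.1 ha).1])
  have e2 : ∀ s : ℕ → ℂ, (∀ d : ℕ, ‖s d‖ ≤ qp F (-3 * d)) →
      ∀ d : ℕ, ‖s d * z ^ d‖ ≤ qp F (-2 * d) := fun s hs d => by
    rw [norm_mul, norm_pow]
    refine (mul_le_mul (hs d) (pow_le_pow_left₀ (norm_nonneg _) hz d) (by positivity)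
      (qp_pos _).le).trans ?_
    rw [qp_pow, ← qp_add]
    have : (0 : ℝ) ≤ d := Nat.cast_nonneg d
    exact qp_mono (by linarith)
  exact BP_bound' (e1 _ _ h.h0 h.b0) (e1 _ _ h.h1 h.b1) (e2 _ h.hr) (e2 _ h.hr') d

theorem main0' (hF : ringChar F ≠ 2) {a₀ a₁ : ℝ} {u₀ u₁ : ℂ} {r r' : ℕ → ℂ} {Y : ℕ}
    (h : Rt F a₀ a₁ u₀ u₁ r r' Y) :
    HasSum (fun g => HW (F := F) (fun D => omt (jac D) Y r r') u₀ u₁ g * (((Q F : ℂ) ^ 2)⁻¹) ^ g)
      ((Q F - 1) * (1 + Q F * (u₀ * u₁)) *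
        ∏' P : Prm F, BP F P.1.natDegree (av u₀ u₁ r r' P.1.natDegree)) := by
  have hr : 1 < qp F (1 / 32) := Real.one_lt_rpow one_lt_Q (by norm_num)
  obtain ⟨b, hb, hb'⟩ := hasProd_of_bound (F := F) (one_half_pos (α := ℝ)) (κ := 20)
    (fun d => BP F d (av u₀ u₁ r r' d)) fun d _ => by
      have := bound_TM h (z := 1) (by rw [norm_one]; exact hr.le) d
      simpa only [mul_one, one_pow] using this
  rw [hb.tprod_eq]
  have hs := summable_TM hF h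
  have ha := hs.hasSum
  set a := ∑' x : ℕ × (ℕ × ℕ), ff' F u₀ u₁ r r' x.2.1 x.2.2 x.1 * (((Q F : ℂ) ^ 2)⁻¹) ^ x.1
  have s1 : HasSum (fun g => HW (F := F) (fun D => omt (jac D) Y r r') u₀ u₁ g *
      (((Q F : ℂ) ^ 2)⁻¹) ^ g) a := by
    refine ha.prod_fiberwise fun g => ?_
    have t1 := (hs.prod_factor g).hasSum
    have t2 := ((Equiv.prodComm ℕ ℕ).hasSum_iff.2 t1).prod_fiberwise
      (g := fun k => (∑ n ∈ range (4 * g + 1), ff' F u₀ u₁ r r' n k g) * (((Q F : ℂ) ^ 2)⁻¹) ^ g)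
      fun k => (hasSum_sum_of_ne_finset_zero (f := fun n => ff' F u₀ u₁ r r' n k g)
        fun n hn => zero_TM hF h (by rw [mem_range] at hn; omega)).mul_right _
    rw [((hasSum_HW' hF h g).mul_right _).unique t2]
    exact t1
  have hs' : Summable fun x : (ℕ × ℕ) × ℕ =>
      ff' F u₀ u₁ r r' x.1.1 x.1.2 x.2 * (((Q F : ℂ) ^ 2)⁻¹) ^ x.2 := hs.prod_symm
  have s2 : HasSum (fun p : ℕ × ℕ => ∑' g, ff' F u₀ u₁ r r' p.1 p.2 g * (((Q F : ℂ) ^ 2)⁻¹) ^ g)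
      a := ((Equiv.prodComm (ℕ × ℕ) ℕ).hasSum_iff.2 ha).prod_fiberwise
      fun p => (hs'.prod_factor p).hasSum
  have s3 : HasSum (fun M => ∑ p ∈ antidiagonal M,
      ∑' g, ff' F u₀ u₁ r r' p.1 p.2 g * (((Q F : ℂ) ^ 2)⁻¹) ^ g) a := by
    refine (Finset.HasAntidiagonal.sigmaAntidiagonalEquivProd.hasSum_iff.2 s2).sigma fun M => ?_
    rw [← Finset.sum_coe_sort]
    exact hasSum_fintype _
  obtain ⟨K, hK⟩ := sum_pr_le (F := F) (one_half_pos (α := ℝ))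
  have s4 := (poly_limit (fun M => C (Q F - 1 : ℂ) * (1 + C (Q F * (u₀ * u₁)) * X ^ 2) *
      ∏ P ∈ pr F M, BP F P.natDegree (av (C u₀ * X : ℂ[X]) (C u₁ * X) (gr r) (gr r') P.natDegree))
    (fun M => ∑ p ∈ antidiagonal M, ∑' g, ff' F u₀ u₁ r r' p.1 p.2 g * (((Q F : ℂ) ^ 2)⁻¹) ^ g) hr
    (B := ‖(Q F - 1 : ℂ)‖ * (1 + ‖Q F * (u₀ * u₁)‖ * qp F (1 / 32) ^ 2) * Real.exp (20 * K))
    (fun M z hz => by
      rw [aeval_TM, norm_mul, norm_mul]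
      refine mul_le_mul (mul_le_mul_of_nonneg_left ((norm_add_le _ _).trans_eq ?_)
        (norm_nonneg _)) ?_ (norm_nonneg _) (by positivity)
      · rw [norm_one, norm_mul, norm_pow, hz]
      · rw [norm_prod]
        refine le_trans (prod_le_prod (fun _ _ => norm_nonneg _)
          (g := fun P => Real.exp (20 * qp F (-(1 + 1 / 2) * P.natDegree))) fun P _ => ?_) ?_
        · have t := bound_TM h hz.le P.natDegree
          have t' := norm_le_norm_add_norm_sub' (BP F P.natDegree (av (u₀ * z) (u₁ * z)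
            (fun d => r d * z ^ d) (fun d => r' d * z ^ d) P.natDegree)) 1
          rw [norm_one] at t'
          linarith [Real.add_one_le_exp (20 * qp F (-(1 + 1 / 2) * P.natDegree))]
        · rw [← Real.exp_sum, ← mul_sum]
          exact Real.exp_le_exp.2 (mul_le_mul_of_nonneg_left (hK M) (by norm_num)))
    fun m M hm => by
      refine tendsto_nhds_unique (hM_lim' hF u₀ u₁ r r' hm) ?_
      simp only [sum_mul]
      exact (hasSum_sum fun p _ => (hs'.prod_factor p).hasSum).tendsto_sum_nat).2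
  simp only [aeval_TM, mul_one, one_pow] at s4
  rw [tendsto_nhds_unique (hb'.const_mul _) s4, s3.tsum_eq]
  exact s1

end Pool.Agent.MP_dd7250_nt.LS
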