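import Mathlib
import Pool.Agent.MP_dd7250_nt.LS.TM

/- Ratios at small shifts: the twisted second moment. -/

set_option autoImplicit false
set_option maxHeartbeats 400000

namespace Pool.Agent.MP_dd7250_nt.LS

open Polynomial Finset Filter Topology Pool.Agent.MP_d232b3_nt Pool.Agent.MP_dd7250_nt
open scoped Classical

variable {F : Type} [Field F] [Fintype F]

theorem evs_T0 (hF : ringChar F ≠ 2) {a₀ a₁ : ℝ} {u₀ u₁ : ℂ} {r r' : ℕ → ℂ} {Y : ℕ}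
    (h : Rt F a₀ a₁ u₀ u₁ r r' Y) {H : PowerSeries ℂ} {s : ℂ} (hs : s ≠ 0)
    (hH : ∀ g, PowerSeries.coeff g H =
      s ^ g * HW (F := F) (fun D => omt (jac D) Y r r') u₀ u₁ g)
    (h0 : (Q F : ℂ) ^ 2 * u₀ ^ 2 * u₁ ^ 2 ≠ 1) :
    evs ((Q F : ℂ) ^ 2 * s)⁻¹ H / ((1 - Q F * u₀ ^ 2) * (1 - Q F * u₁ ^ 2) *
      (1 - (Q F : ℂ) ^ 2 * u₀ ^ 2 * u₁ ^ 2)) = (Q F - 1) * Gr F u₀ u₁ r r' := by
  have hS := main0' hF h
  rw [Gr]
  generalize ∏' P : Prm F, BP F P.1.natDegree (av u₀ u₁ r r' P.1.natDegree) = b at hS ⊢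
  have h1 : evs ((Q F : ℂ) ^ 2 * s)⁻¹ H = (Q F - 1) * (1 + Q F * (u₀ * u₁)) * b := by
    rw [← hS.tsum_eq, evs]
    refine tsum_congr fun g => ?_
    rw [hH, mul_inv, mul_pow, inv_pow s]
    field_simp
  have h2 : 1 - (Q F : ℂ) ^ 2 * u₀ ^ 2 * u₁ ^ 2 =
      (1 + Q F * (u₀ * u₁)) * (1 - Q F * (u₀ * u₁)) := by ring
  have h3 : 1 + (Q F : ℂ) * (u₀ * u₁) ≠ 0 := fun h4 => h0 (by
    rw [h4, zero_mul] at h2
    exact (sub_eq_zero.1 h2).symm)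
  rw [h1, h2]
  generalize 1 + (Q F : ℂ) * (u₀ * u₁) = z at h3 ⊢
  field_simp

theorem ts0 (hF : ringChar F ≠ 2) : ∃ K : ℝ, ∀ (a₀ a₁ : ℝ) (u₀ u₁ : ℂ) (r r' : ℕ → ℂ) (Y : ℕ),
    Rt F a₀ a₁ u₀ u₁ r r' Y → Q F * u₀ ^ 2 ≠ 1 → Q F * u₁ ^ 2 ≠ 1 →
    (Q F : ℂ) ^ 2 * u₀ ^ 2 * u₁ ^ 2 ≠ 1 → u₀ ^ 2 ≠ u₁ ^ 2 → ∀ g : ℕ,
    ‖TW (F := F) (fun D => omt (jac D) Y r r') u₀ u₁ g - (Q F - 1) * (Q F : ℂ) ^ (2 * g) *
      (Gr F u₀ u₁ r r' + (Q F * u₁ ^ 2) ^ g * Gr F u₀ (Q F * u₁)⁻¹ r r' +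
        ((Q F * u₀ ^ 2) ^ g * Gr F (Q F * u₀)⁻¹ u₁ r r' +
          (Q F * u₀ ^ 2) ^ g * (Q F * u₁ ^ 2) ^ g * Gr F (Q F * u₀)⁻¹ (Q F * u₁)⁻¹ r r'))‖ ≤
      K * qp F (3 / 2) ^ g := by
  have hδ : 0 < qp F (1 / 4) - 1 := by
    have := Real.one_lt_rpow (one_lt_Q (F := F)) (show (0 : ℝ) < 1 / 4 by norm_num)
    exact sub_pos.2 this
  obtain ⟨K, hK⟩ := solve4 hδ
  obtain ⟨B, hB⟩ := HW_bound' hF
  refine ⟨K * B, fun a₀ a₁ u₀ u₁ r r' Y h h1 h2 h3 h4 g => ?_⟩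
  have hq : (Q F : ℂ) ≠ 0 := Q_ne
  have hu0 := asm_ne h.h0
  have hu1 := asm_ne h.h1
  set l : Fin 4 → ℂ := ![(Q F : ℂ) ^ 2 * 1, (Q F : ℂ) ^ 2 * (Q F * u₀ ^ 2),
    (Q F : ℂ) ^ 2 * (Q F * u₁ ^ 2), (Q F : ℂ) ^ 2 * (Q F * u₀ ^ 2 * (Q F * u₁ ^ 2))] with hl
  set H := Ph F (PowerSeries.C u₀) (PowerSeries.C u₁) PowerSeries.X *
    PowerSeries.mk (TW (F := F) (fun D => omt (jac D) Y r r') u₀ u₁) with hH
  have hHc : ∀ g, PowerSeries.coeff g H = HW (F := F) (fun D => omt (jac D) Y r r') u₀ u₁ g :=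
    fun g => rfl
  have hq2 := pow_ne_zero 2 hq
  have hx0 : (Q F : ℂ) * u₀ ^ 2 ≠ 0 := mul_ne_zero hq (pow_ne_zero 2 hu0)
  have hx1 : (Q F : ℂ) * u₁ ^ 2 ≠ 0 := mul_ne_zero hq (pow_ne_zero 2 hu1)
  have h3' : (Q F : ℂ) * u₀ ^ 2 * (Q F * u₁ ^ 2) ≠ 1 := fun h5 => h3 (by rw [← h5]; ring)
  have h4' : (Q F : ℂ) * u₀ ^ 2 ≠ Q F * u₁ ^ 2 := fun h5 => h4 (mul_left_cancel₀ hq h5)
  have hinj : Function.Injective l := by
    have e1 : (Q F : ℂ) * u₀ ^ 2 ≠ Q F * u₀ ^ 2 * (Q F * u₁ ^ 2) := fun h5 =>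
      h2 ((mul_eq_left₀ hx0).1 h5.symm)
    have e2 : (Q F : ℂ) * u₁ ^ 2 ≠ Q F * u₀ ^ 2 * (Q F * u₁ ^ 2) := fun h5 =>
      h1 ((mul_eq_right₀ hx1).1 h5.symm)
    intro i j hij
    fin_cases i <;> fin_cases j <;> first
      | rfl
      | (exfalso
         have h6 := mul_left_cancel₀ hq2 (show (Q F : ℂ) ^ 2 * _ = (Q F : ℂ) ^ 2 * _ from hij)
         first
          | exact h1 h6 | exact h1 h6.symm | exact h2 h6 | exact h2 h6.symm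
          | exact h3' h6 | exact h3' h6.symm | exact h4' h6 | exact h4' h6.symm
          | exact e1 h6 | exact e1 h6.symm | exact e2 h6 | exact e2 h6.symm)
  have hn0 : ‖(Q F : ℂ) * u₀ ^ 2‖ = qp F (-2 * a₀) := by
    rw [norm_mul, norm_pow, asm_norm_Q, h.h0, qp_pow, ← qp_add]; congr 1; push_cast; ring
  have hn1 : ‖(Q F : ℂ) * u₁ ^ 2‖ = qp F (-2 * a₁) := by
    rw [norm_mul, norm_pow, asm_norm_Q, h.h1, qp_pow, ← qp_add]; congr 1; push_cast; ring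
  have hn2 : ‖(Q F : ℂ) ^ 2‖ = qp F 2 := by
    rw [norm_pow, asm_norm_Q, qp_pow]; congr 1; push_cast; ring
  have hge : ∀ i, (1 + (qp F (1 / 4) - 1)) * qp F (3 / 2) ≤ ‖l i‖ := by
    have e0 := (abs_le.1 h.b0).2
    have e1 := (abs_le.1 h.b1).2
    intro i
    rw [add_sub_cancel, ← qp_add]
    fin_cases i
    · change _ ≤ ‖(Q F : ℂ) ^ 2 * 1‖
      rw [mul_one, hn2]
      exact qp_mono (by linarith)
    · change _ ≤ ‖(Q F : ℂ) ^ 2 * (Q F * u₀ ^ 2)‖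
      rw [norm_mul, hn2, hn0, ← qp_add]
      exact qp_mono (by linarith)
    · change _ ≤ ‖(Q F : ℂ) ^ 2 * (Q F * u₁ ^ 2)‖
      rw [norm_mul, hn2, hn1, ← qp_add]
      exact qp_mono (by linarith)
    · change _ ≤ ‖(Q F : ℂ) ^ 2 * (Q F * u₀ ^ 2 * (Q F * u₁ ^ 2))‖
      rw [norm_mul, norm_mul (_ * _), hn2, hn0, hn1, ← qp_add, ← qp_add]
      exact qp_mono (by linarith)
  have key := hK _ B l (PowerSeries.mk (TW (F := F) (fun D => omt (jac D) Y r r') u₀ u₁)) H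
    (qp_pos _) hinj hge (by
      rw [hH, Fin.prod_univ_four, Ph]
      simp only [hl, Matrix.cons_val_zero, Matrix.cons_val_one, Matrix.cons_val, map_mul, map_pow,
        map_natCast, map_one]
      ring) (fun g => hB a₀ a₁ u₀ u₁ r r' Y h g) g
  have r1 : Rt F (-a₀) a₁ (Q F * u₀)⁻¹ u₁ r r' Y :=
    ⟨asm_dual h.h0, h.h1, by rw [abs_neg]; exact h.b0, h.b1, h.hr, h.hr', h.hY⟩
  have r2 : Rt F a₀ (-a₁) u₀ (Q F * u₁)⁻¹ r r' Y :=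
    ⟨h.h0, asm_dual h.h1, h.b0, by rw [abs_neg]; exact h.b1, h.hr, h.hr', h.hY⟩
  have r3 : Rt F (-a₀) (-a₁) (Q F * u₀)⁻¹ (Q F * u₁)⁻¹ r r' Y :=
    ⟨asm_dual h.h0, asm_dual h.h1, by rw [abs_neg]; exact h.b0, by rw [abs_neg]; exact h.b1,
      h.hr, h.hr', h.hY⟩
  have c0 := evs_T0 hF h (H := H) one_ne_zero (fun g => by rw [one_pow, one_mul, hHc]) h3
  have c1 := evs_T0 hF r1 (H := H) hx0 (fun g => by rw [hHc, HW_symm hF _ hu0]) (by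
    intro h5
    field_simp at h5
    exact h4 h5.symm)
  have c2 := evs_T0 hF r2 (H := H) hx1 (fun g => by
    rw [hHc, HW_comm, HW_symm hF _ hu1, HW_comm]) (by
    intro h5
    field_simp at h5
    exact h4 h5)
  have c3 := evs_T0 hF r3 (H := H) (mul_ne_zero hx0 hx1) (fun g => by
    rw [hHc, HW_symm hF _ hu0, HW_comm, HW_symm hF _ hu1, HW_comm, mul_pow _ (Q F * u₁ ^ 2),
      mul_assoc]) (by
    intro h5
    field_simp at h5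
    exact h3 (by rw [← h5]))
  rw [PowerSeries.coeff_mk, Fin.sum_univ_four] at key
  have p0 : ∏ j ∈ univ.erase 0, (1 - l j / l 0) = (1 - Q F * u₀ ^ 2) * (1 - Q F * u₁ ^ 2) *
      (1 - (Q F : ℂ) ^ 2 * u₀ ^ 2 * u₁ ^ 2) := by
    rw [show (univ.erase 0 : Finset (Fin 4)) = {1, 2, 3} by decide, prod_insert (by decide),
      prod_pair (by decide)]
    simp only [hl, Matrix.cons_val_zero, Matrix.cons_val_one, Matrix.cons_val]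
    field_simp
  have p1 : ∏ j ∈ univ.erase 1, (1 - l j / l 1) = (1 - Q F * (Q F * u₀)⁻¹ ^ 2) *
      (1 - Q F * u₁ ^ 2) * (1 - (Q F : ℂ) ^ 2 * (Q F * u₀)⁻¹ ^ 2 * u₁ ^ 2) := by
    rw [show (univ.erase 1 : Finset (Fin 4)) = {0, 2, 3} by decide, prod_insert (by decide),
      prod_pair (by decide)]
    simp only [hl, Matrix.cons_val_zero, Matrix.cons_val_one, Matrix.cons_val]
    field_simp
  have p2 : ∏ j ∈ univ.erase 2, (1 - l j / l 2) = (1 - Q F * u₀ ^ 2) *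
      (1 - Q F * (Q F * u₁)⁻¹ ^ 2) * (1 - (Q F : ℂ) ^ 2 * u₀ ^ 2 * (Q F * u₁)⁻¹ ^ 2) := by
    rw [show (univ.erase 2 : Finset (Fin 4)) = {0, 1, 3} by decide, prod_insert (by decide),
      prod_pair (by decide)]
    simp only [hl, Matrix.cons_val_zero, Matrix.cons_val_one, Matrix.cons_val]
    field_simp
  have p3 : ∏ j ∈ univ.erase 3, (1 - l j / l 3) = (1 - Q F * (Q F * u₀)⁻¹ ^ 2) *
      (1 - Q F * (Q F * u₁)⁻¹ ^ 2) *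
      (1 - (Q F : ℂ) ^ 2 * (Q F * u₀)⁻¹ ^ 2 * (Q F * u₁)⁻¹ ^ 2) := by
    rw [show (univ.erase 3 : Finset (Fin 4)) = {0, 1, 2} by decide, prod_insert (by decide),
      prod_pair (by decide)]
    simp only [hl, Matrix.cons_val_zero, Matrix.cons_val_one, Matrix.cons_val]
    field_simp
  rw [p0, p1, p2, p3] at key
  simp only [hl, Matrix.cons_val_zero, Matrix.cons_val_one, Matrix.cons_val] at key
  rw [c0, c1, c2, c3] at key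
  refine le_of_eq_of_le ?_ key
  congr 2
  simp only [mul_pow ((Q F : ℂ) ^ 2), mul_pow ((Q F : ℂ) * u₀ ^ 2), ← pow_mul, one_pow]
  ring

end Pool.Agent.MP_dd7250_nt.LS
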