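import Mathlib
import Pool.Agent.MP_dd7250_nt.LS.PP

/- Ratios at small shifts: extraction of the short approximation. -/

set_option autoImplicit false
set_option maxHeartbeats 400000

namespace Pool.Agent.MP_dd7250_nt.LS

open Finset Complex Filter Topology

theorem vp_sum_T1 {ι : Type*} (I : Finset ι) (d : ι → ℂ) (c : ι → ℕ → ℂ) (N : ℕ) :
    vp N (fun k => ∑ i ∈ I, d i * c i k) = ∑ i ∈ I, d i * vp N (c i) := by
  classical
  induction I using Finset.induction_on with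
  | empty => simp [vp]
  | insert i I hi ih =>
    simp only [sum_insert hi]
    rw [← ih]
    simp only [vp, sum_add_distrib, ← mul_sum]
    ring

/-- The block as a polynomial in the grading variable. -/
noncomputable def sg_T1 (J : ℝ) (Y : ℕ) (a π : ℕ → ℂ) (b : ℕ) : Polynomial ℂ :=
  ∑ j ∈ Icc 1 Y, Polynomial.C ((dps J b j : ℂ) * a j * π j / j) * Polynomial.X ^ j

theorem sg_eval_T1 (J : ℝ) (Y : ℕ) (a π : ℕ → ℂ) (b : ℕ) (t : ℂ) :
    (sg_T1 J Y a π b).eval t = ∑ j ∈ Icc 1 Y, (dps J b j : ℂ) * a j * π j / j * t ^ j := by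
  simp only [sg_T1, Polynomial.eval_finsetSum, Polynomial.eval_mul, Polynomial.eval_C,
    Polynomial.eval_pow, Polynomial.eval_X]

theorem sg_deg_T1 {J : ℝ} (hJ : 0 < J) (Y : ℕ) (a π : ℕ → ℂ) (b : ℕ) :
    (sg_T1 J Y a π b).natDegree ≤ ⌊J / 4 ^ b⌋₊ := by
  refine Polynomial.natDegree_sum_le_of_forall_le _ _ fun j _ => ?_
  by_cases h : j ≤ ⌊J / 4 ^ b⌋₊
  · exact (Polynomial.natDegree_C_mul_X_pow_le _ _).trans h
  · rw [dps_eq_zero hJ (Nat.lt_of_floor_lt (not_le.1 h)).le]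
    simp

theorem sum_deg_T1 {J : ℝ} (hJ : 0 < J) {l n : ℕ} (hn : 2 * l * J ≤ n) (B : ℕ) :
    ∑ b ∈ range B, 2 ^ b * l * ⌊J / 4 ^ b⌋₊ ≤ n := by
  have h1 : ((∑ b ∈ range B, 2 ^ b * l * ⌊J / 4 ^ b⌋₊ : ℕ) : ℝ) ≤
      ∑ b ∈ range B, l * J * (1 / 2 : ℝ) ^ b := by
    push_cast
    refine sum_le_sum fun b _ => ?_
    have h2 : (⌊J / 4 ^ b⌋₊ : ℝ) ≤ J / 4 ^ b := Nat.floor_le (by positivity)
    have h3 : (4 : ℝ) ^ b = 2 ^ b * 2 ^ b := by
      rw [← mul_pow]
      norm_num
    refine (mul_le_mul_of_nonneg_left h2 (by positivity)).trans_eq ?_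
    rw [h3, one_div_pow]
    field_simp
  rw [← mul_sum] at h1
  have h2 := mul_le_mul_of_nonneg_left (geo_PP B) (by positivity : (0 : ℝ) ≤ l * J)
  exact (Nat.cast_le (α := ℝ)).1 (h1.trans (h2.trans (by linarith)))

theorem t1 {ι : Type*} (I : Finset ι) (δ : ι → ℂ) (π : ι → ℕ → ℂ) {J τ B₀ : ℝ}
    {Y B l N n : ℕ} {a : ℕ → ℂ} (hJ : 0 < J) (ha : ∀ j, ‖a j‖ ≤ 2) (hτ : 0 < τ)
    (hτ' : τ ≤ 1 / 2) (hN : 1 ≤ N) (hn : 2 * l * J ≤ n)
    (h : ∀ η : ℕ → ℂ, (∀ j, ‖η j‖ ≤ 6 * τ ^ j) →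
      ‖∑ i ∈ I, δ i * exp (lf Y η (π i))‖ ≤ B₀) :
    ‖∑ i ∈ I, δ i * Vm J Y B l N a (π i)‖ * τ ^ (2 * N + n) ≤ 2 * 4 ^ B * B₀ := by
  have hp : (0 : ℝ) < τ ^ (2 * N) := by positivity
  have h1 := ext_blocks I (fun i => δ i * vp N (tc fun z => exp (Hz J Y a (π i) z)))
    (fun b i => sg_T1 J Y a (π i) b) (fun b => ⌊J / 4 ^ b⌋₊) (fun b => 2 ^ b * l) (range B)
    (B₀ := 2 * B₀ / τ ^ (2 * N)) hτ hτ' (fun b i => sg_deg_T1 hJ Y a (π i) b) fun w t hw ht => by
      set d : ι → ℂ := fun i =>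
        δ i * exp (∑ b ∈ range B, w b * (sg_T1 J Y a (π i) b).eval (t b)) with hd
      have hs : ∀ z : ℂ, HasSum (fun k =>
          (∑ i ∈ I, d i * tc (fun z => exp (Hz J Y a (π i) z)) k) * z ^ k)
          (∑ i ∈ I, d i * exp (Hz J Y a (π i) z)) := fun z => by
        have h2 := hasSum_sum (s := I) fun i _ =>
          (tc_hasSum (differentiable_Hz J Y a (π i)) z).mul_left (d i)
        simpa only [sum_mul, mul_assoc] using h2
      have h3 := sl_small (f := fun z => ∑ i ∈ I, d i * exp (Hz J Y a (π i) z)) hs hτ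
        (by linarith) (B := B₀) (fun z hz => by
          have h4 := h (fun j => a j * (∑ b ∈ range B, w b * t b ^ j * (dps J b j : ℂ) +
            ((1 - psi J j : ℝ) : ℂ) * z ^ j)) fun j => by
              have p0 : (0 : ℝ) ≤ τ ^ j := by positivity
              have p1 := psi_le_one hJ j
              have p2 := psi_nonneg J j
              have p3 := psi_nonneg (J / 4 ^ B) j
              have s1 : ‖∑ b ∈ range B, w b * t b ^ j * (dps J b j : ℂ)‖ ≤ 2 * τ ^ j := by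
                refine (norm_sum_le _ _).trans ?_
                rw [sum_congr rfl (g := fun b => 2 * τ ^ j * dps J b j) fun b hb => by
                  rw [norm_mul, norm_mul, norm_pow, hw b hb, ht b hb, norm_real,
                    Real.norm_of_nonneg (dps_nonneg hJ b j)], ← mul_sum, sum_dps_range]
                nlinarith
              have s2 : ‖((1 - psi J j : ℝ) : ℂ) * z ^ j‖ ≤ τ ^ j := by
                rw [norm_mul, norm_pow, hz, norm_real, Real.norm_of_nonneg (by linarith)]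
                nlinarith
              rw [norm_mul]
              calc _ ≤ 2 * (2 * τ ^ j + τ ^ j) :=
                    mul_le_mul (ha j) ((norm_add_le _ _).trans (add_le_add s1 s2))
                      (norm_nonneg _) (by norm_num)
                _ = _ := by ring
          refine le_of_eq_of_le (congrArg norm (sum_congr rfl fun i _ => ?_)) h4
          rw [hd, mul_assoc, ← exp_add]
          refine congrArg (fun s => δ i * exp s) ?_
          simp only [sg_eval_T1, lf, Hz, mul_sum]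
          rw [sum_comm, ← sum_add_distrib]
          refine sum_congr rfl fun j _ => ?_
          rw [mul_add, add_mul, add_div, mul_sum, sum_mul, sum_div]
          congr 1
          · exact sum_congr rfl fun b _ => by ring
          · ring) hN
      rw [vp_sum_T1] at h3
      rw [le_div_iff₀ hp]
      refine le_of_eq_of_le (congrArg (fun s => ‖s‖ * τ ^ (2 * N)) (sum_congr rfl fun i _ => ?_)) h3
      rw [hd]
      ring
  have e : ∑ i ∈ I, δ i * Vm J Y B l N a (π i) =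
      ∑ i ∈ I, δ i * vp N (tc fun z => exp (Hz J Y a (π i) z)) *
        ∏ b ∈ range B, Et (2 ^ b * l) ((sg_T1 J Y a (π i) b).eval 1) := by
    refine sum_congr rfl fun i _ => ?_
    simp only [Vm, EE, Sb, lf, sg_eval_T1, one_pow, mul_one]
    ring
  rw [← e, card_range] at h1
  have h2 : τ ^ n ≤ τ ^ (∑ b ∈ range B, 2 ^ b * l * ⌊J / 4 ^ b⌋₊) :=
    pow_le_pow_of_le_one hτ.le (by linarith) (sum_deg_T1 hJ hn B)
  have h3 := (mul_le_mul_of_nonneg_left h2
    (norm_nonneg (∑ i ∈ I, δ i * Vm J Y B l N a (π i)))).trans h1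
  calc _ = ‖∑ i ∈ I, δ i * Vm J Y B l N a (π i)‖ * τ ^ n * τ ^ (2 * N) := by ring
    _ ≤ 4 ^ B * (2 * B₀ / τ ^ (2 * N)) * τ ^ (2 * N) := mul_le_mul_of_nonneg_right h3 hp.le
    _ = _ := by field_simp

end Pool.Agent.MP_dd7250_nt.LS
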