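import Mathlib
import Pool.Agent.MP_dd7250_nt.LS.T0
import Pool.Agent.MP_dd7250_nt.LS.NU
import Pool.Agent.MP_dd7250_nt.LS.T1

/- Ratios at small shifts: the twisted second moment against the model. -/

set_option autoImplicit false
set_option maxHeartbeats 400000

namespace Pool.Agent.MP_dd7250_nt.LS

open Polynomial Finset Filter Topology Pool.Agent.MP_d232b3_nt Pool.Agent.MP_dd7250_nt
open scoped Classical

variable {F : Type} [Field F] [Fintype F]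

/-- The numerator is away from the poles and close to the critical line. -/
structure Nd (F : Type) [Fintype F] (x₁ x₂ : ℂ) : Prop where
  l1 : qp F (-(1 / 64)) ≤ ‖x₁‖
  u1 : ‖x₁‖ ≤ qp F (1 / 64)
  l2 : qp F (-(1 / 64)) ≤ ‖x₂‖
  u2 : ‖x₂‖ ≤ qp F (1 / 64)
  n1 : x₁ ^ 2 ≠ 1
  n2 : x₂ ^ 2 ≠ 1
  n3 : (x₁ * x₂) ^ 2 ≠ 1
  n4 : x₁ ^ 2 ≠ x₂ ^ 2

theorem norm_u_TS {x : ℂ} (l : qp F (-(1 / 64)) ≤ ‖x‖) (u : ‖x‖ ≤ qp F (1 / 64)) :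
    ∃ a : ℝ, |a| ≤ 1 / 64 ∧ ‖x * (sq F)⁻¹‖ = qp F (-(1 / 2 + a)) := by
  have hx : 0 < ‖x‖ := (qp_pos _).trans_le l
  have hQ := one_lt_Q (F := F)
  have e : qp F (Real.logb (Q F) ‖x‖) = ‖x‖ := Real.rpow_logb (by linarith) hQ.ne' hx
  rw [← e] at l u
  have l' := (Real.rpow_le_rpow_left_iff hQ).1 l
  have u' := (Real.rpow_le_rpow_left_iff hQ).1 u
  refine ⟨-Real.logb (Q F) ‖x‖, abs_le.2 ⟨by linarith, by linarith⟩, ?_⟩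
  rw [norm_mul, norm_inv, norm_sq, ← qp_neg]
  conv_lhs => rw [← e]
  rw [← qp_add]
  congr 1
  ring

theorem mul_TS (x y : ℂ) : (Q F : ℂ) * (x * (sq F)⁻¹ * (y * (sq F)⁻¹)) = x * y := by
  have h := fe_sq_ne (F := F)
  rw [← sq_sq]
  field_simp

theorem sq_TS (x : ℂ) : (Q F : ℂ) * (x * (sq F)⁻¹) ^ 2 = x ^ 2 := by
  rw [pow_two, mul_TS, pow_two]

theorem inv_TS (x : ℂ) : ((Q F : ℂ) * (x * (sq F)⁻¹))⁻¹ = x⁻¹ * (sq F)⁻¹ := by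
  have h := fe_sq_ne (F := F)
  have e : (Q F : ℂ) * (x * (sq F)⁻¹) = x * sq F := by
    rw [← sq_sq]
    field_simp
  rw [e, mul_inv]

theorem norm_inv_TS {x : ℂ} (l : qp F (-(1 / 64)) ≤ ‖x‖) : ‖x⁻¹‖ ≤ qp F (1 / 16) := by
  rw [norm_inv]
  refine (inv_anti₀ (qp_pos _) l).trans ?_
  rw [qp_neg, inv_inv]
  exact qp_mono (by norm_num)

theorem omt_TS {Y : ℕ} {η r r' : ℕ → ℂ}
    (h : ∀ d, 1 ≤ d → d ≤ Y → ∀ x ∈ ({0, 1, -1} : Finset ℂ),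
      Complex.exp (phi Y ((sq F)⁻¹ ^ d) η d x) = (1 - x * r d) * (1 - x * r' d)) (D : F[X]) :
    omt (jac D) Y r r' = Complex.exp (lf Y η (pp (jac D))) := by
  rw [lf_pp, Complex.exp_sum, omt]
  refine prod_congr rfl fun P hP => ?_
  obtain ⟨-, h2, h3⟩ := mem_pr.1 hP
  rw [h _ (deg_pos h2) h3 (jac D P) (by
    rcases jac_tri D P with e | e | e <;> rw [e] <;> simp)]
  rfl

theorem Gr_TS {Y : ℕ} {η r r' : ℕ → ℂ} (hY : ∀ d, Y < d → r d = 0 ∧ r' d = 0)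
    (h : ∀ d, 1 ≤ d → d ≤ Y → ∀ x ∈ ({0, 1, -1} : Finset ℂ),
      Complex.exp (phi Y ((sq F)⁻¹ ^ d) η d x) = (1 - x * r d) * (1 - x * r' d)) {x₁ x₂ : ℂ}
    (h0 : ‖x₁‖ ≤ qp F (1 / 16)) (h1 : ‖x₂‖ ≤ qp F (1 / 16)) :
    Gr F (x₁ * (sq F)⁻¹) (x₂ * (sq F)⁻¹) r r' =
      MV F Y x₁ x₂ fun π => Complex.exp (lf Y η π) := by
  rw [Gr, MV, tprod_split h0 h1 hY, nu_exp, sq_TS, sq_TS, mul_TS, den, PL]
  congr 2
  refine prod_congr rfl fun P hP => ?_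
  obtain ⟨-, h2, h3⟩ := mem_pr.1 hP
  rw [av, BP_eq_mu, lc, mul_pow, mul_pow]
  exact sum_congr rfl fun x hx => by rw [h _ (deg_pos h2) h3 x hx]

theorem ts (hF : ringChar F ≠ 2) : ∃ K : ℝ, ∀ (x₁ x₂ : ℂ) (Y g : ℕ) (η : ℕ → ℂ), Nd F x₁ x₂ →
    (∀ j : ℕ, 1 ≤ j → ‖η j‖ ≤ qp F (-10 * j)) →
    ‖∑ D ∈ sqF F (2 * g + 1), LD F g D x₁ * LD F g D x₂ * Complex.exp (lf Y η (pp (jac D))) -
      (Q F - 1) * (Q F : ℂ) ^ (2 * g) * M4 F g Y x₁ x₂ fun π => Complex.exp (lf Y η π)‖ ≤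
      K * qp F (3 / 2) ^ g := by
  obtain ⟨K, hK⟩ := ts0 hF
  refine ⟨K, fun x₁ x₂ Y g η h hη => ?_⟩
  obtain ⟨r, r', hr, hr', hY, hx⟩ := exists_roots hF Y hη
  obtain ⟨a₀, b0, h0⟩ := norm_u_TS h.l1 h.u1
  obtain ⟨a₁, b1, h1⟩ := norm_u_TS h.l2 h.u2
  have s0 := fe_sq_ne (F := F)
  have u1 : ‖x₁‖ ≤ qp F (1 / 16) := h.u1.trans (qp_mono (by norm_num))
  have u2 : ‖x₂‖ ≤ qp F (1 / 16) := h.u2.trans (qp_mono (by norm_num))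
  have v1 := norm_inv_TS h.l1
  have v2 := norm_inv_TS h.l2
  have key := hK a₀ a₁ _ _ r r' Y ⟨h0, h1, b0, b1, hr, hr', hY⟩ (by rw [sq_TS]; exact h.n1)
    (by rw [sq_TS]; exact h.n2)
    (by
      have e : (Q F : ℂ) ^ 2 * (x₁ * (sq F)⁻¹) ^ 2 * (x₂ * (sq F)⁻¹) ^ 2 = (x₁ * x₂) ^ 2 := by
        rw [← mul_TS (F := F) x₁ x₂]
        ring
      rw [e]
      exact h.n3)
    (fun e => h.n4 (by rw [← sq_TS (F := F) x₁, e, sq_TS])) g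
  rw [sq_TS, sq_TS, inv_TS, inv_TS, Gr_TS hY hx u1 u2, Gr_TS hY hx u1 v2, Gr_TS hY hx v1 u2,
    Gr_TS hY hx v1 v2] at key
  have e : TW (F := F) (fun D => omt (jac D) Y r r') (x₁ * (sq F)⁻¹) (x₂ * (sq F)⁻¹) g =
      ∑ D ∈ sqF F (2 * g + 1), LD F g D x₁ * LD F g D x₂ * Complex.exp (lf Y η (pp (jac D))) := by
    rw [TW]
    refine sum_congr rfl fun D _ => ?_
    rw [omt_TS hx D, mul_comm]
    rfl
  rw [e] at key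
  exact key

theorem M4_TS (g Y : ℕ) (x₁ x₂ : ℂ) : ∃ W : (∀ P ∈ pr F Y, ℂ) → ℂ, ∀ Φ : (ℕ → ℂ) → ℂ,
    M4 F g Y x₁ x₂ Φ = ∑ p ∈ Xs F Y, W p * Φ (pp (xt Y p)) := by
  refine ⟨fun p => tl F Y x₁ x₂ * wm F Y x₁ x₂ p / den x₁ x₂ +
    (x₂ ^ 2) ^ g * (tl F Y x₁ x₂⁻¹ * wm F Y x₁ x₂⁻¹ p / den x₁ x₂⁻¹) +
    ((x₁ ^ 2) ^ g * (tl F Y x₁⁻¹ x₂ * wm F Y x₁⁻¹ x₂ p / den x₁⁻¹ x₂) +
      (x₁ ^ 2) ^ g * (x₂ ^ 2) ^ g * (tl F Y x₁⁻¹ x₂⁻¹ * wm F Y x₁⁻¹ x₂⁻¹ p / den x₁⁻¹ x₂⁻¹)),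
    fun Φ => ?_⟩
  simp only [M4, MV, nu, mul_sum, sum_div, ← sum_add_distrib]
  exact sum_congr rfl fun p _ => by ring

theorem nine_TS (hF : ringChar F ≠ 2) : 9 ≤ qp F 2 := by
  have h3 := three_le_Q hF
  have e : qp F 2 = (Q F : ℝ) ^ 2 := by exact_mod_cast qp_nat (F := F) 2
  rw [e]
  nlinarith

theorem tsv (hF : ringChar F ≠ 2) : ∃ K : ℝ, ∀ (x₁ x₂ : ℂ) (a : ℕ → ℂ) (J : ℝ)
    (Y g B l N : ℕ), Nd F x₁ x₂ → (∀ j, ‖a j‖ ≤ 2) → 0 < J → 1 ≤ N → 400 * N ≤ g →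
    400 * l * J ≤ g → 100 * B ≤ g →
    ‖∑ D ∈ sqF F (2 * g + 1), LD F g D x₁ * LD F g D x₂ * Vm J Y B l N a (pp (jac D)) -
      (Q F - 1) * (Q F : ℂ) ^ (2 * g) * M4 F g Y x₁ x₂ (Vm J Y B l N a)‖ ≤
      K * qp F (7 / 4) ^ g := by
  obtain ⟨K, hK⟩ := ts hF
  refine ⟨2 * |K| * qp F 12, fun x₁ x₂ a J Y g B l N h ha hJ hN h1 h2 h3 => ?_⟩
  obtain ⟨W, hW⟩ := M4_TS (F := F) g Y x₁ x₂
  have h9 := nine_TS hF
  have h9' : qp F (-2) ≤ 1 / 9 := by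
    rw [qp_neg, one_div]
    exact inv_anti₀ (by norm_num) h9
  have key : ∀ Φ : (ℕ → ℂ) → ℂ, ∑ i ∈ (sqF F (2 * g + 1)).disjSum (Xs F Y),
      Sum.elim (fun D => LD F g D x₁ * LD F g D x₂)
        (fun p => -((Q F - 1) * (Q F : ℂ) ^ (2 * g) * W p)) i *
        Φ (Sum.elim (fun D => pp (jac D)) (fun p => pp (xt Y p)) i) =
      ∑ D ∈ sqF F (2 * g + 1), LD F g D x₁ * LD F g D x₂ * Φ (pp (jac D)) -
        (Q F - 1) * (Q F : ℂ) ^ (2 * g) * M4 F g Y x₁ x₂ Φ := by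
    intro Φ
    rw [sum_disjSum, hW, mul_sum, sub_eq_add_neg (∑ D ∈ _, _), ← sum_neg_distrib]
    simp only [Sum.elim_inl, Sum.elim_inr]
    congr 1
    exact sum_congr rfl fun p _ => by ring
  have main := t1 ((sqF F (2 * g + 1)).disjSum (Xs F Y))
    (Sum.elim (fun D => LD F g D x₁ * LD F g D x₂)
      (fun p => -((Q F - 1) * (Q F : ℂ) ^ (2 * g) * W p)))
    (Sum.elim (fun D => pp (jac D)) (fun p => pp (xt Y p))) (J := J) (τ := qp F (-12))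
    (B₀ := K * qp F (3 / 2) ^ g) (Y := Y) (B := B) (l := l) (N := N) (n := ⌈2 * l * J⌉₊) hJ ha
    (qp_pos _) (by linarith [qp_mono (F := F) (show (-12 : ℝ) ≤ -2 by norm_num)]) hN
    (Nat.le_ceil _) (fun η hη => by
      rw [key fun π => Complex.exp (lf Y η π)]
      refine hK x₁ x₂ Y g η h fun j hj => (hη j).trans ?_
      have hj' : (1 : ℝ) ≤ j := by exact_mod_cast hj
      have e : (-12 : ℝ) * j = -2 * j + -10 * j := by ring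
      have b : qp F (-2 * j) ≤ qp F (-2) := qp_mono (by linarith)
      rw [qp_pow, e, qp_add, ← mul_assoc]
      exact mul_le_of_le_one_left (qp_pos _).le (by linarith))
  rw [key, qp_pow, qp_pow] at main
  have p1 := qp_pos (F := F) (-12 * ((2 * N + ⌈2 * l * J⌉₊ : ℕ) : ℝ))
  refine le_of_mul_le_mul_right (main.trans ?_) p1
  have b4 : (4 : ℝ) ^ B ≤ qp F (2 * B) := by
    rw [← qp_pow]
    exact pow_le_pow_left₀ (by norm_num) (by linarith) B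
  have hn : (⌈2 * l * J⌉₊ : ℝ) ≤ 2 * l * J + 1 := (Nat.ceil_lt_add_one (by positivity)).le
  have h1' : (400 : ℝ) * N ≤ g := by exact_mod_cast h1
  have h3' : (100 : ℝ) * B ≤ g := by exact_mod_cast h3
  have g0 : (0 : ℝ) ≤ g := Nat.cast_nonneg g
  have p2 := qp_pos (F := F) (3 / 2 * g)
  have p3 := qp_pos (F := F) (2 * B)
  have ex : qp F (2 * B + 3 / 2 * g) ≤
      qp F (12 + 7 / 4 * g + -12 * ((2 * N + ⌈2 * l * J⌉₊ : ℕ) : ℝ)) := by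
    refine qp_mono ?_
    push_cast
    linarith
  rw [qp_add, qp_add, qp_add] at ex
  rw [qp_pow]
  calc 2 * 4 ^ B * (K * qp F (3 / 2 * g)) ≤ 2 * 4 ^ B * (|K| * qp F (3 / 2 * g)) := by
        gcongr
        exact le_abs_self K
    _ ≤ 2 * qp F (2 * B) * (|K| * qp F (3 / 2 * g)) := by gcongr
    _ = 2 * |K| * (qp F (2 * B) * qp F (3 / 2 * g)) := by ring
    _ ≤ 2 * |K| * (qp F 12 * qp F (7 / 4 * g) *
        qp F (-12 * ((2 * N + ⌈2 * l * J⌉₊ : ℕ) : ℝ))) := by gcongr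
    _ = _ := by ring

end Pool.Agent.MP_dd7250_nt.LS
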