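import Mathlib
import Pool.Agent.MP_dd7250_nt.LS.EP
import Pool.Agent.MP_dd7250_nt.LS.EN
import Pool.Agent.MP_dd7250_nt.LS.TS
import Pool.Agent.MP_dd7250_nt.LS.P1

/- Ratios at small shifts: the estimate away from the poles. -/

set_option autoImplicit false
set_option maxHeartbeats 400000

namespace Pool.Agent.MP_dd7250_nt.LS

open Polynomial Finset Filter Topology Pool.Agent.MP_d232b3_nt Pool.Agent.MP_dd7250_nt
open scoped Classical

variable {F : Type} [Field F] [Fintype F]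

theorem Sh.neg1 {C c : ℝ} {α β γ δ : ℂ} (h : Sh C c α β γ δ) : Sh C c (-α) β γ δ :=
  ⟨h.hc, (norm_neg α).trans_le h.h1, h.h2, h.h3, h.h4, h.r3, h.r4⟩

theorem Sh.neg2 {C c : ℝ} {α β γ δ : ℂ} (h : Sh C c α β γ δ) : Sh C c α (-β) γ δ :=
  ⟨h.hc, h.h1, (norm_neg β).trans_le h.h2, h.h3, h.h4, h.r3, h.r4⟩

theorem Far.neg1 {e : ℝ} {α β : ℂ} (h : Far e α β) : Far e (-α) β :=
  ⟨h.h1.trans_eq (norm_neg α).symm, h.h2,
    h.h4.trans_eq (by rw [← norm_neg]; congr 1; ring),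
    h.h3.trans_eq (by rw [← norm_neg]; congr 1; ring)⟩

theorem Far.neg2 {e : ℝ} {α β : ℂ} (h : Far e α β) : Far e α (-β) :=
  ⟨h.h1, h.h2.trans_eq (norm_neg β).symm, h.h4.trans_eq (by rw [sub_eq_add_neg]),
    h.h3.trans_eq (by rw [sub_neg_eq_add])⟩

theorem xv_ne_one (hF : ringChar F ≠ 2) {α : ℂ} (h : lq F * ‖α‖ ≤ 1) (h0 : α ≠ 0) :
    xv F α ≠ 1 := fun h1 => by
  have h2 := le_xv_sub_one h
  have h3 := one_le_lq hF
  have h4 := norm_pos_iff.2 h0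
  rw [h1, sub_self, norm_zero] at h2
  have : 0 < lq F * ‖α‖ / 4 := by positivity
  linarith

theorem xv_sq_ne_one (hF : ringChar F ≠ 2) {α : ℂ} (h : lq F * ‖α‖ ≤ 1 / 2) (h0 : α ≠ 0) :
    xv F α ^ 2 ≠ 1 := by
  rw [_root_.sq, ← xv_add, ← two_mul]
  refine xv_ne_one hF ?_ (mul_ne_zero two_ne_zero h0)
  rw [norm_mul, Complex.norm_two]
  linarith

theorem nd_of (hF : ringChar F ≠ 2) {α β : ℂ} {e : ℝ} (he : 0 < e) (h : Far e α β)
    (h1 : lq F * ‖α‖ ≤ 1 / 64) (h2 : lq F * ‖β‖ ≤ 1 / 64) : Nd F (xv F α) (xv F β) := by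
  have hq := one_le_lq hF
  have a1 : ‖α‖ ≤ 1 / 64 := by nlinarith [norm_nonneg α]
  have a2 : ‖β‖ ≤ 1 / 64 := by nlinarith [norm_nonneg β]
  have a3 := mul_le_mul_of_nonneg_left (norm_add_le α β) (zero_le_one.trans hq)
  have a4 := mul_le_mul_of_nonneg_left (norm_sub_le α β) (zero_le_one.trans hq)
  refine ⟨?_, ?_, ?_, ?_, xv_sq_ne_one hF (by linarith) (norm_pos_iff.1 (he.trans_le h.h1)),
    xv_sq_ne_one hF (by linarith) (norm_pos_iff.1 (he.trans_le h.h2)), ?_, fun h5 => ?_⟩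
  · rw [norm_xv]; exact qp_mono (by linarith [Complex.re_le_norm α])
  · rw [norm_xv]; exact qp_mono (by linarith [neg_re_le α])
  · rw [norm_xv]; exact qp_mono (by linarith [Complex.re_le_norm β])
  · rw [norm_xv]; exact qp_mono (by linarith [neg_re_le β])
  · rw [← xv_add]
    exact xv_sq_ne_one hF (by linarith) (norm_pos_iff.1 (he.trans_le h.h3))
  · refine xv_sq_ne_one hF (α := α - β) (by linarith) (norm_pos_iff.1 (he.trans_le h.h4)) ?_
    rw [sub_eq_add_neg, xv_add, xv_neg, mul_pow, h5, ← mul_pow, mul_inv_cancel₀ (xv_ne β), one_pow]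

theorem norm_xv_sq (α : ℂ) (g : ℕ) : ‖(xv F α ^ 2) ^ g‖ = qp F (2 * g * (-α).re) := by
  rw [norm_pow, norm_pow, norm_xv, qp_pow, qp_pow, Complex.neg_re]
  congr 1
  push_cast
  ring

theorem norm_cnt {g : ℕ} (hg : 1 ≤ g) :
    ‖((Q F : ℂ) - 1) * (Q F : ℂ) ^ (2 * g)‖ = (sqF F (2 * g + 1)).card := by
  rw [← card_sqF hg, Complex.norm_natCast]

theorem le_cnt (hF : ringChar F ≠ 2) {g : ℕ} (hg : 1 ≤ g) :
    qp F (2 * g) ≤ (sqF F (2 * g + 1)).card := by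
  have h3 := three_le_Q hF
  have h : ((sqF F (2 * g + 1)).card : ℝ) = (Q F - 1) * (Q F : ℝ) ^ (2 * g) := by
    exact_mod_cast card_sqF (F := F) hg
  rw [h, ← qp_nat, Nat.cast_mul, Nat.cast_ofNat]
  exact le_mul_of_one_le_left (qp_pos _).le (by linarith)

/-- The four terms of the model against the prediction. -/
theorem m4_pred (hF : ringChar F ≠ 2) {C J₀ η : ℝ} (hC : 1 ≤ C) (hJ : 1 ≤ J₀) (hη : 0 < η) :
    ∃ K : ℝ, 0 ≤ K ∧ ∀ (c : ℝ) (α β γ δ : ℂ) (g B l N : ℕ), Sh C c α β γ δ →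
    C * (lq F * c) ≤ 1 / 32 → Far (η * c) α β → 0 ≤ α.re → 0 ≤ β.re →
    J₀ / (lq F * c) ≤ 4 ^ B → 1 ≤ l → 4 ≤ N * (lq F * c) → 8 * C * N ≤ g → ∀ᶠ Y in atTop,
    ‖M4 F g Y (xv F α) (xv F β) (Vm (J₀ / (lq F * c)) Y B l N (aa (xv F γ) (xv F δ))) -
      pred F g α β γ δ‖ ≤
      K * (1 / 2 ^ l + Real.exp (-(lq F * c * N / 4)) + Real.exp (-(lq F * c * g / 2))) := by
  obtain ⟨K, hK, h⟩ := eps hF hC hJ hη
  refine ⟨4 * K, by positivity, fun c α β γ δ g B l N hs hc hf ha hb hB hl hN hg => ?_⟩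
  have a0 : (1 : ℝ) ≤ qp F (2 * g * α.re) := qp_zero.ge.trans (qp_mono (by positivity))
  have b0 : (1 : ℝ) ≤ qp F (2 * g * β.re) := qp_zero.ge.trans (qp_mono (by positivity))
  have a1 : qp F (2 * g * (-α).re) ≤ 1 := qp_le_one (by
    rw [Complex.neg_re, mul_neg, neg_nonpos]; positivity)
  have b1 : qp F (2 * g * (-β).re) ≤ 1 := qp_le_one (by
    rw [Complex.neg_re, mul_neg, neg_nonpos]; positivity)
  have a2 := norm_xv_sq (F := F) α g
  have b2 := norm_xv_sq (F := F) β g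
  have c1 : ‖(xv F α ^ 2) ^ g * (xv F β ^ 2) ^ g‖ ≤ qp F (2 * g * (-α).re) := by
    rw [norm_mul, a2, b2]
    exact mul_le_of_le_one_right (qp_pos _).le b1
  have c2 : ‖(xv F α ^ 2) ^ g * (xv F β ^ 2) ^ g‖ ≤ qp F (2 * g * (-β).re) := by
    rw [norm_mul, a2, b2]
    exact mul_le_of_le_one_left (qp_pos _).le a1
  filter_upwards [
    h c α β γ δ 1 g B l N hs hc hf norm_one.le (norm_one.trans_le a0) (norm_one.trans_le b0)
      hB hl hN hg,
    h c α (-β) γ δ _ g B l N hs.neg2 hc hf.neg2 (b2.trans_le b1) (b2.trans_le (b1.trans a0)) b2.le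
      hB hl hN hg,
    h c (-α) β γ δ _ g B l N hs.neg1 hc hf.neg1 (a2.trans_le a1) a2.le (a2.trans_le (a1.trans b0))
      hB hl hN hg,
    h c (-α) (-β) γ δ _ g B l N hs.neg1.neg2 hc hf.neg1.neg2 (c1.trans a1) c1 c2 hB hl hN hg]
    with Y y1 y2 y3 y4
  rw [xv_neg] at y2 y3 y4
  rw [xv_neg] at y4
  refine le_trans (le_of_eq ?_)
    ((norm_add_le_of_le (norm_add_le_of_le y1 y2) (norm_add_le_of_le y3 y4)).trans_eq (by ring))
  congr 1
  rw [M4, pred]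
  ring

theorem av4_mul {g : ℕ} {θ : F[X] → Fin (2 * g) → ℝ}
    (h : ∀ D ∈ sqF F (2 * g + 1), ∀ x, LD F g D x = Lam (θ D) x) (α β γ δ : ℂ) :
    ((Q F : ℂ) - 1) * (Q F : ℂ) ^ (2 * g) * av4 F g α β γ δ =
    ∑ D ∈ sqF F (2 * g + 1), Lam (θ D) (xv F α) * Lam (θ D) (xv F β) /
      (Lam (θ D) (xv F γ) * Lam (θ D) (xv F δ)) := by
  rw [av4, mul_div_cancel₀]
  · exact sum_congr rfl fun D hD => by simp only [h D hD]
  refine mul_ne_zero (sub_ne_zero.2 ?_) (pow_ne_zero _ Q_ne)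
  exact_mod_cast (one_lt_Q (F := F)).ne'

theorem w_lim {n : ℕ} {θ : Fin n → ℝ} (h : Cj θ) {y₁ y₂ : ℂ} (h1 : ‖y₁‖ < 1) (h2 : ‖y₂‖ < 1)
    (A : ℂ) : Tendsto (fun Y => A * Complex.exp (lf Y (aa y₁ y₂) (ps θ))) atTop
      (𝓝 (A / (Lam θ y₁ * Lam θ y₂))) := by
  have h3 := ((z_lim h h1).2.mul (z_lim h h2).2).const_mul A
  rw [← mul_inv, ← div_eq_mul_inv] at h3
  refine h3.congr fun Y => ?_
  rw [← Complex.exp_add, ← lf_add]
  rfl

/-- The estimate with all parameters visible. -/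
theorem gp_par (hF : ringChar F ≠ 2) {C : ℝ} (hC : 1 ≤ C) : ∃ J₀ : ℝ, 1 ≤ J₀ ∧ ∃ l₀ : ℕ,
    ∀ η : ℝ, 0 < η → ∃ K : ℝ, 0 ≤ K ∧ ∀ (g : ℕ) (c : ℝ) (α β γ δ : ℂ) (B l N : ℕ), 1 ≤ g →
    Sh C c α β γ δ → C * (lq F * c) ≤ 1 / 64 → Far (η * c) α β → 0 ≤ α.re → 0 ≤ β.re →
    J₀ / (lq F * c) ≤ 4 ^ B → 100 * B ≤ g → l₀ + 1 ≤ l → 400 * J₀ * l ≤ lq F * c * g →
    lq F * c * g ≤ 800 * J₀ * l → 4 ≤ N * (lq F * c) → 800 * C * N ≤ g → g ≤ 1600 * C * N →
    ‖av4 F g α β γ δ - pred F g α β γ δ‖ ≤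
      2 * Real.exp (-l) + 10 * Real.exp (-(lq F * c * g) / (6400 * (2 * C))) +
      K * qp F (-(g / 4)) +
      K * (1 / 2 ^ l + Real.exp (-(lq F * c * N / 4)) + Real.exp (-(lq F * c * g / 2))) := by
  obtain ⟨J₀, hJ, l₀, hE⟩ := en (C := 2 * C) (by linarith)
  obtain ⟨K₁, h₁⟩ := tsv hF
  refine ⟨J₀, hJ, l₀, fun η hη => ?_⟩
  obtain ⟨K₂, hK₂, h₂⟩ := m4_pred hF hC hJ hη
  refine ⟨|K₁| + K₂, by positivity,
    fun g c α β γ δ B l N hg h hc hf ha hb hB hB2 hl hl1 hl2 hN hN1 hN2 => ?_⟩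
  have hq := one_le_lq hF
  have hc0 := h.hc
  have hs : 0 < lq F * c := by positivity
  have hN0 : (0 : ℝ) ≤ N := Nat.cast_nonneg N
  obtain ⟨θ, hθ, hz⟩ := exists_ens hF hg
  have hR := rg_of_sh (F := F) (σ := 0) h (by linarith) (neg_nonpos.2 (by positivity))
    (neg_nonpos.2 (by positivity))
  have y1 : ‖xv F γ‖ < 1 := hR.h3.trans_lt (Real.exp_lt_one_iff.2 (by linarith))
  have y2 : ‖xv F δ‖ < 1 := hR.h4.trans_lt (Real.exp_lt_one_iff.2 (by linarith))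
  have hnd := nd_of hF (by positivity) hf ((sh_small hF h.h1 (by linarith)).1.trans hc)
    ((sh_small hF h.h2 (by linarith)).1.trans hc)
  have haa : ∀ j, ‖aa (xv F γ) (xv F δ) j‖ ≤ 2 := fun j => by
    refine (norm_add_le _ _).trans ?_
    rw [norm_pow, norm_pow]
    linarith [pow_le_one₀ (n := j) (norm_nonneg _) y1.le, pow_le_one₀ (n := j) (norm_nonneg _) y2.le]
  have hlim := (tendsto_finsetSum (sqF F (2 * g + 1)) fun D hD =>
    w_lim (hθ.sym D hD) y1 y2 (Lam (θ D) (xv F α) * Lam (θ D) (xv F β))).sub_const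
      (((Q F : ℂ) - 1) * (Q F : ℂ) ^ (2 * g) * pred F g α β γ δ)
  rw [← av4_mul (fun D hD => (hz D hD).1), ← mul_sub] at hlim
  have hcnt := le_cnt hF hg
  have hc1 : (0 : ℝ) < (sqF F (2 * g + 1)).card := (qp_pos _).trans_le hcnt
  refine le_of_mul_le_mul_left ?_ hc1
  rw [← norm_cnt hg, ← norm_mul, norm_cnt hg]
  refine le_of_tendsto hlim.norm ?_
  filter_upwards [hE l (by omega) _ g _ θ _ _ _ _ _ B N hθ hR hB hl1 hl2 (by linarith),
    h₂ c α β γ δ g B l N h (by linarith) hf ha hb hB (by omega) hN (by nlinarith)] with Y k1 k3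
  have k2 := h₁ _ _ _ (J₀ / (lq F * c)) Y g B l N hnd haa (by positivity)
    (Nat.one_le_iff_ne_zero.2 fun h0 => by rw [h0] at hN; norm_num at hN)
    (by exact_mod_cast (show (400 : ℝ) * N ≤ g by nlinarith))
    (by rw [← mul_div_assoc, div_le_iff₀ hs]; linarith) hB2
  rw [sum_congr rfl (g := fun D => Lam (θ D) (xv F α) * Lam (θ D) (xv F β) *
    Vm (J₀ / (lq F * c)) Y B l N (aa (xv F γ) (xv F δ)) (ps (θ D))) fun D hD => by
    rw [(hz D hD).1 (xv F α), (hz D hD).1 (xv F β), Vm_congr _ _ _ _ _ _ (hz D hD).2]] at k2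
  have k4 := mul_le_mul_of_nonneg_left k3 hc1.le
  rw [← norm_cnt hg, ← norm_mul, norm_cnt hg] at k4
  have k5 : K₁ * qp F (7 / 4) ^ g ≤ (sqF F (2 * g + 1)).card * (|K₁| * qp F (-(g / 4))) := by
    refine (mul_le_mul_of_nonneg_right (le_abs_self _) (pow_pos (qp_pos _) _).le).trans ?_
    rw [qp_pow, show 7 / 4 * (g : ℝ) = 2 * g + -(g / 4) by ring, qp_add, mul_left_comm]
    exact mul_le_mul_of_nonneg_right hcnt (mul_nonneg (abs_nonneg _) (qp_pos _).le)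
  refine le_trans (le_of_eq ?_)
    ((norm_add_le_of_le (norm_add_le_of_le k1 (k2.trans k5)) k4).trans ?_)
  · congr 1
    simp only [mul_sub, sum_sub_distrib]
    ring
  · rw [← mul_add, ← mul_add]
    refine mul_le_mul_of_nonneg_left (add_le_add (add_le_add le_rfl ?_) ?_) hc1.le
    · exact mul_le_mul_of_nonneg_right (le_add_of_nonneg_right hK₂) (qp_pos _).le
    · exact mul_le_mul_of_nonneg_right (le_add_of_nonneg_left (abs_nonneg _)) (by positivity)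

/-- The trivial bound. -/
theorem gp_small (hF : ringChar F ≠ 2) {C η : ℝ} (hC : 1 ≤ C) (hη : 0 < η) (T : ℝ) :
    ∃ K : ℝ, 0 ≤ K ∧ ∀ (g : ℕ) (c : ℝ) (α β γ δ : ℂ), 1 ≤ g →
    Sh C c α β γ δ → C * (lq F * c) ≤ 1 / 64 → Far (η * c) α β → 0 ≤ α.re → 0 ≤ β.re →
    lq F * c * g ≤ T → ‖av4 F g α β γ δ - pred F g α β γ δ‖ ≤ K := by
  obtain ⟨L, hL, h₁⟩ := en0 (C := 2 * C) (by linarith)
  obtain ⟨K, hK, h₂⟩ := GG_bound hF hC hη
  refine ⟨1 + Real.exp (L * (1 + T)) + (K + K + (K + K)), by positivity,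
    fun g c α β γ δ hg h hc hf ha hb hT => norm_sub_le_of_le ?_ ?_⟩
  · have hq := one_le_lq hF
    have hc0 := h.hc
    obtain ⟨θ, hθ, hz⟩ := exists_ens hF hg
    have hR := rg_of_sh (F := F) (σ := 0) h (by linarith) (neg_nonpos.2 (by positivity))
      (neg_nonpos.2 (by positivity))
    have hc1 : (0 : ℝ) < (sqF F (2 * g + 1)).card := (qp_pos _).trans_le (le_cnt hF hg)
    refine le_of_mul_le_mul_left ?_ hc1
    rw [← norm_cnt hg, ← norm_mul, norm_cnt hg, av4_mul fun D hD => (hz D hD).1, mul_add]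
    refine (norm_sum_le _ _).trans (le_trans ?_ (add_le_add le_rfl ((h₁ _ g _ θ _ _ 0 0 _ _ _ _ hθ
      hR).trans (mul_le_mul_of_nonneg_left (Real.exp_le_exp.2 (by gcongr)) hc1.le))))
    rw [← nsmul_eq_mul, ← sum_const, ← sum_add_distrib]
    refine sum_le_sum fun D _ => ?_
    have h1 : (1 : ℝ) ≤ Real.exp (NN (lq F * c) 0 (θ D) + NN (lq F * c) 0 (θ D) + 1) :=
      Real.one_le_exp (by linarith [NN_nonneg (lq F * c) 0 (θ D)])
    refine (le_mul_of_one_le_right (norm_nonneg _) h1).trans ?_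
    generalize _ * Real.exp _ = t
    nlinarith [sq_nonneg (t ^ 2 - 1), sq_nonneg (t - 1), sq_nonneg t]
  · have a1 : ‖(xv F α ^ 2) ^ g‖ ≤ 1 := (norm_xv_sq α g).trans_le (qp_le_one (by
      rw [Complex.neg_re, mul_neg, neg_nonpos]; positivity))
    have b1 : ‖(xv F β ^ 2) ^ g‖ ≤ 1 := (norm_xv_sq β g).trans_le (qp_le_one (by
      rw [Complex.neg_re, mul_neg, neg_nonpos]; positivity))
    have e : ∀ {P z : ℂ}, ‖P‖ ≤ 1 → ‖z‖ ≤ K → ‖P * z‖ ≤ K := fun h1 h2 =>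
      (norm_mul _ _).trans_le ((mul_le_of_le_one_left (norm_nonneg _) h1).trans h2)
    have hc' : C * (lq F * c) ≤ 1 / 32 := by linarith
    exact norm_add_le_of_le (norm_add_le_of_le (h₂ _ _ _ _ _ h hc' hf)
      (e b1 (h₂ _ _ _ _ _ h.neg2 hc' hf.neg2))) (norm_add_le_of_le
      (e a1 (h₂ _ _ _ _ _ h.neg1 hc' hf.neg1))
      (e ((norm_mul _ _).trans_le (mul_le_one₀ a1 (norm_nonneg _) b1))
        (h₂ _ _ _ _ _ h.neg1.neg2 hc' hf.neg1.neg2)))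

theorem floor_half {x : ℝ} (h : 1 ≤ x) : x ≤ 2 * ⌊x⌋₊ := by
  have h1 := Nat.lt_floor_add_one x
  have h2 : (1 : ℝ) ≤ ⌊x⌋₊ := by exact_mod_cast Nat.floor_pos.2 h
  linarith

theorem half_pow_le (l : ℕ) : (1 : ℝ) / 2 ^ l ≤ Real.exp (-(l / 2)) := by
  rw [Real.exp_neg, one_div, div_eq_inv_mul, Real.exp_mul, Real.rpow_natCast]
  refine inv_anti₀ (by positivity) (pow_le_pow_left₀ (Real.exp_pos _).le ?_ l)
  have h := Real.add_one_le_exp (-2⁻¹ : ℝ)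
  rw [Real.exp_neg, le_inv_comm₀ (by norm_num) (Real.exp_pos _)] at h
  exact h.trans (by norm_num)

theorem gp_pos (hF : ringChar F ≠ 2) {C : ℝ} (hC : 1 ≤ C) : ∃ κ c₀ : ℝ, 0 < κ ∧ 0 < c₀ ∧
    ∀ η : ℝ, 0 < η → ∃ K : ℝ, 0 ≤ K ∧ ∀ (g : ℕ) (c : ℝ) (α β γ δ : ℂ), 1 ≤ g →
    Sh C c α β γ δ → c ≤ c₀ → Far (η * c) α β → 0 ≤ α.re → 0 ≤ β.re →
    ‖av4 F g α β γ δ - pred F g α β γ δ‖ ≤ K * qp F (-(κ * c * g)) := by
  obtain ⟨J₀, hJ, l₀, h₁⟩ := gp_par hF hC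
  have hq := one_le_lq hF
  have hCJ : 1 ≤ C * J₀ := one_le_mul_of_one_le_of_one_le hC hJ
  obtain ⟨κ, hκ, κ1, κ2⟩ : ∃ κ : ℝ, 0 < κ ∧ κ ≤ 1 / (1600 * J₀) ∧ κ ≤ 1 / (12800 * C) :=
    ⟨min _ _, lt_min (by positivity) (by positivity), min_le_left _ _, min_le_right _ _⟩
  refine ⟨κ, 1 / (64 * C * lq F), hκ, by positivity, fun η hη => ?_⟩
  obtain ⟨K₁, hK₁, h₁⟩ := h₁ η hη
  obtain ⟨K₂, hK₂, h₂⟩ := gp_small hF hC hη (400 * J₀ * (l₀ + 1) + 6400 * C)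
  refine ⟨12 + 4 * K₁ + K₂ * Real.exp (κ * (400 * J₀ * (l₀ + 1) + 6400 * C)), by positivity,
    fun g c α β γ δ hg h hc hf ha hb => ?_⟩
  have hc0 := h.hc
  have hs : 0 < lq F * c := by positivity
  have hc1 : C * (lq F * c) ≤ 1 / 64 := by
    rw [le_div_iff₀ (by positivity)] at hc
    linarith
  have hs1 : lq F * c ≤ 1 / 64 := (le_mul_of_one_le_left hs.le hC).trans hc1
  have hg0 : (0 : ℝ) ≤ g := Nat.cast_nonneg g
  have hl0 : (0 : ℝ) ≤ l₀ := Nat.cast_nonneg l₀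
  rw [qp_eq Fintype.card_pos, show lq F * -(κ * c * g) = -(κ * (lq F * c * g)) by ring]
  have hE := Real.exp_pos (-(κ * (lq F * c * g)))
  rcases le_total (lq F * c * g) (400 * J₀ * (l₀ + 1) + 6400 * C) with hT | hT
  · refine (h₂ g c α β γ δ hg h hc1 hf ha hb hT).trans ?_
    rw [add_mul, mul_assoc K₂, ← Real.exp_add]
    refine le_add_of_nonneg_of_le (by positivity) (le_mul_of_one_le_right hK₂ (Real.one_le_exp ?_))
    linarith [mul_le_mul_of_nonneg_left hT hκ.le]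
  have hJl : 0 ≤ J₀ * l₀ := by positivity
  have hlam : lq F * c * g ≤ g := mul_le_of_le_one_left hg0 (by linarith)
  have p1 : (l₀ : ℝ) + 1 ≤ lq F * c * g / (400 * J₀) := by
    rw [le_div_iff₀ (by positivity)]
    linarith
  have p2 := floor_half (le_trans (by linarith) p1)
  have p3 := Nat.floor_le (le_trans (by linarith) p1 : (0 : ℝ) ≤ _)
  have p4 : (1 : ℝ) ≤ g / (800 * C) := by
    rw [le_div_iff₀ (by positivity)]
    linarith
  have p5 := floor_half p4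
  have p6 := Nat.floor_le (zero_le_one.trans p4)
  have p7 : l₀ + 1 ≤ ⌊lq F * c * g / (400 * J₀)⌋₊ := Nat.le_floor (by exact_mod_cast p1)
  generalize ⌊lq F * c * g / (400 * J₀)⌋₊ = l at p2 p3 p7
  generalize ⌊(g : ℝ) / (800 * C)⌋₊ = N at p5 p6
  rw [div_le_iff₀ (by positivity)] at p2 p5
  rw [le_div_iff₀ (by positivity)] at p3 p6
  have p8 : lq F * c * g ≤ 1600 * C * (N * (lq F * c)) := by
    linarith [mul_le_mul_of_nonneg_left p5 hs.le]
  have p9 : (1 : ℝ) ≤ J₀ / (lq F * c) := by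
    rw [le_div_iff₀ hs]
    linarith
  have p10 : 200 * (J₀ / (lq F * c)) ≤ g := by
    rw [← mul_div_assoc, div_le_iff₀ hs]
    linarith
  have k := h₁ g c α β γ δ ⌈J₀ / (lq F * c)⌉₊ l N hg h hc1 hf ha hb
    ((Nat.le_ceil _).trans (by exact_mod_cast (Nat.lt_pow_self (by norm_num)).le))
    (by
      have := Nat.ceil_lt_add_one (zero_le_one.trans p9)
      exact_mod_cast (show (100 : ℝ) * ⌈J₀ / (lq F * c)⌉₊ ≤ g by linarith))
    p7 (by linarith) (by linarith)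
    (le_of_mul_le_mul_left (a := 1600 * C) (by linarith) (by positivity)) (by linarith)
    (by linarith)
  have hl1 : κ * (lq F * c * g) ≤ l / 2 := by
    refine (mul_le_mul_of_nonneg_right κ1 (by positivity)).trans ?_
    rw [one_div_mul_eq_div, div_le_iff₀ (by positivity)]
    linarith
  have hl2 : κ * (lq F * c * g) ≤ lq F * c * g / (12800 * C) :=
    (mul_le_mul_of_nonneg_right κ2 (by positivity)).trans_eq (one_div_mul_eq_div _ _)
  have hl3 : lq F * c * g / (12800 * C) ≤ lq F * c * g / 4 :=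
    div_le_div_of_nonneg_left (by positivity) (by norm_num) (by linarith)
  have hl4 : lq F * c * g / (12800 * C) ≤ lq F * c * N / 4 := by
    rw [div_le_iff₀ (by positivity)]
    have : 0 ≤ C * (N * (lq F * c)) := by positivity
    linarith
  have q1 : Real.exp (-l) ≤ Real.exp (-(κ * (lq F * c * g))) :=
    Real.exp_le_exp.2 (by linarith [(Nat.cast_nonneg l : (0 : ℝ) ≤ l)])
  have q2 : Real.exp (-(lq F * c * g) / (6400 * (2 * C))) ≤ Real.exp (-(κ * (lq F * c * g))) :=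
    Real.exp_le_exp.2 (by rw [neg_div, show 6400 * (2 * C) = 12800 * C by ring]; linarith)
  have q3 : qp F (-(g / 4)) ≤ Real.exp (-(κ * (lq F * c * g))) := by
    rw [qp_eq Fintype.card_pos]
    exact Real.exp_le_exp.2 (by linarith [mul_le_mul_of_nonneg_right hq hg0])
  have q4 := (half_pow_le l).trans (Real.exp_le_exp.2 (neg_le_neg hl1))
  have q5 := Real.exp_le_exp.2 (neg_le_neg (hl2.trans hl4))
  have q6 : Real.exp (-(lq F * c * g / 2)) ≤ Real.exp (-(κ * (lq F * c * g))) :=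
    Real.exp_le_exp.2 (by linarith [mul_nonneg hs.le hg0])
  have q7 := mul_le_mul_of_nonneg_left q3 hK₁
  have q8 := mul_le_mul_of_nonneg_left (add_le_add (add_le_add q4 q5) q6) hK₁
  have q9 : 0 ≤ K₂ * Real.exp (κ * (400 * J₀ * (l₀ + 1) + 6400 * C)) *
    Real.exp (-(κ * (lq F * c * g))) := by positivity
  linarith

end Pool.Agent.MP_dd7250_nt.LS
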