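import Mathlib
import Pool.Agent.MP_dd7250_nt.LS.GP
import Pool.Agent.MP_dd7250_nt.LS.MP

/- Ratios at small shifts: the estimate up to the poles. -/

set_option autoImplicit false
set_option maxHeartbeats 400000

namespace Pool.Agent.MP_dd7250_nt.LS

open Polynomial Finset Filter Topology Pool.Agent.MP_d232b3_nt Pool.Agent.MP_dd7250_nt
open scoped Classical

variable {F : Type} [Field F] [Fintype F]

theorem LD_symm (hF : ringChar F ≠ 2) {D : F[X]} {g : ℕ} (hD : D ∈ sqF F (2 * g + 1)) (α : ℂ) :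
    LD F g D (xv F α) = (xv F α ^ 2) ^ g * LD F g D (xv F (-α)) := by
  rw [LD, LD, ← uu_eq, ← uu_eq, Lt_symm hF hD (asm_ne (norm_uu α)), uu_neg, _root_.sq, br_Q_mul,
    _root_.sq, ← xv_add, xv]

theorem sub_neg1 (hF : ringChar F ≠ 2) (g : ℕ) (α β γ δ : ℂ) :
    av4 F g α β γ δ - pred F g α β γ δ =
      (xv F α ^ 2) ^ g * (av4 F g (-α) β γ δ - pred F g (-α) β γ δ) := by
  have h := xv_ne (F := F) α
  rw [mul_sub, av4, av4, ← mul_div_assoc, mul_sum, pred, pred, neg_neg, xv_neg α]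
  congr 1
  · congr 1
    exact sum_congr rfl fun D hD => by rw [LD_symm hF hD α, xv_neg α]; ring
  · rw [inv_pow, inv_pow]
    field_simp
    ring

theorem sub_neg2 (hF : ringChar F ≠ 2) (g : ℕ) (α β γ δ : ℂ) :
    av4 F g α β γ δ - pred F g α β γ δ =
      (xv F β ^ 2) ^ g * (av4 F g α (-β) γ δ - pred F g α (-β) γ δ) := by
  have h := xv_ne (F := F) β
  rw [mul_sub, av4, av4, ← mul_div_assoc, mul_sum, pred, pred, neg_neg, xv_neg β]
  congr 1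
  · congr 1
    exact sum_congr rfl fun D hD => by rw [LD_symm hF hD β, xv_neg β]; ring
  · rw [inv_pow, inv_pow]
    field_simp
    ring

theorem gp_all (hF : ringChar F ≠ 2) {C : ℝ} (hC : 1 ≤ C) : ∃ κ c₀ : ℝ, 0 < κ ∧ 0 < c₀ ∧
    ∀ η : ℝ, 0 < η → ∃ K : ℝ, 0 ≤ K ∧ ∀ (g : ℕ) (c : ℝ) (α β γ δ : ℂ), 1 ≤ g →
    Sh C c α β γ δ → c ≤ c₀ → Far (η * c) α β →
    ‖av4 F g α β γ δ - pred F g α β γ δ‖ ≤
      K * qp F ((-(κ * c) + 2 * max 0 (-α.re) + 2 * max 0 (-β.re)) * g) := by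
  obtain ⟨κ, c₀, hκ, hc₀, h⟩ := gp_pos hF hC
  refine ⟨κ, c₀, hκ, hc₀, fun η hη => ?_⟩
  obtain ⟨K, hK, h⟩ := h η hη
  have h1 : ∀ (g : ℕ) (c : ℝ) (α β γ δ : ℂ), 1 ≤ g → Sh C c α β γ δ → c ≤ c₀ → Far (η * c) α β →
      0 ≤ β.re → ‖av4 F g α β γ δ - pred F g α β γ δ‖ ≤
        K * qp F ((-(κ * c) + 2 * max 0 (-α.re)) * g) := by
    intro g c α β γ δ hg hs hc hf hb
    rcases le_total 0 α.re with ha | ha
    · rw [max_eq_left (by linarith), mul_zero, add_zero, neg_mul]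
      exact h g c α β γ δ hg hs hc hf ha hb
    · rw [max_eq_right (by linarith), sub_neg1 hF, norm_mul, norm_xv_sq]
      refine (mul_le_mul_of_nonneg_left (h g c _ β γ δ hg hs.neg1 hc hf.neg1 (by simpa using ha) hb)
        (qp_pos _).le).trans_eq ?_
      rw [mul_left_comm, ← qp_add, Complex.neg_re]
      congr 2
      ring
  refine ⟨K, hK, fun g c α β γ δ hg hs hc hf => ?_⟩
  rcases le_total 0 β.re with hb | hb
  · rw [max_eq_left (show -β.re ≤ 0 by linarith), mul_zero, add_zero]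
    exact h1 g c α β γ δ hg hs hc hf hb
  · rw [max_eq_right (show 0 ≤ -β.re by linarith), sub_neg2 hF, norm_mul, norm_xv_sq]
    refine (mul_le_mul_of_nonneg_left (h1 g c _ _ γ δ hg hs.neg2 hc hf.neg2 (by simpa using hb))
      (qp_pos _).le).trans_eq ?_
    rw [mul_left_comm, ← qp_add, Complex.neg_re]
    congr 2
    ring

variable (F)

/-- The main term without its poles. -/
noncomputable def HH (α β γ δ : ℂ) : ℂ := AA4 F α β γ δ *
  ((1 - xv F α * xv F γ) * (1 - xv F α * xv F δ) * (1 - xv F β * xv F γ) *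
    (1 - xv F β * xv F δ)) / (1 - xv F γ * xv F δ)

/-- The common denominator of the four terms. -/
noncomputable def WW (α β : ℂ) : ℂ :=
  (1 - xv F α ^ 2) * (1 - xv F β ^ 2) * (1 - xv F α * xv F β) * (xv F β - xv F α)

/-- The numerator of the prediction. -/
noncomputable def NW (g : ℕ) (α β γ δ : ℂ) : ℂ :=
  (xv F β - xv F α) * HH F α β γ δ +
    (xv F β ^ 2) ^ g * (-(xv F β ^ 3 * (1 - xv F α * xv F β)) * HH F α (-β) γ δ) +
    ((xv F α ^ 2) ^ g * (xv F α ^ 3 * (1 - xv F α * xv F β) * HH F (-α) β γ δ) +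
      (xv F α ^ 2) ^ g * (xv F β ^ 2) ^ g *
        (-(xv F α ^ 3 * xv F β ^ 3 * (xv F β - xv F α)) * HH F (-α) (-β) γ δ))

variable {F}

theorem HH_comm (α β γ δ : ℂ) : HH F α β γ δ = HH F β α γ δ := by
  rw [HH, HH, AA4_comm]
  ring

theorem pred_eq {g : ℕ} {α β : ℂ} (h : WW F α β ≠ 0) (γ δ : ℂ) :
    (WW F α β * av4 F g α β γ δ - NW F g α β γ δ) / WW F α β =
      av4 F g α β γ δ - pred F g α β γ δ := by
  have e : ∀ (d m H : ℂ), d * m = WW F α β → H / d = m * H / WW F α β := fun d m H h1 => by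
    rw [← h1] at h ⊢
    rw [mul_comm d, mul_div_mul_left _ _ (right_ne_zero_of_mul h)]
  have h1 := xv_ne (F := F) α
  have h2 := xv_ne (F := F) β
  rw [sub_div, mul_div_cancel_left₀ _ h, pred, GG_x, GG_x, GG_x, GG_x,
    e (den (xv F α) (xv F β)) (xv F β - xv F α) _ rfl,
    e (den (xv F α) (xv F (-β))) (-(xv F β ^ 3 * (1 - xv F α * xv F β))) _ (by
      rw [xv_neg, den, WW]; field_simp; ring),
    e (den (xv F (-α)) (xv F β)) (xv F α ^ 3 * (1 - xv F α * xv F β)) _ (by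
      rw [xv_neg, den, WW]; field_simp; ring),
    e (den (xv F (-α)) (xv F (-β))) (-(xv F α ^ 3 * xv F β ^ 3 * (xv F β - xv F α))) _ (by
      rw [xv_neg, xv_neg, den, WW]; field_simp; ring), NW, HH, HH, HH, HH]
  ring

omit [Field F] in
theorem xv_zero : xv F 0 = 1 := by rw [xv, neg_zero, Complex.cpow_zero]

theorem WW_ne (hF : ringChar F ≠ 2) {α β : ℂ} (h1 : lq F * ‖α‖ ≤ 1 / 2) (h2 : lq F * ‖β‖ ≤ 1 / 2)
    (a : α ≠ 0) (b : β ≠ 0) (c : α + β ≠ 0) (d : α - β ≠ 0) : WW F α β ≠ 0 := by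
  have hq := zero_le_one.trans (one_le_lq hF)
  have a3 := mul_le_mul_of_nonneg_left (norm_add_le α β) hq
  have a4 := mul_le_mul_of_nonneg_left (norm_sub_le α β) hq
  refine mul_ne_zero (mul_ne_zero (mul_ne_zero (sub_ne_zero.2 (xv_sq_ne_one hF h1 a).symm)
    (sub_ne_zero.2 (xv_sq_ne_one hF h2 b).symm)) (sub_ne_zero.2 ?_)) (sub_ne_zero.2 fun h => ?_)
  · rw [← xv_add]
    exact (xv_ne_one hF (by linarith) c).symm
  · refine xv_ne_one hF (by linarith) d ?_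
    rw [sub_eq_add_neg, xv_add, xv_neg, h, mul_inv_cancel₀ (xv_ne α)]

theorem xv_deriv (α a z : ℂ) :
    HasDerivAt (fun ζ => xv F (α + a * ζ)) (xv F (α + a * z) * -(lq F * a)) z := by
  simp only [xv_eq]
  have h := ((((hasDerivAt_id z).const_mul a).const_add α).const_mul (lq F : ℂ)).neg.cexp
  rw [mul_one] at h
  exact h

theorem WW_deriv (α β τ z : ℂ) : deriv (fun ζ => WW F (α + 1 * ζ) (β + τ * ζ)) z = lq F *
    (2 * xv F (α + 1 * z) ^ 2 * (1 - xv F (β + τ * z) ^ 2) *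
      (1 - xv F (α + 1 * z) * xv F (β + τ * z)) * (xv F (β + τ * z) - xv F (α + 1 * z)) +
    2 * τ * xv F (β + τ * z) ^ 2 * (1 - xv F (α + 1 * z) ^ 2) *
      (1 - xv F (α + 1 * z) * xv F (β + τ * z)) * (xv F (β + τ * z) - xv F (α + 1 * z)) +
    (1 + τ) * (xv F (α + 1 * z) * xv F (β + τ * z)) * (1 - xv F (α + 1 * z) ^ 2) *
      (1 - xv F (β + τ * z) ^ 2) * (xv F (β + τ * z) - xv F (α + 1 * z)) +
    (xv F (α + 1 * z) - τ * xv F (β + τ * z)) * (1 - xv F (α + 1 * z) ^ 2) *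
      (1 - xv F (β + τ * z) ^ 2) * (1 - xv F (α + 1 * z) * xv F (β + τ * z))) := by
  have h1 := xv_deriv (F := F) α 1 z
  have h2 := xv_deriv (F := F) β τ z
  refine (((((h1.fun_pow 2).const_sub 1).fun_mul ((h2.fun_pow 2).const_sub 1)).fun_mul
    ((h1.fun_mul h2).const_sub 1)).fun_mul (h2.fun_sub h1)).deriv.trans ?_
  push_cast
  ring

theorem WW_zero (hF : ringChar F ≠ 2) {a b τ : ℂ} (h1 : lq F * ‖a‖ ≤ 1 / 2)
    (h2 : lq F * ‖b‖ ≤ 1 / 2) (h : ¬ (a = 0 ∧ b = 0)) (t0 : τ ≠ 0) (t1 : 1 + τ ≠ 0)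
    (t2 : 1 - τ ≠ 0) (hW : WW F a b = 0) (g : ℕ) (γ δ : ℂ) : NW F g a b γ δ = 0 ∧
    2 * xv F a ^ 2 * (1 - xv F b ^ 2) * (1 - xv F a * xv F b) * (xv F b - xv F a) +
    2 * τ * xv F b ^ 2 * (1 - xv F a ^ 2) * (1 - xv F a * xv F b) * (xv F b - xv F a) +
    (1 + τ) * (xv F a * xv F b) * (1 - xv F a ^ 2) * (1 - xv F b ^ 2) * (xv F b - xv F a) +
    (xv F a - τ * xv F b) * (1 - xv F a ^ 2) * (1 - xv F b ^ 2) * (1 - xv F a * xv F b) ≠ 0 := by
  have e : ∀ {x : ℂ}, x ^ 2 ≠ 1 → 1 - x ≠ 0 := fun h3 h4 => h3 (by rw [← sub_eq_zero.1 h4, one_pow])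
  by_cases ha : a = 0
  · have h3 := xv_sq_ne_one hF h2 fun hb => h ⟨ha, hb⟩
    rw [ha, NW, neg_zero, xv_zero]
    refine ⟨by ring, ?_⟩
    refine ne_of_eq_of_ne (b := -2 * (1 - xv F b ^ 2) * (1 - xv F b) ^ 2) (by ring) ?_
    exact mul_ne_zero (mul_ne_zero (by norm_num) (sub_ne_zero.2 h3.symm)) (pow_ne_zero _ (e h3))
  have h3 := xv_sq_ne_one hF h1 ha
  by_cases hb : b = 0
  · rw [hb, NW, neg_zero, xv_zero]
    refine ⟨by ring, ?_⟩
    refine ne_of_eq_of_ne (b := 2 * τ * (1 - xv F a ^ 2) * (1 - xv F a) ^ 2) (by ring) ?_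
    exact mul_ne_zero (mul_ne_zero (mul_ne_zero two_ne_zero t0) (sub_ne_zero.2 h3.symm))
      (pow_ne_zero _ (e h3))
  have h4 := xv_sq_ne_one hF h2 hb
  by_cases hc : a + b = 0
  · have h5 : xv F a * xv F b = 1 := by rw [← xv_add, hc, xv_zero]
    have h6 : xv F b - xv F a ≠ 0 := fun h7 => h3 (by rw [← h5, sub_eq_zero.1 h7, _root_.sq])
    constructor
    · rw [NW, ← mul_pow, ← mul_pow, ← mul_pow, h5, neg_eq_of_add_eq_zero_right hc,
        neg_eq_of_add_eq_zero_left hc, HH_comm b a]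
      ring
    · rw [h5]
      refine ne_of_eq_of_ne (b := (1 + τ) * (1 - xv F a ^ 2) * (1 - xv F b ^ 2) *
        (xv F b - xv F a)) (by ring) ?_
      exact mul_ne_zero (mul_ne_zero (mul_ne_zero t1 (sub_ne_zero.2 h3.symm))
        (sub_ne_zero.2 h4.symm)) h6
  · obtain rfl : a = b := by
      by_contra hd
      exact WW_ne hF h1 h2 ha hb hc (sub_ne_zero.2 hd) hW
    constructor
    · rw [NW, HH_comm (-a) a]
      ring
    · refine ne_of_eq_of_ne (b := (1 - τ) * xv F a * (1 - xv F a ^ 2) ^ 3) (by ring) ?_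
      exact mul_ne_zero (mul_ne_zero t2 (xv_ne a)) (pow_ne_zero _ (sub_ne_zero.2 h3.symm))

theorem xv_diff : Differentiable ℂ (xv F) := fun z => by
  simpa using (xv_deriv (F := F) 0 1 z).differentiableAt

theorem HH_diff (hF : ringChar F ≠ 2) {α β a b γ δ : ℂ} {R : ℝ} {u v : ℂ → ℂ}
    (h1 : ‖α‖ + ‖a‖ * R ≤ 1 / 32) (h2 : ‖β‖ + ‖b‖ * R ≤ 1 / 32) (h3 : ‖γ‖ ≤ 1 / 32)
    (h4 : ‖δ‖ ≤ 1 / 32) (hu : ∀ ζ, u ζ = α + a * ζ) (hv : ∀ ζ, v ζ = β + b * ζ) :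
    DifferentiableOn ℂ (fun ζ => HH F (u ζ) (v ζ) γ δ) (Metric.ball 0 R) := by
  have h5 := AA4_diff hF h1 h2 h3 h4
  have h6 := xv_diff (F := F)
  simp only [HH, hu, hv]
  fun_prop

theorem num_diff (hF : ringChar F ≠ 2) (g : ℕ) {α β a b γ δ : ℂ} {R : ℝ}
    (h1 : ‖α‖ + ‖a‖ * R ≤ 1 / 32) (h2 : ‖β‖ + ‖b‖ * R ≤ 1 / 32) (h3 : ‖γ‖ ≤ 1 / 32)
    (h4 : ‖δ‖ ≤ 1 / 32) : DifferentiableOn ℂ (fun ζ => WW F (α + a * ζ) (β + b * ζ) *
      av4 F g (α + a * ζ) (β + b * ζ) γ δ - NW F g (α + a * ζ) (β + b * ζ) γ δ)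
      (Metric.ball 0 R) := by
  have g1 : ‖-α‖ + ‖-a‖ * R ≤ 1 / 32 := by rwa [norm_neg, norm_neg]
  have g2 : ‖-β‖ + ‖-b‖ * R ≤ 1 / 32 := by rwa [norm_neg, norm_neg]
  have k1 := HH_diff hF h1 h2 h3 h4 (fun _ => rfl) fun _ => rfl
  have k2 := HH_diff hF h1 g2 h3 h4 (v := fun ζ => -(β + b * ζ)) (fun _ => rfl) fun _ => by ring
  have k3 := HH_diff hF g1 h2 h3 h4 (u := fun ζ => -(α + a * ζ)) (fun _ => by ring) fun _ => rfl
  have k4 := HH_diff hF g1 g2 h3 h4 (u := fun ζ => -(α + a * ζ)) (v := fun ζ => -(β + b * ζ))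
    (fun _ => by ring) fun _ => by ring
  have h6 := xv_diff (F := F)
  have h7 : ∀ D : F[X], Differentiable ℂ (LD F g D) := fun D => by
    unfold LD Lt
    fun_prop
  unfold WW NW av4
  fun_prop

theorem fin_main (hF : ringChar F ≠ 2) {C : ℝ} (hC : 1 ≤ C) : ∃ K κ c₀ : ℝ, 0 < κ ∧ 0 < c₀ ∧
    ∀ (g : ℕ) (c : ℝ) (α β γ δ : ℂ), 1 ≤ g → Sh C c α β γ δ → c ≤ c₀ → α ≠ 0 → β ≠ 0 →
    α + β ≠ 0 → α - β ≠ 0 → ‖av4 F g α β γ δ - pred F g α β γ δ‖ ≤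
      K * qp F ((-(κ * c) + 2 * max 0 (-α.re) + 2 * max 0 (-β.re)) * g) := by
  obtain ⟨κ, c₀, hκ, hc₀, h⟩ := gp_all hF (C := 2 * C) (by linarith)
  obtain ⟨η, hη, η1, η2⟩ : ∃ η : ℝ, 0 < η ∧ η ≤ κ / 160 ∧ η ≤ 1 / 33 :=
    ⟨min _ _, lt_min (by positivity) (by positivity), min_le_left _ _, min_le_right _ _⟩
  obtain ⟨K, hK, h⟩ := h η hη
  have hq := one_le_lq hF
  refine ⟨K, κ / 2, min c₀ (1 / (64 * C * lq F)), by positivity, lt_min hc₀ (by positivity),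
    fun g c α β γ δ hg hs hc ha hb hab hab' => ?_⟩
  have hc0 := hs.hc
  have hc1 : C * (lq F * c) ≤ 1 / 64 := by
    have h1 := hc.trans (min_le_right _ _)
    rw [le_div_iff₀ (by positivity)] at h1
    linarith
  have hc2 : C * c ≤ 1 / 64 := by nlinarith [mul_pos (zero_lt_one.trans_le hC) hc0]
  have he : 0 < η * c := by positivity
  have he1 : 33 * (η * c) ≤ C * c := by nlinarith
  have he2 : 160 * (η * c) ≤ κ * c := by nlinarith
  obtain ⟨τ, t0, t3, t1, t2, hτ⟩ : ∃ τ : ℂ, 1 ≤ ‖τ‖ ∧ ‖τ‖ ≤ 3 ∧ 1 ≤ ‖1 + τ‖ ∧ 1 ≤ ‖1 - τ‖ ∧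
      β ≠ τ * α := by
    by_cases h2 : β = 2 * α
    · refine ⟨3, by norm_num, by norm_num, by norm_num, by norm_num, fun h3 => ha ?_⟩
      linear_combination h2 - h3
    · exact ⟨2, by norm_num, by norm_num, by norm_num, by norm_num, h2⟩
  have n0 : ∀ {x : ℂ}, 1 ≤ ‖x‖ → x ≠ 0 := fun hx => norm_pos_iff.1 (zero_lt_one.trans_le hx)
  obtain ⟨ρ, hρ, hρ1, hρ2⟩ := mp_radius ![-α, -β / τ, -(α + β) / (1 + τ), -(α - β) / (1 - τ)] he
  have s1 : ∀ ζ : ℂ, ‖ζ‖ ≤ 11 * (η * c) → ‖α + 1 * ζ‖ ≤ 2 * C * c ∧ ‖β + τ * ζ‖ ≤ 2 * C * c := by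
    intro ζ hζ
    have h1 := norm_add_le α (1 * ζ)
    have h2 := norm_add_le β (τ * ζ)
    have h3 := mul_le_mul t3 hζ (norm_nonneg _) zero_le_three
    rw [norm_mul] at h1 h2
    rw [norm_one] at h1
    exact ⟨by linarith [hs.h1], by linarith [hs.h2]⟩
  have s2 : ∀ {x : ℂ}, ‖x‖ ≤ 2 * C * c → lq F * ‖x‖ ≤ 1 / 2 := fun hx => by
    linarith [mul_le_mul_of_nonneg_left hx (zero_le_one.trans hq)]
  have s3 : ∀ {t u z : ℂ}, 1 ≤ ‖t‖ → η * c ≤ ‖z - -u / t‖ → η * c ≤ ‖u + t * z‖ := by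
    intro t u z ht hz
    have h1 := n0 ht
    rw [show u + t * z = t * (z - -u / t) by field_simp; ring, norm_mul]
    exact hz.trans (le_mul_of_one_le_left (norm_nonneg _) ht)
  have h0 : WW F α β ≠ 0 := WW_ne hF (s2 (by linarith [hs.h1, mul_pos hc0 hc0])) (s2 (by
    linarith [hs.h2])) ha hb hab hab'
  have key := mp (ρ := ρ) (R := 11 * (η * c)) (M := K * qp F
      ((-(κ / 2 * c) + 2 * max 0 (-α.re) + 2 * max 0 (-β.re)) * g)) hρ (by linarith)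
    (num_diff hF g (α := α) (β := β) (a := 1) (b := τ) (γ := γ) (δ := δ)
      (by rw [norm_one]; linarith [hs.h1])
      (by linarith [hs.h2, mul_le_mul_of_nonneg_right t3 (by positivity : 0 ≤ 11 * (η * c))])
      (by linarith [hs.h3]) (by linarith [hs.h4]))
    (P := fun ζ => WW F (α + 1 * ζ) (β + τ * ζ)) (by
      have h6 := xv_diff (F := F)
      unfold WW
      fun_prop) (fun ζ hζ hW => by
      obtain ⟨b1, b2⟩ := s1 ζ (mem_ball_zero_iff.1 hζ).le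
      obtain ⟨w1, w2⟩ := WW_zero hF (s2 b1) (s2 b2) (fun h3 => hτ (by
        linear_combination h3.2 - τ * h3.1)) (n0 t0) (n0 t1) (n0 t2) hW g γ δ
      refine ⟨by simp only [hW, w1, zero_mul, sub_zero], ?_⟩
      rw [WW_deriv]
      exact mul_ne_zero (Complex.ofReal_ne_zero.2 (by positivity)) w2)
    (by simpa only [mul_zero, add_zero] using h0) fun ζ hζ => by
      obtain ⟨b1, b2⟩ := s1 ζ (by linarith)
      have hf : Far (η * c) (α + 1 * ζ) (β + τ * ζ) :=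
        ⟨s3 norm_one.ge (by rw [div_one]; exact hρ2 0 ζ hζ), s3 t0 (hρ2 1 ζ hζ),
          (s3 t1 (hρ2 2 ζ hζ)).trans_eq (by congr 1; ring),
          (s3 t2 (hρ2 3 ζ hζ)).trans_eq (by congr 1; ring)⟩
      have hW := WW_ne hF (s2 b1) (s2 b2) (norm_pos_iff.1 (he.trans_le hf.h1))
        (norm_pos_iff.1 (he.trans_le hf.h2)) (norm_pos_iff.1 (he.trans_le hf.h3))
        (norm_pos_iff.1 (he.trans_le hf.h4))
      refine ⟨hW, ?_⟩
      rw [pred_eq hW]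
      refine (h g c _ _ γ δ hg ⟨hc0, b1, b2, by linarith [hs.h3], by linarith [hs.h4], hs.r3, hs.r4⟩
        (hc.trans (min_le_left _ _)) hf).trans (mul_le_mul_of_nonneg_left (qp_mono
          (mul_le_mul_of_nonneg_right ?_ (Nat.cast_nonneg g))) hK)
      have m : ∀ (u z : ℂ), max 0 (-(u + z).re) ≤ max 0 (-u.re) + ‖z‖ := fun u z =>
        max_le (by positivity) (by
          rw [Complex.add_re]; linarith [neg_re_le z, le_max_right 0 (-u.re)])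
      have m1 := m α (1 * ζ)
      have m2 := m β (τ * ζ)
      rw [norm_mul, hζ] at m1 m2
      rw [norm_one] at m1
      linarith [mul_le_mul_of_nonneg_right t3 hρ.le]
  simp only [mul_zero, add_zero] at key
  rwa [pred_eq h0] at key

end Pool.Agent.MP_dd7250_nt.LS
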